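import Pool.Agent.Liou.Defs

/-!
# Developing pairs

`e^{-u} = (|a|² + |b|²)/2` with `a`, `b` entire and `a b' - a' b = 1`. The map
`z ↦ [a z : b z]` is the developing map into the Riemann sphere.
-/

set_option autoImplicit false

open Complex ComplexConjugate

namespace Pool.Agent.Liou

/-- two entire functions with Wronskian one -/
structure Pair where
  a : ℂ → ℂ
  b : ℂ → ℂ
  da : Differentiable ℂ a
  db : Differentiable ℂ b
  wr : ∀ z, a z * deriv b z - deriv a z * b z = 1

namespace Pair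

variable (P : Pair)

/-- `|a|² + |b|²`, that is `2 e^{-u}` -/
noncomputable def N (z : ℂ) : ℝ := ‖P.a z‖ ^ 2 + ‖P.b z‖ ^ 2

theorem ab_ne (z : ℂ) : P.a z ≠ 0 ∨ P.b z ≠ 0 := by
  by_contra h
  push Not at h
  have := P.wr z
  rw [h.1, h.2] at this
  simp at this

theorem N_pos (z : ℂ) : 0 < P.N z := by
  unfold N
  rcases P.ab_ne z with h | h
  · have : 0 < ‖P.a z‖ := norm_pos_iff.2 h
    positivity
  · have : 0 < ‖P.b z‖ := norm_pos_iff.2 h
    positivity

/-- the length of a piece of a curve in the metric `4 |dz|² / N²` -/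
noncomputable def len (γ : ℝ → ℂ) (s t : ℝ) : ℝ := ∫ τ in s..t, 2 * ‖deriv γ τ‖ / P.N (γ τ)

/-- all distances are at most `π` -/
def Small : Prop := ∀ x y : ℂ, ∀ ε > 0, ∃ γ : ℝ → ℂ, IsCurve γ x y ∧ P.len γ 0 1 < Real.pi + ε

/-- first coordinate of the vector `(p, q)` in the unitary frame at `x` -/
noncomputable def Aco (x p q : ℂ) : ℂ := (conj (P.a x) * p + conj (P.b x) * q) / (Real.sqrt (P.N x) : ℂ)

/-- second coordinate of the vector `(p, q)` in the unitary frame at `x` -/
noncomputable def Bco (x p q : ℂ) : ℂ := (P.a x * q - P.b x * p) / (Real.sqrt (P.N x) : ℂ)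

/-- `a` in the unitary frame at `x` -/
noncomputable def A (x z : ℂ) : ℂ := P.Aco x (P.a z) (P.b z)

/-- `b` in the unitary frame at `x` -/
noncomputable def B (x z : ℂ) : ℂ := P.Bco x (P.a z) (P.b z)

/-- horizontal coordinate on the unit sphere of the developing map, in the frame at `x` -/
noncomputable def Y (x z : ℂ) : ℂ := 2 * P.B x z * conj (P.A x z) / (P.N z : ℂ)

/-- vertical coordinate on the unit sphere of the developing map, in the frame at `x` -/
noncomputable def Z (x z : ℂ) : ℝ := (‖P.A x z‖ ^ 2 - ‖P.B x z‖ ^ 2) / P.N z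

/-- the point `w` of the tangent plane (stereographic projection centred at `x`) is reached from
`x`: there is a section of the developing map over a convex open set which contains `0` and `w` -/
def Reach (x w : ℂ) : Prop :=
  ∃ (U : Set ℂ) (ψ : ℂ → ℂ), IsOpen U ∧ Convex ℝ U ∧ (0 : ℂ) ∈ U ∧ w ∈ U ∧ ContinuousOn ψ U ∧
    ψ 0 = x ∧ ∀ ζ ∈ U, P.B x (ψ ζ) = ζ * P.A x (ψ ζ)

/-- the star of `x` -/
def S (x : ℂ) : Set ℂ := {w | P.Reach x w}

open Classical in
/-- the section over the star of `x` -/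
noncomputable def sec (x w : ℂ) : ℂ :=
  if h : P.Reach x w then (Classical.choose (Classical.choose_spec h)) w else 0

/-- the direction of the vector `(p, q)` is singular at `x` -/
def Sing (x p q : ℂ) : Prop :=
  P.Aco x p q ≠ 0 ∧ P.Bco x p q / P.Aco x p q ∉ P.S x ∧
    ∀ t ∈ Set.Ico (0 : ℝ) 1, (t : ℂ) * (P.Bco x p q / P.Aco x p q) ∈ P.S x

/-! ### basic identities -/

theorem sqrtN_pos (x : ℂ) : 0 < Real.sqrt (P.N x) := Real.sqrt_pos.2 (P.N_pos x)

theorem sqrtN_ne (x : ℂ) : (Real.sqrt (P.N x) : ℂ) ≠ 0 := by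
  exact_mod_cast (P.sqrtN_pos x).ne'

theorem sqrtN_mul (x : ℂ) : (Real.sqrt (P.N x) : ℂ) * (Real.sqrt (P.N x) : ℂ) =
    conj (P.a x) * P.a x + conj (P.b x) * P.b x := by
  rw [← Complex.ofReal_mul, Real.mul_self_sqrt (P.N_pos x).le]
  unfold N
  push_cast
  rw [← Complex.conj_mul', ← Complex.conj_mul']

theorem Aco_sq_add (x p q : ℂ) : ‖P.Aco x p q‖ ^ 2 + ‖P.Bco x p q‖ ^ 2 = ‖p‖ ^ 2 + ‖q‖ ^ 2 := by
  have h := P.sqrtN_mul x
  have h0 := P.sqrtN_ne x
  have key : conj (P.Aco x p q) * P.Aco x p q + conj (P.Bco x p q) * P.Bco x p q =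
      conj p * p + conj q * q := by
    unfold Aco Bco
    rw [map_div₀, map_div₀, Complex.conj_ofReal, map_add, map_sub, map_mul, map_mul, map_mul,
      map_mul, Complex.conj_conj, Complex.conj_conj, div_mul_div_comm, div_mul_div_comm, ← add_div,
      div_eq_iff (mul_ne_zero h0 h0), h]
    ring
  rw [Complex.conj_mul', Complex.conj_mul', Complex.conj_mul', Complex.conj_mul'] at key
  exact_mod_cast key

theorem AB_sq (x z : ℂ) : ‖P.A x z‖ ^ 2 + ‖P.B x z‖ ^ 2 = P.N z := P.Aco_sq_add x _ _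

theorem B_self (x : ℂ) : P.B x x = 0 := by
  unfold B Bco
  rw [mul_comm (P.b x), sub_self, zero_div]

theorem A_self (x : ℂ) : P.A x x = (Real.sqrt (P.N x) : ℂ) := by
  unfold A Aco
  rw [← P.sqrtN_mul x, mul_div_assoc, div_self (P.sqrtN_ne x), mul_one]

theorem diff_A (x : ℂ) : Differentiable ℂ (P.A x) := by
  unfold A Aco
  exact ((P.da.const_mul _).add (P.db.const_mul _)).div_const _

theorem diff_B (x : ℂ) : Differentiable ℂ (P.B x) := by
  unfold B Bco
  exact ((P.db.const_mul _).sub (P.da.const_mul _)).div_const _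

theorem deriv_A (x z : ℂ) : deriv (P.A x) z =
    (conj (P.a x) * deriv P.a z + conj (P.b x) * deriv P.b z) / (Real.sqrt (P.N x) : ℂ) := by
  have h1 : HasDerivAt (P.A x)
      ((conj (P.a x) * deriv P.a z + conj (P.b x) * deriv P.b z) / (Real.sqrt (P.N x) : ℂ)) z :=
    (((P.da z).hasDerivAt.const_mul _).add ((P.db z).hasDerivAt.const_mul _)).div_const _
  exact h1.deriv

theorem deriv_B (x z : ℂ) : deriv (P.B x) z =
    (P.a x * deriv P.b z - P.b x * deriv P.a z) / (Real.sqrt (P.N x) : ℂ) := by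
  have h1 : HasDerivAt (P.B x)
      ((P.a x * deriv P.b z - P.b x * deriv P.a z) / (Real.sqrt (P.N x) : ℂ)) z :=
    (((P.db z).hasDerivAt.const_mul _).sub ((P.da z).hasDerivAt.const_mul _)).div_const _
  exact h1.deriv

/-- the Wronskian in the frame at `x` -/
theorem wrAB (x z : ℂ) : P.A x z * deriv (P.B x) z - deriv (P.A x) z * P.B x z = 1 := by
  rw [deriv_A, deriv_B]
  unfold A B Aco Bco
  have h := P.sqrtN_mul x
  have h0 := P.sqrtN_ne x
  rw [div_mul_div_comm, div_mul_div_comm, ← sub_div, div_eq_iff (mul_ne_zero h0 h0), h]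
  linear_combination (conj (P.a x) * P.a x + conj (P.b x) * P.b x) * P.wr z

/-- where `B = w A`, the coordinate `A` does not vanish -/
theorem A_ne_of_eq {x z w : ℂ} (h : P.B x z = w * P.A x z) : P.A x z ≠ 0 := by
  intro h0
  have := P.wrAB x z
  rw [h, h0] at this
  simp at this

theorem Y_Z_sq (x z : ℂ) : ‖P.Y x z‖ ^ 2 + P.Z x z ^ 2 = 1 := by
  have hN := P.AB_sq x z
  have hp := P.N_pos z
  unfold Y Z
  rw [norm_div, norm_mul, norm_mul, Complex.norm_conj, Complex.norm_real, Real.norm_eq_abs,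
    abs_of_pos hp]
  simp only [RCLike.norm_ofNat]
  rw [div_pow, div_pow, ← add_div, div_eq_one_iff_eq (by positivity), ← hN]
  ring

/-! ### change of frame -/

/-- the frame at the point over `w'`; `κ` is a unit number -/
theorem frame_change {x x' w' : ℂ} (h : P.B x x' = w' * P.A x x') (p q : ℂ) :
    P.Aco x' p q = conj (P.A x x') * (P.Aco x p q + conj w' * P.Bco x p q) /
      ((‖P.A x x'‖ * Real.sqrt (1 + ‖w'‖ ^ 2) : ℝ) : ℂ) ∧
    P.Bco x' p q = P.A x x' * (P.Bco x p q - w' * P.Aco x p q) /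
      ((‖P.A x x'‖ * Real.sqrt (1 + ‖w'‖ ^ 2) : ℝ) : ℂ) := by
  have hN : P.N x' = (‖P.A x x'‖ ^ 2) * (1 + ‖w'‖ ^ 2) := by
    rw [← P.AB_sq x x', h, norm_mul]; ring
  have hs : Real.sqrt (P.N x') = ‖P.A x x'‖ * Real.sqrt (1 + ‖w'‖ ^ 2) := by
    rw [hN, Real.sqrt_mul (by positivity), Real.sqrt_sq (norm_nonneg _)]
  have h0 := P.sqrtN_ne x
  have hm := P.sqrtN_mul x
  have h1 : conj (P.A x x') * (P.Aco x p q + conj w' * P.Bco x p q) =
      conj (P.a x') * p + conj (P.b x') * q := by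
    have e1 : conj (P.A x x') * conj w' = conj (P.B x x') := by
      rw [h, map_mul]; ring
    have : conj (P.A x x') * (P.Aco x p q + conj w' * P.Bco x p q) =
        conj (P.A x x') * P.Aco x p q + conj (P.B x x') * P.Bco x p q := by
      rw [← e1]; ring
    rw [this]
    unfold A B Aco Bco
    rw [map_div₀, map_div₀, Complex.conj_ofReal, map_add, map_sub, map_mul, map_mul, map_mul,
      map_mul, Complex.conj_conj, Complex.conj_conj, div_mul_div_comm, div_mul_div_comm, ← add_div,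
      div_eq_iff (mul_ne_zero h0 h0), hm]
    ring
  have h2 : P.A x x' * (P.Bco x p q - w' * P.Aco x p q) = P.a x' * q - P.b x' * p := by
    have : P.A x x' * (P.Bco x p q - w' * P.Aco x p q) =
        P.A x x' * P.Bco x p q - P.B x x' * P.Aco x p q := by
      rw [h]; ring
    rw [this]
    unfold A B Aco Bco
    rw [div_mul_div_comm, div_mul_div_comm, ← sub_div, div_eq_iff (mul_ne_zero h0 h0), hm]
    ring
  constructor
  · rw [h1, ← hs]; rfl
  · rw [h2, ← hs]; rfl

end Pair

end Pool.Agent.Liou
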