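import Pool.Agent.Liou.Targets

/-!
# The singular points do not depend on the base point
-/

set_option autoImplicit false

open Complex ComplexConjugate Set Filter Topology

namespace Pool.Agent.Liou

namespace CONST_

variable (P : Pair)

/-- the frame has determinant one -/
theorem det_frame (x p q p' q' : ℂ) :
    P.Aco x p q * P.Bco x p' q' - P.Bco x p q * P.Aco x p' q' = p * q' - q * p' := by
  have h := P.sqrtN_mul x
  have h0 := P.sqrtN_ne x
  unfold Pair.Aco Pair.Bco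
  rw [div_mul_div_comm, div_mul_div_comm, ← sub_div, div_eq_iff (mul_ne_zero h0 h0), h]
  ring

theorem ratio_eq {x p q p' q' : ℂ} (h1 : P.Aco x p q ≠ 0) (h2 : P.Aco x p' q' ≠ 0) :
    P.Bco x p q / P.Aco x p q = P.Bco x p' q' / P.Aco x p' q' ↔ p * q' = q * p' := by
  rw [div_eq_div_iff h1 h2]
  have h := det_frame P x p q p' q'
  constructor
  · intro h3
    have : p * q' - q * p' = 0 := by rw [← h, h3]; ring
    exact sub_eq_zero.1 this
  · intro h3
    have h4 : P.Aco x p q * P.Bco x p' q' - P.Bco x p q * P.Aco x p' q' = 0 := by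
      rw [h, h3, sub_self]
    linear_combination -h4

theorem ne_zero_of_sing {x p q : ℂ} (h : P.Sing x p q) : ¬ (p = 0 ∧ q = 0) := by
  rintro ⟨rfl, rfl⟩
  apply h.1
  unfold Pair.Aco
  simp

theorem sing_of_prop {x p q p' q' : ℂ} (h : P.Sing x p q) (hne : ¬ (p' = 0 ∧ q' = 0))
    (heq : p * q' = q * p') : P.Sing x p' q' := by
  have hA : P.Aco x p q ≠ 0 := h.1
  have hd := det_frame P x p q p' q'
  rw [heq, sub_self] at hd
  have hA' : P.Aco x p' q' ≠ 0 := by
    intro h0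
    rw [h0, mul_zero, sub_zero] at hd
    have hB : P.Bco x p' q' = 0 := by
      rcases mul_eq_zero.1 hd with h1 | h1
      · exact absurd h1 hA
      · exact h1
    have hs := P.Aco_sq_add x p' q'
    rw [h0, hB] at hs
    simp only [norm_zero] at hs
    apply hne
    have h1 : ‖p'‖ ^ 2 = 0 := by nlinarith [sq_nonneg ‖p'‖, sq_nonneg ‖q'‖]
    have h2 : ‖q'‖ ^ 2 = 0 := by nlinarith [sq_nonneg ‖p'‖, sq_nonneg ‖q'‖]
    exact ⟨by simpa using h1, by simpa using h2⟩
  have hr := (ratio_eq P hA hA').2 heq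
  refine ⟨hA', ?_, ?_⟩
  · rw [← hr]; exact h.2.1
  · rw [← hr]; exact h.2.2

/-- two singular points in the same direction are equal -/
theorem same_dir {x p q p' q' : ℂ} (h : P.Sing x p q) (h' : P.Sing x p' q') {l : ℝ} (hl : 0 < l)
    (heq : P.Bco x p q / P.Aco x p q = (l : ℂ) * (P.Bco x p' q' / P.Aco x p' q')) :
    p * q' = q * p' := by
  rcases lt_trichotomy l 1 with h1 | h1 | h1
  · exfalso
    apply h.2.1
    rw [heq]
    exact h'.2.2 l ⟨hl.le, h1⟩
  · rw [h1] at heq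
    push_cast at heq
    rw [one_mul] at heq
    exact (ratio_eq P h.1 h'.1).1 heq
  · exfalso
    apply h'.2.1
    have h2 : P.Bco x p' q' / P.Aco x p' q' = ((l⁻¹ : ℝ) : ℂ) * (P.Bco x p q / P.Aco x p q) := by
      rw [heq, ← mul_assoc, ← Complex.ofReal_mul, inv_mul_cancel₀ hl.ne', Complex.ofReal_one,
        one_mul]
    rw [h2]
    exact h.2.2 l⁻¹ ⟨by positivity, inv_lt_one_of_one_lt₀ h1⟩

/-- at most two singular classes at a point -/
theorem at_most_two (hSEC : T_SEC) (hTRI : T_TRI) (hP : P.Small) {x p q p₁ q₁ p₂ q₂ : ℂ}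
    (h : P.Sing x p q) (h1 : P.Sing x p₁ q₁) (h2 : P.Sing x p₂ q₂) (hne : p₁ * q₂ ≠ q₁ * p₂) :
    p * q₁ = q * p₁ ∨ p * q₂ = q * p₂ := by
  obtain ⟨α, hα, hline⟩ := hTRI P x hP
  obtain ⟨t, ht⟩ := hline _ h.2.1
  obtain ⟨t₁, ht₁⟩ := hline _ h1.2.1
  obtain ⟨t₂, ht₂⟩ := hline _ h2.2.1
  have h0 := (hSEC P x).zero_mem
  have nz : ∀ {p q : ℂ} {t : ℝ}, P.Sing x p q → P.Bco x p q / P.Aco x p q = (t : ℂ) * α → t ≠ 0 := by
    intro p q t hs he hz
    apply hs.2.1
    rw [he, hz]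
    simpa using h0
  have htn := nz h ht
  have ht₁n := nz h1 ht₁
  have ht₂n := nz h2 ht₂
  have key : ∀ {p q p' q' : ℂ} {t t' : ℝ}, P.Sing x p q → P.Sing x p' q' →
      P.Bco x p q / P.Aco x p q = (t : ℂ) * α → P.Bco x p' q' / P.Aco x p' q' = (t' : ℂ) * α →
      0 < t / t' → p * q' = q * p' := by
    intro p q p' q' t t' hs hs' he he' hpos
    have ht' : t' ≠ 0 := nz hs' he'
    refine same_dir P hs hs' hpos ?_
    rw [he, he']
    have : (t' : ℂ) ≠ 0 := by exact_mod_cast ht'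
    push_cast
    field_simp
  by_cases a1 : 0 < t / t₁
  · exact Or.inl (key h h1 ht ht₁ a1)
  by_cases a2 : 0 < t / t₂
  · exact Or.inr (key h h2 ht ht₂ a2)
  exfalso
  apply hne
  refine key h1 h2 ht₁ ht₂ ?_
  have b1 : t / t₁ < 0 := lt_of_le_of_ne (not_lt.1 a1) (div_ne_zero htn ht₁n)
  have b2 : t / t₂ < 0 := lt_of_le_of_ne (not_lt.1 a2) (div_ne_zero htn ht₂n)
  have b3 : t₁ / t₂ = (t / t₂) / (t / t₁) := by field_simp
  rw [b3]
  exact div_pos_of_neg_of_neg b2 b1

end CONST_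

open CONST_ in
theorem p_CONST (h1 : T_SEC) (h2 : T_TRI) (h3 : T_NEAR) (h4 : T_TWO) : T_CONST := by
  intro P hP hall
  obtain ⟨p, q, p', q', hs, hs', hne⟩ := hall 0
  refine ⟨p, q, p', q', hne, h4 P 0 p q p' q' hP hs hs' hne, ?_⟩
  have hU : {x | P.Sing x p q ∧ P.Sing x p' q'} = univ := by
    refine IsClopen.eq_univ ⟨?_, ?_⟩ ⟨0, hs, hs'⟩
    · rw [← isOpen_compl_iff, isOpen_iff_mem_nhds]
      intro y hy
      obtain ⟨p₁, q₁, p₂, q₂, g1, g2, g3⟩ := hall y
      have e1 := h3 P y p₁ q₁ hP g1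
      have e2 := h3 P y p₂ q₂ hP g2
      filter_upwards [e1, e2] with x hx1 hx2 hx
      apply hy
      have k : ∀ {p q : ℂ}, P.Sing x p q → P.Sing y p q := by
        intro p q hpq
        rcases at_most_two P h1 h2 hP hpq hx1 hx2 g3 with h | h
        · exact sing_of_prop P g1 (ne_zero_of_sing P hpq) (by linear_combination -h)
        · exact sing_of_prop P g2 (ne_zero_of_sing P hpq) (by linear_combination -h)
      exact ⟨k hx.1, k hx.2⟩
    · rw [isOpen_iff_mem_nhds]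
      intro x hx
      filter_upwards [h3 P x p q hP hx.1, h3 P x p' q' hP hx.2] with z hz hz'
      exact ⟨hz, hz'⟩
  intro x
  have : x ∈ {x | P.Sing x p q ∧ P.Sing x p' q'} := by rw [hU]; trivial
  exact this

end Pool.Agent.Liou
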