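import Pool.Agent.Liou.Targets

/-! The developing pair of a solution of the Liouville equation (job LIOU-DEV). -/

set_option autoImplicit false

open Complex ComplexConjugate Set Filter Topology

namespace Pool.Agent.Liou.DEV_

/-- the real linear map `h ↦ p h + q conj h` -/
noncomputable def L (p q : ℂ) : ℂ →L[ℝ] ℂ :=
  p • (ContinuousLinearMap.id ℝ ℂ) + q • ((conjCLE : ℂ ≃L[ℝ] ℂ) : ℂ →L[ℝ] ℂ)

theorem L_apply (p q h : ℂ) : L p q h = p * h + q * conj h := by
  simp [L]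

/-- `F` is real differentiable at `z` with `∂F = p`, `∂̄F = q` -/
def W (F : ℂ → ℂ) (p q z : ℂ) : Prop := HasFDerivAt (𝕜 := ℝ) F (L p q) z

theorem L_eq (M : ℂ →L[ℝ] ℂ) : M = L ((M 1 - I * M I) / 2) ((M 1 + I * M I) / 2) := by
  ext h
  rw [L_apply]
  have hd : h = (h.re : ℝ) • (1 : ℂ) + (h.im : ℝ) • I := by
    simp [Complex.re_add_im]
  have hM : M h = (h.re : ℂ) * M 1 + (h.im : ℂ) * M I := by
    conv_lhs => rw [hd]
    rw [map_add, map_smul, map_smul, Complex.real_smul, Complex.real_smul]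
  rw [hM]
  have h1 : h = (h.re : ℂ) + (h.im : ℂ) * I := (Complex.re_add_im h).symm
  have h2 : conj h = (h.re : ℂ) - (h.im : ℂ) * I := by
    apply Complex.ext <;> simp
  rw [h2]
  nth_rewrite 3 [h1]
  linear_combination ((h.im : ℂ) * M I) * I_sq

theorem W.wz {F : ℂ → ℂ} {p q z : ℂ} (h : W F p q z) : wz F z = p := by
  unfold Liou.wz
  rw [HasFDerivAt.fderiv h, L_apply, L_apply]
  simp only [map_one, conj_I, mul_one]
  linear_combination (-p / 2 + q / 2) * I_sq

theorem W.unique {F : ℂ → ℂ} {p q p' q' z : ℂ} (h : W F p q z) (h' : W F p' q' z) :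
    p = p' ∧ q = q' := by
  have e : L p q = L p' q' := HasFDerivAt.unique h h'
  have e1 : L p q 1 = L p' q' 1 := by rw [e]
  have e2 : L p q I = L p' q' I := by rw [e]
  rw [L_apply, L_apply] at e1 e2
  simp only [map_one, conj_I, mul_one] at e1 e2
  constructor
  · linear_combination e1 / 2 - I * e2 / 2 + (p / 2 - q / 2 - p' / 2 + q' / 2) * I_sq
  · linear_combination e1 / 2 + I * e2 / 2 - (p / 2 - q / 2 - p' / 2 + q' / 2) * I_sq

theorem W.congr {F : ℂ → ℂ} {p q p' q' z : ℂ} (h : W F p q z) (hp : p = p') (hq : q = q') :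
    W F p' q' z := by
  rw [← hp, ← hq]; exact h

theorem W.add {F G : ℂ → ℂ} {p q p' q' z : ℂ} (h : W F p q z) (h' : W G p' q' z) :
    W (fun z => F z + G z) (p + p') (q + q') z := by
  have := HasFDerivAt.add h h'
  refine HasFDerivAt.congr_fderiv this ?_
  ext h
  simp only [add_apply, L_apply]
  ring

theorem W.neg {F : ℂ → ℂ} {p q z : ℂ} (h : W F p q z) :
    W (fun z => - F z) (-p) (-q) z := by
  have := HasFDerivAt.neg h
  refine HasFDerivAt.congr_fderiv this ?_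
  ext h
  simp only [neg_apply, L_apply]
  ring

theorem W.sub {F G : ℂ → ℂ} {p q p' q' z : ℂ} (h : W F p q z) (h' : W G p' q' z) :
    W (fun z => F z - G z) (p - p') (q - q') z := by
  have := HasFDerivAt.sub h h'
  refine HasFDerivAt.congr_fderiv this ?_
  ext h
  simp only [sub_apply, L_apply]
  ring

theorem W.mul {F G : ℂ → ℂ} {p q p' q' z : ℂ} (h : W F p q z) (h' : W G p' q' z) :
    W (fun z => F z * G z) (p * G z + F z * p') (q * G z + F z * q') z := by
  have := HasFDerivAt.mul h h'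
  refine HasFDerivAt.congr_fderiv this ?_
  ext h
  simp only [add_apply, smul_apply, L_apply, smul_eq_mul]
  ring

theorem W.cexp {F : ℂ → ℂ} {p q z : ℂ} (h : W F p q z) :
    W (fun z => cexp (F z)) (cexp (F z) * p) (cexp (F z) * q) z := by
  have := HasFDerivAt.cexp h
  refine HasFDerivAt.congr_fderiv this ?_
  ext h
  simp only [smul_apply, L_apply, smul_eq_mul]
  ring

theorem W.star {F : ℂ → ℂ} {p q z : ℂ} (h : W F p q z) :
    W (fun z => conj (F z)) (conj q) (conj p) z := by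
  have h1 : HasFDerivAt (𝕜 := ℝ) (fun w => ((conjCLE : ℂ ≃L[ℝ] ℂ) : ℂ →L[ℝ] ℂ) (F w))
      (((conjCLE : ℂ ≃L[ℝ] ℂ) : ℂ →L[ℝ] ℂ).comp (L p q)) z :=
    HasFDerivAt.comp z (ContinuousLinearMap.hasFDerivAt _) h
  have h2 : (fun w => ((conjCLE : ℂ ≃L[ℝ] ℂ) : ℂ →L[ℝ] ℂ) (F w)) = fun w => conj (F w) := by
    funext w; simp
  rw [h2] at h1
  refine HasFDerivAt.congr_fderiv h1 ?_
  ext h
  simp only [ContinuousLinearMap.comp_apply, L_apply]
  simp
  ring

theorem W.const (c z : ℂ) : W (fun _ => c) 0 0 z := by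
  refine HasFDerivAt.congr_fderiv (hasFDerivAt_const c z) ?_
  ext h
  simp [L_apply]

theorem W.of_deriv {F : ℂ → ℂ} {p z : ℂ} (h : HasDerivAt F p z) : W F p 0 z := by
  have h1 := h.hasFDerivAt.restrictScalars ℝ
  refine HasFDerivAt.congr_fderiv h1 ?_
  ext h
  rw [L_apply]
  simp [mul_comm]

theorem W.to_deriv {F : ℂ → ℂ} {p z : ℂ} (h : W F p 0 z) : HasDerivAt F p z := by
  rw [hasDerivAt_iff_hasFDerivAt]
  refine hasFDerivAt_of_restrictScalars ℝ h ?_
  ext h
  simp [L_apply, mul_comm]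


/-! ### the functions of a solution -/

theorem wU0 {u : ℂ → ℝ} (hu : ContDiff ℝ 2 u) (z : ℂ) :
    W (fun ζ => (u ζ : ℂ)) ((((fderiv ℝ u z 1 : ℝ) : ℂ) - I * ((fderiv ℝ u z I : ℝ) : ℂ)) / 2)
      ((((fderiv ℝ u z 1 : ℝ) : ℂ) + I * ((fderiv ℝ u z I : ℝ) : ℂ)) / 2) z := by
  have h0 : HasFDerivAt u (fderiv ℝ u z) z := (hu.differentiable (by norm_num) z).hasFDerivAt
  have h1 : HasFDerivAt (fun ζ => (u ζ : ℂ)) (ofRealCLM.comp (fderiv ℝ u z)) z :=
    ofRealCLM.hasFDerivAt.comp z h0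
  rw [L_eq (ofRealCLM.comp (fderiv ℝ u z))] at h1
  exact h1

theorem g_eq {u : ℂ → ℝ} (hu : ContDiff ℝ 2 u) (z : ℂ) :
    wz (fun ζ => (u ζ : ℂ)) z =
      (((fderiv ℝ u z 1 : ℝ) : ℂ) - I * ((fderiv ℝ u z I : ℝ) : ℂ)) / 2 := (wU0 hu z).wz

theorem wU {u : ℂ → ℝ} (hu : ContDiff ℝ 2 u) (z : ℂ) :
    W (fun ζ => (u ζ : ℂ)) (wz (fun ζ => (u ζ : ℂ)) z) (conj (wz (fun ζ => (u ζ : ℂ)) z)) z := by
  refine (wU0 hu z).congr (g_eq hu z).symm ?_
  rw [g_eq hu z, map_div₀, map_sub, map_mul, conj_ofReal, conj_ofReal, conj_I, map_ofNat]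
  ring

theorem wg {u : ℂ → ℝ} (h : IsSol u) (z : ℂ) :
    W (wz fun ζ => (u ζ : ℂ)) (wz (wz fun ζ => (u ζ : ℂ)) z)
      (-(Real.exp (2 * u z) : ℂ) / 4) z := by
  have hu := h.smooth
  have hD : Differentiable ℝ (fderiv ℝ u) :=
    (hu.fderiv_right (m := 1) (by norm_num)).differentiable (by norm_num)
  have hf : (wz fun ζ => (u ζ : ℂ)) = fun z =>
      (((fderiv ℝ u z 1 : ℝ) : ℂ) - I * ((fderiv ℝ u z I : ℝ) : ℂ)) * (1 / 2) := by
    funext w; rw [g_eq hu]; ring
  have hc : ∀ c : ℂ, HasFDerivAt (fun z => ((fderiv ℝ u z c : ℝ) : ℂ))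
      (ofRealCLM.comp ((fderiv ℝ (fderiv ℝ u) z).flip c)) z := by
    intro c
    have h1 : HasFDerivAt (fun z => fderiv ℝ u z c) ((fderiv ℝ (fderiv ℝ u) z).flip c) z := by
      have := (hD z).hasFDerivAt.clm_apply (hasFDerivAt_const c z)
      refine this.congr_fderiv ?_
      ext h
      simp
    exact ofRealCLM.hasFDerivAt.comp z h1
  have w1 := hc 1
  have w2 := hc I
  rw [L_eq (ofRealCLM.comp ((fderiv ℝ (fderiv ℝ u) z).flip 1))] at w1
  rw [L_eq (ofRealCLM.comp ((fderiv ℝ (fderiv ℝ u) z).flip I))] at w2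
  have w3 := (W.sub w1 ((W.const I z).mul w2)).mul (W.const (1 / 2) z)
  rw [hf]
  refine w3.congr w3.wz.symm ?_
  have hs : fderiv ℝ (fderiv ℝ u) z 1 I = fderiv ℝ (fderiv ℝ u) z I 1 :=
    (hu.contDiffAt.isSymmSndFDerivAt (by simp)) 1 I
  have hl := h.eq z
  rw [show Laplacian.laplacian u z = fderiv ℝ (fderiv ℝ u) z 1 1 + fderiv ℝ (fderiv ℝ u) z I I by
    rw [InnerProductSpace.laplacian_eq_iteratedFDeriv_complexPlane]
    simp [iteratedFDeriv_two_apply]] at hl
  have hl' : ((fderiv ℝ (fderiv ℝ u) z 1 1 : ℝ) : ℂ) + ((fderiv ℝ (fderiv ℝ u) z I I : ℝ) : ℂ) +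
      (Real.exp (2 * u z) : ℂ) = 0 := by exact_mod_cast hl
  simp only [ContinuousLinearMap.comp_apply, ContinuousLinearMap.flip_apply, ofRealCLM_apply, hs]
  linear_combination hl' / 4 - (((fderiv ℝ (fderiv ℝ u) z I I : ℝ) : ℂ) / 4) * I_sq

section

variable {T y₁ y₂ : ℂ → ℂ}

theorem combo (d1 : Differentiable ℂ y₁) (d2 : Differentiable ℂ y₂)
    (e1 : ∀ z, deriv (deriv y₁) z = -T z * y₁ z) (e2 : ∀ z, deriv (deriv y₂) z = -T z * y₂ z)
    (i1 : y₁ 0 = 1) (i1' : deriv y₁ 0 = 0) (i2 : y₂ 0 = 0) (i2' : deriv y₂ 0 = 1)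
    (wr : ∀ z, y₁ z * deriv y₂ z - deriv y₁ z * y₂ z = 1) {p : ℂ → ℂ} (dp : Differentiable ℂ p)
    (ep : ∀ z, deriv (deriv p) z = -T z * p z) (z : ℂ) :
    p z = p 0 * y₁ z + deriv p 0 * y₂ z := by
  have dd : ∀ {f : ℂ → ℂ}, Differentiable ℂ f → Differentiable ℂ (deriv f) := fun hf =>
    hf.contDiff.differentiable_deriv_two
  have c : ∀ z, p z * deriv y₂ z - deriv p z * y₂ z = p 0 := by
    intro z
    have hc := is_const_of_deriv_eq_zero (f := fun z => p z * deriv y₂ z - deriv p z * y₂ z)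
      ((dp.mul (dd d2)).sub ((dd dp).mul d2)) (by
        intro x
        have := ((dp x).hasDerivAt.mul (dd d2 x).hasDerivAt).sub
          ((dd dp x).hasDerivAt.mul (d2 x).hasDerivAt)
        refine this.deriv.trans ?_
        rw [e2, ep]
        ring) z 0
    rw [hc, i2', i2]; ring
  have d : ∀ z, p z * deriv y₁ z - deriv p z * y₁ z = - deriv p 0 := by
    intro z
    have hc := is_const_of_deriv_eq_zero (f := fun z => p z * deriv y₁ z - deriv p z * y₁ z)
      ((dp.mul (dd d1)).sub ((dd dp).mul d1)) (by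
        intro x
        have := ((dp x).hasDerivAt.mul (dd d1 x).hasDerivAt).sub
          ((dd dp x).hasDerivAt.mul (d1 x).hasDerivAt)
        refine this.deriv.trans ?_
        rw [e1, ep]
        ring) z 0
    rw [hc, i1', i1]; ring
  linear_combination -p z * wr z + y₁ z * c z - y₂ z * d z

end


theorem main {u : ℂ → ℝ} (h : IsSol u) {y₁ y₂ : ℂ → ℂ} (d1 : Differentiable ℂ y₁)
    (d2 : Differentiable ℂ y₂)
    (e1 : ∀ z, deriv (deriv y₁) z = -schw u z * y₁ z)
    (e2 : ∀ z, deriv (deriv y₂) z = -schw u z * y₂ z)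
    (i1 : y₁ 0 = 1) (i1' : deriv y₁ 0 = 0) (i2 : y₂ 0 = 0) (i2' : deriv y₂ 0 = 1)
    (wr : ∀ z, y₁ z * deriv y₂ z - deriv y₁ z * y₂ z = 1) :
    ∃ P : Pair, (∀ z, Real.exp (-u z) = P.N z / 2) ∧
    (∀ z, deriv (deriv P.a) z = -schw u z * P.a z) ∧
    (∀ z, deriv (deriv P.b) z = -schw u z * P.b z) := by
  have hu := h.smooth
  have dd : ∀ {f : ℂ → ℂ}, Differentiable ℂ f → Differentiable ℂ (deriv f) := fun hf =>
    hf.contDiff.differentiable_deriv_two
  obtain ⟨g, hg⟩ : ∃ g : ℂ → ℂ, g = wz fun ζ => (u ζ : ℂ) := ⟨_, rfl⟩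
  obtain ⟨V, hV⟩ : ∃ V : ℂ → ℂ, V = fun z => cexp (-(u z : ℂ)) := ⟨_, rfl⟩
  obtain ⟨E, hE⟩ : ∃ E : ℂ → ℂ, E = fun z => cexp (u z : ℂ) := ⟨_, rfl⟩
  obtain ⟨T, hT⟩ : ∃ T : ℂ → ℂ, T = schw u := ⟨_, rfl⟩
  rw [← hT] at e1 e2 ⊢
  obtain ⟨X, hX⟩ : ∃ X : ℂ → ℂ, X = fun z => -g z * V z := ⟨_, rfl⟩
  obtain ⟨M, hM⟩ : ∃ M : ℂ → ℂ, M = fun z => 1 / 4 * E z + g z * conj (g z) * V z := ⟨_, rfl⟩
  have cV : ∀ z, conj (V z) = V z := by
    intro z; rw [hV]; simp only; rw [← Complex.exp_conj, map_neg, conj_ofReal]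
  have cE : ∀ z, conj (E z) = E z := by
    intro z; rw [hE]; simp only; rw [← Complex.exp_conj, conj_ofReal]
  have EV : ∀ z, E z * V z = 1 := by
    intro z; rw [hE, hV]; simp only; rw [← Complex.exp_add, add_neg_cancel, Complex.exp_zero]
  have cX : ∀ z, conj (X z) = -conj (g z) * V z := by
    intro z; rw [hX]; simp only; rw [map_mul, map_neg, cV]
  have cM : ∀ z, conj (M z) = M z := by
    intro z; rw [hM]; simp only
    rw [map_add, map_mul, map_mul, map_mul, map_div₀, map_one, map_ofNat, conj_conj, cV, cE]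
    ring
  have hT' : ∀ z, T z = wz g z - g z ^ 2 := by
    intro z; rw [hT, hg]; rfl
  have wu : ∀ z, W (fun ζ => (u ζ : ℂ)) (g z) (conj (g z)) z := by
    intro z; rw [hg]; exact wU hu z
  have wg' : ∀ z, W g (T z + g z ^ 2) (-E z ^ 2 / 4) z := by
    intro z
    have := wg h z
    rw [← hg] at this
    refine this.congr (by rw [hT']; ring) ?_
    rw [hE]
    simp only
    rw [← Complex.exp_nat_mul]
    push_cast
    rfl
  have wV : ∀ z, W V (X z) (conj (X z)) z := by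
    intro z
    have := (wu z).neg.cexp
    rw [hV] at cX ⊢
    rw [cX, hX, hV]
    refine this.congr (by ring) (by ring)
  have wE : ∀ z, W E (g z * E z) (conj (g z) * E z) z := by
    intro z
    have := (wu z).cexp
    rw [hE]
    refine this.congr (by ring) (by ring)
  have wX : ∀ z, W X (-T z * V z) (M z) z := by
    intro z
    have := (wg' z).neg.mul (wV z)
    rw [hX] at this cX ⊢
    rw [cX] at this
    rw [hM]
    refine this.congr (by ring) ?_
    linear_combination (E z / 4) * EV z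
  have wM : ∀ z, W M (-T z * conj (X z)) (conj (-T z * conj (X z))) z := by
    intro z
    have := ((W.const (1 / 4) z).mul (wE z)).add (((wg' z).mul (wg' z).star).mul (wV z))
    have hq : conj (-E z ^ 2 / 4) = -E z ^ 2 / 4 := by
      rw [map_div₀, map_neg, map_pow, cE, map_ofNat]
    rw [hq] at this
    rw [cX] at this ⊢
    rw [hM]
    refine this.congr ?_ ?_
    · rw [hX]
      simp only
      linear_combination (-E z * g z / 4) * EV z
    · rw [map_mul, map_mul, map_neg, map_neg, conj_conj, cV]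
      rw [map_add, map_pow]
      linear_combination (-E z * conj (g z) / 4) * EV z
  -- the functions `p = conj (V y' - X y)`
  have key : ∀ y : ℂ → ℂ, Differentiable ℂ y → (∀ z, deriv (deriv y) z = -T z * y z) →
      ∃ p : ℂ → ℂ, Differentiable ℂ p ∧ (∀ z, deriv (deriv p) z = -T z * p z) ∧
        (∀ z, p z = conj (V z * deriv y z - X z * y z)) ∧
        ∀ z, deriv p z = X z * conj (deriv y z) - M z * conj (y z) := by
    intro y dy ey
    have wy : ∀ z, W y (deriv y z) 0 z := fun z => W.of_deriv (dy z).hasDerivAt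
    have wy' : ∀ z, W (deriv y) (-T z * y z) 0 z := fun z => by
      rw [← ey]; exact W.of_deriv (dd dy z).hasDerivAt
    have hp : ∀ z, HasDerivAt (fun z => conj (V z * deriv y z - X z * y z))
        (X z * conj (deriv y z) - M z * conj (y z)) z := by
      intro z
      apply W.to_deriv
      refine (((wV z).mul (wy' z)).sub ((wX z).mul (wy z))).star.congr ?_ ?_
      · rw [map_sub, map_add, map_add, map_mul, map_mul, map_mul, map_mul, map_zero, conj_conj, cM]
        ring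
      · rw [← map_zero (starRingEnd ℂ)]
        congr 1
        ring
    refine ⟨fun z => conj (V z * deriv y z - X z * y z), fun z => (hp z).differentiableAt, ?_,
      fun z => rfl, fun z => (hp z).deriv⟩
    intro z
    have h1 : deriv (fun z => conj (V z * deriv y z - X z * y z)) =
        fun z => X z * conj (deriv y z) - M z * conj (y z) := funext fun z => (hp z).deriv
    have dp : Differentiable ℂ (fun z => conj (V z * deriv y z - X z * y z)) :=
      fun z => (hp z).differentiableAt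
    have w1 := W.of_deriv (dd dp z).hasDerivAt
    have w2 := ((wX z).mul (wy' z).star).sub ((wM z).mul (wy z).star)
    rw [h1] at w1
    have := (w1.unique w2).1
    rw [h1, this]
    simp only [map_sub, map_mul, map_zero, cV]
    ring
  obtain ⟨p₁, dp1, ep1, fp1, gp1⟩ := key y₂ d2 e2
  obtain ⟨p₂, dp2, ep2, fp2, gp2⟩ := key y₁ d1 e1
  have c1 := fun z => combo d1 d2 e1 e2 i1 i1' i2 i2' wr dp1 ep1 z
  have c2 := fun z => combo d1 d2 e1 e2 i1 i1' i2 i2' wr dp2 ep2 z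
  have hv0 : V 0 ≠ 0 := by rw [hV]; exact Complex.exp_ne_zero _
  have a1 : p₁ 0 = V 0 := by
    rw [fp1, i2, i2', mul_one, mul_zero, sub_zero, cV]
  have a2 : deriv p₁ 0 = X 0 := by
    rw [gp1, i2, i2', map_one, map_zero]; ring
  have a3 : p₂ 0 = -conj (X 0) := by
    rw [fp2, i1, i1', mul_one, mul_zero, zero_sub, map_neg]
  have a4 : deriv p₂ 0 = -M 0 := by
    rw [gp2, i1, i1', map_one, map_zero]; ring
  have hVM : V 0 * M 0 - X 0 * conj (X 0) = 1 / 4 := by
    rw [cX, hM, hX]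
    simp only
    linear_combination (1 / 4) * EV 0
  have hVz : ∀ z, V z = V 0 * (y₁ z * conj (y₁ z)) + X 0 * (y₂ z * conj (y₁ z)) +
      conj (X 0) * (y₁ z * conj (y₂ z)) + M 0 * (y₂ z * conj (y₂ z)) := by
    intro z
    have e := c1 z
    have e' := c2 z
    rw [a1, a2, fp1] at e
    rw [a3, a4, fp2] at e'
    have hw := congrArg conj (wr z)
    simp only [map_sub, map_mul, map_one, cV] at e e' hw
    linear_combination conj (y₁ z) * e - conj (y₂ z) * e' - V z * hw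
  obtain ⟨s, hs⟩ : ∃ s : ℝ, s = Real.sqrt (2 * Real.exp (-u 0)) := ⟨_, rfl⟩
  have hs0 : 0 < s := by rw [hs]; positivity
  have hs2 : (s : ℂ) ^ 2 = 2 * V 0 := by
    have : s ^ 2 = 2 * Real.exp (-u 0) := by rw [hs]; exact Real.sq_sqrt (by positivity)
    rw [hV]
    simp only
    rw [← Complex.ofReal_pow, this]
    push_cast
    rfl
  have hsc : (s : ℂ) ≠ 0 := by exact_mod_cast hs0.ne'
  obtain ⟨k, hk⟩ : ∃ k : ℂ, k = X 0 / V 0 := ⟨_, rfl⟩
  have da : ∀ z, HasDerivAt (fun z => (s : ℂ) * (y₁ z + k * y₂ z))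
      (s * (deriv y₁ z + k * deriv y₂ z)) z := fun z =>
    ((d1 z).hasDerivAt.add ((d2 z).hasDerivAt.const_mul k)).const_mul _
  have db : ∀ z, HasDerivAt (fun z => y₂ z / (s : ℂ)) (deriv y₂ z / s) z := fun z =>
    (d2 z).hasDerivAt.div_const _
  have da2 : ∀ z, HasDerivAt (fun z => (s : ℂ) * (deriv y₁ z + k * deriv y₂ z))
      (s * (deriv (deriv y₁) z + k * deriv (deriv y₂) z)) z := fun z =>
    ((dd d1 z).hasDerivAt.add ((dd d2 z).hasDerivAt.const_mul k)).const_mul _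
  have db2 : ∀ z, HasDerivAt (fun z => deriv y₂ z / (s : ℂ)) (deriv (deriv y₂) z / s) z := fun z =>
    (dd d2 z).hasDerivAt.div_const _
  have fa : deriv (fun z => (s : ℂ) * (y₁ z + k * y₂ z)) =
      fun z => (s : ℂ) * (deriv y₁ z + k * deriv y₂ z) := funext fun z => (da z).deriv
  have fb : deriv (fun z => y₂ z / (s : ℂ)) = fun z => deriv y₂ z / s :=
    funext fun z => (db z).deriv
  refine ⟨⟨fun z => (s : ℂ) * (y₁ z + k * y₂ z), fun z => y₂ z / (s : ℂ),
    fun z => (da z).differentiableAt, fun z => (db z).differentiableAt, ?_⟩, ?_, ?_, ?_⟩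
  · intro z
    rw [fa, fb]
    simp only
    have := wr z
    field_simp
    linear_combination this
  · intro z
    unfold Pair.N
    simp only
    have hN : ((‖(s : ℂ) * (y₁ z + k * y₂ z)‖ ^ 2 + ‖y₂ z / (s : ℂ)‖ ^ 2 : ℝ) : ℂ) = 2 * V z := by
      push_cast
      rw [← Complex.conj_mul', ← Complex.conj_mul', map_div₀, map_mul, map_add, map_mul,
        conj_ofReal, hk, map_div₀, cV, hVz z]
      have hs3 : (s : ℂ) * s = 2 * V 0 := by rw [← hs2]; ring
      have e3 : (s : ℂ) * (conj (y₁ z) + conj (X 0) / V 0 * conj (y₂ z)) *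
          ((s : ℂ) * (y₁ z + X 0 / V 0 * y₂ z)) = 2 * V 0 *
          ((conj (y₁ z) + conj (X 0) / V 0 * conj (y₂ z)) * (y₁ z + X 0 / V 0 * y₂ z)) := by
        rw [← hs3]; ring
      rw [e3, div_mul_div_comm, hs3]
      field_simp
      linear_combination (-4 * (conj (y₂ z)) * y₂ z) * hVM
    have hv : V z = ((Real.exp (-u z) : ℝ) : ℂ) := by
      rw [hV]; push_cast; rfl
    rw [hv] at hN
    have hN' : ‖(s : ℂ) * (y₁ z + k * y₂ z)‖ ^ 2 + ‖y₂ z / (s : ℂ)‖ ^ 2 = 2 * Real.exp (-u z) := by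
      exact_mod_cast hN
    rw [hN']
    ring
  · intro z
    simp only
    rw [fa, (da2 z).deriv, e1, e2]
    ring
  · intro z
    simp only
    rw [fb, (db2 z).deriv, e2]
    ring

end Pool.Agent.Liou.DEV_

namespace Pool.Agent.Liou

theorem p_DEV (h1 : T_HOL) (h2 : T_ODE) : T_DEV := by
  intro u h
  obtain ⟨y₁, y₂, d1, d2, e1, e2, i1, i1', i2, i2', wr⟩ := h2 (schw u) (h1 u h)
  exact DEV_.main h d1 d2 e1 e2 i1 i1' i2 i2' wr

end Pool.Agent.Liou
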