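import Pool.Agent.Liou.Targets

/-! # DIAM1: the diameter of the one-dimensional metric is `π` -/

set_option autoImplicit false

open Set Filter Topology MeasureTheory

namespace Pool.Agent.Liou.DIAM1_

open Pool.Agent.Liou

/-- polygon with three segments -/
noncomputable def poly (p0 p1 p2 p3 : ℂ) (t : ℝ) : ℂ :=
  if t ≤ 1 / 3 then p0 + (3 * t - 0) • (p1 - p0) else
    if t ≤ 2 / 3 then p1 + (3 * t - 1) • (p2 - p1) else p2 + (3 * t - 2) • (p3 - p2)

theorem poly_one (p0 p1 p2 p3 : ℂ) {t : ℝ} (h : t ≤ 1 / 3) :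
    poly p0 p1 p2 p3 t = p0 + (3 * t - 0) • (p1 - p0) := by
  rw [poly, if_pos h]

theorem poly_two (p0 p1 p2 p3 : ℂ) {t : ℝ} (h1 : 1 / 3 ≤ t) (h2 : t ≤ 2 / 3) :
    poly p0 p1 p2 p3 t = p1 + (3 * t - 1) • (p2 - p1) := by
  rcases h1.eq_or_lt with h | h
  · rw [poly, if_pos h.symm.le, ← h]
    norm_num
  · rw [poly, if_neg (not_le.2 h), if_pos h2]

theorem poly_three (p0 p1 p2 p3 : ℂ) {t : ℝ} (h : 2 / 3 ≤ t) :
    poly p0 p1 p2 p3 t = p2 + (3 * t - 2) • (p3 - p2) := by
  rcases h.eq_or_lt with h | h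
  · rw [poly_two p0 p1 p2 p3 (by linarith) h.symm.le, ← h]
    norm_num
  · rw [poly, if_neg (by linarith), if_neg (not_le.2 h)]

theorem poly_cont (p0 p1 p2 p3 : ℂ) : Continuous (poly p0 p1 p2 p3) := by
  unfold poly
  refine Continuous.if_le (by fun_prop) (Continuous.if_le (by fun_prop) (by fun_prop)
    continuous_id continuous_const ?_) continuous_id continuous_const ?_
  · intro t ht
    rw [ht]; norm_num
  · intro t ht
    rw [if_pos (by rw [ht]; norm_num), ht]; norm_num

theorem aff_contDiff (P Q : ℂ) (k : ℝ) : ContDiff ℝ 1 fun t : ℝ => P + (3 * t - k) • (Q - P) := by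
  fun_prop

theorem poly_isCurve (p0 p1 p2 p3 : ℂ) : IsCurve (poly p0 p1 p2 p3) p0 p3 := by
  refine ⟨?_, ?_, (poly_cont p0 p1 p2 p3).continuousOn, 3, fun i => (i : ℝ) / 3, by norm_num,
    by norm_num, ?_, ?_⟩
  · rw [poly_one p0 p1 p2 p3 (by norm_num)]; norm_num
  · rw [poly_three p0 p1 p2 p3 (by norm_num)]; norm_num
  · intro i _
    push_cast
    linarith
  · intro i hi
    interval_cases i
    · refine (aff_contDiff p0 p1 0).contDiffOn.congr ?_
      intro t ht
      rw [mem_Icc] at ht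
      push_cast at ht
      exact poly_one p0 p1 p2 p3 (by linarith [ht.2])
    · refine (aff_contDiff p1 p2 1).contDiffOn.congr ?_
      intro t ht
      rw [mem_Icc] at ht
      push_cast at ht
      exact poly_two p0 p1 p2 p3 (by linarith [ht.1]) (by linarith [ht.2])
    · refine (aff_contDiff p2 p3 2).contDiffOn.congr ?_
      intro t ht
      rw [mem_Icc] at ht
      push_cast at ht
      exact poly_three p0 p1 p2 p3 (by linarith [ht.1])

/-- the integrand on a segment -/
theorem seg_eq {γ : ℝ → ℂ} {P Q : ℂ} {k a b : ℝ} (hab : a ≤ b) (ρ : ℂ → ℝ)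
    (h : ∀ t ∈ Icc a b, γ t = P + (3 * t - k) • (Q - P)) :
    ∀ᵐ t : ℝ, t ∈ uIoc a b →
      ρ (γ t) * ‖deriv γ t‖ = ρ (P + (3 * t - k) • (Q - P)) * (3 * ‖Q - P‖) := by
  have hb : ∀ᵐ t : ℝ, t ≠ b := by
    rw [ae_iff]
    simp
  filter_upwards [hb] with t htb ht
  rw [uIoc_of_le hab, mem_Ioc] at ht
  have hI : t ∈ Ioo a b := ⟨ht.1, lt_of_le_of_ne ht.2 htb⟩
  rw [h t ⟨hI.1.le, hI.2.le⟩]
  have he : γ =ᶠ[𝓝 t] fun t => P + (3 * t - k) • (Q - P) := by
    filter_upwards [Ioo_mem_nhds hI.1 hI.2] with s hs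
    exact h s ⟨hs.1.le, hs.2.le⟩
  have hd : HasDerivAt (fun t : ℝ => P + (3 * t - k) • (Q - P)) ((3 : ℝ) • (Q - P)) t := by
    have h1 : HasDerivAt (fun t : ℝ => 3 * t - k) 3 t := by
      simpa using ((hasDerivAt_id t).const_mul (3 : ℝ)).sub_const k
    simpa using (h1.smul_const (Q - P)).const_add P
  rw [he.deriv_eq, hd.deriv, norm_smul]
  norm_num

theorem seg_integrable {γ : ℝ → ℂ} {P Q : ℂ} {k a b : ℝ} (hab : a ≤ b) {ρ : ℂ → ℝ}
    (hρ : Continuous ρ) (h : ∀ t ∈ Icc a b, γ t = P + (3 * t - k) • (Q - P)) :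
    IntervalIntegrable (fun t => ρ (γ t) * ‖deriv γ t‖) volume a b := by
  have hc : IntervalIntegrable (fun t => ρ (P + (3 * t - k) • (Q - P)) * (3 * ‖Q - P‖))
      volume a b := by
    refine Continuous.intervalIntegrable ?_ a b
    fun_prop
  refine hc.congr_ae ?_
  rw [Filter.EventuallyEq, ae_restrict_iff' measurableSet_uIoc]
  filter_upwards [seg_eq hab ρ h] with t ht h'
  exact (ht h').symm

theorem seg_integral {γ : ℝ → ℂ} {P Q : ℂ} {k a b : ℝ} (hab : a ≤ b) (ρ : ℂ → ℝ)
    (h : ∀ t ∈ Icc a b, γ t = P + (3 * t - k) • (Q - P)) :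
    ∫ t in a..b, ρ (γ t) * ‖deriv γ t‖ =
      ∫ t in a..b, ρ (P + (3 * t - k) • (Q - P)) * (3 * ‖Q - P‖) :=
  intervalIntegral.integral_congr_ae (seg_eq hab ρ h)

/-- the primitive -/
noncomputable def G (l c s : ℝ) : ℝ := 2 * Real.arctan (Real.exp (l * s + c))

theorem hasDerivAt_G (l c s : ℝ) : HasDerivAt (G l c) (l / Real.cosh (l * s + c)) s := by
  have h1 : HasDerivAt (fun s : ℝ => l * s + c) l s := by
    simpa using ((hasDerivAt_id s).const_mul l).add_const c
  have h2 := (h1.exp.arctan).const_mul 2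
  refine h2.congr_deriv ?_
  rw [Real.cosh_eq]
  have hp := Real.exp_pos (l * s + c)
  rw [Real.exp_neg]
  field_simp
  ring

theorem G_nonneg (l c s : ℝ) : 0 ≤ G l c s := by
  have := Real.arctan_nonneg.2 (Real.exp_pos (l * s + c)).le
  unfold G; linarith

theorem G_le (l c s : ℝ) : G l c s ≤ Real.pi := by
  have := (Real.arctan_lt_pi_div_two (Real.exp (l * s + c))).le
  unfold G; linarith

theorem G_atTop {l : ℝ} (hl : 0 < l) (c : ℝ) : Tendsto (G l c) atTop (𝓝 Real.pi) := by
  have h1 : Tendsto (fun s : ℝ => l * s + c) atTop atTop :=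
    tendsto_atTop_add_const_right _ _ (tendsto_id.const_mul_atTop hl)
  have h2 := (Real.tendsto_arctan_atTop.mono_right nhdsWithin_le_nhds).comp
    (Real.tendsto_exp_atTop.comp h1)
  have h3 := h2.const_mul 2
  have : (2 : ℝ) * (Real.pi / 2) = Real.pi := by ring
  rw [this] at h3
  exact h3

theorem G_atBot {l : ℝ} (hl : 0 < l) (c : ℝ) : Tendsto (G l c) atBot (𝓝 0) := by
  have h1 : Tendsto (fun s : ℝ => l * s + c) atBot atBot :=
    tendsto_atBot_add_const_right _ _ (tendsto_id.const_mul_atBot hl)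
  have h2 := (Real.continuous_arctan.tendsto 0).comp (Real.tendsto_exp_atBot.comp h1)
  have h3 := h2.const_mul 2
  rw [Real.arctan_zero, mul_zero] at h3
  exact h3

/-- the segments along `e` -/
theorem FTC_le (l c k a x y : ℝ) (hak : 3 * a = k) :
    ∫ t in a..(a + 1 / 3), (l / Real.cosh (l * (x + (3 * t - k) * (y - x)) + c)) *
      (3 * |y - x|) ≤ |G l c y - G l c x| := by
  have hF : ∫ t in a..(a + 1 / 3), (l / Real.cosh (l * (x + (3 * t - k) * (y - x)) + c)) *
      (3 * (y - x)) = G l c y - G l c x := by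
    have h1 : ∀ t ∈ uIcc a (a + 1 / 3), HasDerivAt (fun t => G l c (x + (3 * t - k) * (y - x)))
        ((l / Real.cosh (l * (x + (3 * t - k) * (y - x)) + c)) * (3 * (y - x))) t := by
      intro t _
      have h2 : HasDerivAt (fun t : ℝ => x + (3 * t - k) * (y - x)) (3 * (y - x)) t := by
        have h3 : HasDerivAt (fun t : ℝ => 3 * t - k) 3 t := by
          simpa using ((hasDerivAt_id t).const_mul (3 : ℝ)).sub_const k
        simpa using (h3.mul_const (y - x)).const_add x
      exact (hasDerivAt_G l c _).comp t h2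
    rw [intervalIntegral.integral_eq_sub_of_hasDerivAt h1]
    · have e1 : x + (3 * (a + 1 / 3) - k) * (y - x) = y := by rw [← hak]; ring
      have e2 : x + (3 * a - k) * (y - x) = x := by rw [← hak]; ring
      simp only [e1, e2]
    · refine Continuous.intervalIntegrable ?_ _ _
      refine Continuous.mul (Continuous.div₀ (by fun_prop) ?_ fun t => (Real.cosh_pos _).ne')
        (by fun_prop)
      exact Real.continuous_cosh.comp (by fun_prop)
  rcases le_total x y with h | h
  · rw [abs_of_nonneg (sub_nonneg.2 h), hF]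
    exact le_abs_self _
  · rw [abs_of_nonpos (sub_nonpos.2 h)]
    have : ∀ t : ℝ, (l / Real.cosh (l * (x + (3 * t - k) * (y - x)) + c)) * (3 * -(y - x)) =
        -((l / Real.cosh (l * (x + (3 * t - k) * (y - x)) + c)) * (3 * (y - x))) := by
      intro t; ring
    simp only [this]
    rw [intervalIntegral.integral_neg, hF]
    exact neg_le_abs _

section

variable {u : ℂ → ℝ} {e : ℂ} {l c : ℝ}

theorem exp_u (_hl : 0 < l)
    (hu : ∀ z, Real.exp (-u z) = Real.cosh (l * inner ℝ z e + c) / l) (z : ℂ) :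
    Real.exp (u z) = l / Real.cosh (l * inner ℝ z e + c) := by
  have h := hu z
  rw [Real.exp_neg, inv_eq_iff_eq_inv] at h
  rw [h, inv_div]

theorem cont_exp_u (hl : 0 < l)
    (hu : ∀ z, Real.exp (-u z) = Real.cosh (l * inner ℝ z e + c) / l) :
    Continuous fun z => Real.exp (u z) := by
  have : (fun z => Real.exp (u z)) = fun z => l / Real.cosh (l * inner ℝ z e + c) := by
    funext z; exact exp_u hl hu z
  rw [this]
  refine Continuous.div₀ (by fun_prop) ?_ fun t => (Real.cosh_pos _).ne'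
  exact Real.continuous_cosh.comp (by fun_prop)

theorem length_nonneg (u : ℂ → ℝ) (γ : ℝ → ℂ) : 0 ≤ length u γ := by
  unfold length
  refine intervalIntegral.integral_nonneg (by norm_num) fun t _ => ?_
  positivity

theorem gdist_le (u : ℂ → ℝ) {x y : ℂ} {γ : ℝ → ℂ} (h : IsCurve γ x y) :
    gdist u x y ≤ length u γ := by
  refine csInf_le ⟨0, ?_⟩ ⟨γ, h, rfl⟩
  rintro _ ⟨γ', _, rfl⟩
  exact length_nonneg u γ'

/-- the basic upper bound -/
theorem gdist_le_T (he : ‖e‖ = 1) (hl : 0 < l)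
    (hu : ∀ z, Real.exp (-u z) = Real.cosh (l * inner ℝ z e + c) / l) (x y : ℂ) (T : ℝ) :
    gdist u x y ≤ |G l c T - G l c (inner ℝ x e)| +
      (l / Real.cosh (l * T + c)) * ‖(y + (T - inner ℝ y e) • e) - (x + (T - inner ℝ x e) • e)‖ +
      |G l c (inner ℝ y e) - G l c T| := by
  set p1 : ℂ := x + (T - inner ℝ x e) • e with hp1
  set p2 : ℂ := y + (T - inner ℝ y e) • e with hp2
  have hee : inner ℝ e e = (1 : ℝ) := by rw [real_inner_self_eq_norm_sq, he]; norm_num
  have i1 : inner ℝ p1 e = T := by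
    rw [hp1, inner_add_left, real_inner_smul_left, hee]; ring
  have i2 : inner ℝ p2 e = T := by
    rw [hp2, inner_add_left, real_inner_smul_left, hee]; ring
  refine (gdist_le u (poly_isCurve x p1 p2 y)).trans ?_
  have hρ := cont_exp_u hl hu
  have a1 : ∀ t ∈ Icc (0 : ℝ) (1 / 3),
      poly x p1 p2 y t = x + (3 * t - 0) • (p1 - x) := fun t ht =>
    poly_one x p1 p2 y ht.2
  have a2 : ∀ t ∈ Icc (1 / 3 : ℝ) (2 / 3),
      poly x p1 p2 y t = p1 + (3 * t - 1) • (p2 - p1) := fun t ht =>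
    poly_two x p1 p2 y ht.1 ht.2
  have a3 : ∀ t ∈ Icc (2 / 3 : ℝ) 1,
      poly x p1 p2 y t = p2 + (3 * t - 2) • (y - p2) := fun t ht =>
    poly_three x p1 p2 y ht.1
  have I1 := seg_integrable (by norm_num) hρ a1
  have I2 := seg_integrable (by norm_num) hρ a2
  have I3 := seg_integrable (by norm_num) hρ a3
  have hlen : length u (poly x p1 p2 y) =
      (∫ t in (0 : ℝ)..(1 / 3), Real.exp (u (poly x p1 p2 y t)) * ‖deriv (poly x p1 p2 y) t‖) +
      (∫ t in (1 / 3 : ℝ)..(2 / 3), Real.exp (u (poly x p1 p2 y t)) * ‖deriv (poly x p1 p2 y) t‖) +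
      (∫ t in (2 / 3 : ℝ)..1, Real.exp (u (poly x p1 p2 y t)) * ‖deriv (poly x p1 p2 y) t‖) := by
    rw [intervalIntegral.integral_add_adjacent_intervals I1 I2,
      intervalIntegral.integral_add_adjacent_intervals (I1.trans I2) I3]
    rfl
  rw [hlen]
  refine add_le_add (add_le_add ?_ ?_) ?_
  · rw [seg_integral (ρ := fun z => Real.exp (u z)) (by norm_num) a1]
    have h0 := FTC_le l c 0 0 (inner ℝ x e) T (by norm_num)
    rw [zero_add] at h0
    refine le_trans (le_of_eq ?_) h0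
    refine intervalIntegral.integral_congr fun t _ => ?_
    have h1 : p1 - x = (T - inner ℝ x e) • e := by rw [hp1]; ring
    have h2 : ‖p1 - x‖ = |T - inner ℝ x e| := by rw [h1, norm_smul, he, mul_one]; rfl
    simp only [exp_u hl hu, h2]
    rw [h1, inner_add_left, real_inner_smul_left, real_inner_smul_left, hee, mul_one]
  · rw [seg_integral (ρ := fun z => Real.exp (u z)) (by norm_num) a2]
    have h1 : inner ℝ (p2 - p1) e = (0 : ℝ) := by rw [inner_sub_left, i1, i2, sub_self]
    have h2 : ∀ t : ℝ, Real.exp (u (p1 + (3 * t - 1) • (p2 - p1))) * (3 * ‖p2 - p1‖) =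
        (l / Real.cosh (l * T + c)) * (3 * ‖p2 - p1‖) := by
      intro t
      rw [exp_u hl hu, inner_add_left, real_inner_smul_left, h1, i1, mul_zero, add_zero]
    simp only [h2]
    rw [intervalIntegral.integral_const, smul_eq_mul]
    refine le_of_eq ?_
    ring
  · rw [seg_integral (ρ := fun z => Real.exp (u z)) (by norm_num) a3]
    have h0 := FTC_le l c 2 (2 / 3) T (inner ℝ y e) (by norm_num)
    have h01 : (2 / 3 : ℝ) + 1 / 3 = 1 := by norm_num
    rw [h01] at h0
    refine le_trans (le_of_eq ?_) h0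
    refine intervalIntegral.integral_congr fun t _ => ?_
    have h1 : y - p2 = (inner ℝ y e - T) • e := by
      rw [hp2, sub_add_eq_sub_sub, sub_self, zero_sub, ← neg_smul, neg_sub]
    have h2 : ‖y - p2‖ = |inner ℝ y e - T| := by rw [h1, norm_smul, he, mul_one]; rfl
    simp only [exp_u hl hu, h2]
    rw [h1, inner_add_left, real_inner_smul_left, real_inner_smul_left, hee, mul_one, i2]

theorem cosh_top {l : ℝ} (hl : 0 < l) (c : ℝ) :
    Tendsto (fun T : ℝ => l / Real.cosh (l * T + c)) atTop (𝓝 0) := by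
  have h1 : Tendsto (fun s : ℝ => l * s + c) atTop atTop :=
    tendsto_atTop_add_const_right _ _ (tendsto_id.const_mul_atTop hl)
  have h2 : Tendsto (fun s : ℝ => Real.cosh (l * s + c)) atTop atTop := by
    refine tendsto_atTop_mono (f := fun s => Real.exp (l * s + c) / 2) (fun s => ?_) ?_
    · rw [Real.cosh_eq]
      have := Real.exp_pos (-(l * s + c))
      linarith
    · exact (Real.tendsto_exp_atTop.comp h1).atTop_div_const (by norm_num)
  exact h2.const_div_atTop l

theorem cosh_bot {l : ℝ} (hl : 0 < l) (c : ℝ) :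
    Tendsto (fun T : ℝ => l / Real.cosh (l * T + c)) atBot (𝓝 0) := by
  have h1 : Tendsto (fun s : ℝ => -(l * s + c)) atBot atTop :=
    tendsto_neg_atBot_atTop.comp
      (tendsto_atBot_add_const_right _ _ (tendsto_id.const_mul_atBot hl))
  have h2 : Tendsto (fun s : ℝ => Real.cosh (l * s + c)) atBot atTop := by
    refine tendsto_atTop_mono (f := fun s => Real.exp (-(l * s + c)) / 2) (fun s => ?_) ?_
    · rw [Real.cosh_eq]
      have := Real.exp_pos (l * s + c)
      linarith
    · exact (Real.tendsto_exp_atTop.comp h1).atTop_div_const (by norm_num)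
  exact h2.const_div_atTop l

/-- the middle length -/
theorem mid_eq (x y : ℂ) (T : ℝ) :
    (y + (T - inner ℝ y e) • e) - (x + (T - inner ℝ x e) • e) =
      (y - x) - (inner ℝ y e - inner ℝ x e : ℝ) • e := by
  simp only [sub_smul]
  ring

theorem gdist_le_pi (he : ‖e‖ = 1) (hl : 0 < l)
    (hu : ∀ z, Real.exp (-u z) = Real.cosh (l * inner ℝ z e + c) / l) (x y : ℂ) :
    gdist u x y ≤ Real.pi := by
  have key : ∀ T : ℝ, gdist u x y ≤ |G l c T - G l c (inner ℝ x e)| +
      (l / Real.cosh (l * T + c)) * ‖(y - x) - (inner ℝ y e - inner ℝ x e : ℝ) • e‖ +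
      |G l c (inner ℝ y e) - G l c T| := by
    intro T
    have := gdist_le_T he hl hu x y T
    rwa [mid_eq] at this
  have h1 : gdist u x y ≤ |Real.pi - G l c (inner ℝ x e)| +
      0 * ‖(y - x) - (inner ℝ y e - inner ℝ x e : ℝ) • e‖ +
      |G l c (inner ℝ y e) - Real.pi| := by
    refine ge_of_tendsto' (f := fun T : ℝ => |G l c T - G l c (inner ℝ x e)| +
      (l / Real.cosh (l * T + c)) * ‖(y - x) - (inner ℝ y e - inner ℝ x e : ℝ) • e‖ +
      |G l c (inner ℝ y e) - G l c T|) (x := atTop) ?_ key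
    exact (((G_atTop hl c).sub_const _).abs.add ((cosh_top hl c).mul_const _)).add
      ((G_atTop hl c).const_sub _).abs
  have h2 : gdist u x y ≤ |0 - G l c (inner ℝ x e)| +
      0 * ‖(y - x) - (inner ℝ y e - inner ℝ x e : ℝ) • e‖ +
      |G l c (inner ℝ y e) - 0| := by
    refine ge_of_tendsto' (f := fun T : ℝ => |G l c T - G l c (inner ℝ x e)| +
      (l / Real.cosh (l * T + c)) * ‖(y - x) - (inner ℝ y e - inner ℝ x e : ℝ) • e‖ +
      |G l c (inner ℝ y e) - G l c T|) (x := atBot) ?_ key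
    exact (((G_atBot hl c).sub_const _).abs.add ((cosh_bot hl c).mul_const _)).add
      ((G_atBot hl c).const_sub _).abs
  have gx0 := G_nonneg l c (inner ℝ x e)
  have gy0 := G_nonneg l c (inner ℝ y e)
  have gx1 := G_le l c (inner ℝ x e)
  have gy1 := G_le l c (inner ℝ y e)
  rw [abs_of_nonneg (by linarith), abs_of_nonpos (by linarith)] at h1
  rw [abs_of_nonpos (by linarith), abs_of_nonneg (by linarith)] at h2
  linarith

/-- the lower bound -/
theorem le_gdist (hG : T_GLIP) (he : ‖e‖ = 1) (hl : 0 < l)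
    (hu : ∀ z, Real.exp (-u z) = Real.cosh (l * inner ℝ z e + c) / l) (x y : ℂ) :
    |G l c (inner ℝ y e) - G l c (inner ℝ x e)| ≤ gdist u x y := by
  have hd : ∀ z : ℂ, HasFDerivAt (fun z : ℂ => G l c (inner ℝ z e))
      ((l / Real.cosh (l * inner ℝ z e + c)) • (innerSL ℝ e : ℂ →L[ℝ] ℝ)) z := by
    intro z
    have h1 : HasFDerivAt (fun z : ℂ => (inner ℝ z e : ℝ)) (innerSL ℝ e : ℂ →L[ℝ] ℝ) z := by
      have h2 : (fun z : ℂ => (inner ℝ z e : ℝ)) = fun z => (innerSL ℝ e : ℂ →L[ℝ] ℝ) z := by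
        funext z
        rw [innerSL_apply_apply, real_inner_comm]
      rw [h2]
      exact (innerSL ℝ e : ℂ →L[ℝ] ℝ).hasFDerivAt
    exact (hasDerivAt_G l c _).comp_hasFDerivAt z h1
  refine le_csInf ⟨_, _, poly_isCurve x x x y, rfl⟩ ?_
  rintro L ⟨γ, hγ, rfl⟩
  have h := hG (fun z : ℂ => G l c (inner ℝ z e)) (fun z => Real.exp (u z)) γ x y
    (fun z => (hd z).differentiableAt) (cont_exp_u hl hu) (fun z => ?_) hγ 0 1 le_rfl
    zero_le_one le_rfl
  · rw [hγ.source, hγ.target] at h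
    exact h
  · rw [(hd z).fderiv, norm_smul, innerSL_apply_norm, he, mul_one, exp_u hl hu, Real.norm_eq_abs,
      abs_of_nonneg]
    have := Real.cosh_pos (l * inner ℝ z e + c)
    positivity

end

end DIAM1_

open DIAM1_ in
theorem p_DIAM1 (h1 : T_GLIP) : T_DIAM1 := by
  intro u e l c he hl hu
  have hee : inner ℝ e e = (1 : ℝ) := by rw [real_inner_self_eq_norm_sq, he]; norm_num
  refine le_antisymm ?_ ?_
  · exact iSup_le fun x => iSup_le fun y => ENNReal.ofReal_le_ofReal (gdist_le_pi he hl hu x y)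
  · have hlim : Tendsto (fun t : ℝ => ENNReal.ofReal (G l c t - G l c (-t))) atTop
        (𝓝 (ENNReal.ofReal (Real.pi - 0))) :=
      ENNReal.tendsto_ofReal ((G_atTop hl c).sub ((G_atBot hl c).comp tendsto_neg_atTop_atBot))
    rw [sub_zero] at hlim
    refine le_of_tendsto' hlim fun t => ?_
    refine le_trans (ENNReal.ofReal_le_ofReal ?_)
      (le_iSup_of_le ((-t) • e) (le_iSup (fun y => ENNReal.ofReal (gdist u ((-t) • e) y)) (t • e)))
    have h := le_gdist h1 he hl hu ((-t) • e) (t • e)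
    rw [real_inner_smul_left, real_inner_smul_left, hee, mul_one, mul_one] at h
    exact (le_abs_self _).trans h

end Pool.Agent.Liou
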