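import Pool.Agent.Liou.Targets

/-! Job LIOU-DIAMR: the diameter of the bubble metric `2 l |dz| / (1 + l² |z - x₀|²)` -/

set_option autoImplicit false

open Complex ComplexConjugate Set Filter Topology

namespace Pool.Agent.Liou

namespace DIAMR_

theorem segment_curve (x y : ℂ) : IsCurve (fun t : ℝ => x + (t : ℂ) * (y - x)) x y where
  source := by simp
  target := by simp
  cont := by fun_prop
  pieces := by
    refine ⟨1, fun n => (n : ℝ), by simp, by simp, fun i hi => by simp, fun i hi => ?_⟩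
    apply ContDiff.contDiffOn
    exact contDiff_const.add ((Complex.ofRealCLM.contDiff).mul contDiff_const)

theorem length_nonneg (u : ℂ → ℝ) (γ : ℝ → ℂ) : 0 ≤ length u γ := by
  unfold length
  exact intervalIntegral.integral_nonneg (by norm_num) fun t _ => by positivity

theorem bdd (u : ℂ → ℝ) (x y : ℂ) :
    BddBelow {L : ℝ | ∃ γ : ℝ → ℂ, IsCurve γ x y ∧ L = length u γ} := by
  refine ⟨0, ?_⟩
  rintro L ⟨γ, -, rfl⟩
  exact length_nonneg u γ

theorem gdist_le {u : ℂ → ℝ} {x y : ℂ} {γ : ℝ → ℂ} (h : IsCurve γ x y) :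
    gdist u x y ≤ length u γ := csInf_le (bdd u x y) ⟨γ, h, rfl⟩

theorem le_gdist {u : ℂ → ℝ} {x y : ℂ} {c : ℝ} (h : ∀ γ : ℝ → ℂ, IsCurve γ x y → c ≤ length u γ) :
    c ≤ gdist u x y := by
  refine le_csInf ⟨_, _, segment_curve x y, rfl⟩ ?_
  rintro L ⟨γ, hγ, rfl⟩
  exact h γ hγ

theorem gdist_le_gdiam (u : ℂ → ℝ) (x y : ℂ) : ENNReal.ofReal (gdist u x y) ≤ gdiam u :=
  le_iSup_of_le (f := fun x => ⨆ y, ENNReal.ofReal (gdist u x y)) x
    (le_iSup (fun y => ENNReal.ofReal (gdist u x y)) y)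

/-- a point different from all breakpoints is inside a piece -/
theorem piece {s : ℕ → ℝ} {t : ℝ} : ∀ n : ℕ, s 0 < t → t < s n → (∀ i, t ≠ s i) →
    ∃ i < n, s i < t ∧ t < s (i + 1) := by
  intro n
  induction n with
  | zero => intro h1 h2 _; exact absurd h1 (not_lt.2 h2.le)
  | succ n ih =>
    intro h1 h2 h3
    rcases lt_or_ge t (s n) with h | h
    · obtain ⟨i, hi, h4⟩ := ih h1 h h3
      exact ⟨i, by omega, h4⟩
    · exact ⟨n, by omega, lt_of_le_of_ne h (Ne.symm (h3 n)), h2⟩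

/-- a curve is differentiable almost everywhere -/
theorem ae_diff {γ : ℝ → ℂ} {p q : ℂ} (h : IsCurve γ p q) :
    ∀ᵐ t : ℝ, t ∈ Set.uIoc (0 : ℝ) 1 → DifferentiableAt ℝ γ t := by
  obtain ⟨n, s, h0, h1, -, hs⟩ := h.pieces
  have hc : (Set.range s).Countable := Set.countable_range s
  filter_upwards [hc.ae_notMem MeasureTheory.volume] with t ht hmem
  rw [Set.uIoc_of_le zero_le_one] at hmem
  have hne : ∀ i, t ≠ s i := fun i hi => ht ⟨i, hi.symm⟩
  have h2 : t < s n := by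
    rw [h1]
    exact lt_of_le_of_ne hmem.2 (by rw [← h1]; exact hne n)
  obtain ⟨i, hi, h3, h4⟩ := piece n (by rw [h0]; exact hmem.1) h2 hne
  exact ((hs i hi).differentiableOn (by norm_num)).differentiableAt (Icc_mem_nhds h3 h4)

theorem exp_u {u : ℂ → ℝ} {x₀ : ℂ} {l : ℝ} (hl : 0 < l)
    (h : ∀ z, Real.exp (-u z) = (1 + l ^ 2 * ‖z - x₀‖ ^ 2) / (2 * l)) (z : ℂ) :
    Real.exp (u z) = 2 * l / (1 + l ^ 2 * ‖z - x₀‖ ^ 2) := by
  have h1 : Real.exp (u z) * Real.exp (-u z) = 1 := by rw [← Real.exp_add]; simp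
  rw [h z] at h1
  have h2 : 0 < 1 + l ^ 2 * ‖z - x₀‖ ^ 2 := by positivity
  field_simp at h1 ⊢
  linarith

/-- transport of curves by the exponential map -/
theorem exp_curve {γ : ℝ → ℂ} {p q : ℂ} (h : IsCurve γ p q) (x₀ : ℂ) :
    IsCurve (fun t => x₀ + Complex.exp (γ t)) (x₀ + Complex.exp p) (x₀ + Complex.exp q) where
  source := by simp [h.source]
  target := by simp [h.target]
  cont := continuousOn_const.add (Complex.continuous_exp.comp_continuousOn h.cont)
  pieces := by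
    obtain ⟨n, s, h0, h1, h2, hs⟩ := h.pieces
    refine ⟨n, s, h0, h1, h2, fun i hi => ?_⟩
    exact contDiffOn_const.add (hs i hi).cexp

theorem exp_length {u : ℂ → ℝ} {x₀ : ℂ} {l : ℝ} (hl : 0 < l)
    (h : ∀ z, Real.exp (-u z) = (1 + l ^ 2 * ‖z - x₀‖ ^ 2) / (2 * l))
    {γ : ℝ → ℂ} {p q : ℂ} (hγ : IsCurve γ p q) :
    length u (fun t => x₀ + Complex.exp (γ t)) =
      length (fun ζ => -Real.log (Real.cosh (ζ.re + Real.log l))) γ := by
  unfold length
  refine intervalIntegral.integral_congr_ae ?_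
  filter_upwards [ae_diff hγ] with t ht hmem
  have hd := ht hmem
  have h1 : deriv (fun t => x₀ + Complex.exp (γ t)) t = Complex.exp (γ t) * deriv γ t := by
    have := (hd.hasDerivAt.cexp).const_add x₀
    exact this.deriv
  rw [h1, exp_u hl h, norm_mul, add_sub_cancel_left, Complex.norm_exp, Real.exp_neg,
    Real.exp_log (Real.cosh_pos _), Real.cosh_eq, neg_add, Real.exp_add, Real.exp_add,
    Real.exp_log hl, Real.exp_neg, Real.exp_neg, Real.exp_log hl]
  have he : 0 < Real.exp (γ t).re := Real.exp_pos _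
  have h3 : 0 < 1 + l ^ 2 * Real.exp (γ t).re ^ 2 := by positivity
  field_simp
  ring

theorem seg_out {u : ℂ → ℝ} {x₀ : ℂ} {l : ℝ} (hl : 0 < l)
    (h : ∀ z, Real.exp (-u z) = (1 + l ^ 2 * ‖z - x₀‖ ^ 2) / (2 * l)) (y : ℂ) :
    length u (fun t : ℝ => x₀ + (t : ℂ) * (y - x₀)) ≤ Real.pi := by
  set r : ℝ := ‖y - x₀‖ with hr
  have hd : ∀ t : ℝ, deriv (fun t : ℝ => x₀ + (t : ℂ) * (y - x₀)) t = y - x₀ := by
    intro t
    have h1 : HasDerivAt (fun t : ℝ => (t : ℂ)) 1 t := Complex.ofRealCLM.hasDerivAt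
    have h2 := (h1.mul_const (y - x₀)).const_add x₀
    rw [one_mul] at h2
    exact h2.deriv
  have key : length u (fun t : ℝ => x₀ + (t : ℂ) * (y - x₀)) =
      ∫ t in (0 : ℝ)..1, 2 * l * r / (1 + (l * r * t) ^ 2) := by
    unfold length
    refine intervalIntegral.integral_congr fun t _ => ?_
    simp only [hd]
    rw [exp_u hl h, add_sub_cancel_left, norm_mul, Complex.norm_real, ← hr, Real.norm_eq_abs,
      mul_pow, sq_abs]
    ring_nf
  have hF : ∀ t ∈ Set.uIcc (0 : ℝ) 1, HasDerivAt (fun t => 2 * Real.arctan (l * r * t))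
      (2 * l * r / (1 + (l * r * t) ^ 2)) t := by
    intro t _
    have h1 : HasDerivAt (fun t : ℝ => l * r * t) (l * r) t := by
      simpa using (hasDerivAt_id t).const_mul (l * r)
    have h2 := h1.arctan.const_mul 2
    refine h2.congr_deriv ?_
    ring
  rw [key, intervalIntegral.integral_eq_sub_of_hasDerivAt hF]
  · have := Real.arctan_lt_pi_div_two (l * r * 1)
    simp only [mul_zero, Real.arctan_zero, sub_zero]
    linarith
  · apply Continuous.intervalIntegrable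
    refine continuous_const.div (by fun_prop) fun t => ?_
    positivity

theorem seg_in {u : ℂ → ℝ} {x₀ : ℂ} {l : ℝ} (hl : 0 < l)
    (h : ∀ z, Real.exp (-u z) = (1 + l ^ 2 * ‖z - x₀‖ ^ 2) / (2 * l)) (x : ℂ) :
    length u (fun t : ℝ => x + (t : ℂ) * (x₀ - x)) ≤ Real.pi := by
  have hd : ∀ (a b : ℂ) (t : ℝ), deriv (fun t : ℝ => a + (t : ℂ) * b) t = b := by
    intro a b t
    have h1 : HasDerivAt (fun t : ℝ => (t : ℂ)) 1 t := Complex.ofRealCLM.hasDerivAt
    have h2 := (h1.mul_const b).const_add a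
    rw [one_mul] at h2
    exact h2.deriv
  have key : length u (fun t : ℝ => x + (t : ℂ) * (x₀ - x)) =
      length u (fun t : ℝ => x₀ + (t : ℂ) * (x - x₀)) := by
    unfold length
    have := intervalIntegral.integral_comp_sub_left (a := 0) (b := 1)
      (fun t : ℝ => Real.exp (u (x₀ + (t : ℂ) * (x - x₀))) *
        ‖deriv (fun t : ℝ => x₀ + (t : ℂ) * (x - x₀)) t‖) 1
    rw [sub_self, sub_zero] at this
    rw [← this]
    refine intervalIntegral.integral_congr fun t _ => ?_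
    simp only [hd]
    rw [norm_sub_rev]
    congr 3
    push_cast
    ring
  rw [key]
  exact seg_out hl h x

theorem upper (hD : T_DIAM1) {u : ℂ → ℝ} {x₀ : ℂ} {l : ℝ} (hl : 0 < l)
    (h : ∀ z, Real.exp (-u z) = (1 + l ^ 2 * ‖z - x₀‖ ^ 2) / (2 * l)) (x y : ℂ) :
    gdist u x y ≤ Real.pi := by
  by_cases hx : x = x₀
  · subst hx
    exact (gdist_le (segment_curve x y)).trans (seg_out hl h y)
  by_cases hy : y = x₀
  · subst hy
    exact (gdist_le (segment_curve x y)).trans (seg_in hl h x)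
  set v : ℂ → ℝ := fun ζ => -Real.log (Real.cosh (ζ.re + Real.log l)) with hv
  have h1 : gdiam v = ENNReal.ofReal Real.pi := by
    refine hD v 1 1 (Real.log l) (by simp) one_pos fun z => ?_
    simp only [hv, neg_neg]
    rw [Real.exp_log (Real.cosh_pos _)]
    simp [Complex.inner]
  have h2 : gdist v (Complex.log (x - x₀)) (Complex.log (y - x₀)) ≤ Real.pi := by
    have := gdist_le_gdiam v (Complex.log (x - x₀)) (Complex.log (y - x₀))
    rw [h1] at this
    exact (ENNReal.ofReal_le_ofReal_iff Real.pi_pos.le).1 this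
  refine le_of_forall_pos_le_add fun ε hε => ?_
  have h3 : sInf {L : ℝ | ∃ γ : ℝ → ℂ, IsCurve γ (Complex.log (x - x₀)) (Complex.log (y - x₀)) ∧
      L = length v γ} < Real.pi + ε := by
    have : gdist v (Complex.log (x - x₀)) (Complex.log (y - x₀)) < Real.pi + ε := by linarith
    exact this
  have hne : {L : ℝ | ∃ γ : ℝ → ℂ, IsCurve γ (Complex.log (x - x₀)) (Complex.log (y - x₀)) ∧
      L = length v γ}.Nonempty := ⟨_, _, segment_curve _ _, rfl⟩
  obtain ⟨L, ⟨γ, hγ, rfl⟩, hL⟩ := exists_lt_of_csInf_lt hne h3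
  have h4 := exp_curve hγ x₀
  rw [Complex.exp_log (sub_ne_zero.2 hx), Complex.exp_log (sub_ne_zero.2 hy),
    add_sub_cancel, add_sub_cancel] at h4
  have h5 := gdist_le (u := u) h4
  rw [exp_length hl h hγ] at h5
  linarith

/-- the pair of the bubble metric -/
noncomputable def bub (x₀ : ℂ) (l : ℝ) (hl : 0 < l) : Pair where
  a := fun _ => ((1 / Real.sqrt l : ℝ) : ℂ)
  b := fun z => ((Real.sqrt l : ℝ) : ℂ) * (z - x₀)
  da := by fun_prop
  db := by fun_prop
  wr := by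
    intro z
    have h1 : deriv (fun z => ((Real.sqrt l : ℝ) : ℂ) * (z - x₀)) z = ((Real.sqrt l : ℝ) : ℂ) := by
      simp
    rw [h1, deriv_const, zero_mul, sub_zero, ← Complex.ofReal_mul,
      one_div_mul_cancel (Real.sqrt_pos.2 hl).ne', Complex.ofReal_one]

theorem bub_N (x₀ : ℂ) {l : ℝ} (hl : 0 < l) (z : ℂ) :
    (bub x₀ l hl).N z = (1 + l ^ 2 * ‖z - x₀‖ ^ 2) / l := by
  have hs : 0 < Real.sqrt l := Real.sqrt_pos.2 hl
  have hs2 : Real.sqrt l ^ 2 = l := Real.sq_sqrt hl.le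
  unfold Pair.N bub
  simp only [norm_mul, Complex.norm_real, Real.norm_eq_abs, abs_of_pos hs, abs_of_pos
    (one_div_pos.2 hs), mul_pow, div_pow, one_pow, hs2]
  field_simp

theorem bub_Z (x₀ : ℂ) {l : ℝ} (hl : 0 < l) (z : ℂ) :
    (bub x₀ l hl).Z x₀ z = (1 - l ^ 2 * ‖z - x₀‖ ^ 2) / (1 + l ^ 2 * ‖z - x₀‖ ^ 2) := by
  have hs : 0 < Real.sqrt l := Real.sqrt_pos.2 hl
  have hs2 : Real.sqrt l ^ 2 = l := Real.sq_sqrt hl.le
  have hN0 : (bub x₀ l hl).N x₀ = 1 / l := by rw [bub_N]; simp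
  have hsN : Real.sqrt ((bub x₀ l hl).N x₀) = 1 / Real.sqrt l := by
    rw [hN0, Real.sqrt_div zero_le_one, Real.sqrt_one]
  have hsc : ((Real.sqrt l : ℝ) : ℂ) ≠ 0 := by exact_mod_cast hs.ne'
  have hA : (bub x₀ l hl).A x₀ z = ((1 / Real.sqrt l : ℝ) : ℂ) := by
    unfold Pair.A Pair.Aco
    rw [hsN]
    simp only [bub, sub_self, mul_zero, map_zero, zero_mul, add_zero, Complex.conj_ofReal]
    rw [← Complex.ofReal_mul, ← Complex.ofReal_div]
    congr 1
    field_simp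
  have hB : (bub x₀ l hl).B x₀ z = ((Real.sqrt l : ℝ) : ℂ) * (z - x₀) := by
    unfold Pair.B Pair.Bco
    rw [hsN]
    simp only [bub, sub_self, mul_zero, zero_mul, sub_zero]
    push_cast
    field_simp
  unfold Pair.Z
  rw [hA, hB, bub_N, norm_mul, Complex.norm_real, Complex.norm_real, Real.norm_eq_abs,
    Real.norm_eq_abs, abs_of_pos hs, abs_of_pos (one_div_pos.2 hs), mul_pow, div_pow, one_pow, hs2]
  have h3 : 0 < 1 + l ^ 2 * ‖z - x₀‖ ^ 2 := by positivity
  field_simp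

theorem lower (hL : T_LIP) {u : ℂ → ℝ} {x₀ : ℂ} {l : ℝ} (hl : 0 < l)
    (h : ∀ z, Real.exp (-u z) = (1 + l ^ 2 * ‖z - x₀‖ ^ 2) / (2 * l)) (z : ℂ) :
    Real.arccos ((1 - l ^ 2 * ‖z - x₀‖ ^ 2) / (1 + l ^ 2 * ‖z - x₀‖ ^ 2)) ≤ gdist u x₀ z := by
  refine le_gdist fun γ hγ => ?_
  have h1 := hL (bub x₀ l hl) x₀ γ x₀ z 0 1 hγ (by simp) 0 1 le_rfl zero_le_one le_rfl
  have h2 : (bub x₀ l hl).len γ 0 1 = length u γ := by
    unfold Pair.len length
    refine intervalIntegral.integral_congr fun t _ => ?_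
    rw [bub_N, exp_u hl h]
    have h3 : 0 < 1 + l ^ 2 * ‖γ t - x₀‖ ^ 2 := by positivity
    field_simp
  rw [h2, hγ.source, hγ.target] at h1
  simp only [map_zero, zero_mul, Complex.zero_re, zero_add, one_mul, bub_Z] at h1
  simp only [sub_self, norm_zero, ne_eq, OfNat.ofNat_ne_zero, not_false_eq_true, zero_pow,
    mul_zero, sub_zero, add_zero, div_one, Real.arccos_one] at h1
  exact (le_abs_self _).trans h1

theorem tendsto_aux (l : ℝ) (hl : 0 < l) :
    Tendsto (fun n : ℕ => (1 - l ^ 2 * (n : ℝ) ^ 2) / (1 + l ^ 2 * (n : ℝ) ^ 2)) atTop (𝓝 (-1)) := by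
  have h1 : Tendsto (fun n : ℕ => 1 + l ^ 2 * (n : ℝ) ^ 2) atTop atTop := by
    refine tendsto_atTop_add_const_left _ _ ?_
    exact ((tendsto_pow_atTop two_ne_zero).comp tendsto_natCast_atTop_atTop).const_mul_atTop
      (by positivity)
  have h2 : Tendsto (fun n : ℕ => -1 + 2 / (1 + l ^ 2 * (n : ℝ) ^ 2)) atTop (𝓝 (-1 + 0)) :=
    tendsto_const_nhds.add (tendsto_const_nhds.div_atTop h1)
  rw [add_zero] at h2
  refine h2.congr fun n => ?_
  have : 0 < 1 + l ^ 2 * (n : ℝ) ^ 2 := by positivity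
  field_simp
  ring

end DIAMR_

theorem p_DIAMR (hL : T_LIP) (hD : T_DIAM1) : T_DIAMR := by
  intro u x₀ l hl h
  apply le_antisymm
  · refine iSup_le fun x => iSup_le fun y => ENNReal.ofReal_le_ofReal ?_
    exact DIAMR_.upper hD hl h x y
  · have h1 : Tendsto (fun n : ℕ => ENNReal.ofReal (Real.arccos
        ((1 - l ^ 2 * (n : ℝ) ^ 2) / (1 + l ^ 2 * (n : ℝ) ^ 2)))) atTop
        (𝓝 (ENNReal.ofReal (Real.arccos (-1)))) :=
      (ENNReal.continuous_ofReal.comp Real.continuous_arccos).continuousAt.tendsto.comp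
        (DIAMR_.tendsto_aux l hl)
    rw [Real.arccos_neg_one] at h1
    refine le_of_tendsto' h1 fun n => ?_
    refine le_trans ?_ (DIAMR_.gdist_le_gdiam u x₀ (x₀ + n))
    apply ENNReal.ofReal_le_ofReal
    have h2 := DIAMR_.lower hL hl h (x₀ + n)
    have h3 : ‖x₀ + (n : ℂ) - x₀‖ = n := by
      rw [add_sub_cancel_left, Complex.norm_natCast]
    rwa [h3] at h2

end Pool.Agent.Liou
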