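import Mathlib

/-!
# The Liouville equation `Δ u + e^{2u} = 0` on the plane

The plane `ℝ²` is identified with `ℂ`.
-/

set_option autoImplicit false

namespace Pool.Agent.Liou

/-- `u` is a solution of the Liouville equation `Δ u + e^{2u} = 0` on `ℝ² = ℂ`, of class `C²`. -/
structure IsSol (u : ℂ → ℝ) : Prop where
  smooth : ContDiff ℝ 2 u
  eq : ∀ z, Laplacian.laplacian u z + Real.exp (2 * u z) = 0

/-- piecewise `C¹` curves `γ : [0,1] → ℝ²` from `x` to `y` -/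
structure IsCurve (γ : ℝ → ℂ) (x y : ℂ) : Prop where
  source : γ 0 = x
  target : γ 1 = y
  cont : ContinuousOn γ (Set.Icc 0 1)
  pieces : ∃ (n : ℕ) (s : ℕ → ℝ), s 0 = 0 ∧ s n = 1 ∧ (∀ i < n, s i < s (i + 1)) ∧
    ∀ i < n, ContDiffOn ℝ 1 γ (Set.Icc (s i) (s (i + 1)))

/-- the length of a curve in the metric `e^{2u} δ` -/
noncomputable def length (u : ℂ → ℝ) (γ : ℝ → ℂ) : ℝ :=
  ∫ t in (0 : ℝ)..1, Real.exp (u (γ t)) * ‖deriv γ t‖

/-- the length distance of the metric `e^{2u} δ` -/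
noncomputable def gdist (u : ℂ → ℝ) (x y : ℂ) : ℝ :=
  sInf {L : ℝ | ∃ γ : ℝ → ℂ, IsCurve γ x y ∧ L = length u γ}

/-- the diameter of `(ℝ², e^{2u} δ)` -/
noncomputable def gdiam (u : ℂ → ℝ) : ENNReal :=
  ⨆ x : ℂ, ⨆ y : ℂ, ENNReal.ofReal (gdist u x y)

/-- `u` is radial up to translation -/
def IsRadial (u : ℂ → ℝ) : Prop := ∃ (x₀ : ℂ) (φ : ℝ → ℝ), ∀ x, u x = φ ‖x - x₀‖

/-- `u` is one-dimensional -/
def IsOneDim (u : ℂ → ℝ) : Prop := ∃ e : ℂ, ‖e‖ = 1 ∧ ∃ f : ℝ → ℝ, ∀ x, u x = f (inner ℝ x e)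

end Pool.Agent.Liou
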