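import Pool.Agent.Liou.Targets

/-! Job EXP: constant antipodal singular pair gives a one-dimensional solution. -/

set_option autoImplicit false

open Complex ComplexConjugate Set Filter Topology

namespace Pool.Agent.Liou

namespace EXP_

/-- the coordinate change -/
noncomputable def mob (F G : ℂ → ℂ) (x om : ℂ) : ℂ :=
  (F x * om - G x) / (conj (F x) + conj (G x) * om)

/-- the half plane at `x` -/
def HH (F G : ℂ → ℂ) (x : ℂ) : Set ℂ := {om | 0 < (om * (conj (G x) * F x)).re}

/-- the section of `G / F` over the half plane -/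
noncomputable def Psi (P : Pair) (F G : ℂ → ℂ) (x om : ℂ) : ℂ := P.sec x (mob F G x om)

/-- the rotated pair -/
structure Dat (P : Pair) (F G : ℂ → ℂ) (n : ℝ) : Prop where
  hn : 0 < n
  dF : Differentiable ℂ F
  dG : Differentiable ℂ G
  wr : ∀ z, F z * deriv G z - deriv F z * G z = n
  det : ∀ x z, F x * G z - G x * F z = n * (P.a x * P.b z - P.b x * P.a z)
  inn : ∀ x z, conj (F x) * F z + conj (G x) * G z =
    n * (conj (P.a x) * P.a z + conj (P.b x) * P.b z)
  F0 : ∀ z, F z ≠ 0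
  G0 : ∀ z, G z ≠ 0
  cpl : ∀ x w, w ∉ P.S x → ∃ t : ℝ, 1 ≤ t ∧
    (w = t * (-G x / conj (F x)) ∨ w = t * (F x / conj (G x)))

variable {P : Pair} {F G : ℂ → ℂ} {n : ℝ}

theorem HH_convex (F G : ℂ → ℂ) (x : ℂ) : Convex ℝ (HH F G x) := by
  intro u hu v hv s t hs ht hst
  simp only [HH, mem_ofPred_eq] at hu hv ⊢
  have h : ((s • u + t • v) * (conj (G x) * F x)).re =
      s * (u * (conj (G x) * F x)).re + t * (v * (conj (G x) * F x)).re := by
    have : (s • u + t • v) * (conj (G x) * F x) =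
        (s : ℂ) * (u * (conj (G x) * F x)) + (t : ℂ) * (v * (conj (G x) * F x)) := by
      rw [Complex.real_smul, Complex.real_smul]; ring
    rw [this, Complex.add_re, Complex.re_ofReal_mul, Complex.re_ofReal_mul]
  rw [h]
  rcases hs.eq_or_lt with rfl | hs'
  · have : t = 1 := by linarith
    subst this
    simpa using hv
  · have h1 : 0 < s * (u * (conj (G x) * F x)).re := mul_pos hs' hu
    have h2 : 0 ≤ t * (v * (conj (G x) * F x)).re := mul_nonneg ht hv.le
    linarith

theorem HH_open (F G : ℂ → ℂ) (x : ℂ) : IsOpen (HH F G x) := by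
  have : Continuous fun om : ℂ => (om * (conj (G x) * F x)).re := by fun_prop
  exact isOpen_lt continuous_const this

theorem self_mem (D : Dat P F G n) {μ : ℂ} (hμ : 0 < μ.re) (x : ℂ) :
    μ * (G x / F x) ∈ HH F G x := by
  simp only [HH, mem_ofPred_eq]
  have hF := D.F0 x
  have : μ * (G x / F x) * (conj (G x) * F x) = μ * ((‖G x‖ ^ 2 : ℝ) : ℂ) := by
    rw [Complex.ofReal_pow, ← Complex.conj_mul']
    field_simp
  rw [this, Complex.re_mul_ofReal]
  have := norm_pos_iff.2 (D.G0 x)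
  positivity

theorem den_ne (D : Dat P F G n) {x om : ℂ} (h : om ∈ HH F G x) :
    conj (F x) + conj (G x) * om ≠ 0 := by
  intro h0
  simp only [HH, mem_ofPred_eq] at h
  have h1 : (conj (F x) + conj (G x) * om) * F x = 0 := by rw [h0, zero_mul]
  have h2 : (conj (F x) + conj (G x) * om) * F x =
      ((‖F x‖ ^ 2 : ℝ) : ℂ) + om * (conj (G x) * F x) := by
    rw [Complex.ofReal_pow, ← Complex.conj_mul']
    ring
  rw [h2] at h1
  have h3 := congrArg Complex.re h1
  rw [Complex.add_re, Complex.ofReal_re, Complex.zero_re] at h3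
  have := norm_pos_iff.2 (D.F0 x)
  have : 0 < ‖F x‖ ^ 2 := by positivity
  linarith

theorem mob_mem (D : Dat P F G n) {x om : ℂ} (h : om ∈ HH F G x) : mob F G x om ∈ P.S x := by
  by_contra hn
  obtain ⟨t, ht, h1⟩ := D.cpl x _ hn
  have hd := den_ne D h
  have hF := D.F0 x
  have hG := D.G0 x
  have hFc : conj (F x) ≠ 0 := (map_ne_zero _).2 hF
  have hGc : conj (G x) ≠ 0 := (map_ne_zero _).2 hG
  simp only [HH, mem_ofPred_eq] at h
  have hFp := norm_pos_iff.2 hF
  have hGp := norm_pos_iff.2 hG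
  have eF : ((‖F x‖ ^ 2 : ℝ) : ℂ) = conj (F x) * F x := by
    rw [Complex.ofReal_pow, ← Complex.conj_mul']
  have eG : ((‖G x‖ ^ 2 : ℝ) : ℂ) = conj (G x) * G x := by
    rw [Complex.ofReal_pow, ← Complex.conj_mul']
  unfold mob at h1
  rcases h1 with h1 | h1
  · rw [div_eq_iff hd] at h1
    have h2 : om * (conj (G x) * F x) * ((‖F x‖ ^ 2 + t * ‖G x‖ ^ 2 : ℝ) : ℂ) =
        ((1 - t : ℝ) : ℂ) * ((‖F x‖ ^ 2 : ℝ) : ℂ) * ((‖G x‖ ^ 2 : ℝ) : ℂ) := by
      rw [Complex.ofReal_add, Complex.ofReal_mul, eF, eG]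
      field_simp at h1
      push_cast
      linear_combination (conj (G x) * F x) * h1
    have h3 := congrArg Complex.re h2
    rw [Complex.re_mul_ofReal, ← Complex.ofReal_mul, ← Complex.ofReal_mul,
      Complex.ofReal_re] at h3
    have h4 : 0 < (om * (conj (G x) * F x)).re * (‖F x‖ ^ 2 + t * ‖G x‖ ^ 2) := by positivity
    have h5 : (1 - t) * ‖F x‖ ^ 2 * ‖G x‖ ^ 2 ≤ 0 := by
      have : 0 ≤ (t - 1) * ‖F x‖ ^ 2 * ‖G x‖ ^ 2 := by
        have : 0 ≤ t - 1 := by linarith
        positivity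
      linarith
    linarith
  · rw [div_eq_iff hd] at h1
    have h2 : om * (conj (G x) * F x) * ((1 - t : ℝ) : ℂ) =
        ((‖G x‖ ^ 2 + t * ‖F x‖ ^ 2 : ℝ) : ℂ) := by
      rw [Complex.ofReal_add, Complex.ofReal_mul, eF, eG]
      field_simp at h1
      push_cast
      linear_combination h1
    have h3 := congrArg Complex.re h2
    rw [Complex.re_mul_ofReal, Complex.ofReal_re] at h3
    have h4 : 0 < ‖G x‖ ^ 2 + t * ‖F x‖ ^ 2 := by positivity
    have h5 : (om * (conj (G x) * F x)).re * (1 - t) ≤ 0 := by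
      have : 0 ≤ (om * (conj (G x) * F x)).re * (t - 1) := by
        have : 0 ≤ t - 1 := by linarith
        positivity
      linarith
    linarith

theorem mob_cont (D : Dat P F G n) (x : ℂ) : DifferentiableOn ℂ (mob F G x) (HH F G x) := by
  intro om hom
  unfold mob
  refine DifferentiableAt.differentiableWithinAt ?_
  exact DifferentiableAt.div (by fun_prop) (by fun_prop) (den_ne D hom)

theorem psi_diff (D : Dat P F G n) {x : ℂ} (hs : SecFacts P x) :
    DifferentiableOn ℂ (Psi P F G x) (HH F G x) := by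
  unfold Psi
  exact hs.diff.comp (mob_cont D x) fun om hom => mob_mem D hom

theorem psi_eq (D : Dat P F G n) {x : ℂ} (hs : SecFacts P x) {om : ℂ} (h : om ∈ HH F G x) :
    G (Psi P F G x om) = om * F (Psi P F G x om) := by
  have hm := mob_mem D h
  have h1 := hs.eq _ hm
  set z := P.sec x (mob F G x om) with hz
  change G z = om * F z
  have h0 := P.sqrtN_ne x
  have hd := den_ne D h
  have hnn : (n : ℂ) ≠ 0 := by exact_mod_cast D.hn.ne'
  have h2 : P.a x * P.b z - P.b x * P.a z =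
      mob F G x om * (conj (P.a x) * P.a z + conj (P.b x) * P.b z) := by
    unfold Pair.A Pair.B Pair.Aco Pair.Bco at h1
    rw [← mul_div_assoc, div_left_inj' h0] at h1
    exact h1
  have h3 : F x * G z - G x * F z = mob F G x om * (conj (F x) * F z + conj (G x) * G z) := by
    rw [D.det, D.inn, h2]; ring
  unfold mob at h3
  rw [div_mul_eq_mul_div, eq_div_iff hd] at h3
  have h4 : (conj (F x) * F x + conj (G x) * G x) * (G z - om * F z) = 0 := by
    linear_combination h3
  have h5 : conj (F x) * F x + conj (G x) * G x ≠ 0 := by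
    rw [Complex.conj_mul', Complex.conj_mul', ← Complex.ofReal_pow, ← Complex.ofReal_pow,
      ← Complex.ofReal_add]
    have := norm_pos_iff.2 (D.F0 x)
    have : 0 < ‖F x‖ ^ 2 + ‖G x‖ ^ 2 := by positivity
    exact_mod_cast this.ne'
  have h6 := (mul_eq_zero.1 h4).resolve_left h5
  linear_combination h6

theorem psi_self (D : Dat P F G n) {x : ℂ} (hs : SecFacts P x) :
    Psi P F G x (G x / F x) = x := by
  have : mob F G x (G x / F x) = 0 := by
    unfold mob
    rw [mul_div_cancel₀ _ (D.F0 x), sub_self, zero_div]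
  unfold Psi
  rw [this, hs.zero]

/-- the function `f = G / F` -/
noncomputable def ff (F G : ℂ → ℂ) (z : ℂ) : ℂ := G z / F z

theorem ff_deriv (D : Dat P F G n) (z : ℂ) :
    HasDerivAt (ff F G) ((n : ℂ) / F z ^ 2) z := by
  have h := (D.dG z).hasDerivAt.div (D.dF z).hasDerivAt (D.F0 z)
  have e : (deriv G z * F z - G z * deriv F z) / F z ^ 2 = (n : ℂ) / F z ^ 2 := by
    rw [← D.wr z]; ring
  rw [e] at h
  exact h

theorem ff_diff (D : Dat P F G n) : Differentiable ℂ (ff F G) :=
  fun z => (ff_deriv D z).differentiableAt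

theorem ff_locInj (D : Dat P F G n) : IsLocallyInjective (ff F G) := by
  intro z
  have hn : (n : ℂ) ≠ 0 := by exact_mod_cast D.hn.ne'
  have hne : deriv (ff F G) z ≠ 0 := by
    rw [(ff_deriv D z).deriv]
    exact div_ne_zero hn (pow_ne_zero _ (D.F0 z))
  have hs : HasStrictDerivAt (ff F G) (deriv (ff F G) z) z :=
    ((ff_diff D).analyticAt z).hasStrictDerivAt
  have hfd := hs.hasStrictFDerivAt_equiv hne
  refine ⟨(hfd.toOpenPartialHomeomorph _).source, (hfd.toOpenPartialHomeomorph _).open_source,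
    hfd.mem_toOpenPartialHomeomorph_source, ?_⟩
  exact (hfd.toOpenPartialHomeomorph _).injOn

theorem uniq (D : Dat P F G n) {K : Set ℂ} (hK : IsPreconnected K) {φ₁ φ₂ : ℂ → ℂ}
    (h1 : ContinuousOn φ₁ K) (h2 : ContinuousOn φ₂ K)
    (e1 : ∀ om ∈ K, G (φ₁ om) = om * F (φ₁ om)) (e2 : ∀ om ∈ K, G (φ₂ om) = om * F (φ₂ om))
    {om : ℂ} (hom : om ∈ K) (h : φ₁ om = φ₂ om) : EqOn φ₁ φ₂ K := by
  refine (T2Space.isSeparatedMap (ff F G)).eqOn_of_comp_eqOn (ff_locInj D) hK h1 h2 ?_ hom h
  intro w hw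
  simp only [Function.comp_apply, ff]
  rw [e1 w hw, e2 w hw, mul_div_cancel_right₀ _ (D.F0 _), mul_div_cancel_right₀ _ (D.F0 _)]

/-- the deck map -/
noncomputable def DD (P : Pair) (F G : ℂ → ℂ) (μ x : ℂ) : ℂ := Psi P F G x (μ * (G x / F x))

theorem dd_eq (D : Dat P F G n) (hs : ∀ x, SecFacts P x) {μ : ℂ} (hμ : 0 < μ.re) (x : ℂ) :
    ff F G (DD P F G μ x) = μ * ff F G x := by
  have h := psi_eq D (hs x) (self_mem D hμ x)
  unfold DD ff
  rw [h, mul_div_cancel_right₀ _ (D.F0 _)]

theorem dd_inv (D : Dat P F G n) (hs : ∀ x, SecFacts P x) {μ : ℂ} (hμ : 0 < μ.re) (x : ℂ) :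
    DD P F G μ⁻¹ (DD P F G μ x) = x := by
  have hμ0 : μ ≠ 0 := by
    rintro rfl; simp at hμ
  set y := DD P F G μ x with hy
  have hfy : G y / F y = μ * (G x / F x) := dd_eq D hs hμ x
  have hK : IsPreconnected (HH F G x ∩ HH F G y) :=
    ((HH_convex F G x).inter (HH_convex F G y)).isPreconnected
  have h1m : (1 : ℂ) * (G y / F y) ∈ HH F G y := self_mem D (by simp) y
  have h1x : (1 : ℂ) * (G x / F x) ∈ HH F G x := self_mem D (by simp) x
  rw [one_mul] at h1m h1x
  have hyK : G y / F y ∈ HH F G x ∩ HH F G y := by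
    refine ⟨?_, h1m⟩
    rw [hfy]
    exact self_mem D hμ x
  have hinv : 0 < (μ⁻¹).re := by
    rw [Complex.inv_re]
    exact div_pos hμ (Complex.normSq_pos.2 hμ0)
  have hxy : G x / F x = μ⁻¹ * (G y / F y) := by
    rw [hfy]; field_simp
  have hxK : G x / F x ∈ HH F G x ∩ HH F G y := by
    refine ⟨h1x, ?_⟩
    rw [hxy]
    exact self_mem D hinv y
  have huni := uniq D hK ((psi_diff D (hs x)).continuousOn.mono inter_subset_left)
    ((psi_diff D (hs y)).continuousOn.mono inter_subset_right)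
    (fun om hom => psi_eq D (hs x) hom.1) (fun om hom => psi_eq D (hs y) hom.2) hyK (by
      rw [psi_self D (hs y), hfy]
      rfl)
  have h := huni hxK
  rw [psi_self D (hs x)] at h
  unfold DD
  rw [← hxy]
  exact h.symm

theorem dd_diff (D : Dat P F G n) (hs : ∀ x, SecFacts P x) {μ : ℂ} (hμ : 0 < μ.re) :
    Differentiable ℂ (DD P F G μ) := by
  intro x₀
  -- near `x₀` the deck map is given by the section at `x₀`
  have hcf : Continuous (ff F G) := (ff_diff D).continuous
  have h10 : (1 : ℂ) * (G x₀ / F x₀) ∈ HH F G x₀ := self_mem D (by simp) x₀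
  rw [one_mul] at h10
  have hΨd : ∀ om ∈ HH F G x₀, DifferentiableAt ℂ (Psi P F G x₀) om := fun om hom =>
    (psi_diff D (hs x₀)).differentiableAt ((HH_open F G x₀).mem_nhds hom)
  have hev1 : ∀ᶠ x in 𝓝 x₀, ff F G x ∈ HH F G x₀ :=
    (hcf.continuousAt (x := x₀)).eventually ((HH_open F G x₀).mem_nhds h10)
  have hμm : μ * (G x₀ / F x₀) ∈ HH F G x₀ := self_mem D hμ x₀
  have hcμ : ContinuousAt (fun x => μ * ff F G x) x₀ := by fun_prop
  have hev2 : ∀ᶠ x in 𝓝 x₀, μ * ff F G x ∈ HH F G x₀ :=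
    hcμ.eventually ((HH_open F G x₀).mem_nhds hμm)
  obtain ⟨U, hUo, hUx, hUi⟩ := ff_locInj D x₀
  have hΨc : ContinuousAt (fun x => Psi P F G x₀ (ff F G x)) x₀ := by
    have h1 : ContinuousAt (Psi P F G x₀) (ff F G x₀) := (hΨd _ h10).continuousAt
    exact h1.comp (hcf.continuousAt)
  have hev3 : ∀ᶠ x in 𝓝 x₀, Psi P F G x₀ (ff F G x) ∈ U := by
    refine hΨc.eventually (hUo.mem_nhds ?_)
    have : Psi P F G x₀ (ff F G x₀) = x₀ := psi_self D (hs x₀)
    change Psi P F G x₀ (ff F G x₀) ∈ U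
    rw [this]
    exact hUx
  have hev4 : ∀ᶠ x in 𝓝 x₀, x ∈ U := hUo.mem_nhds hUx
  have hev : DD P F G μ =ᶠ[𝓝 x₀] fun x => Psi P F G x₀ (μ * ff F G x) := by
    filter_upwards [hev1, hev2, hev3, hev4] with x h1 h2 h3 h4
    have h5 : Psi P F G x₀ (ff F G x) = x := by
      refine hUi h3 h4 ?_
      have := psi_eq D (hs x₀) h1
      change G _ / F _ = ff F G x
      rw [this, mul_div_cancel_right₀ _ (D.F0 _)]
    have hK : IsPreconnected (HH F G x ∩ HH F G x₀) :=
      ((HH_convex F G x).inter (HH_convex F G x₀)).isPreconnected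
    have h1x : (1 : ℂ) * (G x / F x) ∈ HH F G x := self_mem D (by simp) x
    rw [one_mul] at h1x
    have huni := uniq D hK ((psi_diff D (hs x)).continuousOn.mono inter_subset_left)
      ((psi_diff D (hs x₀)).continuousOn.mono inter_subset_right)
      (fun om hom => psi_eq D (hs x) hom.1) (fun om hom => psi_eq D (hs x₀) hom.2)
      (⟨h1x, h1⟩ : G x / F x ∈ HH F G x ∩ HH F G x₀) (by
        rw [psi_self D (hs x)]
        exact h5.symm)
    exact huni (⟨self_mem D hμ x, h2⟩ : μ * (G x / F x) ∈ HH F G x ∩ HH F G x₀)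
  refine DifferentiableAt.congr_of_eventuallyEq ?_ hev
  have h1 : DifferentiableAt ℂ (Psi P F G x₀) (μ * ff F G x₀) := hΨd _ hμm
  have h2 : DifferentiableAt ℂ (fun x => μ * ff F G x) x₀ := ((ff_diff D) x₀).const_mul μ
  exact DifferentiableAt.comp (g := Psi P F G x₀) x₀ h1 h2

theorem dd_inj (D : Dat P F G n) (hs : ∀ x, SecFacts P x) {μ : ℂ} (hμ : 0 < μ.re) :
    Function.Injective (DD P F G μ) :=
  Function.LeftInverse.injective (g := DD P F G μ⁻¹) (dd_inv D hs hμ)

theorem ff_ne (D : Dat P F G n) (z : ℂ) : ff F G z ≠ 0 := div_ne_zero (D.G0 z) (D.F0 z)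

/-- the deck maps are translations -/
theorem dd_trans (hI : T_INJ) (D : Dat P F G n) (hs : ∀ x, SecFacts P x) {μ : ℂ}
    (hμ : 0 < μ.re) (hμ1 : μ ≠ 1) (z : ℂ) : DD P F G μ z = z + DD P F G μ 0 := by
  obtain ⟨c, d, hc, h⟩ := hI _ (dd_diff D hs hμ) (dd_inj D hs hμ)
  have hnf : ∀ z, DD P F G μ z ≠ z := by
    intro z hz
    have h1 := dd_eq D hs hμ z
    rw [hz] at h1
    have h2 : (μ - 1) * ff F G z = 0 := by linear_combination -h1
    rcases mul_eq_zero.1 h2 with h3 | h3
    · exact hμ1 (by linear_combination h3)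
    · exact ff_ne D z h3
  have hc1 : c = 1 := by
    by_contra hc1
    have : 1 - c ≠ 0 := fun h => hc1 (by linear_combination -h)
    apply hnf (d / (1 - c))
    rw [h]
    field_simp
    ring
  rw [h z, h 0, hc1]
  ring

theorem ff_exp (hI : T_INJ) (D : Dat P F G n) (hs : ∀ x, SecFacts P x) (z : ℂ) :
    deriv (ff F G) z * ff F G 0 = deriv (ff F G) 0 * ff F G z := by
  -- the translation lengths
  set d : ℂ → ℂ := fun μ => DD P F G μ 0 with hd
  have h10 : (1 : ℂ) * (G 0 / F 0) ∈ HH F G 0 := self_mem D (by simp) 0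
  have hd1 : d 1 = 0 := by
    simp only [hd, DD, one_mul]
    exact psi_self D (hs 0)
  have hdc : ContinuousAt d 1 := by
    have h1 : ContinuousAt (Psi P F G 0) (1 * (G 0 / F 0)) :=
      ((psi_diff D (hs 0)).differentiableAt ((HH_open F G 0).mem_nhds h10)).continuousAt
    have h2 : ContinuousAt (fun μ : ℂ => μ * (G 0 / F 0)) 1 := by fun_prop
    exact ContinuousAt.comp (g := Psi P F G 0) h1 h2
  have hre : ∀ᶠ μ in 𝓝[≠] (1 : ℂ), 0 < μ.re := by
    have : ∀ᶠ μ in 𝓝 (1 : ℂ), 0 < μ.re :=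
      Complex.continuous_re.continuousAt.eventually (lt_mem_nhds (by simp))
    exact this.filter_mono nhdsWithin_le_nhds
  have hne : ∀ᶠ μ in 𝓝[≠] (1 : ℂ), μ ≠ 1 := self_mem_nhdsWithin
  have hdt : Tendsto d (𝓝[≠] 1) (𝓝[≠] 0) := by
    refine tendsto_nhdsWithin_iff.2 ⟨?_, ?_⟩
    · have := hdc.tendsto
      rw [hd1] at this
      exact this.mono_left nhdsWithin_le_nhds
    · filter_upwards [hre, hne] with μ h1 h2 h3
      have h4 := dd_eq D hs h1 0
      have h5 : DD P F G μ 0 = 0 := h3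
      rw [h5] at h4
      have h2' : (μ - 1) * ff F G 0 = 0 := by linear_combination -h4
      rcases mul_eq_zero.1 h2' with h6 | h6
      · exact h2 (by linear_combination h6)
      · exact ff_ne D 0 h6
  have key : ∀ z, Tendsto (fun μ => (d μ)⁻¹ * (μ - 1) * ff F G z) (𝓝[≠] 1)
      (𝓝 (deriv (ff F G) z)) := by
    intro z
    have h1 : Tendsto (fun t => t⁻¹ • (ff F G (z + t) - ff F G z)) (𝓝[≠] 0)
        (𝓝 (deriv (ff F G) z)) :=
      hasDerivAt_iff_tendsto_slope_zero.1 ((ff_diff D) z).hasDerivAt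
    have h2 := h1.comp hdt
    refine h2.congr' ?_
    filter_upwards [hre, hne] with μ h3 h4
    have h5 := dd_eq D hs h3 z
    rw [dd_trans hI D hs h3 h4 z] at h5
    simp only [Function.comp_apply, smul_eq_mul]
    rw [show d μ = DD P F G μ 0 from rfl, h5]
    ring
  have h1 := (key z).mul_const (ff F G 0)
  have h2 := (key 0).mul_const (ff F G z)
  refine tendsto_nhds_unique h1 (h2.congr fun μ => ?_)
  ring

theorem final (hI : T_INJ) (D : Dat P F G n) (hs : ∀ x, SecFacts P x)
    (hN : ∀ z, ‖F z‖ ^ 2 + ‖G z‖ ^ 2 = n * P.N z) :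
    ∃ e : ℂ, ‖e‖ = 1 ∧ ∃ f : ℝ → ℝ, ∀ z, P.N z = f (inner ℝ z e) := by
  have hn : (n : ℂ) ≠ 0 := by exact_mod_cast D.hn.ne'
  set k : ℂ := deriv (ff F G) 0 / ff F G 0 with hk
  have hd0 : deriv (ff F G) 0 ≠ 0 := by
    rw [(ff_deriv D 0).deriv]
    exact div_ne_zero hn (pow_ne_zero _ (D.F0 0))
  have hk0 : k ≠ 0 := div_ne_zero hd0 (ff_ne D 0)
  have hder : ∀ z, deriv (ff F G) z = k * ff F G z := by
    intro z
    have h := ff_exp hI D hs z
    have h0 := ff_ne D 0
    rw [hk, div_mul_eq_mul_div, eq_div_iff h0, h]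
  have hexp : ∀ z, ff F G z = ff F G 0 * Complex.exp (k * z) := by
    have hg : ∀ z, HasDerivAt (fun z => ff F G z * Complex.exp (-(k * z))) 0 z := by
      intro z
      have h1 : HasDerivAt (ff F G) (k * ff F G z) z := by
        rw [← hder z]
        exact ((ff_diff D) z).hasDerivAt
      have h2 : HasDerivAt (fun z => Complex.exp (-(k * z)))
          (Complex.exp (-(k * z)) * (-(k * 1))) z :=
        (((hasDerivAt_id z).const_mul k).neg).cexp
      have h3 := h1.mul h2
      have e : k * ff F G z * Complex.exp (-(k * z)) +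
          ff F G z * (Complex.exp (-(k * z)) * (-(k * 1))) = 0 := by ring
      rw [e] at h3
      exact h3
    intro z
    have h1 := is_const_of_deriv_eq_zero (fun z => (hg z).differentiableAt)
      (fun z => (hg z).deriv) z 0
    simp only [mul_zero, neg_zero, Complex.exp_zero, mul_one] at h1
    rw [← h1, mul_assoc, ← Complex.exp_add]
    simp
  have hkp : 0 < ‖k‖ := norm_pos_iff.2 hk0
  have hf0 : 0 < ‖ff F G 0‖ := norm_pos_iff.2 (ff_ne D 0)
  refine ⟨conj k / ‖k‖, ?_, fun s => (‖ff F G 0‖ * Real.exp (‖k‖ * s) +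
    (‖ff F G 0‖ * Real.exp (‖k‖ * s))⁻¹) / ‖k‖, ?_⟩
  · rw [norm_div, Complex.norm_conj, Complex.norm_real, norm_norm, div_self hkp.ne']
  · intro z
    have hin : ‖k‖ * inner ℝ z (conj k / ‖k‖) = (k * z).re := by
      have e : inner ℝ z (conj k / (‖k‖ : ℂ)) = ((k * z).re) / ‖k‖ := by
        rw [Complex.inner]
        have : conj k / (‖k‖ : ℂ) * conj z = conj (k * z) / (‖k‖ : ℂ) := by
          rw [map_mul]; ring
        rw [this, Complex.div_ofReal_re, Complex.conj_re]
      rw [e, mul_div_cancel₀ _ hkp.ne']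
    have habs : ‖ff F G z‖ = ‖ff F G 0‖ * Real.exp (‖k‖ * inner ℝ z (conj k / ‖k‖)) := by
      rw [hexp z, norm_mul, Complex.norm_exp, hin]
    simp only
    rw [← habs]
    have hfz : 0 < ‖ff F G z‖ := norm_pos_iff.2 (ff_ne D z)
    have hFz : 0 < ‖F z‖ := norm_pos_iff.2 (D.F0 z)
    have h1 : ‖ff F G z‖ = ‖G z‖ / ‖F z‖ := by rw [ff, norm_div]
    have h2 : n / ‖F z‖ ^ 2 = ‖k‖ * ‖ff F G z‖ := by
      have h3 : (n : ℂ) / F z ^ 2 = k * ff F G z := by
        rw [← hder z, (ff_deriv D z).deriv]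
      have h4 := congrArg norm h3
      rw [norm_div, norm_mul, norm_pow, Complex.norm_real, Real.norm_eq_abs,
        abs_of_pos D.hn] at h4
      exact h4
    have h3 : ‖G z‖ = ‖ff F G z‖ * ‖F z‖ := by rw [h1]; field_simp
    have h4 := hN z
    have h5 : n = ‖k‖ * ‖ff F G z‖ * ‖F z‖ ^ 2 := by
      rw [← h2]; field_simp
    have h6 : n * P.N z = n * ((‖ff F G z‖ + ‖ff F G z‖⁻¹) / ‖k‖) := by
      rw [← h4, h3]
      nth_rewrite 1 [h5]
      field_simp
      ring
    exact mul_left_cancel₀ D.hn.ne' h6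

end EXP_

open EXP_ in
theorem p_EXP (h1 : T_SEC) (_h2 : T_UNI) (h3 : T_TRI) (h4 : T_INJ) : T_EXP := by
  intro P p q p' q' hS hpq hor hsing
  have hn : 0 < ‖p‖ ^ 2 + ‖q‖ ^ 2 := by
    rcases eq_or_ne p 0 with rfl | hp
    · rcases eq_or_ne q 0 with rfl | hq
      · simp at hpq
      · have := norm_pos_iff.2 hq
        positivity
    · have := norm_pos_iff.2 hp
      positivity
  set n : ℝ := ‖p‖ ^ 2 + ‖q‖ ^ 2 with hn_def
  have hnc : (n : ℂ) = conj p * p + conj q * q := by
    rw [hn_def, Complex.ofReal_add, Complex.ofReal_pow, Complex.ofReal_pow,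
      ← Complex.conj_mul', ← Complex.conj_mul']
  set F : ℂ → ℂ := fun z => conj p * P.a z + conj q * P.b z with hF
  set G : ℂ → ℂ := fun z => p * P.b z - q * P.a z with hG
  -- the two singular points
  have hA1 : ∀ x, P.Aco x p q = conj (F x) / (Real.sqrt (P.N x) : ℂ) := by
    intro x
    simp only [hF, Pair.Aco, map_add, map_mul, Complex.conj_conj]
    ring
  have hB1 : ∀ x, P.Bco x p q = -G x / (Real.sqrt (P.N x) : ℂ) := by
    intro x
    simp only [hG, Pair.Bco]
    ring
  have hA2 : ∀ x, (n : ℂ) * P.Aco x p' q' =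
      (p * q' - q * p') * conj (G x) / (Real.sqrt (P.N x) : ℂ) := by
    intro x
    simp only [hG, Pair.Aco, map_sub, map_mul]
    rw [hnc, ← mul_div_assoc]
    congr 1
    linear_combination (p * conj (P.a x) + q * conj (P.b x)) * hor
  have hB2 : ∀ x, (n : ℂ) * P.Bco x p' q' =
      (p * q' - q * p') * F x / (Real.sqrt (P.N x) : ℂ) := by
    intro x
    simp only [hF, Pair.Bco]
    rw [hnc, ← mul_div_assoc]
    congr 1
    linear_combination (q * P.a x - p * P.b x) * hor
  have hnn : (n : ℂ) ≠ 0 := by exact_mod_cast hn.ne'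
  have hF0 : ∀ z, F z ≠ 0 := by
    intro z h
    apply (hsing z).1.1
    rw [hA1, h, map_zero, zero_div]
  have hG0 : ∀ z, G z ≠ 0 := by
    intro z h
    apply (hsing z).2.1
    have := hA2 z
    rw [h, map_zero, mul_zero, zero_div] at this
    exact (mul_eq_zero.1 this).resolve_left hnn
  have hs1 : ∀ x, P.Bco x p q / P.Aco x p q = -G x / conj (F x) := by
    intro x
    rw [hA1, hB1, div_div_div_cancel_right₀ (P.sqrtN_ne x)]
  have hs2 : ∀ x, P.Bco x p' q' / P.Aco x p' q' = F x / conj (G x) := by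
    intro x
    rw [← mul_div_mul_left _ _ hnn, hA2, hB2, div_div_div_cancel_right₀ (P.sqrtN_ne x),
      mul_div_mul_left _ _ (sub_ne_zero.2 hpq)]
  have D : Dat P F G n := by
    refine ⟨hn, ?_, ?_, ?_, ?_, ?_, hF0, hG0, ?_⟩
    · exact (P.da.const_mul _).add (P.db.const_mul _)
    · exact (P.db.const_mul _).sub (P.da.const_mul _)
    · intro z
      have e1 : deriv G z = p * deriv P.b z - q * deriv P.a z := by
        have : HasDerivAt G (p * deriv P.b z - q * deriv P.a z) z :=
          ((P.db z).hasDerivAt.const_mul p).sub ((P.da z).hasDerivAt.const_mul q)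
        exact this.deriv
      have e2 : deriv F z = conj p * deriv P.a z + conj q * deriv P.b z := by
        have : HasDerivAt F (conj p * deriv P.a z + conj q * deriv P.b z) z :=
          ((P.da z).hasDerivAt.const_mul _).add ((P.db z).hasDerivAt.const_mul _)
        exact this.deriv
      rw [e1, e2, hnc]
      simp only [hF, hG]
      linear_combination (conj p * p + conj q * q) * P.wr z
    · intro x z
      rw [hnc]
      simp only [hF, hG]
      ring
    · intro x z
      rw [hnc]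
      simp only [hF, hG, map_add, map_sub, map_mul, Complex.conj_conj]
      ring
    · intro x w hw
      obtain ⟨α, hα, hline⟩ := h3 P x hS
      obtain ⟨⟨_, g1, g2⟩, ⟨_, g3, g4⟩⟩ := hsing x
      rw [hs1] at g1 g2
      rw [hs2] at g3 g4
      obtain ⟨t, rfl⟩ := hline w hw
      obtain ⟨t1, e1⟩ := hline _ g1
      obtain ⟨t2, e2⟩ := hline _ g3
      have hFc : conj (F x) ≠ 0 := (map_ne_zero _).2 (hF0 x)
      have hGc : conj (G x) ≠ 0 := (map_ne_zero _).2 (hG0 x)
      have hprod : conj (-G x / conj (F x)) * (F x / conj (G x)) = -1 := by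
        rw [map_div₀, map_neg, Complex.conj_conj]
        have := hF0 x
        field_simp
      rw [e1, e2, map_mul, Complex.conj_ofReal] at hprod
      have hαα : conj α * α = 1 := by
        rw [Complex.conj_mul', hα]; simp
      have hprod' : ((t1 * t2 : ℝ) : ℂ) = ((-1 : ℝ) : ℂ) := by
        push_cast
        linear_combination hprod - (t1 : ℂ) * t2 * hαα
      have ht12 : t1 * t2 = -1 := by exact_mod_cast hprod'
      have ht1 : t1 ≠ 0 := by rintro rfl; simp at ht12
      have ht2 : t2 ≠ 0 := by rintro rfl; simp at ht12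
      rw [e1] at g1 g2 ⊢
      rw [e2] at g3 g4 ⊢
      have c1 : ((t / t1 : ℝ) : ℂ) * ((t1 : ℂ) * α) = (t : ℂ) * α := by
        have : (t1 : ℂ) ≠ 0 := by exact_mod_cast ht1
        push_cast
        field_simp
      have c2 : ((t / t2 : ℝ) : ℂ) * ((t2 : ℂ) * α) = (t : ℂ) * α := by
        have : (t2 : ℂ) ≠ 0 := by exact_mod_cast ht2
        push_cast
        field_simp
      by_cases hsgn : 0 ≤ t / t1
      · refine ⟨t / t1, ?_, Or.inl c1.symm⟩
        by_contra hlt
        push Not at hlt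
        exact hw (by rw [← c1]; exact g2 _ ⟨hsgn, hlt⟩)
      · push Not at hsgn
        have hsgn2 : 0 ≤ t / t2 := by
          have e : t / t2 = -(t / t1) * t1 ^ 2 := by
            have : t2 = -1 / t1 := by field_simp; linarith
            rw [this]; field_simp
          rw [e]
          have : 0 < t1 ^ 2 := by positivity
          nlinarith
        refine ⟨t / t2, ?_, Or.inr c2.symm⟩
        by_contra hlt
        push Not at hlt
        exact hw (by rw [← c2]; exact g4 _ ⟨hsgn2, hlt⟩)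
  have hN : ∀ z, ‖F z‖ ^ 2 + ‖G z‖ ^ 2 = n * P.N z := by
    intro z
    have h := D.inn z z
    rw [Complex.conj_mul', Complex.conj_mul', Complex.conj_mul', Complex.conj_mul'] at h
    unfold Pair.N
    exact_mod_cast h
  exact final h4 D (fun x => h1 P x) hN

end Pool.Agent.Liou
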