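import Pool.Agent.Liou.Targets


/-! The Gross star theorem: length-area argument. -/

set_option autoImplicit false

open Complex ComplexConjugate Set Filter Topology MeasureTheory

namespace Pool.Agent.Liou

namespace GROSS_

/-- the weight, as a function of the norm -/
noncomputable def Wr (r : ℝ) : ℝ := 4 / ((1 + r ^ 2) * (1 + Real.log (1 + r ^ 2)) ^ 2)

theorem log_nonneg' (r : ℝ) : 0 ≤ Real.log (1 + r ^ 2) :=
  Real.log_nonneg (by nlinarith [sq_nonneg r])

theorem Wr_nonneg (r : ℝ) : 0 ≤ Wr r := by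
  have := log_nonneg' r
  unfold Wr
  positivity

theorem hasDerivAt_g (r : ℝ) :
    HasDerivAt (fun r : ℝ => -2 / (1 + Real.log (1 + r ^ 2))) (r * Wr r) r := by
  have h1 : (0 : ℝ) < 1 + r ^ 2 := by positivity
  have h2 := log_nonneg' r
  have h3 : HasDerivAt (fun r : ℝ => 1 + r ^ 2) (2 * r) r := by
    simpa using ((hasDerivAt_id r).pow 2).const_add 1
  have h4 : HasDerivAt (fun r : ℝ => 1 + Real.log (1 + r ^ 2)) (2 * r / (1 + r ^ 2)) r :=
    (h3.log h1.ne').const_add 1
  have h5 := (hasDerivAt_const r (-2 : ℝ)).div h4 (by positivity)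
  refine h5.congr_deriv ?_
  unfold Wr
  field_simp
  ring

theorem continuous_Wr : Continuous Wr := by
  unfold Wr
  refine continuous_const.div ?_ ?_
  · refine Continuous.mul (by fun_prop) (Continuous.pow ?_ 2)
    refine continuous_const.add ?_
    refine Continuous.log (by fun_prop) ?_
    intro x
    positivity
  · intro x
    have := log_nonneg' x
    positivity

theorem integrable_W : Integrable (fun z : ℂ => Wr ‖z‖) := by
  rw [integrable_fun_norm_addHaar]
  have hd : Module.finrank ℝ ℂ - 1 = 1 := by rw [Complex.finrank_real_complex]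
  rw [hd]
  simp only [pow_one, smul_eq_mul]
  refine integrableOn_Ioi_deriv_of_nonneg' (g := fun r : ℝ => -2 / (1 + Real.log (1 + r ^ 2)))
    (l := 0) (fun x _ => hasDerivAt_g x) ?_ ?_
  · intro x hx
    exact mul_nonneg (le_of_lt hx) (Wr_nonneg x)
  · refine Tendsto.const_div_atTop ?_ _
    refine tendsto_atTop_add_const_left _ _ ?_
    refine Real.tendsto_log_atTop.comp ?_
    refine tendsto_atTop_add_const_left _ _ ?_
    exact tendsto_pow_atTop two_ne_zero

theorem lintegral_W : ∫⁻ z : ℂ, ENNReal.ofReal (Wr ‖z‖) < ⊤ := by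
  have := integrable_W.lintegral_lt_top
  exact this

/-- the determinant of the real derivative of a holomorphic function -/
theorem det_eq (c : ℂ) :
    ((ContinuousLinearMap.toSpanSingleton ℂ c : ℂ →L[ℂ] ℂ).restrictScalars ℝ).det = ‖c‖ ^ 2 := by
  rw [← Complex.normSq_eq_norm_sq, ← Algebra.norm_complex_apply, Algebra.norm_apply]
  rw [ContinuousLinearMap.det]
  congr 1
  ext
  simp [mul_comm]

/-- length-area on one line -/
theorem line_lemma (γ γ' : ℝ → ℂ) (x0 x1 : ℝ) (h01 : x0 < x1)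
    (hd : ∀ x ∈ Ico x0 x1, HasDerivAt γ (γ' x) x) (hc : ContinuousOn γ' (Ico x0 x1))
    (hb : Tendsto (fun x => ‖γ x‖) (𝓝[<] x1) atTop) :
    ∫⁻ x in Ioo x0 x1, ENNReal.ofReal (‖γ' x‖ ^ 2 * Wr ‖γ x‖) = ⊤ := by
  by_contra hfin
  set C := (∫⁻ x in Ioo x0 x1, ENNReal.ofReal (‖γ' x‖ ^ 2 * Wr ‖γ x‖)).toReal with hC
  set h : ℝ → ℝ := fun x => Real.log (1 + Real.log (1 + ‖γ x‖ ^ 2)) with hh
  set h' : ℝ → ℝ := fun x => (2 * inner ℝ (γ x) (γ' x) / (1 + ‖γ x‖ ^ 2)) /
    (1 + Real.log (1 + ‖γ x‖ ^ 2)) with hh'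
  have hL : ∀ x, 0 < 1 + Real.log (1 + ‖γ x‖ ^ 2) := fun x => by
    have := log_nonneg' ‖γ x‖
    linarith
  have hder : ∀ x ∈ Ico x0 x1, HasDerivAt h (h' x) x := by
    intro x hx
    have h1 : HasDerivAt (fun x => 1 + ‖γ x‖ ^ 2) (2 * inner ℝ (γ x) (γ' x)) x :=
      (hd x hx).norm_sq.const_add 1
    have h2 := (h1.log (by positivity)).const_add 1
    exact h2.log (hL x).ne'
  have hγc : ContinuousOn γ (Ico x0 x1) := fun x hx => (hd x hx).continuousAt.continuousWithinAt
  have hnc : ContinuousOn (fun x => 1 + ‖γ x‖ ^ 2) (Ico x0 x1) :=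
    continuousOn_const.add (hγc.norm.pow 2)
  have hlc : ContinuousOn (fun x => 1 + Real.log (1 + ‖γ x‖ ^ 2)) (Ico x0 x1) :=
    continuousOn_const.add (hnc.log fun x _ => by positivity)
  have hc' : ContinuousOn h' (Ico x0 x1) := by
    refine ContinuousOn.div (ContinuousOn.div ?_ hnc fun x _ => by positivity) hlc
      fun x _ => (hL x).ne'
    exact continuousOn_const.mul (hγc.inner hc)
  have hkc : ContinuousOn (fun x => ‖γ' x‖ ^ 2 * Wr ‖γ x‖) (Ico x0 x1) :=
    (hc.norm.pow 2).mul (continuous_Wr.comp_continuousOn hγc.norm)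
  have hbd : ∀ x, h' x ≤ 1 + ‖γ' x‖ ^ 2 * Wr ‖γ x‖ := by
    intro x
    have hi : inner ℝ (γ x) (γ' x) ≤ ‖γ x‖ * ‖γ' x‖ := real_inner_le_norm _ _
    have hLx := hL x
    have hn : 0 < 1 + ‖γ x‖ ^ 2 := by positivity
    set g := ‖γ x‖ with hg
    set q := ‖γ' x‖ with hq
    set L := 1 + Real.log (1 + g ^ 2) with hLdef
    have e1 : h' x ≤ 2 * (g * q) / (1 + g ^ 2) / L := by
      simp only [hh']
      rw [← hg, ← hLdef]
      gcongr
    have e2 : 2 * (g * q) / (1 + g ^ 2) / L ≤ 1 + q ^ 2 * Wr g := by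
      unfold Wr
      rw [← hLdef, div_div, div_le_iff₀ (by positivity)]
      have : (1 + q ^ 2 * (4 / ((1 + g ^ 2) * L ^ 2))) * ((1 + g ^ 2) * L) =
          (1 + g ^ 2) * L + 4 * q ^ 2 / L := by
        field_simp
      rw [this]
      have h3 : 4 * q ^ 2 / L = (2 * q / L) ^ 2 * L := by
        field_simp
        ring
      rw [h3]
      have h4 : 2 * (g * q) = (g * (2 * q / L)) * L := by
        field_simp
      rw [h4]
      nlinarith [sq_nonneg (g - 2 * q / L), sq_nonneg (2 * q / L), sq_nonneg g]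
    exact e1.trans e2
  have key : ∀ x ∈ Ico x0 x1, h x ≤ h x0 + (x1 - x0) + C := by
    intro x hx
    have hsub : Icc x0 x ⊆ Ico x0 x1 := fun y hy => ⟨hy.1, hy.2.trans_lt hx.2⟩
    have hu : uIcc x0 x = Icc x0 x := uIcc_of_le hx.1
    have i1 : IntervalIntegrable h' volume x0 x := by
      refine ContinuousOn.intervalIntegrable ?_
      rw [hu]; exact hc'.mono hsub
    have i2 : IntervalIntegrable (fun x => ‖γ' x‖ ^ 2 * Wr ‖γ x‖) volume x0 x := by
      refine ContinuousOn.intervalIntegrable ?_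
      rw [hu]; exact hkc.mono hsub
    have e1 : ∫ y in x0..x, h' y = h x - h x0 := by
      refine intervalIntegral.integral_eq_sub_of_hasDerivAt ?_ i1
      intro y hy
      rw [hu] at hy
      exact hder y (hsub hy)
    have e2 : ∫ y in x0..x, h' y ≤ ∫ y in x0..x, (1 + ‖γ' y‖ ^ 2 * Wr ‖γ y‖) := by
      refine intervalIntegral.integral_mono_on hx.1 i1 ?_ fun y _ => hbd y
      exact (intervalIntegrable_const).add i2
    have e3 : ∫ y in x0..x, (1 + ‖γ' y‖ ^ 2 * Wr ‖γ y‖) =
        (x - x0) + ∫ y in x0..x, ‖γ' y‖ ^ 2 * Wr ‖γ y‖ := by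
      rw [intervalIntegral.integral_add intervalIntegrable_const i2]
      simp
    have e4 : ∫ y in x0..x, ‖γ' y‖ ^ 2 * Wr ‖γ y‖ ≤ C := by
      rw [intervalIntegral.integral_of_le hx.1, integral_eq_lintegral_of_nonneg_ae]
      · refine ENNReal.toReal_mono hfin ?_
        refine lintegral_mono_set ?_
        intro y hy
        exact ⟨hy.1, hy.2.trans_lt hx.2⟩
      · refine Eventually.of_forall fun y => ?_
        exact mul_nonneg (by positivity) (Wr_nonneg _)
      · exact i2.1.aestronglyMeasurable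
    have hx2 := hx.2
    linarith
  have ht : Tendsto h (𝓝[<] x1) atTop := by
    refine Real.tendsto_log_atTop.comp ?_
    refine tendsto_atTop_add_const_left _ _ ?_
    refine Real.tendsto_log_atTop.comp ?_
    refine tendsto_atTop_add_const_left _ _ ?_
    exact (tendsto_pow_atTop two_ne_zero).comp hb
  have hev : ∀ᶠ x in 𝓝[<] x1, x ∈ Ico x0 x1 := by
    filter_upwards [Ioo_mem_nhdsLT h01] with x hx using ⟨hx.1.le, hx.2⟩
  obtain ⟨x, hx1, hx2⟩ := (hev.and (ht.eventually_gt_atTop (h x0 + (x1 - x0) + C))).exists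
  exact absurd (key x hx1) (not_le.2 hx2)

theorem core (S : Set ℂ) (s : ℂ → ℂ) (hS : IsOpen S) (h0 : (0 : ℂ) ∈ S)
    (star : ∀ w ∈ S, ∀ t ∈ Icc (0 : ℝ) 1, (t : ℂ) * w ∈ S)
    (diff : DifferentiableOn ℂ s S) (inj : InjOn s S)
    (blow : ∀ w, w ∉ S → (∀ t ∈ Ico (0 : ℝ) 1, (t : ℂ) * w ∈ S) →
      Tendsto (fun t : ℝ => ‖s ((t : ℂ) * w)‖) (𝓝[<] 1) atTop)
    (R : ℝ) (hR : 0 < R) (a b : ℝ) (hab : a < b) :
    ∃ φ ∈ Ioo a b, (R : ℂ) * Complex.exp ((φ : ℂ) * I) ∈ S := by
  by_contra hcon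
  push Not at hcon
  obtain ⟨b', hab', hb'b, hb'a⟩ : ∃ b', a < b' ∧ b' ≤ b ∧ b' ≤ a + 1 :=
    ⟨min b (a + 1), lt_min hab (by linarith), min_le_left _ _, min_le_right _ _⟩
  set D : Set ℂ := {ζ | a < ζ.im ∧ ζ.im < b' ∧ Complex.exp ζ ∈ S} with hDdef
  have hD : IsOpen D := by
    have h1 : IsOpen {ζ : ℂ | a < ζ.im} := isOpen_lt continuous_const Complex.continuous_im
    have h2 : IsOpen {ζ : ℂ | ζ.im < b'} := isOpen_lt Complex.continuous_im continuous_const
    have h3 : IsOpen {ζ : ℂ | Complex.exp ζ ∈ S} := hS.preimage Complex.continuous_exp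
    exact h1.inter (h2.inter h3)
  set F : ℂ → ℂ := fun ζ => s (Complex.exp ζ) with hF
  have hFd : DifferentiableOn ℂ F D := by
    intro ζ hζ
    have h1 : DifferentiableAt ℂ s (Complex.exp ζ) := diff.differentiableAt (hS.mem_nhds hζ.2.2)
    exact (h1.comp ζ Complex.differentiableAt_exp).differentiableWithinAt
  have hFi : InjOn F D := by
    intro ζ₁ h₁ ζ₂ h₂ he
    have h3 : Complex.exp ζ₁ = Complex.exp ζ₂ := inj h₁.2.2 h₂.2.2 he
    obtain ⟨n, hn⟩ := Complex.exp_eq_exp_iff_exists_int.1 h3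
    have him : ζ₁.im = ζ₂.im + n * (2 * Real.pi) := by
      have := congrArg Complex.im hn
      simpa using this
    have hn0 : n = 0 := by
      by_contra hne
      have h5 : (1 : ℝ) ≤ |(n : ℝ)| := by
        exact_mod_cast Int.one_le_abs hne
      have h6 : |(n : ℝ) * (2 * Real.pi)| < 1 := by
        rw [abs_lt]
        constructor <;> [linarith [h₁.1, h₂.2.1]; linarith [h₂.1, h₁.2.1]]
      rw [abs_mul, abs_of_pos Real.two_pi_pos] at h6
      nlinarith [Real.pi_gt_three]
    rw [hn, hn0]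
    simp
  have hF' : ContinuousOn (deriv F) D := (hFd.deriv hD).continuousOn
  set k : ℂ → ENNReal := fun ζ => ENNReal.ofReal (‖deriv F ζ‖ ^ 2 * Wr ‖F ζ‖) with hk
  set G : ℂ → ENNReal := D.indicator k with hG
  have hkc : ContinuousOn (fun ζ => ‖deriv F ζ‖ ^ 2 * Wr ‖F ζ‖) D :=
    (hF'.norm.pow 2).mul (continuous_Wr.comp_continuousOn hFd.continuousOn.norm)
  have hGm : Measurable G := by
    have h1 : Measurable (D.indicator fun ζ => ‖deriv F ζ‖ ^ 2 * Wr ‖F ζ‖) := by
      classical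
      have := hkc.measurable_piecewise (g := (0 : ℂ → ℝ)) continuous_zero.continuousOn
        hD.measurableSet
      rwa [Set.piecewise_eq_indicator] at this
    have h2 : G = fun ζ => ENNReal.ofReal ((D.indicator fun ζ => ‖deriv F ζ‖ ^ 2 * Wr ‖F ζ‖) ζ) := by
      funext ζ
      by_cases hζ : ζ ∈ D
      · simp [hG, hk, hζ]
      · simp [hG, hζ]
    rw [h2]
    exact h1.ennreal_ofReal
  have hfin : ∫⁻ ζ, G ζ < ⊤ := by
    rw [hG, lintegral_indicator hD.measurableSet]
    have h1 := lintegral_image_eq_lintegral_abs_det_fderiv_mul volume hD.measurableSet (f := F)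
      (f' := fun ζ => (ContinuousLinearMap.toSpanSingleton ℂ (deriv F ζ)).restrictScalars ℝ)
      (fun ζ hζ => by
        have h2 : HasDerivAt F (deriv F ζ) ζ := (hFd.differentiableAt (hD.mem_nhds hζ)).hasDerivAt
        exact (h2.hasFDerivAt.restrictScalars ℝ).hasFDerivWithinAt) hFi
      (fun z => ENNReal.ofReal (Wr ‖z‖))
    have h3 : ∫⁻ ζ in D, k ζ = ∫⁻ ζ in D, ENNReal.ofReal
        |((ContinuousLinearMap.toSpanSingleton ℂ (deriv F ζ)).restrictScalars ℝ).det| *
          ENNReal.ofReal (Wr ‖F ζ‖) := by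
      refine lintegral_congr fun ζ => ?_
      rw [det_eq, abs_of_nonneg (by positivity), ← ENNReal.ofReal_mul (by positivity)]
    rw [h3, ← h1]
    exact (setLIntegral_le_lintegral _ _).trans_lt lintegral_W
  have htonelli : ∫⁻ ζ, G ζ = ∫⁻ y : ℝ, ∫⁻ x : ℝ, G ((x : ℂ) + (y : ℂ) * I) := by
    rw [← (Complex.volume_preserving_equiv_real_prod.symm).lintegral_comp_emb
      Complex.measurableEquivRealProd.symm.measurableEmbedding]
    rw [Measure.volume_eq_prod, lintegral_prod_symm' (fun p => G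
      (Complex.measurableEquivRealProd.symm p)) (hGm.comp
      Complex.measurableEquivRealProd.symm.measurable)]
    refine lintegral_congr fun y => lintegral_congr fun x => ?_
    congr 1
    apply Complex.ext <;> simp [Complex.measurableEquivRealProd]
  have hinf : ∀ y ∈ Ioo a b', ∫⁻ x : ℝ, G ((x : ℂ) + (y : ℂ) * I) = ⊤ := by
    intro y hy
    set u : ℂ := Complex.exp ((y : ℂ) * I) with hu
    have hRu : (R : ℂ) * u ∉ S := hcon y ⟨hy.1, hy.2.trans_le hb'b⟩
    set T : Set ℝ := {t | 0 < t ∧ (t : ℂ) * u ∈ S} with hT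
    have hTR : ∀ t ∈ T, t ≤ R := by
      intro t ht
      by_contra hlt
      push Not at hlt
      have h1 := star _ ht.2 (R / t) ⟨div_nonneg hR.le ht.1.le,
        by rw [div_le_one ht.1]; exact hlt.le⟩
      apply hRu
      have h2 : ((R / t : ℝ) : ℂ) * ((t : ℂ) * u) = (R : ℂ) * u := by
        have : (t : ℂ) ≠ 0 := by exact_mod_cast ht.1.ne'
        push_cast
        field_simp
      rwa [h2] at h1
    have hcont : Continuous fun t : ℝ => (t : ℂ) * u := by fun_prop
    have hopen : ∀ t : ℝ, (t : ℂ) * u ∈ S → ∃ t' > t, (t' : ℂ) * u ∈ S := by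
      intro t ht
      have h1 : ∀ᶠ t' in 𝓝 t, ((t' : ℝ) : ℂ) * u ∈ S :=
        hcont.continuousAt.eventually (hS.mem_nhds ht)
      have h2 : ∀ᶠ t' in 𝓝[>] t, ((t' : ℝ) : ℂ) * u ∈ S := h1.filter_mono nhdsWithin_le_nhds
      obtain ⟨t', ht1, ht2⟩ := (h2.and self_mem_nhdsWithin).exists
      exact ⟨t', ht2, ht1⟩
    obtain ⟨t₀, ht₀, ht₀S⟩ := hopen 0 (by simpa using h0)
    have hTne : T.Nonempty := ⟨t₀, ht₀, ht₀S⟩
    have hTb : BddAbove T := ⟨R, fun t ht => hTR t ht⟩
    set l := sSup T with hl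
    have hl0 : 0 < l := lt_of_lt_of_le ht₀ (le_csSup hTb ⟨ht₀, ht₀S⟩)
    have hlS : (l : ℂ) * u ∉ S := by
      intro hmem
      obtain ⟨t', ht', ht'S⟩ := hopen l hmem
      exact absurd (le_csSup hTb (show t' ∈ T from ⟨hl0.trans ht', ht'S⟩)) (not_le.2 ht')
    have hltS : ∀ t : ℝ, 0 ≤ t → t < l → (t : ℂ) * u ∈ S := by
      intro t ht0 htl
      obtain ⟨t', ht'T, htt'⟩ := exists_lt_of_lt_csSup hTne htl
      have h1 := star _ ht'T.2 (t / t') ⟨div_nonneg ht0 ht'T.1.le,
        by rw [div_le_one ht'T.1]; exact htt'.le⟩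
      have h2 : ((t / t' : ℝ) : ℂ) * ((t' : ℂ) * u) = (t : ℂ) * u := by
        have : (t' : ℂ) ≠ 0 := by exact_mod_cast ht'T.1.ne'
        push_cast
        field_simp
      rwa [h2] at h1
    have hblow := blow _ hlS (fun t ht => by
      have h1 := hltS (t * l) (mul_nonneg ht.1 hl0.le) (by nlinarith [ht.2])
      have h2 : (t : ℂ) * ((l : ℂ) * u) = ((t * l : ℝ) : ℂ) * u := by push_cast; ring
      rw [h2]; exact h1)
    set x1 := Real.log l with hx1
    have hexp : ∀ x : ℝ, Complex.exp ((x : ℂ) + (y : ℂ) * I) = ((Real.exp x : ℝ) : ℂ) * u := by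
      intro x
      rw [Complex.exp_add, Complex.ofReal_exp]
    have hmem : ∀ x : ℝ, x < x1 → (x : ℂ) + (y : ℂ) * I ∈ D := by
      intro x hx
      refine ⟨by simpa using hy.1, by simpa using hy.2, ?_⟩
      rw [hexp]
      exact hltS _ (Real.exp_pos x).le ((Real.lt_log_iff_exp_lt hl0).1 hx)
    have hline := line_lemma (fun x => F ((x : ℂ) + (y : ℂ) * I))
      (fun x => deriv F ((x : ℂ) + (y : ℂ) * I)) (x1 - 1) x1 (by linarith) (fun x hx => by
        have h1 : HasDerivAt F (deriv F ((x : ℂ) + (y : ℂ) * I)) ((x : ℂ) + (y : ℂ) * I) :=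
          (hFd.differentiableAt (hD.mem_nhds (hmem x hx.2))).hasDerivAt
        exact (h1.comp_add_const (x : ℂ) _).comp_ofReal)
      (hF'.comp (by fun_prop) fun x hx => hmem x hx.2) (by
        have h1 : Tendsto (fun x : ℝ => Real.exp (x - x1)) (𝓝[<] x1) (𝓝[<] 1) := by
          refine tendsto_nhdsWithin_iff.2 ⟨?_, ?_⟩
          · have h2 : Continuous fun x : ℝ => Real.exp (x - x1) := by fun_prop
            have h3 := h2.tendsto x1
            rw [sub_self, Real.exp_zero] at h3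
            exact h3.mono_left nhdsWithin_le_nhds
          · filter_upwards [self_mem_nhdsWithin] with x hx
            have hx' : x < x1 := hx
            have h4 := Real.exp_lt_exp.2 (show x - x1 < 0 by linarith)
            rwa [Real.exp_zero] at h4
        refine (hblow.comp h1).congr fun x => ?_
        simp only [Function.comp_apply, hF]
        congr 2
        rw [hexp, Real.exp_sub, hx1, Real.exp_log hl0]
        have : (l : ℂ) ≠ 0 := by exact_mod_cast hl0.ne'
        push_cast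
        field_simp)
    refine eq_top_iff.2 ?_
    rw [← hline]
    refine le_trans (le_of_eq ?_) (setLIntegral_le_lintegral (Ioo (x1 - 1) x1) _)
    refine setLIntegral_congr_fun measurableSet_Ioo fun x hx => ?_
    simp only [hG, Set.indicator_of_mem (hmem x hx.2), hk]
  have hbig : ∫⁻ y : ℝ, ∫⁻ x : ℝ, G ((x : ℂ) + (y : ℂ) * I) = ⊤ := by
    refine eq_top_iff.2 ?_
    calc (⊤ : ENNReal) = ∫⁻ _ in Ioo a b', (⊤ : ENNReal) := by
          rw [setLIntegral_const, Real.volume_Ioo, ENNReal.top_mul]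
          simpa using hab'
      _ = ∫⁻ y in Ioo a b', ∫⁻ x : ℝ, G ((x : ℂ) + (y : ℂ) * I) :=
          setLIntegral_congr_fun measurableSet_Ioo fun y hy => (hinf y hy).symm
      _ ≤ _ := setLIntegral_le_lintegral _ _
  rw [htonelli, hbig] at hfin
  exact lt_irrefl _ hfin

end GROSS_

theorem p_GROSS (h : T_SEC) : T_GROSS := by
  intro P x R hR a b hab
  have H := h P x
  exact GROSS_.core (P.S x) (P.sec x) H.isOpen H.zero_mem H.star H.diff H.inj H.blow R hR a b hab

end Pool.Agent.Liou
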