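import Pool.Agent.Liou.Targets

/-! HOL: `u_zz - u_z^2` is entire for `C^2` solutions. -/

set_option autoImplicit false

open Complex ComplexConjugate Set Filter Topology MeasureTheory

namespace Pool.Agent.Liou

namespace HOL_

/-- divergence theorem on rectangles for divergence free fields -/
lemma green (F G : ℂ → ℂ) (hF : ContDiff ℝ 1 F) (hG : ContDiff ℝ 1 G)
    (hdiv : ∀ z, fderiv ℝ F z 1 + fderiv ℝ G z I = 0) (z w : ℂ) :
    (((∫ x in z.re..w.re, G (x + w.im * I)) - ∫ x in z.re..w.re, G (x + z.im * I)) +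
      ∫ y in z.im..w.im, F (w.re + y * I)) - ∫ y in z.im..w.im, F (z.re + y * I) = 0 := by
  set e : (ℝ × ℝ) ≃L[ℝ] ℂ := equivRealProdCLM.symm with he_def
  have he : ∀ p : ℝ × ℝ, e p = (p.1 : ℂ) + (p.2 : ℂ) * I := fun p => mk_eq_add_mul_I p.1 p.2
  have he1 : e (1, 0) = 1 := rfl
  have he2 : e (0, 1) = I := rfl
  have hFd : ∀ p : ℝ × ℝ, HasFDerivAt (fun p => F (e p))
      ((fderiv ℝ F (e p)).comp (e : ℝ × ℝ →L[ℝ] ℂ)) p := by
    intro p
    exact ((hF.differentiable (by norm_num)) (e p)).hasFDerivAt.comp p e.hasFDerivAt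
  have hGd : ∀ p : ℝ × ℝ, HasFDerivAt (fun p => G (e p))
      ((fderiv ℝ G (e p)).comp (e : ℝ × ℝ →L[ℝ] ℂ)) p := by
    intro p
    exact ((hG.differentiable (by norm_num)) (e p)).hasFDerivAt.comp p e.hasFDerivAt
  have hzero : ∀ p : ℝ × ℝ, ((fderiv ℝ F (e p)).comp (e : ℝ × ℝ →L[ℝ] ℂ)) (1, 0) +
      ((fderiv ℝ G (e p)).comp (e : ℝ × ℝ →L[ℝ] ℂ)) (0, 1) = 0 := by
    intro p
    have := hdiv (e p)
    simpa [he1, he2] using this
  have key := integral2_divergence_prod_of_hasFDerivAt (fun p => F (e p)) (fun p => G (e p))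
    (fun p => (fderiv ℝ F (e p)).comp (e : ℝ × ℝ →L[ℝ] ℂ))
    (fun p => (fderiv ℝ G (e p)).comp (e : ℝ × ℝ →L[ℝ] ℂ)) z.re z.im w.re w.im
    (hF.continuous.comp e.continuous).continuousOn (hG.continuous.comp e.continuous).continuousOn
    (fun p _ => hFd p) (fun p _ => hGd p) (by simp only [hzero]; exact integrableOn_zero)
  simp only [hzero, intervalIntegral.integral_zero] at key
  simp only [he] at key
  exact key.symm

/-- a Morera type criterion -/
lemma morera (T g E h : ℂ → ℂ) (hg : ContDiff ℝ 1 g) (hE : ContDiff ℝ 1 E)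
    (hh : ContDiff ℝ 1 h)
    (h1 : ∀ z, T z = fderiv ℝ g z 1 + E z - h z)
    (h2 : ∀ z, T z = -I * fderiv ℝ g z I - E z - h z)
    (hdiv : ∀ z, -I * (fderiv ℝ E z 1 + fderiv ℝ h z 1) + (fderiv ℝ h z I - fderiv ℝ E z I) = 0) :
    Differentiable ℂ T := by
  have hgd := hg.differentiable (by norm_num)
  have hEd := hE.differentiable (by norm_num)
  have hhd := hh.differentiable (by norm_num)
  have hgc : Continuous fun z => fderiv ℝ g z := hg.continuous_fderiv (by norm_num)
  have hTc : Continuous T := by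
    have : T = fun z => fderiv ℝ g z 1 + E z - h z := funext h1
    rw [this]
    exact ((hgc.clm_apply continuous_const).add hE.continuous).sub hh.continuous
  -- the fundamental theorem of calculus on horizontal and vertical segments
  have hhor : ∀ c a b : ℝ, (∫ x in a..b, T (x + c * I)) =
      g (b + c * I) - g (a + c * I) + (∫ x in a..b, E (x + c * I)) - ∫ x in a..b, h (x + c * I) := by
    intro c a b
    have hcont : Continuous fun x : ℝ => (x : ℂ) + c * I := by fun_prop
    have hd : ∀ x : ℝ, HasDerivAt (fun x : ℝ => g (x + c * I)) (fderiv ℝ g (x + c * I) 1) x := by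
      intro x
      have h3 : HasDerivAt (fun x : ℝ => (x : ℂ) + c * I) 1 x := by
        simpa using (Complex.ofRealCLM.hasDerivAt (x := x)).add_const ((c : ℂ) * I)
      exact (hgd _).hasFDerivAt.comp_hasDerivAt x h3
    have hi1 : IntervalIntegrable (fun x : ℝ => fderiv ℝ g (x + c * I) 1) volume a b :=
      ((hgc.clm_apply continuous_const).comp hcont).intervalIntegrable _ _
    have hi2 : IntervalIntegrable (fun x : ℝ => E (x + c * I)) volume a b :=
      (hE.continuous.comp hcont).intervalIntegrable _ _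
    have hi3 : IntervalIntegrable (fun x : ℝ => h (x + c * I)) volume a b :=
      (hh.continuous.comp hcont).intervalIntegrable _ _
    simp only [h1]
    rw [intervalIntegral.integral_sub (hi1.add hi2) hi3, intervalIntegral.integral_add hi1 hi2,
      intervalIntegral.integral_eq_sub_of_hasDerivAt (fun x _ => hd x) hi1]
  have hver : ∀ c a b : ℝ, I * (∫ y in a..b, T (c + y * I)) =
      g (c + b * I) - g (c + a * I) - I * (∫ y in a..b, E (c + y * I)) -
        I * ∫ y in a..b, h (c + y * I) := by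
    intro c a b
    have hcont : Continuous fun y : ℝ => (c : ℂ) + y * I := by fun_prop
    have hd : ∀ y : ℝ, HasDerivAt (fun y : ℝ => g (c + y * I)) (fderiv ℝ g (c + y * I) I) y := by
      intro y
      have h3 : HasDerivAt (fun y : ℝ => (c : ℂ) + y * I) I y := by
        simpa using ((Complex.ofRealCLM.hasDerivAt (x := y)).mul_const I).const_add (c : ℂ)
      exact (hgd _).hasFDerivAt.comp_hasDerivAt y h3
    have hi1 : IntervalIntegrable (fun x : ℝ => fderiv ℝ g (c + x * I) I) volume a b :=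
      ((hgc.clm_apply continuous_const).comp hcont).intervalIntegrable _ _
    have hi2 : IntervalIntegrable (fun x : ℝ => E (c + x * I)) volume a b :=
      (hE.continuous.comp hcont).intervalIntegrable _ _
    have hi3 : IntervalIntegrable (fun x : ℝ => h (c + x * I)) volume a b :=
      (hh.continuous.comp hcont).intervalIntegrable _ _
    simp only [h2]
    rw [intervalIntegral.integral_sub ((hi1.const_mul _).sub hi2) hi3,
      intervalIntegral.integral_sub (hi1.const_mul _) hi2, intervalIntegral.integral_const_mul,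
      intervalIntegral.integral_eq_sub_of_hasDerivAt (fun x _ => hd x) hi1]
    ring_nf
    rw [Complex.I_sq]
    ring
  have hcons : IsConservativeOn T univ := by
    intro z w _
    rw [← add_eq_zero_iff_eq_neg, wedgeIntegral_add_wedgeIntegral_eq]
    simp only [smul_eq_mul]
    rw [hhor, hhor, hver, hver]
    have hgr := green (fun z => -I * (E z + h z)) (fun z => h z - E z)
      (contDiff_const.mul (hE.add hh)) (hh.sub hE) (by
        intro z
        have e1 : fderiv ℝ (fun z => -I * (E z + h z)) z 1 =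
            -I * (fderiv ℝ E z 1 + fderiv ℝ h z 1) := by
          have e3 : HasFDerivAt (fun z => -I * (E z + h z))
              (-I • (fderiv ℝ E z + fderiv ℝ h z)) z :=
            ((hEd z).hasFDerivAt.add (hhd z).hasFDerivAt).const_mul (-I)
          rw [e3.fderiv]
          rfl
        have e2 : fderiv ℝ (fun z => h z - E z) z I = fderiv ℝ h z I - fderiv ℝ E z I := by
          rw [fderiv_fun_sub (hhd z) (hEd z)]
          rfl
        rw [e1, e2]
        exact hdiv z) z w
    have hch : ∀ c : ℝ, Continuous fun x : ℝ => (x : ℂ) + c * I := fun c => by fun_prop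
    have hcv : ∀ c : ℝ, Continuous fun y : ℝ => (c : ℂ) + y * I := fun c => by fun_prop
    have s1 : ∀ c a b : ℝ, (∫ x in a..b, (h (x + c * I) - E (x + c * I))) =
        (∫ x in a..b, h (x + c * I)) - ∫ x in a..b, E (x + c * I) := fun c a b =>
      intervalIntegral.integral_sub ((hh.continuous.comp (hch c)).intervalIntegrable _ _)
        ((hE.continuous.comp (hch c)).intervalIntegrable _ _)
    have s2 : ∀ c a b : ℝ, (∫ y in a..b, (-I * (E (c + y * I) + h (c + y * I)))) =
        -I * ((∫ y in a..b, E (c + y * I)) + ∫ y in a..b, h (c + y * I)) := fun c a b => by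
      have e3 : (∫ y in a..b, (E (c + y * I) + h (c + y * I))) =
          (∫ y in a..b, E (c + y * I)) + ∫ y in a..b, h (c + y * I) :=
        intervalIntegral.integral_add ((hE.continuous.comp (hcv c)).intervalIntegrable _ _)
          ((hh.continuous.comp (hcv c)).intervalIntegrable _ _)
      rw [intervalIntegral.integral_const_mul, e3]
    rw [s1, s1, s2, s2] at hgr
    linear_combination hgr
  have := (isConservativeOn_and_continuousOn_iff_isDifferentiableOn isOpen_univ).1
    ⟨hcons, hTc.continuousOn⟩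
  exact differentiableOn_univ.1 this

/-- the Wirtinger derivative of a real function in terms of the real derivative -/
lemma wz_real {u : ℂ → ℝ} (hu : ContDiff ℝ 2 u) (z : ℂ) :
    wz (fun ζ => (u ζ : ℂ)) z = ((fderiv ℝ u z 1 : ℝ) - I * (fderiv ℝ u z I : ℝ)) / 2 := by
  have hd : HasFDerivAt (fun ζ => (u ζ : ℂ)) (Complex.ofRealCLM.comp (fderiv ℝ u z)) z :=
    Complex.ofRealCLM.hasFDerivAt.comp z ((hu.differentiable (by norm_num)) z).hasFDerivAt
  unfold wz
  rw [hd.fderiv]
  rfl

end HOL_

open HOL_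

theorem p_HOL : T_HOL := by
  intro u hu
  have hu2 := hu.smooth
  have hu1 : ContDiff ℝ 1 u := hu2.of_le (by norm_num)
  have hud : Differentiable ℝ u := hu2.differentiable (by norm_num)
  -- the gradient
  have hD : ContDiff ℝ 1 (fderiv ℝ u) := hu2.fderiv_right (by norm_num)
  have hDd : Differentiable ℝ (fderiv ℝ u) := hD.differentiable (by norm_num)
  have hgeq : wz (fun ζ => (u ζ : ℂ)) =
      fun z => ((fderiv ℝ u z 1 : ℝ) - I * (fderiv ℝ u z I : ℝ)) / 2 := funext (wz_real hu2)
  have hg : ContDiff ℝ 1 (wz (fun ζ => (u ζ : ℂ))) := by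
    rw [hgeq]
    have h1 : ContDiff ℝ 1 fun z => ((fderiv ℝ u z 1 : ℝ) : ℂ) :=
      Complex.ofRealCLM.contDiff.comp (hD.clm_apply contDiff_const)
    have h2 : ContDiff ℝ 1 fun z => ((fderiv ℝ u z I : ℝ) : ℂ) :=
      Complex.ofRealCLM.contDiff.comp (hD.clm_apply contDiff_const)
    exact (h1.sub (contDiff_const.mul h2)).div_const 2
  have hgd : ∀ z v, fderiv ℝ (wz (fun ζ => (u ζ : ℂ))) z v =
      ((fderiv ℝ (fderiv ℝ u) z v 1 : ℝ) - I * (fderiv ℝ (fderiv ℝ u) z v I : ℝ)) / 2 := by
    intro z v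
    have h1 : ∀ e : ℂ, HasFDerivAt (fun z => ((fderiv ℝ u z e : ℝ) : ℂ))
        (Complex.ofRealCLM.comp ((fderiv ℝ (fderiv ℝ u) z).flip e)) z := by
      intro e
      refine Complex.ofRealCLM.hasFDerivAt.comp z ?_
      have := (hDd z).hasFDerivAt.clm_apply (hasFDerivAt_const e z)
      simpa using this
    have h2 : HasFDerivAt (fun z => (1 / 2 : ℂ) * (((fderiv ℝ u z 1 : ℝ) : ℂ) -
        I * ((fderiv ℝ u z I : ℝ) : ℂ)))
        ((1 / 2 : ℂ) • (Complex.ofRealCLM.comp ((fderiv ℝ (fderiv ℝ u) z).flip 1) -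
          I • Complex.ofRealCLM.comp ((fderiv ℝ (fderiv ℝ u) z).flip I))) z :=
      ((h1 1).sub ((h1 I).const_mul I)).const_mul (1 / 2)
    have h3 : (wz fun ζ => (u ζ : ℂ)) = fun z => (1 / 2 : ℂ) * (((fderiv ℝ u z 1 : ℝ) : ℂ) -
        I * ((fderiv ℝ u z I : ℝ) : ℂ)) := by
      rw [hgeq]
      funext z
      ring
    rw [h3, h2.fderiv]
    simp only [smul_apply, sub_apply, ContinuousLinearMap.comp_apply,
      ContinuousLinearMap.flip_apply, Complex.ofRealCLM_apply, smul_eq_mul]
    ring
  set g := wz (fun ζ => (u ζ : ℂ)) with hg_def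
  set E : ℂ → ℂ := fun z => ((Real.exp (2 * u z) / 4 : ℝ) : ℂ) with hE_def
  have hE : ContDiff ℝ 1 E := by
    refine Complex.ofRealCLM.contDiff.comp ?_
    exact (Real.contDiff_exp.comp (contDiff_const.mul hu1)).div_const 4
  -- the equation
  have hlap : ∀ z, fderiv ℝ g z 1 + I * fderiv ℝ g z I = -2 * E z := by
    intro z
    have hsymm : fderiv ℝ (fderiv ℝ u) z 1 I = fderiv ℝ (fderiv ℝ u) z I 1 :=
      (hu2.contDiffAt.isSymmSndFDerivAt (by simp)).eq 1 I
    have hl : fderiv ℝ (fderiv ℝ u) z 1 1 + fderiv ℝ (fderiv ℝ u) z I I =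
        -Real.exp (2 * u z) := by
      have h1 := hu.eq z
      rw [InnerProductSpace.laplacian_eq_iteratedFDeriv_complexPlane] at h1
      simp only [iteratedFDeriv_two_apply] at h1
      have h2 : fderiv ℝ (fderiv ℝ u) z 1 1 + fderiv ℝ (fderiv ℝ u) z I I +
        Real.exp (2 * u z) = 0 := h1
      linarith
    rw [hgd, hgd, hsymm]
    have hl' : ((fderiv ℝ (fderiv ℝ u) z 1 1 : ℝ) : ℂ) + (fderiv ℝ (fderiv ℝ u) z I I : ℝ) =
        -(Real.exp (2 * u z) : ℝ) := by exact_mod_cast hl
    have hE' : E z = (Real.exp (2 * u z) : ℝ) / 4 := by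
      simp only [hE_def]
      push_cast
      ring
    rw [hE']
    linear_combination (1 / 2) * hl' -
      (1 / 2) * ((fderiv ℝ (fderiv ℝ u) z I I : ℝ) : ℂ) * Complex.I_sq
  have hgdiff := hg.differentiable (by norm_num)
  refine morera (schw u) g E (fun z => g z ^ 2) hg hE (hg.pow 2) ?_ ?_ ?_
  · intro z
    have : schw u z = (fderiv ℝ g z 1 - I * fderiv ℝ g z I) / 2 - g z ^ 2 := rfl
    rw [this]
    linear_combination (-1 / 2) * hlap z
  · intro z
    have : schw u z = (fderiv ℝ g z 1 - I * fderiv ℝ g z I) / 2 - g z ^ 2 := rfl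
    rw [this]
    linear_combination (1 / 2) * hlap z
  · intro z
    have h1 : ∀ v, fderiv ℝ (fun z => g z ^ 2) z v = 2 * g z * fderiv ℝ g z v := by
      intro v
      have := (hgdiff z).hasFDerivAt.pow 2
      have h3 : fderiv ℝ (fun z => g z ^ 2) z = _ := this.fderiv
      rw [h3]
      simp
    have h2 : ∀ v, fderiv ℝ E z v = 2 * E z * (fderiv ℝ u z v : ℝ) := by
      intro v
      have h3 : HasFDerivAt (fun z => Real.exp (2 * u z) / 4)
          ((1 / 4 : ℝ) • (Real.exp (2 * u z) • ((2 : ℝ) • fderiv ℝ u z))) z := by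
        have := (((hud z).hasFDerivAt.const_mul 2).exp).mul_const (1 / 4 : ℝ)
        refine (this.congr_of_eventuallyEq (Eventually.of_forall fun z => ?_))
        simp only
        ring
      have h4 : HasFDerivAt E (Complex.ofRealCLM.comp
          ((1 / 4 : ℝ) • (Real.exp (2 * u z) • ((2 : ℝ) • fderiv ℝ u z)))) z :=
        Complex.ofRealCLM.hasFDerivAt.comp z h3
      rw [h4.fderiv]
      simp only [hE_def, ContinuousLinearMap.comp_apply, smul_apply,
        Complex.ofRealCLM_apply, smul_eq_mul]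
      push_cast
      ring
    have h5 : g z = ((fderiv ℝ u z 1 : ℝ) - I * (fderiv ℝ u z I : ℝ)) / 2 := wz_real hu2 z
    have h5' : ((fderiv ℝ u z 1 : ℝ) : ℂ) = 2 * g z + I * (fderiv ℝ u z I : ℝ) := by
      rw [h5]
      ring
    rw [h1, h1, h2, h2, h5']
    linear_combination (-2 * I * g z) * hlap z + (2 * g z * fderiv ℝ g z I -
      2 * E z * (fderiv ℝ u z I : ℝ)) * Complex.I_sq

end Pool.Agent.Liou
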