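import Pool.Agent.Liou.Targets

/-! Injective entire functions are affine; a pair with a full star is a bubble. -/

set_option autoImplicit false

open Complex ComplexConjugate Set Filter Topology

namespace Pool.Agent.Liou

namespace INJBUB_

/-- an injective entire function has no critical point -/
theorem deriv_ne_zero_of_injective {g : ℂ → ℂ} (hg : Differentiable ℂ g)
    (hinj : Function.Injective g) (z₀ : ℂ) : deriv g z₀ ≠ 0 := by
  intro hd
  have hfa : AnalyticAt ℂ (fun z => g z - g z₀) z₀ :=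
    ((hg.sub_const (g z₀)).analyticAt z₀)
  have hfin : analyticOrderAt (fun z => g z - g z₀) z₀ ≠ ⊤ := by
    intro htop
    rw [analyticOrderAt_eq_top] at htop
    have h1 : ∀ᶠ z in 𝓝[≠] z₀, g z - g z₀ = 0 := htop.filter_mono nhdsWithin_le_nhds
    obtain ⟨z, hz, hne⟩ := (h1.and self_mem_nhdsWithin).exists
    exact hne (hinj (sub_eq_zero.1 hz))
  obtain ⟨m, hm⟩ := ENat.ne_top_iff_exists.1 hfin
  obtain ⟨h, hha, hh0, hev⟩ := (hfa.analyticOrderAt_eq_natCast).1 hm.symm
  have hself : g z₀ - g z₀ = (z₀ - z₀) ^ m • h z₀ := hev.self_of_nhds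
  have hm0 : m ≠ 0 := by
    rintro rfl
    simp at hself
    exact hh0 hself.symm
  have hm1 : m ≠ 1 := by
    rintro rfl
    have h1 : (fun z => g z - g z₀) =ᶠ[𝓝 z₀] fun z => (z - z₀) * h z := by
      filter_upwards [hev] with z hz
      rw [hz]; simp
    have h2 : deriv (fun z => g z - g z₀) z₀ = h z₀ := by
      rw [h1.deriv_eq]
      have h3 : HasDerivAt (fun z => (z - z₀) * h z) (1 * h z₀ + (z₀ - z₀) * deriv h z₀) z₀ :=
        ((hasDerivAt_id z₀).sub_const z₀).mul hha.differentiableAt.hasDerivAt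
      rw [h3.deriv]; ring
    have h4 : deriv (fun z => g z - g z₀) z₀ = deriv g z₀ := by
      rw [deriv_sub_const]
    exact hh0 (by rw [← h2, h4, hd])
  have hm2 : 2 ≤ m := by omega
  have hmC : (m : ℂ) ≠ 0 := by exact_mod_cast hm0
  -- local m-th root
  let k : ℂ → ℂ := fun z => Complex.exp (Complex.log (h z / h z₀) / m)
  have hka : AnalyticAt ℂ k z₀ := by
    have h1 : AnalyticAt ℂ (fun z => h z / h z₀) z₀ := hha.div analyticAt_const hh0
    have h2 : h z₀ / h z₀ ∈ Complex.slitPlane := by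
      rw [div_self hh0]; exact Complex.one_mem_slitPlane
    exact ((h1.clog h2).div analyticAt_const hmC).cexp
  have hk0 : k z₀ = 1 := by
    show Complex.exp (Complex.log (h z₀ / h z₀) / m) = 1
    rw [div_self hh0, Complex.log_one, zero_div, Complex.exp_zero]
  let φ : ℂ → ℂ := fun z => (z - z₀) * k z
  have hφ0 : φ z₀ = 0 := by
    show (z₀ - z₀) * k z₀ = 0
    rw [sub_self, zero_mul]
  have hφa : AnalyticAt ℂ φ z₀ := (analyticAt_id.sub analyticAt_const).mul hka
  have hφd : deriv φ z₀ = 1 := by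
    have h3 : HasDerivAt φ (1 * k z₀ + (z₀ - z₀) * deriv k z₀) z₀ :=
      ((hasDerivAt_id z₀).sub_const z₀).mul hka.differentiableAt.hasDerivAt
    rw [h3.deriv, hk0]; ring
  have hφs : HasStrictDerivAt φ 1 z₀ := hφd ▸ hφa.hasStrictDerivAt
  have hmap : map φ (𝓝 z₀) = 𝓝 0 := by
    rw [hφs.map_nhds_eq one_ne_zero, hφ0]
  have hne : ∀ᶠ z in 𝓝 z₀, h z ≠ 0 := hha.continuousAt.eventually_ne hh0
  have hU : {z | g z - g z₀ = (z - z₀) ^ m • h z ∧ h z ≠ 0} ∈ 𝓝 z₀ := hev.and hne
  have hpow : ∀ z, g z - g z₀ = (z - z₀) ^ m • h z → h z ≠ 0 →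
      g z = g z₀ + h z₀ * φ z ^ m := by
    intro z h1 h2
    have h3 : k z ^ m = h z / h z₀ := by
      show Complex.exp (Complex.log (h z / h z₀) / m) ^ m = h z / h z₀
      rw [← Complex.exp_nat_mul, mul_div_cancel₀ _ hmC, Complex.exp_log (div_ne_zero h2 hh0)]
    have h4 : h z₀ * φ z ^ m = (z - z₀) ^ m * h z := by
      show h z₀ * ((z - z₀) * k z) ^ m = _
      rw [mul_pow, h3]; field_simp
    rw [h4, ← smul_eq_mul, ← h1]; ring
  have hV : φ '' {z | g z - g z₀ = (z - z₀) ^ m • h z ∧ h z ≠ 0} ∈ 𝓝 (0 : ℂ) := by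
    rw [← hmap]; exact image_mem_map hU
  set ζ : ℂ := Complex.exp (2 * Real.pi * I / m) with hζ
  have hprim : IsPrimitiveRoot ζ m := Complex.isPrimitiveRoot_exp m hm0
  have hcont : Tendsto (fun w : ℂ => ζ * w) (𝓝 0) (𝓝 0) := by
    have h5 : Continuous fun w : ℂ => ζ * w := continuous_const.mul continuous_id
    have h6 := h5.tendsto 0
    rw [mul_zero] at h6
    exact h6
  have hW : ∀ᶠ w in 𝓝[≠] (0 : ℂ),
      w ∈ φ '' {z | g z - g z₀ = (z - z₀) ^ m • h z ∧ h z ≠ 0} ∧
      ζ * w ∈ φ '' {z | g z - g z₀ = (z - z₀) ^ m • h z ∧ h z ≠ 0} :=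
    (Filter.Eventually.and hV (hcont.eventually hV)).filter_mono nhdsWithin_le_nhds
  obtain ⟨w, ⟨⟨z₁, hz₁, hw₁⟩, ⟨z₂, hz₂, hw₂⟩⟩, hw0⟩ := (hW.and self_mem_nhdsWithin).exists
  have e1 := hpow z₁ hz₁.1 hz₁.2
  have e2 := hpow z₂ hz₂.1 hz₂.2
  rw [hw₁] at e1
  rw [hw₂, mul_pow, hprim.pow_eq_one, one_mul] at e2
  have heq : z₁ = z₂ := hinj (e1.trans e2.symm)
  rw [heq, hw₂] at hw₁
  have hw0' : w ≠ 0 := hw0
  have : ζ = 1 := by
    have := mul_right_cancel₀ hw0' (hw₁.trans (one_mul w).symm)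
    exact this
  exact hprim.ne_one (by omega) this

end INJBUB_

theorem p_INJ : T_INJ := by
  intro g hg hinj
  have hd : deriv g 0 ≠ 0 := INJBUB_.deriv_ne_zero_of_injective hg hinj 0
  -- the slope
  have hD : Differentiable ℂ (dslope g 0) := by
    rw [← differentiableOn_univ, Complex.differentiableOn_dslope univ_mem, differentiableOn_univ]
    exact hg
  have hD0 : ∀ z, dslope g 0 z ≠ 0 := by
    intro z
    by_cases hz : z = 0
    · rw [hz, dslope_same]; exact hd
    · rw [dslope_of_ne _ hz, slope_def_field]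
      exact div_ne_zero (sub_ne_zero.2 fun h => hz (hinj h)) (sub_ne_zero.2 hz)
  let q : ℂ → ℂ := fun z => (dslope g 0 z)⁻¹
  have hq : Differentiable ℂ q := hD.inv hD0
  have hq0 : ∀ z, q z ≠ 0 := fun z => inv_ne_zero (hD0 z)
  -- growth
  have hstrict : HasStrictDerivAt g (deriv g 0) 0 := (hg.analyticAt 0).hasStrictDerivAt
  have himg : g '' Metric.ball 0 1 ∈ 𝓝 (g 0) := by
    rw [← hstrict.map_nhds_eq hd]
    exact image_mem_map (Metric.ball_mem_nhds 0 one_pos)
  obtain ⟨r, hr, hball⟩ := Metric.mem_nhds_iff.1 himg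
  have hgrow : ∀ z : ℂ, 1 ≤ ‖z‖ → r ≤ ‖g z - g 0‖ := by
    intro z hz
    by_contra hlt
    push Not at hlt
    obtain ⟨y, hy, hyz⟩ := hball (by rwa [Metric.mem_ball, dist_eq_norm] : g z ∈ Metric.ball (g 0) r)
    have := hinj hyz
    rw [this, Metric.mem_ball, dist_zero_right] at hy
    linarith
  have hqb : ∀ z : ℂ, 1 ≤ ‖z‖ → ‖q z‖ ≤ ‖z‖ / r := by
    intro z hz
    have hz0 : z ≠ 0 := by
      rintro rfl
      rw [norm_zero] at hz; linarith
    show ‖(dslope g 0 z)⁻¹‖ ≤ ‖z‖ / r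
    rw [dslope_of_ne _ hz0, slope_def_field, inv_div, norm_div, sub_zero]
    exact div_le_div_of_nonneg_left (norm_nonneg _) hr (hgrow z hz)
  -- the second slope is bounded
  have hE : Differentiable ℂ (dslope q 0) := by
    rw [← differentiableOn_univ, Complex.differentiableOn_dslope univ_mem, differentiableOn_univ]
    exact hq
  have hbd : Bornology.IsBounded (range (dslope q 0)) := by
    obtain ⟨M, hM⟩ := (isCompact_closedBall (0 : ℂ) 1).exists_bound_of_continuousOn
      hE.continuous.continuousOn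
    rw [isBounded_iff_forall_norm_le]
    refine ⟨max M (1 / r + ‖q 0‖), ?_⟩
    rintro _ ⟨z, rfl⟩
    by_cases hz : ‖z‖ ≤ 1
    · exact (hM z (by rwa [mem_closedBall_zero_iff])).trans (le_max_left _ _)
    · push Not at hz
      have hz0 : z ≠ 0 := by
        rintro rfl
        rw [norm_zero] at hz; linarith
      refine le_trans ?_ (le_max_right _ _)
      rw [dslope_of_ne _ hz0, slope_def_field, norm_div, sub_zero]
      have hpos : 0 < ‖z‖ := by linarith
      rw [div_le_iff₀ hpos]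
      calc ‖q z - q 0‖ ≤ ‖q z‖ + ‖q 0‖ := norm_sub_le _ _
        _ ≤ ‖z‖ / r + ‖q 0‖ * ‖z‖ := by
            have h1 := hqb z hz.le
            have h2 : ‖q 0‖ ≤ ‖q 0‖ * ‖z‖ := by
              have := norm_nonneg (q 0)
              nlinarith
            linarith
        _ = (1 / r + ‖q 0‖) * ‖z‖ := by ring
  have hconst : ∀ z, dslope q 0 z = dslope q 0 0 := fun z =>
    hE.apply_eq_apply_of_bounded hbd z 0
  have hlin : ∀ z, q z = q 0 + dslope q 0 0 * z := by
    intro z
    by_cases hz : z = 0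
    · rw [hz]; ring
    · have h1 := hconst z
      rw [dslope_of_ne _ hz, slope_def_field, sub_zero, div_eq_iff hz] at h1
      linear_combination h1
  have hc1 : dslope q 0 0 = 0 := by
    by_contra hne
    have := hlin (-q 0 / dslope q 0 0)
    rw [mul_div_cancel₀ _ hne, add_neg_cancel] at this
    exact hq0 _ this
  have hqc : ∀ z, q z = q 0 := by
    intro z
    rw [hlin z, hc1, zero_mul, add_zero]
  refine ⟨(q 0)⁻¹, g 0, inv_ne_zero (hq0 0), fun z => ?_⟩
  by_cases hz : z = 0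
  · rw [hz]; ring
  · have h1 : (dslope g 0 z)⁻¹ = q 0 := hqc z
    have h2 : dslope g 0 z = (q 0)⁻¹ := by rw [← h1, inv_inv]
    rw [dslope_of_ne _ hz, slope_def_field, sub_zero, div_eq_iff hz] at h2
    linear_combination h2

theorem p_BUB (h1 : T_SEC) (h2 : T_INJ) : T_BUB := by
  intro P x hS
  have hsec := h1 P x
  have hdiff : Differentiable ℂ (P.sec x) := by
    rw [← differentiableOn_univ, ← hS]; exact hsec.diff
  have hinj : Function.Injective (P.sec x) := by
    rw [← injOn_univ, ← hS]; exact hsec.inj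
  obtain ⟨c, d, hc, haff⟩ := h2 (P.sec x) hdiff hinj
  have hd : d = x := by
    have := haff 0
    rw [hsec.zero, mul_zero, zero_add] at this
    exact this.symm
  subst hd
  have hB : ∀ z, P.B d z = (z - d) / c * P.A d z := by
    intro z
    have := hsec.eq ((z - d) / c) (by rw [hS]; exact mem_univ _)
    rw [haff, mul_div_cancel₀ _ hc, sub_add_cancel] at this
    exact this
  have hA2 : ∀ z, P.A d z ^ 2 = c := by
    intro z
    have hw := P.wrAB d z
    have hBd : HasDerivAt (P.B d) (1 / c * P.A d z + (z - d) / c * deriv (P.A d) z) z := by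
      have e : P.B d = fun z => (z - d) / c * P.A d z := funext hB
      rw [e]
      have h3 : HasDerivAt (fun z : ℂ => (z - d) / c) (1 / c) z :=
        ((hasDerivAt_id z).sub_const d).div_const c
      exact h3.mul (P.diff_A d z).hasDerivAt
    rw [hBd.deriv, hB z] at hw
    field_simp at hw
    linear_combination hw
  refine ⟨d, fun r => ‖c‖ * (1 + r ^ 2 / ‖c‖ ^ 2), fun z => ?_⟩
  have hnA : ‖P.A d z‖ ^ 2 = ‖c‖ := by
    rw [← norm_pow, hA2 z]
  rw [← P.AB_sq d z, hB z, norm_mul, norm_div, mul_pow, hnA, div_pow]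
  ring

end Pool.Agent.Liou
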