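import Pool.Agent.Liou.Targets

/-! # KEY: no component of regular directions shorter than `π` -/

set_option autoImplicit false

open Complex ComplexConjugate Set Filter Topology

namespace Pool.Agent.Liou

namespace KEY_

theorem norm_e (φ : ℝ) : ‖Complex.exp ((φ : ℂ) * I)‖ = 1 := Complex.norm_exp_ofReal_mul_I φ

theorem YZ_of (P : Pair) {x z w : ℂ} (h : P.B x z = w * P.A x z) :
    P.Y x z = ((2 / (1 + ‖w‖ ^ 2) : ℝ) : ℂ) * w ∧ P.Z x z = (1 - ‖w‖ ^ 2) / (1 + ‖w‖ ^ 2) := by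
  have hA := P.A_ne_of_eq h
  have hN : P.N z = (‖P.A x z‖ ^ 2) * (1 + ‖w‖ ^ 2) := by
    rw [← P.AB_sq x z, h, norm_mul]; ring
  have hA1 : ‖P.A x z‖ ≠ 0 := norm_ne_zero_iff.2 hA
  have hA2 : (‖P.A x z‖ : ℂ) ≠ 0 := by exact_mod_cast hA1
  have hw1 : (1 + ‖w‖ ^ 2 : ℝ) ≠ 0 := by positivity
  have hw : (1 + (‖w‖ : ℂ) ^ 2) ≠ 0 := by exact_mod_cast hw1
  constructor
  · have e1 : P.A x z * conj (P.A x z) = (‖P.A x z‖ : ℂ) ^ 2 := Complex.mul_conj' _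
    unfold Pair.Y
    rw [hN, h]
    push_cast
    field_simp
    linear_combination w * e1
  · unfold Pair.Z
    rw [hN, h, norm_mul]
    field_simp

theorem sin_two_arctan (s : ℝ) : Real.sin (2 * Real.arctan s) = 2 * s / (1 + s ^ 2) := by
  have h : (0 : ℝ) < 1 + s ^ 2 := by positivity
  rw [Real.sin_two_mul, Real.sin_arctan, Real.cos_arctan]
  have h2 : √(1 + s ^ 2) * √(1 + s ^ 2) = 1 + s ^ 2 := Real.mul_self_sqrt h.le
  rw [show 2 * (s / √(1 + s ^ 2)) * (1 / √(1 + s ^ 2)) =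
    2 * s / (√(1 + s ^ 2) * √(1 + s ^ 2)) by ring, h2]

theorem cos_two_arctan (s : ℝ) : Real.cos (2 * Real.arctan s) = (1 - s ^ 2) / (1 + s ^ 2) := by
  have h : (0 : ℝ) < 1 + s ^ 2 := by positivity
  rw [Real.cos_two_mul, Real.cos_arctan, div_pow, Real.sq_sqrt h.le]
  field_simp
  ring

theorem arctan_lt {s : ℝ} (h : 0 < s) : Real.arctan s < s := by
  have h1 : 0 < Real.arctan s := Real.arctan_pos.2 h
  have h2 := Real.lt_tan h1 (Real.arctan_lt_pi_div_two s)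
  rwa [Real.tan_arctan] at h2

/-- first exit from a set along a ray -/
theorem first_exit {S : Set ℂ} (ho : IsOpen S) (h0 : (0 : ℂ) ∈ S) {e : ℂ} {R : ℝ} (hR : 0 < R)
    (hne : (R : ℂ) * e ∉ S) : ∃ ρ : ℝ, 0 < ρ ∧ ρ ≤ R ∧ (∀ t ∈ Ico (0 : ℝ) ρ, (t : ℂ) * e ∈ S) ∧
      (ρ : ℂ) * e ∉ S := by
  set C : Set ℝ := {t | 0 ≤ t ∧ (t : ℂ) * e ∉ S} with hC
  have hcl : IsClosed C := by
    have : IsClosed {t : ℝ | (t : ℂ) * e ∉ S} :=
      (ho.isClosed_compl).preimage (by fun_prop : Continuous fun t : ℝ => (t : ℂ) * e)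
    exact isClosed_Ici.inter this
  have hRC : R ∈ C := ⟨hR.le, hne⟩
  have hbd : BddBelow C := ⟨0, fun t ht => ht.1⟩
  have hmem := hcl.csInf_mem ⟨R, hRC⟩ hbd
  refine ⟨sInf C, ?_, csInf_le hbd hRC, ?_, hmem.2⟩
  · rcases hmem.1.lt_or_eq with h | h
    · exact h
    · exfalso
      apply hmem.2
      rw [← h]
      simpa using h0
  · intro t ht
    by_contra h
    exact absurd (csInf_le hbd (show t ∈ C from ⟨ht.1, h⟩)) (not_le.2 ht.2)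

theorem sec_cont {P : Pair} {x : ℂ} (H : SecFacts P x) : ContinuousOn (P.sec x) (P.S x) :=
  H.diff.continuousOn

/-- images of balls under `sec` are open -/
theorem sec_nhds {P : Pair} {x : ℂ} (H : SecFacts P x) {U : Set ℂ} (hU : IsOpen U)
    (hUS : U ⊆ P.S x) {w : ℂ} (hw : w ∈ U) : P.sec x '' U ∈ 𝓝 (P.sec x w) := by
  have h1 : HasStrictDerivAt (P.sec x) (deriv (P.sec x) w) w :=
    ((H.diff.analyticOnNhd H.isOpen) w (hUS hw)).hasStrictDerivAt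
  have h2 := h1.map_nhds_eq (H.deriv_ne w (hUS hw))
  rw [← h2]
  exact Filter.image_mem_map (hU.mem_nhds hw)

/-- the last time in a compact set -/
theorem last_time {γ : ℝ → ℂ} (hγ : ContinuousOn γ (Icc 0 1)) {K : Set ℂ} (hK : IsCompact K)
    (h0 : γ 0 ∈ K) : ∃ t₁ ∈ Icc (0 : ℝ) 1, γ t₁ ∈ K ∧ ∀ t ∈ Icc (0 : ℝ) 1, γ t ∈ K → t ≤ t₁ := by
  have hcl : IsClosed (Icc (0 : ℝ) 1 ∩ γ ⁻¹' K) :=
    hγ.preimage_isClosed_of_isClosed isClosed_Icc hK.isClosed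
  have hcp : IsCompact (Icc (0 : ℝ) 1 ∩ γ ⁻¹' K) :=
    isCompact_Icc.of_isClosed_subset hcl inter_subset_left
  obtain ⟨t₁, ht₁, hmax⟩ := hcp.exists_isGreatest ⟨0, ⟨by simp, h0⟩⟩
  exact ⟨t₁, ht₁.1, ht₁.2, fun t ht h => hmax ⟨ht, h⟩⟩

theorem e_inj {φ ψ : ℝ} (h1 : φ < ψ) (h2 : ψ < φ + 2 * Real.pi)
    (h : Complex.exp ((φ : ℂ) * I) = Complex.exp ((ψ : ℂ) * I)) : False := by
  rw [Complex.exp_eq_exp_iff_exists_int] at h
  obtain ⟨n, hn⟩ := h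
  have h3 : (φ : ℂ) = ψ + n * (2 * Real.pi) := by
    have : ((φ : ℂ) - (ψ + n * (2 * Real.pi))) * I = 0 := by linear_combination hn
    rcases mul_eq_zero.1 this with h4 | h4
    · linear_combination h4
    · exact absurd h4 I_ne_zero
  have h5 : φ = ψ + n * (2 * Real.pi) := by exact_mod_cast h3
  have hpi := Real.pi_pos
  have hn1 : (n : ℝ) < 0 := by
    by_contra hc
    push Not at hc
    nlinarith
  have hn2 : (-1 : ℝ) < n := by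
    by_contra hc
    push Not at hc
    nlinarith
  have hn1' : n < 0 := by exact_mod_cast hn1
  have hn2' : -1 < n := by exact_mod_cast hn2
  omega

theorem exists_angle (a : ℝ) {θ : ℂ} (h : ‖θ‖ = 1) :
    ∃ φ : ℝ, a ≤ φ ∧ φ < a + 2 * Real.pi ∧ θ = Complex.exp ((φ : ℂ) * I) := by
  obtain ⟨k, hk, -⟩ := existsUnique_sub_zsmul_mem_Ico Real.two_pi_pos (Complex.arg θ) a
  refine ⟨Complex.arg θ - k • (2 * Real.pi), hk.1, hk.2, ?_⟩
  have h1 : θ = Complex.exp ((Complex.arg θ : ℂ) * I) := by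
    have := Complex.norm_mul_exp_arg_mul_I θ
    rw [h] at this
    simpa using this.symm
  conv_lhs => rw [h1]
  rw [Complex.exp_eq_exp_iff_exists_int]
  refine ⟨k, ?_⟩
  push_cast
  simp only [zsmul_eq_mul]
  ring

/-- directions in the sector are far from `v` -/
theorem sector {a b φ : ℝ} (h1 : a ≤ φ) (h2 : φ ≤ b) (hba : b < a + Real.pi) :
    (conj (-Complex.exp ((((a + b) / 2 : ℝ) : ℂ) * I)) * Complex.exp ((φ : ℂ) * I)).re ≤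
      -Real.cos ((b - a) / 2) := by
  have e1 : (conj (-Complex.exp ((((a + b) / 2 : ℝ) : ℂ) * I)) * Complex.exp ((φ : ℂ) * I)) =
      -Complex.exp (((φ - (a + b) / 2 : ℝ) : ℂ) * I) := by
    rw [map_neg, neg_mul, ← Complex.exp_conj, map_mul, Complex.conj_ofReal, Complex.conj_I,
      ← Complex.exp_add]
    congr 2
    push_cast
    ring
  rw [e1, Complex.neg_re, Complex.exp_ofReal_mul_I_re, neg_le_neg_iff,
    ← Real.cos_abs (φ - (a + b) / 2)]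
  apply Real.cos_le_cos_of_nonneg_of_le_pi (abs_nonneg _)
  · linarith [Real.pi_pos]
  · rw [abs_le]
    constructor <;> linarith

/-- closeness of directions -/
theorem close {m θ : ℂ} {y s₀ ε c : ℝ} (hm : ‖m‖ = 1) (hθ : ‖θ‖ = 1) (hs : 0 < s₀) (hy : s₀ ≤ y)
    (hc : 0 < c) (hε : ε ≤ s₀ * c ^ 2 / 8) (h : y - ε ≤ y * (conj m * θ).re) :
    ‖m - θ‖ ≤ c / 2 := by
  have e1 : ‖m - θ‖ ^ 2 = 2 - 2 * (conj m * θ).re := by
    have h1 : ‖m - θ‖ ^ 2 = ‖m‖ ^ 2 + ‖θ‖ ^ 2 - 2 * (conj m * θ).re := by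
      rw [← Complex.normSq_eq_norm_sq, ← Complex.normSq_eq_norm_sq, ← Complex.normSq_eq_norm_sq]
      simp only [Complex.normSq_apply, Complex.sub_re, Complex.sub_im, Complex.mul_re,
        Complex.conj_re, Complex.conj_im]
      ring
    rw [h1, hm, hθ]; ring
  have h1 : y * (1 - (conj m * θ).re) ≤ s₀ * c ^ 2 / 8 := by linarith
  have h0 : 0 ≤ 1 - (conj m * θ).re := by
    have : 0 ≤ ‖m - θ‖ ^ 2 := by positivity
    linarith
  have h2 : s₀ * (1 - (conj m * θ).re) ≤ s₀ * c ^ 2 / 8 :=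
    (mul_le_mul_of_nonneg_right hy h0).trans h1
  have h3 : 1 - (conj m * θ).re ≤ c ^ 2 / 8 := by
    have : s₀ * (1 - (conj m * θ).re) ≤ s₀ * (c ^ 2 / 8) := by linarith
    exact le_of_mul_le_mul_left this hs
  apply le_of_sq_le_sq _ (by positivity)
  rw [e1]
  nlinarith


/-- a ray in a direction of the sector does not meet the connected set `K` -/
theorem ray_misses {P : Pair} {x : ℂ} (H : SecFacts P x) {γ : ℝ → ℂ} {c ρ₁ s₀ ε R ρd t₁ ρ : ℝ}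
    {v m θ₀ θ₃ e : ℂ} (hv : ‖v‖ = 1) (hm : ‖m‖ = 1) (hθ₀ : ‖θ₀‖ = 1) (hθ₃ : ‖θ₃‖ = 1)
    (he : ‖e‖ = 1) (hc : 0 < c) (hs₀ : 0 < s₀) (hρ₁ : 0 < ρ₁)
    (hball : Metric.closedBall (0 : ℂ) ρ₁ ⊆ P.S x)
    (hε : ε ≤ s₀ * c ^ 2 / 8) (hs : ∀ t : ℝ, ρ₁ ≤ t → t ≤ R → s₀ ≤ 2 * t / (1 + t ^ 2))
    (hmv : -(c / 2) ≤ (conj m * v).re)
    (hvar : ∀ t ∈ Icc (0 : ℝ) 1, ‖P.Y x (γ t)‖ - ε ≤ (conj m * P.Y x (γ t)).re)
    (ht₁ : t₁ ∈ Icc (0 : ℝ) 1) (hγ₁ : γ t₁ = P.sec x ((ρ₁ : ℂ) * θ₃))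
    (hlast : ∀ t ∈ Icc (0 : ℝ) 1, γ t ∈ P.sec x '' Metric.closedBall (0 : ℂ) ρ₁ → t ≤ t₁)
    (hθ₀S : ∀ t ∈ Icc (0 : ℝ) ρd, (t : ℂ) * θ₀ ∈ P.S x)
    (heθ₀ : e ≠ θ₀) (hρR : ρ ≤ R) (heS : ∀ t ∈ Ico (0 : ℝ) ρ, (t : ℂ) * e ∈ P.S x)
    (hev : (conj v * e).re ≤ -(2 * c)) (hθ₃v : -c ≤ (conj v * θ₃).re) :
    ∀ t ∈ Ico (0 : ℝ) ρ, P.sec x ((t : ℂ) * e) ∉
      (P.sec x '' ((fun t : ℝ => (t : ℂ) * θ₀) '' Ioc 0 ρd)) ∪ (γ '' Icc t₁ 1) ∪
      (P.sec x '' ((fun t : ℝ => (t : ℂ) * θ₃) '' Ioc 0 ρ₁)) := by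
  have hne₃ : e ≠ θ₃ := by
    rintro rfl
    linarith
  have hdir : ∀ {t t' : ℝ} {θ : ℂ}, ‖θ‖ = 1 → 0 < t' → 0 ≤ t → (t' : ℂ) * θ = (t : ℂ) * e →
      e = θ := by
    intro t t' θ hθ ht' ht h
    have h1 : t' = t := by
      have := congrArg norm h
      rw [norm_mul, norm_mul, hθ, he, mul_one, mul_one, Complex.norm_real, Complex.norm_real,
        Real.norm_eq_abs, Real.norm_eq_abs, abs_of_pos ht', abs_of_nonneg ht] at this
      exact this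
    subst h1
    have h2 : (t' : ℂ) ≠ 0 := by exact_mod_cast ht'.ne'
    exact (mul_left_cancel₀ h2 h).symm
  have hmem₃ : ∀ t ∈ Ioc (0 : ℝ) ρ₁, (t : ℂ) * θ₃ ∈ P.S x := by
    intro t ht
    apply hball
    rw [mem_closedBall_zero_iff, norm_mul, hθ₃, mul_one, Complex.norm_real, Real.norm_eq_abs,
      abs_of_pos ht.1]
    exact ht.2
  intro t ht hK
  have htS := heS t ht
  rcases hK with (⟨w, ⟨t', ht', rfl⟩, hw⟩ | ⟨t', ht', hw⟩) | ⟨w, ⟨t', ht', rfl⟩, hw⟩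
  · have h1 := H.inj (hθ₀S t' ⟨ht'.1.le, ht'.2⟩) htS hw
    exact heθ₀ (hdir hθ₀ ht'.1 ht.1 h1)
  · have ht'' : t' ∈ Icc (0 : ℝ) 1 := ⟨ht₁.1.trans ht'.1, ht'.2⟩
    rcases le_or_gt t ρ₁ with hle | hgt
    · have h1 : γ t' ∈ P.sec x '' Metric.closedBall (0 : ℂ) ρ₁ := by
        rw [hw]
        refine ⟨_, ?_, rfl⟩
        rw [mem_closedBall_zero_iff, norm_mul, he, mul_one, Complex.norm_real, Real.norm_eq_abs,
          abs_of_nonneg ht.1]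
        exact hle
      have h2 : t' = t₁ := le_antisymm (hlast t' ht'' h1) ht'.1
      rw [h2, hγ₁] at hw
      have h3 := H.inj (hmem₃ ρ₁ ⟨hρ₁, le_rfl⟩) htS hw
      exact hne₃ (hdir hθ₃ hρ₁ ht.1 h3)
    · have h1 := (YZ_of P (H.eq _ htS)).1
      have hn : ‖(t : ℂ) * e‖ = t := by
        rw [norm_mul, he, mul_one, Complex.norm_real, Real.norm_eq_abs, abs_of_nonneg ht.1]
      have ht0 : 0 < t := hρ₁.trans hgt
      have hpos : (0 : ℝ) < 2 / (1 + t ^ 2) := by positivity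
      have h2 := hvar t' ht''
      rw [hw, h1, hn] at h2
      have h3 : ‖((2 / (1 + t ^ 2) : ℝ) : ℂ) * ((t : ℂ) * e)‖ = 2 * t / (1 + t ^ 2) := by
        rw [norm_mul, hn, Complex.norm_real, Real.norm_eq_abs, abs_of_pos hpos]
        ring
      have h4 : (conj m * (((2 / (1 + t ^ 2) : ℝ) : ℂ) * ((t : ℂ) * e))).re =
          2 * t / (1 + t ^ 2) * (conj m * e).re := by
        have : conj m * (((2 / (1 + t ^ 2) : ℝ) : ℂ) * ((t : ℂ) * e)) =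
            ((2 * t / (1 + t ^ 2) : ℝ) : ℂ) * (conj m * e) := by
          push_cast
          ring
        rw [this, Complex.re_ofReal_mul]
      rw [h3, h4] at h2
      have h5 := close hm he hs₀ (hs t hgt.le (ht.2.le.trans hρR)) hc hε h2
      have h6 : (conj v * e).re = (conj v * m).re - (conj v * (m - e)).re := by
        rw [mul_sub, Complex.sub_re]; ring
      have h7 : (conj v * (m - e)).re ≤ c / 2 := by
        refine (Complex.re_le_norm _).trans ?_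
        rw [norm_mul, Complex.norm_conj, hv, one_mul]
        exact h5
      have h8 : (conj v * m).re = (conj m * v).re := by
        simp only [Complex.mul_re, Complex.conj_re, Complex.conj_im]
        ring
      rw [h6, h8] at hev
      linarith
  · have h1 := H.inj (hmem₃ t' ht') htS hw
    exact hne₃ (hdir hθ₃ ht'.1 ht.1 h1)


theorem exists_sigma {ρ R c s₀ : ℝ} (hρ : 0 < ρ) (hR : 0 < R) (hc : 0 < c) (hs : 0 < s₀) :
    ∃ σ : ℝ, 0 < σ ∧ σ ≤ 1 / 6 ∧ σ < ρ ∧ σ * R < 1 ∧ σ ≤ c / 8 ∧ 6 * σ ≤ s₀ * c ^ 2 / 8 := by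
  refine ⟨min (min (1 / 6) (ρ / 2)) (min (min (1 / (2 * R)) (c / 8)) (s₀ * c ^ 2 / 48)), ?_, ?_, ?_,
    ?_, ?_, ?_⟩
  · have h1 : 0 < 1 / (2 * R) := by positivity
    have h2 : 0 < s₀ * c ^ 2 / 48 := by positivity
    exact lt_min (lt_min (by norm_num) (by linarith)) (lt_min (lt_min h1 (by linarith)) h2)
  · exact (min_le_left _ _).trans (min_le_left _ _)
  · exact ((min_le_left _ _).trans (min_le_right _ _)).trans_lt (by linarith)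
  · have h1 : min (min (1 / 6) (ρ / 2)) (min (min (1 / (2 * R)) (c / 8)) (s₀ * c ^ 2 / 48)) ≤
        1 / (2 * R) := ((min_le_right _ _).trans (min_le_left _ _)).trans (min_le_left _ _)
    have h2 := mul_le_mul_of_nonneg_right h1 hR.le
    have h3 : 1 / (2 * R) * R = 1 / 2 := by field_simp
    linarith
  · exact ((min_le_right _ _).trans (min_le_left _ _)).trans (min_le_right _ _)
  · have h1 : min (min (1 / 6) (ρ / 2)) (min (min (1 / (2 * R)) (c / 8)) (s₀ * c ^ 2 / 48)) ≤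
        s₀ * c ^ 2 / 48 := (min_le_right _ _).trans (min_le_right _ _)
    linarith

theorem norm_real_mul {t : ℝ} {e : ℂ} (he : ‖e‖ = 1) (ht : 0 ≤ t) : ‖(t : ℂ) * e‖ = t := by
  rw [norm_mul, he, mul_one, Complex.norm_real, Real.norm_eq_abs, abs_of_nonneg ht]

end KEY_

open KEY_

theorem p_KEY (h1 : T_SEC) (h2 : T_GROSS) (h3 : T_SEP) (h4 : T_VAR) : T_KEY := by
  intro P x a b R hP hR hab hba hSa hSb _
  have H := h1 P x
  have hpi := Real.pi_pos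
  -- the constant `c`
  obtain ⟨c, hc, hc2⟩ : ∃ c : ℝ, 0 < c ∧ 2 * c = Real.cos ((b - a) / 2) := by
    refine ⟨Real.cos ((b - a) / 2) / 2, ?_, by ring⟩
    have := Real.cos_pos_of_mem_Ioo (x := (b - a) / 2) ⟨by linarith, by linarith⟩
    linarith
  set v : ℂ := -Complex.exp ((((a + b) / 2 : ℝ) : ℂ) * I) with hv
  have hvn : ‖v‖ = 1 := by rw [hv, norm_neg]; exact norm_e _
  have hsec : ∀ φ : ℝ, a ≤ φ → φ ≤ b →
      (conj v * Complex.exp ((φ : ℂ) * I)).re ≤ -(2 * c) := by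
    intro φ hφ1 hφ2
    rw [hc2]
    exact sector hφ1 hφ2 hba
  -- the ball
  obtain ⟨ρ₁, hρ₁, hball⟩ : ∃ ρ₁ > 0, Metric.closedBall (0 : ℂ) ρ₁ ⊆ P.S x :=
    Metric.nhds_basis_closedBall.mem_iff.1 (H.isOpen.mem_nhds H.zero_mem)
  have hρ₁R : ρ₁ < R := by
    by_contra hcon
    push Not at hcon
    apply hSa
    apply hball
    rw [mem_closedBall_zero_iff, norm_real_mul (norm_e a) hR.le]
    exact hcon
  obtain ⟨s₀, hs₀, hs⟩ : ∃ s₀ : ℝ, 0 < s₀ ∧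
      ∀ t : ℝ, ρ₁ ≤ t → t ≤ R → s₀ ≤ 2 * t / (1 + t ^ 2) := by
    refine ⟨2 * ρ₁ / (1 + R ^ 2), by positivity, fun t ht1 ht2 => ?_⟩
    have ht0 : 0 < t := hρ₁.trans_le ht1
    rw [div_le_div_iff₀ (by positivity) (by positivity)]
    have h5 : t ^ 2 ≤ R ^ 2 := by nlinarith
    nlinarith [mul_nonneg hρ₁.le (sub_nonneg.2 h5),
      mul_nonneg (sub_nonneg.2 ht1) (by positivity : (0 : ℝ) ≤ 1 + R ^ 2)]
  -- the parameters
  obtain ⟨σ, hσ, hσ6, hσρ, hσR, hσc, hσs⟩ := exists_sigma hρ₁ hR hc hs₀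
  have hσ2 : σ ^ 2 ≤ σ := by nlinarith
  set τ : ℝ := 2 * Real.arctan σ with hτ
  set δ : ℝ := 2 * Real.arctan (σ ^ 2) with hδ
  set ρd : ℝ := 1 / σ ^ 2 with hρd
  have hσ2p : 0 < σ ^ 2 := by positivity
  have hτ0 : 0 < τ := by rw [hτ]; have := Real.arctan_pos.2 hσ; linarith
  have hδ0 : 0 < δ := by rw [hδ]; have := Real.arctan_pos.2 hσ2p; linarith
  have hτ1 : τ ≤ 2 * σ := by rw [hτ]; have := arctan_lt hσ; linarith
  have hδ1 : δ ≤ 2 * σ ^ 2 := by rw [hδ]; have := arctan_lt hσ2p; linarith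
  have hε : 2 * δ + τ ≤ 6 * σ := by linarith
  have hρdp : 0 < ρd := by rw [hρd]; positivity
  have hRρd : R < ρd := by
    rw [hρd, lt_div_iff₀ hσ2p]
    nlinarith
  have hsinτ : σ ≤ Real.sin τ := by
    rw [hτ, sin_two_arctan, le_div_iff₀ (by positivity)]
    nlinarith
  have hsinδ : Real.sin (2 * δ) ≤ c / 2 * Real.sin τ := by
    have h5 : Real.sin (2 * δ) ≤ 2 * δ := Real.sin_le (by linarith)
    have h6 : 4 * σ ^ 2 ≤ c / 2 * σ := by nlinarith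
    have h7 : c / 2 * σ ≤ c / 2 * Real.sin τ := by nlinarith
    linarith
  -- the direction `φ₂`
  obtain ⟨φ₂, hφ₂, hφ₂S⟩ := h2 P x ρd hρdp a b hab
  set θ₀ : ℂ := Complex.exp ((φ₂ : ℂ) * I) with hθ₀
  have hθ₀n : ‖θ₀‖ = 1 := norm_e φ₂
  have hθ₀S : ∀ t ∈ Icc (0 : ℝ) ρd, (t : ℂ) * θ₀ ∈ P.S x := by
    intro t ht
    have h5 := H.star _ hφ₂S (t / ρd) ⟨div_nonneg ht.1 hρdp.le, (div_le_one hρdp).2 ht.2⟩
    have h6 : ((t / ρd : ℝ) : ℂ) * ((ρd : ℂ) * θ₀) = (t : ℂ) * θ₀ := by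
      have : (ρd : ℂ) ≠ 0 := by exact_mod_cast hρdp.ne'
      push_cast
      field_simp
    rwa [h6] at h5
  have hwv : (σ : ℂ) * v ∈ Metric.closedBall (0 : ℂ) ρ₁ := by
    rw [mem_closedBall_zero_iff, norm_real_mul hvn hσ.le]
    exact hσρ.le
  have hwvS : (σ : ℂ) * v ∈ P.S x := hball hwv
  -- the end points
  have hYZx := YZ_of P (H.eq _ hwvS)
  rw [norm_real_mul hvn hσ.le] at hYZx
  have hYZz := YZ_of P (H.eq _ hφ₂S)
  rw [norm_real_mul hθ₀n hρdp.le] at hYZz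
  have hYx : P.Y x (P.sec x ((σ : ℂ) * v)) = (Real.sin τ : ℂ) * v := by
    rw [hYZx.1, hτ, sin_two_arctan]
    push_cast
    ring
  have hZx : P.Z x (P.sec x ((σ : ℂ) * v)) = Real.cos τ := by
    rw [hYZx.2, hτ, cos_two_arctan]
  have hρdσ : ρd * σ ^ 2 = 1 := by rw [hρd]; field_simp
  have hYz : P.Y x (P.sec x ((ρd : ℂ) * θ₀)) = (Real.sin δ : ℂ) * θ₀ := by
    rw [hYZz.1, hδ, sin_two_arctan, ← mul_assoc, ← Complex.ofReal_mul]
    congr 2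
    rw [hρd]
    field_simp
    ring
  have hZz : P.Z x (P.sec x ((ρd : ℂ) * θ₀)) = -Real.cos δ := by
    rw [hYZz.2, hδ, cos_two_arctan, hρd]
    field_simp
    ring
  -- the short curve
  obtain ⟨γ, hγ, hlen⟩ := hP (P.sec x ((σ : ℂ) * v)) (P.sec x ((ρd : ℂ) * θ₀)) δ hδ0
  obtain ⟨m, hm, hm1, hvar⟩ := h4 P x γ _ _ τ δ v θ₀ hγ hδ0 hτ0
    (by linarith [Real.pi_gt_three]) hvn hθ₀n hYx hZx hYz hZz hlen.le
  have hmv : -(c / 2) ≤ (conj m * v).re := by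
    by_contra hcon
    push Not at hcon
    have h5 : 0 < Real.sin τ := hσ.trans_le hsinτ
    nlinarith
  -- the last time in the ball
  have hcomp : IsCompact (P.sec x '' Metric.closedBall (0 : ℂ) ρ₁) :=
    (isCompact_closedBall 0 ρ₁).image_of_continuousOn ((sec_cont H).mono hball)
  obtain ⟨t₁, ht₁, hγt₁, hlast⟩ := last_time hγ.cont hcomp (by
    rw [hγ.source]; exact mem_image_of_mem _ hwv)
  obtain ⟨w₁, hw₁, hw₁γ⟩ := hγt₁
  rw [mem_closedBall_zero_iff] at hw₁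
  have hw₁S : w₁ ∈ P.S x := hball (by rwa [mem_closedBall_zero_iff])
  have ht₁1 : t₁ < 1 := by
    rcases ht₁.2.lt_or_eq with h | h
    · exact h
    · exfalso
      rw [h, hγ.target] at hw₁γ
      have h5 := H.inj hw₁S hφ₂S hw₁γ
      have h6 := norm_real_mul hθ₀n hρdp.le
      rw [← h5] at h6
      linarith
  have hw₁n : ‖w₁‖ = ρ₁ := by
    rcases hw₁.lt_or_eq with h | h
    · exfalso
      have h5 : P.sec x '' Metric.ball (0 : ℂ) ρ₁ ∈ 𝓝 (γ t₁) := by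
        rw [← hw₁γ]
        exact sec_nhds H Metric.isOpen_ball (Metric.ball_subset_closedBall.trans hball)
          (by rwa [mem_ball_zero_iff])
      have h6 : ∀ᶠ t in 𝓝[Icc 0 1] t₁, γ t ∈ P.sec x '' Metric.ball (0 : ℂ) ρ₁ :=
        (hγ.cont t₁ ht₁) h5
      have h7 : 𝓝[>] t₁ ≤ 𝓝[Icc 0 1] t₁ :=
        nhdsWithin_le_of_mem (Icc_mem_nhdsGT_of_mem ⟨ht₁.1, ht₁1⟩)
      have h8 : ∀ᶠ t in 𝓝[>] t₁, γ t ∈ P.sec x '' Metric.ball (0 : ℂ) ρ₁ ∧ t ∈ Ioc t₁ 1 :=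
        (Filter.Eventually.filter_mono h7 h6).and (Ioc_mem_nhdsGT ht₁1)
      obtain ⟨t, ht, ht2⟩ := h8.exists
      have h9 := hlast t ⟨ht₁.1.trans ht2.1.le, ht2.2⟩
        (image_mono Metric.ball_subset_closedBall ht)
      exact absurd ht2.1 (not_lt.2 h9)
    · exact h
  have hρ₁c : (ρ₁ : ℂ) ≠ 0 := by exact_mod_cast hρ₁.ne'
  obtain ⟨θ₃, hθ₃n, hw₁θ⟩ : ∃ θ₃ : ℂ, ‖θ₃‖ = 1 ∧ w₁ = (ρ₁ : ℂ) * θ₃ := by
    refine ⟨w₁ / ρ₁, ?_, by field_simp⟩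
    rw [norm_div, hw₁n, Complex.norm_real, Real.norm_eq_abs, abs_of_pos hρ₁, div_self hρ₁.ne']
  rw [hw₁θ] at hw₁γ hw₁S
  have hclose : ‖m - θ₃‖ ≤ c / 2 := by
    have h5 := hvar t₁ ht₁
    rw [← hw₁γ, (YZ_of P (H.eq _ hw₁S)).1, norm_real_mul hθ₃n hρ₁.le] at h5
    have hpos : (0 : ℝ) < 2 / (1 + ρ₁ ^ 2) := by positivity
    have h6 : ‖((2 / (1 + ρ₁ ^ 2) : ℝ) : ℂ) * ((ρ₁ : ℂ) * θ₃)‖ = 2 * ρ₁ / (1 + ρ₁ ^ 2) := by
      rw [norm_mul, norm_real_mul hθ₃n hρ₁.le, Complex.norm_real, Real.norm_eq_abs,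
        abs_of_pos hpos]
      ring
    have h7 : (conj m * (((2 / (1 + ρ₁ ^ 2) : ℝ) : ℂ) * ((ρ₁ : ℂ) * θ₃))).re =
        2 * ρ₁ / (1 + ρ₁ ^ 2) * (conj m * θ₃).re := by
      have : conj m * (((2 / (1 + ρ₁ ^ 2) : ℝ) : ℂ) * ((ρ₁ : ℂ) * θ₃)) =
          ((2 * ρ₁ / (1 + ρ₁ ^ 2) : ℝ) : ℂ) * (conj m * θ₃) := by
        push_cast
        ring
      rw [this, Complex.re_ofReal_mul]
    rw [h6, h7] at h5
    exact close hm hθ₃n hs₀ (hs ρ₁ le_rfl hρ₁R.le) hc (hε.trans hσs) h5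
  have hθ₃v : -c ≤ (conj v * θ₃).re := by
    have h6 : (conj v * θ₃).re = (conj v * m).re - (conj v * (m - θ₃)).re := by
      rw [mul_sub, Complex.sub_re]; ring
    have h7 : (conj v * (m - θ₃)).re ≤ c / 2 := by
      refine (Complex.re_le_norm _).trans ?_
      rw [norm_mul, Complex.norm_conj, hvn, one_mul]
      exact hclose
    have h8 : (conj v * m).re = (conj m * v).re := by
      simp only [Complex.mul_re, Complex.conj_re, Complex.conj_im]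
      ring
    rw [h6, h8]
    linarith
  obtain ⟨φ₄, hφ₄a, hφ₄b, hφ₄⟩ := exists_angle a hθ₃n
  have hbφ₄ : b < φ₄ := by
    by_contra hcon
    push Not at hcon
    have := hsec φ₄ hφ₄a hcon
    rw [← hφ₄] at this
    linarith
  -- the rays
  obtain ⟨ρa, hρa, hρaR, hρaS, hρaN⟩ := first_exit H.isOpen H.zero_mem hR hSa
  obtain ⟨ρb, hρb, hρbR, hρbS, hρbN⟩ := first_exit H.isOpen H.zero_mem hR hSb
  have hmissa := ray_misses H hvn hm hθ₀n hθ₃n (norm_e a) hc hs₀ hρ₁ hball (hε.trans hσs) hs hmv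
    hvar ht₁ hw₁γ.symm hlast hθ₀S
    (fun h => e_inj hφ₂.1 (by linarith [hφ₂.2]) h) hρaR hρaS (hsec a le_rfl hab.le) hθ₃v
  have hmissb := ray_misses H hvn hm hθ₀n hθ₃n (norm_e b) hc hs₀ hρ₁ hball (hε.trans hσs) hs hmv
    hvar ht₁ hw₁γ.symm hlast hθ₀S
    (fun h => e_inj hφ₂.2 (by linarith [hφ₂.1]) h.symm) hρbR hρbS (hsec b hab.le le_rfl) hθ₃v
  have hmem₃ : ∀ t ∈ Icc (0 : ℝ) ρ₁, (t : ℂ) * θ₃ ∈ P.S x := by
    intro t ht
    apply hball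
    rw [mem_closedBall_zero_iff, norm_real_mul hθ₃n ht.1]
    exact ht.2
  have hc₀ : Continuous fun t : ℝ => (t : ℂ) * θ₀ := by fun_prop
  have hc₃ : Continuous fun t : ℝ => (t : ℂ) * θ₃ := by fun_prop
  have hi₀ : (fun t : ℝ => (t : ℂ) * θ₀) '' Icc 0 ρd ⊆ P.S x := by
    rintro _ ⟨t, ht, rfl⟩
    exact hθ₀S t ht
  have hi₃ : (fun t : ℝ => (t : ℂ) * θ₃) '' Icc 0 ρ₁ ⊆ P.S x := by
    rintro _ ⟨t, ht, rfl⟩
    exact hmem₃ t ht
  have hsub₀ : (fun t : ℝ => (t : ℂ) * θ₀) '' Ioc 0 ρd ⊆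
      (fun t : ℝ => (t : ℂ) * θ₀) '' Icc 0 ρd := image_mono Ioc_subset_Icc_self
  have hsub₃ : (fun t : ℝ => (t : ℂ) * θ₃) '' Ioc 0 ρ₁ ⊆
      (fun t : ℝ => (t : ℂ) * θ₃) '' Icc 0 ρ₁ := image_mono Ioc_subset_Icc_self
  refine h3 P x a φ₂ b φ₄ ρa ρb (min ρd ρ₁)
    ((P.sec x '' ((fun t : ℝ => (t : ℂ) * θ₀) '' Ioc 0 ρd)) ∪ (γ '' Icc t₁ 1) ∪
      (P.sec x '' ((fun t : ℝ => (t : ℂ) * θ₃) '' Ioc 0 ρ₁)))
    hφ₂.1 hφ₂.2 hbφ₄ hφ₄b hρa hρb (lt_min hρdp hρ₁) hρaS hρaN hρbS hρbN ?_ ?_ hmissa hmissb ?_ ?_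
  · have hp₀ : IsPreconnected (P.sec x '' ((fun t : ℝ => (t : ℂ) * θ₀) '' Ioc 0 ρd)) :=
      (isPreconnected_Ioc.image _ hc₀.continuousOn).image _
        ((sec_cont H).mono (hsub₀.trans hi₀))
    have hp₃ : IsPreconnected (P.sec x '' ((fun t : ℝ => (t : ℂ) * θ₃) '' Ioc 0 ρ₁)) :=
      (isPreconnected_Ioc.image _ hc₃.continuousOn).image _
        ((sec_cont H).mono (hsub₃.trans hi₃))
    have hpγ : IsPreconnected (γ '' Icc t₁ 1) :=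
      isPreconnected_Icc.image _ (hγ.cont.mono (Icc_subset_Icc_left ht₁.1))
    have hp₀γ : IsPreconnected
        ((P.sec x '' ((fun t : ℝ => (t : ℂ) * θ₀) '' Ioc 0 ρd)) ∪ (γ '' Icc t₁ 1)) := by
      refine hp₀.union (P.sec x ((ρd : ℂ) * θ₀)) ?_ ?_ hpγ
      · exact ⟨_, ⟨ρd, ⟨hρdp, le_rfl⟩, rfl⟩, rfl⟩
      · exact ⟨1, ⟨ht₁.2, le_rfl⟩, hγ.target⟩
    refine hp₀γ.union (γ t₁) ?_ ?_ hp₃
    · right
      exact ⟨t₁, ⟨le_rfl, ht₁.2⟩, rfl⟩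
    · exact ⟨_, ⟨ρ₁, ⟨hρ₁, le_rfl⟩, rfl⟩, hw₁γ⟩
  · have hb₀ : Bornology.IsBounded (P.sec x '' ((fun t : ℝ => (t : ℂ) * θ₀) '' Ioc 0 ρd)) :=
      (((isCompact_Icc.image hc₀).image_of_continuousOn
        ((sec_cont H).mono hi₀)).isBounded).subset (image_mono hsub₀)
    have hb₃ : Bornology.IsBounded (P.sec x '' ((fun t : ℝ => (t : ℂ) * θ₃) '' Ioc 0 ρ₁)) :=
      (((isCompact_Icc.image hc₃).image_of_continuousOn
        ((sec_cont H).mono hi₃)).isBounded).subset (image_mono hsub₃)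
    have hbγ : Bornology.IsBounded (γ '' Icc t₁ 1) :=
      (isCompact_Icc.image_of_continuousOn (hγ.cont.mono (Icc_subset_Icc_left ht₁.1))).isBounded
    exact (hb₀.union hbγ).union hb₃
  · intro t ht
    left; left
    exact ⟨_, ⟨t, ⟨ht.1, ht.2.le.trans (min_le_left _ _)⟩, rfl⟩, rfl⟩
  · intro t ht
    right
    rw [← hφ₄]
    exact ⟨_, ⟨t, ⟨ht.1, ht.2.le.trans (min_le_right _ _)⟩, rfl⟩, rfl⟩

end Pool.Agent.Liou
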