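import Pool.Agent.Liou.Targets

/-! Lengths of piecewise `C¹` curves: T_LEN, T_CINT, T_GLIP, T_LIP. -/

set_option autoImplicit false

open Complex ComplexConjugate Set MeasureTheory

namespace Pool.Agent.Liou

namespace LEN_

theorem piece_int (ρ : ℂ → ℝ) (γ : ℝ → ℂ) (hρ : Continuous ρ) (a b : ℝ) (hab : a < b)
    (hγ : ContDiffOn ℝ 1 γ (Icc a b)) :
    IntervalIntegrable (fun τ => ρ (γ τ) * ‖deriv γ τ‖) volume a b := by
  have hc : ContinuousOn (fun τ => ρ (γ τ) * ‖derivWithin γ (Icc a b) τ‖) (Icc a b) := by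
    apply ContinuousOn.mul
    · exact hρ.comp_continuousOn hγ.continuousOn
    · exact (hγ.continuousOn_derivWithin (uniqueDiffOn_Icc hab) le_rfl).norm
  have hi := hc.intervalIntegrable_of_Icc hab.le (μ := volume)
  refine hi.congr_uIoo ?_
  intro τ hτ
  rw [uIoo_of_le hab.le] at hτ
  have : derivWithin γ (Icc a b) τ = deriv γ τ :=
    derivWithin_of_mem_nhds (Icc_mem_nhds hτ.1 hτ.2)
  simp only [this]

/-- the end points of the pieces increase -/
theorem s_mono {n : ℕ} {s : ℕ → ℝ} (hs : ∀ i < n, s i < s (i + 1)) :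
    ∀ k ≤ n, s 0 ≤ s k := by
  intro k
  induction k with
  | zero => intro _; exact le_rfl
  | succ k ih => intro hk; exact (ih (by omega)).trans (hs k (by omega)).le

theorem cint : T_CINT := by
  intro ρ γ p q hρ hγ s t hs hst ht
  obtain ⟨n, σ, h0, h1, hσ, hp⟩ := hγ.pieces
  have h : IntervalIntegrable (fun τ => ρ (γ τ) * ‖deriv γ τ‖) volume (σ 0) (σ n) := by
    apply IntervalIntegrable.trans_iterate
    intro k hk
    exact piece_int ρ γ hρ _ _ (hσ k hk) (hp k hk)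
  rw [h0, h1] at h
  refine h.mono_set ?_
  rw [uIcc_of_le hst, uIcc_of_le zero_le_one]
  exact Icc_subset_Icc hs ht

/-- one sided bound on a piece -/
theorem piece_le (G ρ : ℂ → ℝ) (γ : ℝ → ℂ) (hG : Differentiable ℝ G) (hρ : Continuous ρ)
    (hb : ∀ z, ‖fderiv ℝ G z‖ ≤ ρ z) (a b s t : ℝ) (has : a ≤ s) (hst : s ≤ t) (htb : t ≤ b)
    (hab : a < b) (hγ : ContDiffOn ℝ 1 γ (Icc a b)) :
    G (γ t) - G (γ s) ≤ ∫ τ in s..t, ρ (γ τ) * ‖deriv γ τ‖ := by
  have hint : IntegrableOn (fun τ => ρ (γ τ) * ‖deriv γ τ‖) (Icc s t) := by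
    have h1 := piece_int ρ γ hρ a b hab hγ
    have h2 : IntervalIntegrable (fun τ => ρ (γ τ) * ‖deriv γ τ‖) volume s t := by
      refine h1.mono_set ?_
      rw [uIcc_of_le hst, uIcc_of_le hab.le]
      exact Icc_subset_Icc has htb
    rwa [intervalIntegrable_iff_integrableOn_Icc_of_le hst] at h2
  have hd : ∀ x ∈ Ioo s t, HasDerivAt γ (deriv γ x) x := by
    intro x hx
    have hx1 : Icc a b ∈ nhds x := Icc_mem_nhds (has.trans_lt hx.1) (hx.2.trans_le htb)
    exact ((hγ.differentiableOn one_ne_zero).differentiableAt hx1).hasDerivAt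
  refine intervalIntegral.sub_le_integral_of_hasDeriv_right_of_le
    (g := fun τ => G (γ τ)) (g' := fun τ => fderiv ℝ G (γ τ) (deriv γ τ)) hst ?_ ?_ hint ?_
  · exact hG.continuous.comp_continuousOn (hγ.continuousOn.mono (Icc_subset_Icc has htb))
  · intro x hx
    exact ((hG (γ x)).hasFDerivAt.comp_hasDerivAt x (hd x hx)).hasDerivWithinAt
  · intro x _
    calc fderiv ℝ G (γ x) (deriv γ x) ≤ ‖fderiv ℝ G (γ x) (deriv γ x)‖ := le_abs_self _
      _ ≤ ‖fderiv ℝ G (γ x)‖ * ‖deriv γ x‖ := ContinuousLinearMap.le_opNorm _ _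
      _ ≤ ρ (γ x) * ‖deriv γ x‖ := mul_le_mul_of_nonneg_right (hb _) (norm_nonneg _)

/-- one sided bound on the curve -/
theorem curve_le (G ρ : ℂ → ℝ) (γ : ℝ → ℂ) (p q : ℂ) (hG : Differentiable ℝ G)
    (hρ : Continuous ρ) (hb : ∀ z, ‖fderiv ℝ G z‖ ≤ ρ z) (hγ : IsCurve γ p q) (s t : ℝ)
    (hs : 0 ≤ s) (hst : s ≤ t) (ht : t ≤ 1) :
    G (γ t) - G (γ s) ≤ ∫ τ in s..t, ρ (γ τ) * ‖deriv γ τ‖ := by
  obtain ⟨n, σ, h0, h1, hσ, hp⟩ := hγ.pieces
  have hI : ∀ s t : ℝ, 0 ≤ s → s ≤ t → t ≤ 1 →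
      IntervalIntegrable (fun τ => ρ (γ τ) * ‖deriv γ τ‖) volume s t := cint ρ γ p q hρ hγ
  set Φ : ℝ → ℝ := fun t => (∫ τ in (0 : ℝ)..t, ρ (γ τ) * ‖deriv γ τ‖) - G (γ t) with hΦ
  have hle : ∀ k ≤ n, σ k ≤ 1 := by
    intro k hk
    rw [← h1]
    obtain ⟨m, rfl⟩ := Nat.exists_eq_add_of_le hk
    clear h1 hp
    induction m with
    | zero => exact le_rfl
    | succ m ih =>
      exact (ih (fun i hi => hσ i (by omega)) (by omega)).trans (hσ (k + m) (by omega)).le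
  have hge : ∀ k ≤ n, 0 ≤ σ k := by
    intro k hk
    rw [← h0]
    exact s_mono hσ k hk
  have hm : ∀ k ≤ n, MonotoneOn Φ (Icc 0 (σ k)) := by
    intro k
    induction k with
    | zero =>
      intro _
      rw [h0]
      intro x hx y hy _
      have : x = y := le_antisymm (by linarith [hx.2, hy.1]) (by linarith [hx.1, hy.2])
      rw [this]
    | succ k ih =>
      intro hk
      have h2 := ih (by omega)
      have h3 : MonotoneOn Φ (Icc (σ k) (σ (k + 1))) := by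
        intro x hx y hy hxy
        have h4 := piece_le G ρ γ hG hρ hb (σ k) (σ (k + 1)) x y hx.1 hxy hy.2
          (hσ k (by omega)) (hp k (by omega))
        have hx0 : 0 ≤ x := (hge k (by omega)).trans hx.1
        have hy1 : y ≤ 1 := hy.2.trans (hle (k + 1) hk)
        have h5 := intervalIntegral.integral_add_adjacent_intervals
          (hI 0 x le_rfl hx0 (hxy.trans hy1)) (hI x y hx0 hxy hy1)
        simp only [hΦ]
        linarith
      have h4 := h2.union_right h3 (isGreatest_Icc (hge k (by omega)))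
        (isLeast_Icc (hσ k (by omega)).le)
      rwa [Icc_union_Icc_eq_Icc (hge k (by omega)) (hσ k (by omega)).le] at h4
  have h6 := hm n le_rfl
  rw [h1] at h6
  have h7 := h6 ⟨hs, hst.trans ht⟩ ⟨hs.trans hst, ht⟩ hst
  have h5 := intervalIntegral.integral_add_adjacent_intervals
    (hI 0 s le_rfl hs (hst.trans ht)) (hI s t hs hst ht)
  simp only [hΦ] at h7
  linarith

theorem glip : T_GLIP := by
  intro G ρ γ p q hG hρ hb hγ s t hs hst ht
  rw [abs_le]
  have h1 := curve_le G ρ γ p q hG hρ hb hγ s t hs hst ht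
  have h2 := curve_le (fun z => - G z) ρ γ p q hG.neg hρ (by
    intro z
    have : fderiv ℝ (fun z => - G z) z = - fderiv ℝ G z := fderiv_neg
    rw [this, norm_neg]
    exact hb z) hγ s t hs hst ht
  constructor <;> linarith

theorem cont_N (P : Pair) : Continuous P.N := by
  unfold Pair.N
  exact ((P.da.continuous.norm).pow 2).add ((P.db.continuous.norm).pow 2)

theorem cont_rho (P : Pair) : Continuous (fun z => 2 / P.N z) :=
  continuous_const.div (cont_N P) (fun z => (P.N_pos z).ne')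

theorem len_eq (P : Pair) (γ : ℝ → ℂ) (s t : ℝ) :
    P.len γ s t = ∫ τ in s..t, (2 / P.N (γ τ)) * ‖deriv γ τ‖ := by
  unfold Pair.len
  congr 1
  funext τ
  ring

theorem len : T_LEN := by
  intro P γ p q hγ r s t hr hrs hst ht
  rw [len_eq, len_eq, len_eq]
  refine ⟨?_, ?_⟩
  · apply intervalIntegral.integral_nonneg hrs
    intro u _
    have := P.N_pos (γ u)
    positivity
  · exact intervalIntegral.integral_add_adjacent_intervals
      (cint (fun z => 2 / P.N z) γ p q (cont_rho P) hγ r s hr hrs (hst.trans ht))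
      (cint (fun z => 2 / P.N z) γ p q (cont_rho P) hγ s t (hr.trans hrs) hst ht)

/-! ### the height function in the direction of a unit vector -/

/-- the height in the direction `(ν, ζ)` -/
noncomputable def ht (P : Pair) (x ν : ℂ) (ζ : ℝ) (z : ℂ) : ℝ :=
  (conj ν * P.Y x z).re + ζ * P.Z x z

/-- `|1 - height²| = |D|²/N²` -/
noncomputable def D (P : Pair) (x ν : ℂ) (ζ : ℝ) (z : ℂ) : ℂ :=
  ν * P.A x z ^ 2 - 2 * (ζ : ℂ) * P.A x z * P.B x z - conj ν * P.B x z ^ 2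

theorem N_eq (P : Pair) (x z : ℂ) : (P.N z : ℂ) =
    P.A x z * conj (P.A x z) + P.B x z * conj (P.B x z) := by
  rw [← P.AB_sq x z]
  push_cast
  rw [← Complex.mul_conj', ← Complex.mul_conj']

theorem ht_eq (P : Pair) (x ν : ℂ) (ζ : ℝ) (z : ℂ) : (ht P x ν ζ z : ℂ) =
    (conj ν * P.B x z * conj (P.A x z) + ν * conj (P.B x z) * P.A x z +
      (ζ : ℂ) * (P.A x z * conj (P.A x z) - P.B x z * conj (P.B x z))) /
    (P.A x z * conj (P.A x z) + P.B x z * conj (P.B x z)) := by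
  unfold ht Pair.Y Pair.Z
  push_cast
  rw [Complex.re_eq_add_conj]
  rw [← Complex.mul_conj', ← Complex.mul_conj', N_eq P x z]
  simp only [map_mul, map_div₀, map_add, Complex.conj_conj, map_ofNat]
  ring

theorem N_ne (P : Pair) (x z : ℂ) :
    P.A x z * conj (P.A x z) + P.B x z * conj (P.B x z) ≠ 0 := by
  rw [← N_eq P x z]
  exact_mod_cast (P.N_pos z).ne'

theorem sq_eq (P : Pair) (x ν : ℂ) (ζ : ℝ) (z : ℂ) (h : ‖ν‖ ^ 2 + ζ ^ 2 = 1) :
    (1 - ht P x ν ζ z ^ 2) * P.N z ^ 2 = ‖D P x ν ζ z‖ ^ 2 := by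
  have hν : ν * conj ν + (ζ : ℂ) ^ 2 = 1 := by
    rw [Complex.mul_conj']
    exact_mod_cast h
  have h1 := ht_eq P x ν ζ z
  rw [eq_div_iff (N_ne P x z)] at h1
  have key : (1 - (ht P x ν ζ z : ℂ) ^ 2) * (P.N z : ℂ) ^ 2 =
      D P x ν ζ z * conj (D P x ν ζ z) := by
    rw [N_eq P x z]
    unfold D
    simp only [map_mul, map_sub, map_pow, Complex.conj_conj, Complex.conj_ofReal, map_ofNat]
    generalize P.A x z = A at *
    generalize P.B x z = B at *
    generalize (ht P x ν ζ z : ℂ) = n at *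
    generalize conj A = A' at *
    generalize conj B = B' at *
    generalize conj ν = ν' at *
    generalize (ζ : ℂ) = c at *
    linear_combination (-(n * (A * A' + B * B') + (ν' * B * A' + ν * B' * A +
      c * (A * A' - B * B')))) * h1 - (A * A' + B * B') ^ 2 * hν
  rw [Complex.mul_conj'] at key
  exact_mod_cast key

theorem diffR_A (P : Pair) (x : ℂ) : Differentiable ℝ (P.A x) := (P.diff_A x).restrictScalars ℝ

theorem diffR_B (P : Pair) (x : ℂ) : Differentiable ℝ (P.B x) := (P.diff_B x).restrictScalars ℝ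

theorem diff_N (P : Pair) : Differentiable ℝ P.N := by
  unfold Pair.N
  exact ((P.da.restrictScalars ℝ).norm_sq ℝ).add ((P.db.restrictScalars ℝ).norm_sq ℝ)

theorem diff_ht (P : Pair) (x ν : ℂ) (ζ : ℝ) : Differentiable ℝ (ht P x ν ζ) := by
  have hNi : Differentiable ℝ (fun z => (P.N z)⁻¹) :=
    (diff_N P).inv (fun z => (P.N_pos z).ne')
  have hNi' : Differentiable ℝ (fun z => (((P.N z)⁻¹ : ℝ) : ℂ)) :=
    Complex.ofRealCLM.differentiable.comp hNi
  have hcA : Differentiable ℝ (fun z => conj (P.A x z)) :=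
    Complex.conjCLE.differentiable.comp (diffR_A P x)
  have hY : Differentiable ℝ (P.Y x) := by
    have h1 : P.Y x = fun z => (2 * P.B x z * conj (P.A x z)) * (((P.N z)⁻¹ : ℝ) : ℂ) := by
      funext z
      unfold Pair.Y
      rw [Complex.ofReal_inv]
      rfl
    rw [h1]
    exact (((diffR_B P x).const_mul 2).mul hcA).mul hNi'
  have hZ : Differentiable ℝ (P.Z x) := by
    have h1 : P.Z x = fun z => (‖P.A x z‖ ^ 2 - ‖P.B x z‖ ^ 2) * (P.N z)⁻¹ := by
      funext z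
      rfl
    rw [h1]
    exact (((diffR_A P x).norm_sq ℝ).sub ((diffR_B P x).norm_sq ℝ)).mul hNi
  unfold ht
  exact (Complex.reCLM.differentiable.comp (hY.const_mul (conj ν))).add (hZ.const_mul ζ)

/-- directional derivative of the height -/
theorem dir_ht (P : Pair) (x ν : ℂ) (ζ : ℝ) (z h : ℂ) :
    fderiv ℝ (ht P x ν ζ) z h = 2 * (conj (D P x ν ζ z) * h).re / P.N z ^ 2 := by
  have hline : HasDerivAt (fun t : ℝ => z + (t : ℂ) * h) h 0 := by
    have := ((Complex.ofRealCLM.hasDerivAt (x := (0 : ℝ))).mul_const h).const_add z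
    simpa using this
  have h0 : z + ((0 : ℝ) : ℂ) * h = z := by simp
  have hA : HasDerivAt (fun t : ℝ => P.A x (z + (t : ℂ) * h)) (deriv (P.A x) z * h) 0 := by
    have h1 : HasDerivAt (P.A x) (deriv (P.A x) z) (z + ((0 : ℝ) : ℂ) * h) := by
      rw [h0]; exact (P.diff_A x z).hasDerivAt
    exact h1.comp (0 : ℝ) hline
  have hB : HasDerivAt (fun t : ℝ => P.B x (z + (t : ℂ) * h)) (deriv (P.B x) z * h) 0 := by
    have h1 : HasDerivAt (P.B x) (deriv (P.B x) z) (z + ((0 : ℝ) : ℂ) * h) := by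
      rw [h0]; exact (P.diff_B x z).hasDerivAt
    exact h1.comp (0 : ℝ) hline
  have hA' : HasDerivAt (fun t : ℝ => conj (P.A x (z + (t : ℂ) * h)))
      (conj (deriv (P.A x) z * h)) 0 :=
    Complex.conjCLE.hasFDerivAt.comp_hasDerivAt (0 : ℝ) hA
  have hB' : HasDerivAt (fun t : ℝ => conj (P.B x (z + (t : ℂ) * h)))
      (conj (deriv (P.B x) z * h)) 0 :=
    Complex.conjCLE.hasFDerivAt.comp_hasDerivAt (0 : ℝ) hB
  have hn : HasDerivAt (fun t : ℝ => (ht P x ν ζ (z + (t : ℂ) * h) : ℂ))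
      ((fderiv ℝ (ht P x ν ζ) z h : ℝ) : ℂ) 0 := by
    have h1 : HasFDerivAt (ht P x ν ζ) (fderiv ℝ (ht P x ν ζ) z) (z + ((0 : ℝ) : ℂ) * h) := by
      rw [h0]; exact (diff_ht P x ν ζ z).hasFDerivAt
    exact (h1.comp_hasDerivAt (0 : ℝ) hline).ofReal_comp
  have hN0 : P.A x (z + ((0 : ℝ) : ℂ) * h) * conj (P.A x (z + ((0 : ℝ) : ℂ) * h)) +
      P.B x (z + ((0 : ℝ) : ℂ) * h) * conj (P.B x (z + ((0 : ℝ) : ℂ) * h)) ≠ 0 := N_ne P x _
  have hq := ((((hB.const_mul (conj ν)).mul hA').add ((hB'.const_mul ν).mul hA)).add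
    (((hA.mul hA').sub (hB.mul hB')).const_mul (ζ : ℂ))).div ((hA.mul hA').add (hB.mul hB')) hN0
  have hfun : (fun t : ℝ => (ht P x ν ζ (z + (t : ℂ) * h) : ℂ)) = fun t : ℝ =>
      (conj ν * P.B x (z + (t : ℂ) * h) * conj (P.A x (z + (t : ℂ) * h)) +
        ν * conj (P.B x (z + (t : ℂ) * h)) * P.A x (z + (t : ℂ) * h) +
      (ζ : ℂ) * (P.A x (z + (t : ℂ) * h) * conj (P.A x (z + (t : ℂ) * h)) -
        P.B x (z + (t : ℂ) * h) * conj (P.B x (z + (t : ℂ) * h)))) /
    (P.A x (z + (t : ℂ) * h) * conj (P.A x (z + (t : ℂ) * h)) +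
      P.B x (z + (t : ℂ) * h) * conj (P.B x (z + (t : ℂ) * h))) := by
    funext t
    exact ht_eq P x ν ζ _
  rw [hfun] at hn
  have hu := hn.unique hq
  simp only [Pi.add_apply, Pi.mul_apply, Pi.sub_apply, Complex.ofReal_zero, zero_mul,
    add_zero] at hu
  have hw := P.wrAB x z
  have hw' : conj (P.A x z) * conj (deriv (P.B x) z) - conj (deriv (P.A x) z) * conj (P.B x z) =
      1 := by
    have := congrArg conj hw
    simpa using this
  have hN1 := N_ne P x z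
  have key : ((fderiv ℝ (ht P x ν ζ) z h : ℝ) : ℂ) =
      (conj (D P x ν ζ z) * h + D P x ν ζ z * conj h) / (P.N z : ℂ) ^ 2 := by
    rw [hu, N_eq P x z]
    rw [div_eq_div_iff (pow_ne_zero 2 hN1) (pow_ne_zero 2 hN1)]
    congr 1
    unfold D
    simp only [map_mul, map_sub, map_pow, Complex.conj_conj, Complex.conj_ofReal, map_ofNat]
    generalize P.A x z = A at *
    generalize P.B x z = B at *
    generalize deriv (P.A x) z = dA at *
    generalize deriv (P.B x) z = dB at *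
    generalize conj A = A' at *
    generalize conj B = B' at *
    generalize conj dA = dA' at *
    generalize conj dB = dB' at *
    generalize conj ν = ν' at *
    generalize (ζ : ℂ) = c at *
    linear_combination ((ν' * A' ^ 2 - 2 * c * A' * B' - ν * B' ^ 2) * h) * hw +
      ((ν * A ^ 2 - 2 * c * A * B - ν' * B ^ 2) * conj h) * hw'
  have h2 : conj (D P x ν ζ z) * h + D P x ν ζ z * conj h =
      ((2 * (conj (D P x ν ζ z) * h).re : ℝ) : ℂ) := by
    rw [Complex.ofReal_mul, Complex.re_eq_add_conj, map_mul, Complex.conj_conj]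
    push_cast
    ring
  rw [h2] at key
  exact_mod_cast key

theorem norm_ht (P : Pair) (x ν : ℂ) (ζ : ℝ) (z : ℂ) (h : ‖ν‖ ^ 2 + ζ ^ 2 = 1) :
    ‖fderiv ℝ (ht P x ν ζ) z‖ ≤ 2 / P.N z * Real.sqrt (1 - ht P x ν ζ z ^ 2) := by
  have hN := P.N_pos z
  have h1 := sq_eq P x ν ζ z h
  have h2 : Real.sqrt (1 - ht P x ν ζ z ^ 2) = ‖D P x ν ζ z‖ / P.N z := by
    have h3 : 1 - ht P x ν ζ z ^ 2 = (‖D P x ν ζ z‖ / P.N z) ^ 2 := by
      rw [div_pow, eq_div_iff (pow_ne_zero 2 hN.ne')]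
      exact h1
    rw [h3, Real.sqrt_sq (by positivity)]
  rw [h2]
  apply ContinuousLinearMap.opNorm_le_bound
  · positivity
  intro v
  rw [dir_ht, Real.norm_eq_abs, abs_div, abs_mul, abs_of_pos (pow_pos hN 2), abs_two]
  have h3 : |(conj (D P x ν ζ z) * v).re| ≤ ‖D P x ν ζ z‖ * ‖v‖ := by
    refine (Complex.abs_re_le_norm _).trans ?_
    rw [norm_mul, Complex.norm_conj]
  calc 2 * |(conj (D P x ν ζ z) * v).re| / P.N z ^ 2
      ≤ 2 * (‖D P x ν ζ z‖ * ‖v‖) / P.N z ^ 2 := by gcongr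
    _ = 2 / P.N z * (‖D P x ν ζ z‖ / P.N z) * ‖v‖ := by
      field_simp

theorem abs_ht (P : Pair) (x ν : ℂ) (ζ : ℝ) (z : ℂ) (h : ‖ν‖ ^ 2 + ζ ^ 2 = 1) :
    ht P x ν ζ z ^ 2 ≤ 1 := by
  have h1 := sq_eq P x ν ζ z h
  have hN := pow_pos (P.N_pos z) 2
  by_contra h2
  push Not at h2
  have : (1 - ht P x ν ζ z ^ 2) * P.N z ^ 2 < 0 := mul_neg_of_neg_of_pos (by linarith) hN
  have h3 : 0 ≤ ‖D P x ν ζ z‖ ^ 2 := by positivity
  linarith

theorem lip_k (P : Pair) (x : ℂ) (γ : ℝ → ℂ) (p q : ℂ) (ν : ℂ) (ζ : ℝ) (hγ : IsCurve γ p q)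
    (h : ‖ν‖ ^ 2 + ζ ^ 2 = 1) (s t : ℝ) (hs : 0 ≤ s) (hst : s ≤ t) (ht1 : t ≤ 1)
    (k : ℝ) (hk0 : 0 < k) (hk1 : k < 1) :
    |Real.arccos (k * ht P x ν ζ (γ t)) - Real.arccos (k * ht P x ν ζ (γ s))| ≤
      P.len γ s t := by
  have hlt : ∀ z, (k * ht P x ν ζ z) ^ 2 < 1 := by
    intro z
    have h1 := abs_ht P x ν ζ z h
    rw [mul_pow]
    have h2 : k ^ 2 < 1 := by nlinarith
    have h3 : 0 ≤ ht P x ν ζ z ^ 2 := sq_nonneg _
    nlinarith [sq_nonneg k]
  have hd : ∀ z, HasFDerivAt (fun z => Real.arccos (k * ht P x ν ζ z))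
      ((-(1 / Real.sqrt (1 - (k * ht P x ν ζ z) ^ 2))) • (k • fderiv ℝ (ht P x ν ζ) z)) z := by
    intro z
    have h1 : k * ht P x ν ζ z ≠ -1 := by
      intro h2; have := hlt z; rw [h2] at this; norm_num at this
    have h2 : k * ht P x ν ζ z ≠ 1 := by
      intro h2; have := hlt z; rw [h2] at this; norm_num at this
    have h3 := (Real.hasDerivAt_arccos h1 h2).comp_hasFDerivAt (f := fun z => k * ht P x ν ζ z) z
      ((diff_ht P x ν ζ z).hasFDerivAt.const_mul k)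
    exact h3
  rw [len_eq]
  refine glip (fun z => Real.arccos (k * ht P x ν ζ z)) (fun z => 2 / P.N z) γ p q
    (fun z => (hd z).differentiableAt) (cont_rho P) ?_ hγ s t hs hst ht1
  intro z
  rw [(hd z).fderiv, norm_smul, norm_smul, norm_neg, Real.norm_eq_abs, Real.norm_eq_abs,
    abs_of_pos hk0]
  have h3 : 0 < Real.sqrt (1 - (k * ht P x ν ζ z) ^ 2) := Real.sqrt_pos.2 (by linarith [hlt z])
  have h4 : Real.sqrt (1 - ht P x ν ζ z ^ 2) ≤ Real.sqrt (1 - (k * ht P x ν ζ z) ^ 2) := by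
    apply Real.sqrt_le_sqrt
    rw [mul_pow]
    have h5 : k ^ 2 ≤ 1 := by nlinarith
    have h6 : 0 ≤ ht P x ν ζ z ^ 2 := sq_nonneg _
    nlinarith
  have h5 := norm_ht P x ν ζ z h
  have hN := P.N_pos z
  rw [abs_of_pos (by positivity)]
  calc 1 / Real.sqrt (1 - (k * ht P x ν ζ z) ^ 2) * (k * ‖fderiv ℝ (ht P x ν ζ) z‖)
      ≤ 1 / Real.sqrt (1 - (k * ht P x ν ζ z) ^ 2) *
        (1 * (2 / P.N z * Real.sqrt (1 - (k * ht P x ν ζ z) ^ 2))) := by
        apply mul_le_mul_of_nonneg_left _ (by positivity)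
        apply mul_le_mul hk1.le _ (norm_nonneg _) zero_le_one
        exact h5.trans (mul_le_mul_of_nonneg_left h4 (by positivity))
    _ = 2 / P.N z := by
        rw [one_mul, one_div, mul_comm (2 / P.N z), ← mul_assoc, inv_mul_cancel₀ h3.ne', one_mul]

theorem lip : T_LIP := by
  intro P x γ p q ν ζ hγ h s t hs hst ht1
  have hc : Filter.Tendsto (fun k : ℝ => |Real.arccos (k * ht P x ν ζ (γ t)) -
      Real.arccos (k * ht P x ν ζ (γ s))|) (nhdsWithin 1 (Iio 1))
      (nhds |Real.arccos (1 * ht P x ν ζ (γ t)) - Real.arccos (1 * ht P x ν ζ (γ s))|) := by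
    have hcont : Continuous (fun k : ℝ => |Real.arccos (k * ht P x ν ζ (γ t)) -
      Real.arccos (k * ht P x ν ζ (γ s))|) :=
      ((Real.continuous_arccos.comp (continuous_id.mul continuous_const)).sub
        (Real.continuous_arccos.comp (continuous_id.mul continuous_const))).abs
    exact (hcont.tendsto 1).mono_left nhdsWithin_le_nhds
  have h1 := le_of_tendsto hc (b := P.len γ s t) (by
    have h2 : Ioo (0 : ℝ) 1 ∈ nhdsWithin (1 : ℝ) (Iio 1) := Ioo_mem_nhdsLT zero_lt_one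
    filter_upwards [h2] with k hk
    exact lip_k P x γ p q ν ζ hγ h s t hs hst ht1 k hk.1 hk.2)
  rw [one_mul, one_mul] at h1
  exact h1

end LEN_

theorem p_LIP : T_LIP := LEN_.lip
theorem p_CINT : T_CINT := LEN_.cint
theorem p_GLIP : T_GLIP := LEN_.glip
theorem p_LEN : T_LEN := LEN_.len

end Pool.Agent.Liou
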