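import Pool.Agent.Liou.Targets

/-! SMALL and MAIN -/

set_option autoImplicit false

open Complex ComplexConjugate Set Filter Topology

namespace Pool.Agent.Liou

theorem MAIN_.exp_eq {u : ℂ → ℝ} {P : Pair} (h : ∀ z, Real.exp (-u z) = P.N z / 2) (z : ℂ) :
    Real.exp (u z) = 2 / P.N z := by
  have h1 := h z
  have hN := P.N_pos z
  have h2 : Real.exp (u z) * Real.exp (-u z) = 1 := by rw [← Real.exp_add]; simp
  rw [h1] at h2
  field_simp at h2 ⊢
  linarith

theorem MAIN_.length_eq {u : ℂ → ℝ} {P : Pair} (h : ∀ z, Real.exp (-u z) = P.N z / 2)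
    (γ : ℝ → ℂ) : length u γ = P.len γ 0 1 := by
  unfold length Pair.len
  refine intervalIntegral.integral_congr fun t _ => ?_
  show Real.exp (u (γ t)) * ‖deriv γ t‖ = 2 * ‖deriv γ t‖ / P.N (γ t)
  rw [MAIN_.exp_eq h]
  ring

theorem MAIN_.segment_curve (x y : ℂ) : IsCurve (fun t : ℝ => x + (t : ℂ) * (y - x)) x y where
  source := by simp
  target := by simp
  cont := by fun_prop
  pieces := by
    refine ⟨1, fun n => (n : ℝ), by simp, by simp, fun i hi => by simp, fun i hi => ?_⟩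
    apply ContDiff.contDiffOn
    exact contDiff_const.add ((Complex.ofRealCLM.contDiff).mul contDiff_const)

theorem p_SMALL : T_SMALL := by
  intro u P h hd x y ε hε
  have h1 : gdist u x y ≤ Real.pi := by
    have h2 : ENNReal.ofReal (gdist u x y) ≤ ENNReal.ofReal Real.pi :=
      le_trans (le_iSup_of_le (f := fun x => ⨆ y, ENNReal.ofReal (gdist u x y)) x
        (le_iSup (fun y => ENNReal.ofReal (gdist u x y)) y)) hd
    exact (ENNReal.ofReal_le_ofReal_iff Real.pi_pos.le).1 h2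
  have hne : {L : ℝ | ∃ γ : ℝ → ℂ, IsCurve γ x y ∧ L = length u γ}.Nonempty :=
    ⟨_, _, MAIN_.segment_curve x y, rfl⟩
  have h3 : sInf {L : ℝ | ∃ γ : ℝ → ℂ, IsCurve γ x y ∧ L = length u γ} < Real.pi + ε := by
    have : gdist u x y < Real.pi + ε := by linarith
    exact this
  obtain ⟨L, ⟨γ, hγ, rfl⟩, hL⟩ := exists_lt_of_csInf_lt hne h3
  exact ⟨γ, hγ, by rw [← MAIN_.length_eq h]; exact hL⟩

theorem p_MAIN (hDEV : T_DEV) (hONE : T_ONE) (hCONST : T_CONST) (hBUB : T_BUB) (hEXP : T_EXP)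
    (hONEB : T_ONEB) (hRADB : T_RADB) (hDIAM1 : T_DIAM1) (hDIAMR : T_DIAMR) : T_MAIN := by
  intro u hu
  constructor
  · intro hd
    obtain ⟨P, hP, -, -⟩ := hDEV u hu
    have hs : P.Small := p_SMALL u P hP hd.le
    have hu' : ∀ z, u z = -Real.log (P.N z / 2) := by
      intro z
      rw [← hP z, Real.log_exp]; ring
    rcases hONE P hs with ⟨x, hx⟩ | hall
    · left
      obtain ⟨x₀, φ, hφ⟩ := hBUB P x hx
      exact ⟨x₀, fun r => -Real.log (φ r / 2), fun z => by rw [hu' z, hφ z]⟩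
    · right
      obtain ⟨p, q, p', q', h1, h2, h3⟩ := hCONST P hs hall
      obtain ⟨e, he, f, hf⟩ := hEXP P p q p' q' hs h1 h2 h3
      exact ⟨e, he, fun r => -Real.log (f r / 2), fun z => by rw [hu' z, hf z]⟩
  · rintro (hr | h1)
    · obtain ⟨x₀, l, hl, h⟩ := hRADB u hu hr
      exact hDIAMR u x₀ l hl h
    · obtain ⟨e, l, c, he, hl, h⟩ := hONEB u hu h1
      exact hDIAM1 u e l c he hl h

end Pool.Agent.Liou
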