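import Pool.Agent.Liou.Targets

/-!
# LIOU-NEAR (helper59): singular points persist
-/

set_option autoImplicit false

open Complex ComplexConjugate Set Filter Topology

namespace Pool.Agent.Liou

namespace NEAR_

/-- near `x` the section `sec x` is the inverse of `B x / A x` -/
lemma sec_near (P : Pair) (x : ℂ) (sf : SecFacts P x) :
    ∀ᶠ x' in 𝓝 x, P.A x x' ≠ 0 ∧ P.sec x (P.B x x' / P.A x x') = x' := by
  have hAx : P.A x x ≠ 0 := by rw [P.A_self]; exact P.sqrtN_ne x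
  have hBx : P.B x x = 0 := P.B_self x
  -- the function `f = B / A`
  let f : ℂ → ℂ := fun z => P.B x z / P.A x z
  have hf0 : f x = 0 := by simp only [f]; rw [hBx, zero_div]
  have hAne : ∀ᶠ z in 𝓝 x, P.A x z ≠ 0 := (P.diff_A x).continuous.continuousAt.eventually_ne hAx
  have hfan : AnalyticAt ℂ f x :=
    ((P.diff_B x).analyticAt x).div ((P.diff_A x).analyticAt x) hAx
  have hderiv : HasDerivAt f (1 / (P.A x x) ^ 2) x := by
    have h := (P.diff_B x x).hasDerivAt.div (P.diff_A x x).hasDerivAt hAx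
    refine h.congr_deriv ?_
    have hw := P.wrAB x x
    rw [hBx] at hw ⊢
    field_simp
    linear_combination hw
  have hstrict : HasStrictDerivAt f (1 / (P.A x x) ^ 2) x := by
    have h := hfan.hasStrictDerivAt
    rwa [hderiv.deriv] at h
  have hne : (1 / (P.A x x) ^ 2 : ℂ) ≠ 0 := one_div_ne_zero (pow_ne_zero 2 hAx)
  have hsf := hstrict.hasStrictFDerivAt_equiv hne
  have hleft := hsf.eventually_left_inverse
  set g := hsf.localInverse f _ x with hg
  -- `w' → 0`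
  have hcf : Tendsto f (𝓝 x) (𝓝 0) := by
    have := hfan.continuousAt
    rwa [ContinuousAt, hf0] at this
  have hsec0 : Tendsto (P.sec x) (𝓝 0) (𝓝 x) := by
    have h := (sf.diff.differentiableAt (sf.isOpen.mem_nhds sf.zero_mem)).continuousAt
    rwa [ContinuousAt, sf.zero] at h
  have e1 : ∀ᶠ x' in 𝓝 x, g (f (P.sec x (f x'))) = P.sec x (f x') :=
    (hsec0.comp hcf).eventually hleft
  have e2 : ∀ᶠ x' in 𝓝 x, f x' ∈ P.S x := hcf.eventually (sf.isOpen.mem_nhds sf.zero_mem)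
  filter_upwards [hAne, hleft, e1, e2] with x' h1 h2 h3 h4
  refine ⟨h1, ?_⟩
  have h5 := sf.eq _ h4
  have h6 : P.A x (P.sec x (f x')) ≠ 0 := P.A_ne_of_eq h5
  have h7 : f (P.sec x (f x')) = f x' := by
    show P.B x (P.sec x (f x')) / P.A x (P.sec x (f x')) = f x'
    rw [div_eq_iff h6]; exact h5
  rw [h7, h2] at h3
  exact h3.symm

/-- the denominator -/
noncomputable def D (s w : ℂ) (t : ℝ) : ℂ :=
  (1 - (t : ℂ)) * (1 + conj w * s) + (t : ℂ) * (1 + conj w * w)

/-- the numerator -/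
noncomputable def n (s w : ℂ) : ℂ := (1 + conj w * s) * (1 - w / s)

lemma uniform (s : ℂ) (η : ℝ) (hη : 0 < η) :
    ∀ᶠ w in 𝓝 (0 : ℂ), ∀ t ∈ Icc (0 : ℝ) 1, D s w t ≠ 0 ∧ ‖n s w / D s w t - 1‖ < η := by
  apply isCompact_Icc.eventually_forall_of_forall_eventually
  intro t _
  have hD : Continuous (fun z : ℂ × ℝ => D s z.1 z.2) := by
    unfold D
    fun_prop
  have hn : Continuous (fun z : ℂ × ℝ => n s z.1) := by
    unfold n
    fun_prop
  have hD0 : D s ((0 : ℂ), t).1 ((0 : ℂ), t).2 = 1 := by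
    unfold D
    simp
  have hn0 : n s ((0 : ℂ), t).1 = 1 := by
    unfold n
    simp
  have h1 : ∀ᶠ z in 𝓝 ((0 : ℂ), t), D s z.1 z.2 ≠ 0 := by
    apply hD.continuousAt.eventually_ne
    rw [hD0]; exact one_ne_zero
  have h2 : ContinuousAt (fun z : ℂ × ℝ => n s z.1 / D s z.1 z.2 - 1) ((0 : ℂ), t) := by
    apply ContinuousAt.sub _ continuousAt_const
    apply hn.continuousAt.div hD.continuousAt
    rw [hD0]; exact one_ne_zero
  have h3 : Tendsto (fun z : ℂ × ℝ => ‖n s z.1 / D s z.1 z.2 - 1‖) (𝓝 ((0 : ℂ), t)) (𝓝 0) := by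
    have h4 := h2.norm
    rw [ContinuousAt, hD0, hn0, div_one, sub_self, norm_zero] at h4
    exact h4
  filter_upwards [h1, h3.eventually (gt_mem_nhds hη)] with z hz1 hz2
  exact ⟨hz1, hz2⟩

end NEAR_

open NEAR_ in
theorem p_NEAR (h1 : T_SEC) (h3 : T_TRI) (h4 : T_PERS) : T_NEAR := by
  intro P x p q hsm hS
  have sf := h1 P x
  have hS' := hS
  obtain ⟨hA0, hns, hray⟩ := hS'
  set s := P.Bco x p q / P.Aco x p q with hs
  have hs0 : s ≠ 0 := by
    intro h
    rw [h] at hns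
    exact hns sf.zero_mem
  have hsn : 0 < ‖s‖ := norm_pos_iff.2 hs0
  obtain ⟨r0, hr0, hball⟩ := Metric.isOpen_iff.1 sf.isOpen 0 sf.zero_mem
  obtain ⟨α, hα, htri⟩ := h3 P x hsm
  obtain ⟨t0, ht0⟩ := htri s hns
  have ht00 : (t0 : ℂ) ≠ 0 := by
    intro h
    rw [h, zero_mul] at ht0
    exact hs0 ht0
  have hline : ∀ w, w ∉ P.S x → ∃ t : ℝ, w = (t : ℂ) * s := by
    intro w hw
    obtain ⟨t, ht⟩ := htri w hw
    refine ⟨t / t0, ?_⟩
    rw [ht, ht0]
    push_cast
    field_simp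
  let η : ℝ := min (1 / 2) (r0 / (2 * ‖s‖))
  have hη : 0 < η := lt_min (by norm_num) (by positivity)
  have hη1 : η ≤ 1 / 2 := min_le_left _ _
  have hη2 : η * ‖s‖ < r0 := by
    have : η ≤ r0 / (2 * ‖s‖) := min_le_right _ _
    calc η * ‖s‖ ≤ r0 / (2 * ‖s‖) * ‖s‖ := by gcongr
      _ = r0 / 2 := by field_simp
      _ < r0 := by linarith
  have hAx : P.A x x ≠ 0 := by rw [P.A_self]; exact P.sqrtN_ne x
  have hw : Tendsto (fun x' => P.B x x' / P.A x x') (𝓝 x) (𝓝 0) := by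
    have h : ContinuousAt (fun x' => P.B x x' / P.A x x') x :=
      (P.diff_B x).continuous.continuousAt.div (P.diff_A x).continuous.continuousAt hAx
    rwa [ContinuousAt, P.B_self, zero_div] at h
  have e1 : ∀ᶠ w in 𝓝 (0 : ℂ), 1 + conj w * s ≠ 0 := by
    have hc : Continuous (fun w : ℂ => 1 + conj w * s) := by fun_prop
    apply hc.continuousAt.eventually_ne
    simp
  have e2 : ∀ᶠ w in 𝓝 (0 : ℂ), w ∈ P.S x := sf.isOpen.mem_nhds sf.zero_mem
  filter_upwards [sec_near P x sf, hw.eventually (uniform s η hη), hw.eventually e1,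
    hw.eventually e2] with x' hx1 hx2 hx3 hx4
  set w' := P.B x x' / P.A x x' with hw'
  obtain ⟨hAx', hsec⟩ := hx1
  rw [← hsec]
  refine h4 P x p q w' hS hx4 ⟨1, one_pos, fun w _ hw => hline w hw⟩ hx3 ?_
  rw [← hs]
  intro t ht
  obtain ⟨hD, hn⟩ := hx2 t ⟨ht.1, ht.2.le⟩
  refine ⟨hD, ?_⟩
  by_contra hcon
  obtain ⟨τ, hτ⟩ := hline _ hcon
  have hD' : (1 - (t : ℂ)) * (1 + conj w' * s) + (t : ℂ) * (1 + conj w' * w') = D s w' t := rfl
  rw [hD', div_eq_iff hD] at hτ
  -- `1 - τ = (1 - t) n / D`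
  have hkey : ((1 - τ : ℝ) : ℂ) = ((1 - t : ℝ) : ℂ) * (n s w' / D s w' t) := by
    rw [← mul_div_assoc, eq_div_iff hD]
    apply mul_right_cancel₀ hs0
    have e3 : n s w' * s = (1 + conj w' * s) * (s - w') := by
      unfold n
      field_simp
    have e4 : ((1 - τ : ℝ) : ℂ) * D s w' t * s = D s w' t * s - (τ : ℂ) * s * D s w' t := by
      push_cast; ring
    rw [e4, ← hτ, mul_assoc _ (n s w') s, e3, ← hD']
    push_cast
    ring
  have ht1 : 0 < 1 - t := by linarith [ht.2]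
  set γ := n s w' / D s w' t with hγ
  -- `γ` is real and close to one
  have hre : 1 - τ = (1 - t) * γ.re := by
    have := congrArg Complex.re hkey
    rwa [Complex.ofReal_re, Complex.re_ofReal_mul] at this
  have hγre : |γ.re - 1| < η := by
    have h5 : |(γ - 1).re| ≤ ‖γ - 1‖ := Complex.abs_re_le_norm _
    rw [Complex.sub_re, Complex.one_re] at h5
    exact lt_of_le_of_lt h5 hn
  rw [abs_lt] at hγre
  have hγpos : 0 < γ.re := by linarith
  have hτ1 : τ < 1 := by
    have : 0 < (1 - t) * γ.re := mul_pos ht1 hγpos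
    linarith
  have hτ0 : -η < τ := by
    have h6 : (1 - t) * γ.re ≤ 1 * γ.re := by
      apply mul_le_mul_of_nonneg_right _ hγpos.le
      linarith [ht.1]
    linarith
  apply hcon
  have hc : ((1 - (t : ℂ)) * (1 + conj w' * s) * w' + (t : ℂ) * (1 + conj w' * w') * s) /
      ((1 - (t : ℂ)) * (1 + conj w' * s) + (t : ℂ) * (1 + conj w' * w')) = (τ : ℂ) * s := by
    rw [hD', div_eq_iff hD]; exact hτ
  rw [hc]
  rcases le_or_gt 0 τ with h7 | h7
  · exact hray τ ⟨h7, hτ1⟩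
  · apply hball
    rw [mem_ball_zero_iff, norm_mul, Complex.norm_real, Real.norm_eq_abs, abs_of_neg h7]
    calc -τ * ‖s‖ ≤ η * ‖s‖ := by
          apply mul_le_mul_of_nonneg_right _ hsn.le
          linarith
      _ < r0 := hη2

end Pool.Agent.Liou
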