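import Pool.Agent.Liou.Targets

/-!
# LIOU-ODE (helper59): power series solutions of `y'' = - T y` on the plane
-/

set_option autoImplicit false

namespace Pool.Agent.Liou

namespace ODE_

open Finset

/-- coefficients of an entire power series -/
def Ent (c : ℕ → ℂ) : Prop := ∀ r : ℝ, 0 < r → ∃ K : ℝ, ∀ n, ‖c n‖ * r ^ n ≤ K

/-- the sum -/
noncomputable def sm (c : ℕ → ℂ) (z : ℂ) : ℂ := ∑' n, c n * z ^ n

/-- derivative coefficients -/
def dc (c : ℕ → ℂ) (n : ℕ) : ℂ := (n + 1) * c (n + 1)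

lemma Ent.bound {c : ℕ → ℂ} (h : Ent c) (r : ℝ) (hr : 0 < r) :
    ∃ K : ℝ, 0 ≤ K ∧ ∀ n, ‖c n‖ * r ^ n ≤ K * (1 / 2) ^ n := by
  obtain ⟨K, hK⟩ := h (2 * r) (by positivity)
  refine ⟨K, le_trans (by positivity) (hK 0), ?_⟩
  intro n
  have h1 := hK n
  rw [mul_pow] at h1
  have h2 : (0 : ℝ) < 2 ^ n := by positivity
  rw [one_div, inv_pow, ← div_eq_mul_inv, le_div_iff₀ h2]
  calc ‖c n‖ * r ^ n * 2 ^ n = ‖c n‖ * (2 ^ n * r ^ n) := by ring
    _ ≤ K := h1

lemma Ent.summable {c : ℕ → ℂ} (h : Ent c) (z : ℂ) : Summable (fun n => ‖c n * z ^ n‖) := by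
  obtain ⟨K, hK, hb⟩ := h.bound (‖z‖ + 1) (by positivity)
  refine Summable.of_nonneg_of_le (fun n => norm_nonneg _) (fun n => ?_)
    ((summable_geometric_of_lt_one (by norm_num : (0 : ℝ) ≤ 1 / 2) (by norm_num)).mul_left K)
  rw [norm_mul, norm_pow]
  refine le_trans ?_ (hb n)
  have : ‖z‖ ^ n ≤ (‖z‖ + 1) ^ n := pow_le_pow_left₀ (norm_nonneg _) (by linarith) n
  gcongr

lemma Ent.dc {c : ℕ → ℂ} (h : Ent c) : Ent (dc c) := by
  intro r hr
  obtain ⟨K, hK, hb⟩ := h.bound r hr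
  refine ⟨K / r, ?_⟩
  intro n
  rw [le_div_iff₀ hr]
  have h1 := hb (n + 1)
  have h2 : ‖ODE_.dc c n‖ = (n + 1) * ‖c (n + 1)‖ := by
    unfold ODE_.dc
    rw [norm_mul]
    congr 1
    have : ((n : ℂ) + 1) = ((n + 1 : ℕ) : ℂ) := by push_cast; ring
    rw [this, Complex.norm_natCast]
    push_cast; ring
  rw [h2]
  have h3 : ((n : ℝ) + 1) * (1 / 2) ^ (n + 1) ≤ 1 := by
    have h4 : (n : ℝ) + 1 ≤ 2 ^ (n + 1) := by
      have : n + 1 ≤ 2 ^ (n + 1) := (Nat.lt_two_pow_self).le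
      exact_mod_cast this
    rw [one_div, inv_pow, ← div_eq_mul_inv]
    exact (div_le_one (by positivity)).2 h4
  calc ((n : ℝ) + 1) * ‖c (n + 1)‖ * r ^ n * r = (n + 1) * (‖c (n + 1)‖ * r ^ (n + 1)) := by
        rw [pow_succ]; ring
    _ ≤ (n + 1) * (K * (1 / 2) ^ (n + 1)) := by gcongr
    _ = K * (((n : ℝ) + 1) * (1 / 2) ^ (n + 1)) := by ring
    _ ≤ K * 1 := by gcongr
    _ = K := mul_one K

lemma Ent.hasDerivAt {c : ℕ → ℂ} (h : Ent c) (z : ℂ) : HasDerivAt (sm c) (sm (ODE_.dc c) z) z := by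
  obtain ⟨K, hK, hb⟩ := h.dc.bound (‖z‖ + 1) (by positivity)
  -- index shift
  let g : ℕ → ℂ → ℂ := fun n w => c n * w ^ n
  let g' : ℕ → ℂ → ℂ := fun n w => c n * (n * w ^ (n - 1))
  let u : ℕ → ℝ := fun n => if n = 0 then 0 else K * (1 / 2) ^ (n - 1)
  have hu : Summable u := by
    rw [← summable_nat_add_iff 1]
    have : (fun n => u (n + 1)) = fun n => K * (1 / 2 : ℝ) ^ n := by
      funext n; simp [u]
    rw [this]
    exact (summable_geometric_of_lt_one (by norm_num : (0 : ℝ) ≤ 1 / 2) (by norm_num)).mul_left K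
  have hbnd : ∀ n, ∀ w ∈ Metric.ball (0 : ℂ) (‖z‖ + 1), ‖g' n w‖ ≤ u n := by
    intro n w hw
    rw [mem_ball_zero_iff] at hw
    rcases n with _ | n
    · simp [g', u]
    · simp only [g', u, Nat.succ_ne_zero, if_false, Nat.add_sub_cancel]
      have e : c (n + 1) * (((n + 1 : ℕ) : ℂ) * w ^ n) = ODE_.dc c n * w ^ n := by
        unfold ODE_.dc; push_cast; ring
      rw [e, norm_mul, norm_pow]
      refine le_trans ?_ (hb n)
      have : ‖w‖ ^ n ≤ (‖z‖ + 1) ^ n := pow_le_pow_left₀ (norm_nonneg _) hw.le n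
      gcongr
  have hz : z ∈ Metric.ball (0 : ℂ) (‖z‖ + 1) := by
    rw [mem_ball_zero_iff]; linarith
  have hmain := hasDerivAt_tsum_of_isPreconnected (g := g) (g' := g') hu Metric.isOpen_ball
    (convex_ball (0 : ℂ) (‖z‖ + 1)).isPreconnected
    (fun n w _ => (hasDerivAt_pow n w).const_mul (c n)) hbnd hz
    (h.summable z).of_norm hz
  have hsum : ∑' n, g' n z = sm (ODE_.dc c) z := by
    have h1 : Summable (fun n => g' n z) :=
      Summable.of_norm_bounded hu (fun n => hbnd n z hz)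
    rw [h1.tsum_eq_zero_add]
    have h0 : g' 0 z = 0 := by simp [g']
    rw [h0, zero_add]
    unfold sm
    apply tsum_congr
    intro n
    simp only [g', ODE_.dc, Nat.add_sub_cancel]
    push_cast
    ring
  rw [hsum] at hmain
  exact hmain

lemma sm_zero (c : ℕ → ℂ) : sm c 0 = c 0 := by
  unfold sm
  rw [tsum_eq_single 0 (fun n hn => by simp [hn])]
  simp

/-- coefficients of the solution -/
noncomputable def coef (t : ℕ → ℂ) (a b : ℂ) : ℕ → ℂ
  | 0 => a
  | 1 => b
  | (n + 2) => -(∑ k : Fin (n + 1), t k * coef t a b (n - k)) / ((n + 2) * (n + 1))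
  decreasing_by omega

lemma coef_rec (t : ℕ → ℂ) (a b : ℂ) (n : ℕ) : ((n : ℂ) + 2) * (n + 1) * coef t a b (n + 2) =
    -(∑ k ∈ range (n + 1), t k * coef t a b (n - k)) := by
  rw [coef, Finset.sum_range]
  have h1 : ((n : ℂ) + 2) ≠ 0 := by
    have : ((n : ℂ) + 2) = ((n + 2 : ℕ) : ℂ) := by push_cast; ring
    rw [this]
    exact Nat.cast_ne_zero.2 (by omega)
  have h2 : ((n : ℂ) + 1) ≠ 0 := Nat.cast_add_one_ne_zero n
  field_simp

lemma coef_ent (t : ℕ → ℂ) (ht : Ent t) (a b : ℂ) : Ent (coef t a b) := by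
  intro r hr
  obtain ⟨M, hM⟩ := ht r hr
  have hM0 : 0 ≤ M := le_trans (by positivity) (hM 0)
  obtain ⟨N, hN⟩ := exists_nat_ge (M * r ^ 2)
  let c := coef t a b
  refine ⟨∑ j ∈ range (N + 2), ‖c j‖ * r ^ j, ?_⟩
  set K := ∑ j ∈ range (N + 2), ‖c j‖ * r ^ j with hKdef
  have hK0 : 0 ≤ K := Finset.sum_nonneg (fun j _ => by positivity)
  intro n
  induction n using Nat.strong_induction_on with
  | _ n ih =>
    rcases Nat.lt_or_ge n (N + 2) with h | h
    · exact Finset.single_le_sum (f := fun j => ‖c j‖ * r ^ j) (fun j _ => by positivity)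
        (mem_range.2 h)
    · obtain ⟨m, rfl⟩ : ∃ m, n = m + 2 := ⟨n - 2, by omega⟩
      have hrec := coef_rec t a b m
      have hn1 : ‖((m : ℂ) + 2) * (m + 1)‖ = ((m : ℝ) + 2) * (m + 1) := by
        rw [norm_mul]
        have e1 : ((m : ℂ) + 2) = ((m + 2 : ℕ) : ℂ) := by push_cast; ring
        have e2 : ((m : ℂ) + 1) = ((m + 1 : ℕ) : ℂ) := by push_cast; ring
        rw [e1, e2, Complex.norm_natCast, Complex.norm_natCast]
        push_cast; ring
      have h1 : ((m : ℝ) + 2) * (m + 1) * ‖c (m + 2)‖ ≤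
          ∑ k ∈ range (m + 1), ‖t k‖ * ‖c (m - k)‖ := by
        rw [← hn1, ← norm_mul, hrec, norm_neg]
        refine (norm_sum_le _ _).trans (Finset.sum_le_sum (fun k _ => ?_))
        rw [norm_mul]
      have h2 : ((m : ℝ) + 2) * (m + 1) * (‖c (m + 2)‖ * r ^ (m + 2)) ≤
          ((m : ℝ) + 1) * (M * K * r ^ 2) := by
        calc ((m : ℝ) + 2) * (m + 1) * (‖c (m + 2)‖ * r ^ (m + 2))
            = (((m : ℝ) + 2) * (m + 1) * ‖c (m + 2)‖) * r ^ (m + 2) := by ring
          _ ≤ (∑ k ∈ range (m + 1), ‖t k‖ * ‖c (m - k)‖) * r ^ (m + 2) := by gcongr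
          _ = ∑ k ∈ range (m + 1), (‖t k‖ * r ^ k) * (‖c (m - k)‖ * r ^ (m - k)) * r ^ 2 := by
            rw [Finset.sum_mul]
            apply Finset.sum_congr rfl
            intro k hk
            have hk' : k ≤ m := by rw [mem_range] at hk; omega
            have : r ^ (m + 2) = r ^ k * r ^ (m - k) * r ^ 2 := by
              rw [← pow_add, ← pow_add]; congr 1; omega
            rw [this]; ring
          _ ≤ ∑ k ∈ range (m + 1), M * K * r ^ 2 := by
            apply Finset.sum_le_sum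
            intro k _
            have i1 := hM k
            have i2 := ih (m - k) (by omega)
            have i3 : 0 ≤ ‖c (m - k)‖ * r ^ (m - k) := by positivity
            exact mul_le_mul_of_nonneg_right (mul_le_mul i1 i2 i3 hM0) (by positivity)
          _ = ((m : ℝ) + 1) * (M * K * r ^ 2) := by
            rw [Finset.sum_const, card_range, nsmul_eq_mul]; push_cast; ring
      have h3 : ((m : ℝ) + 2) * (‖c (m + 2)‖ * r ^ (m + 2)) ≤ M * K * r ^ 2 := by
        have hm : (0 : ℝ) < (m : ℝ) + 1 := by positivity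
        have : ((m : ℝ) + 1) * (((m : ℝ) + 2) * (‖c (m + 2)‖ * r ^ (m + 2))) ≤
            ((m : ℝ) + 1) * (M * K * r ^ 2) := by
          calc _ = ((m : ℝ) + 2) * (m + 1) * (‖c (m + 2)‖ * r ^ (m + 2)) := by ring
            _ ≤ _ := h2
        exact le_of_mul_le_mul_left this hm
      have h4 : M * K * r ^ 2 ≤ ((m : ℝ) + 2) * K := by
        have h5 : M * r ^ 2 ≤ (m : ℝ) + 2 := by
          refine hN.trans ?_
          have : N ≤ m + 2 := by omega
          exact_mod_cast this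
        calc M * K * r ^ 2 = (M * r ^ 2) * K := by ring
          _ ≤ ((m : ℝ) + 2) * K := by gcongr
      have hm2 : (0 : ℝ) < (m : ℝ) + 2 := by positivity
      exact le_of_mul_le_mul_left (h3.trans h4) hm2

lemma taylor_ent (T : ℂ → ℂ) (hT : Differentiable ℂ T) :
    ∃ t : ℕ → ℂ, Ent t ∧ ∀ z, HasSum (fun n => t n * z ^ n) (T z) := by
  refine ⟨fun n => ((n.factorial : ℂ))⁻¹ * iteratedDeriv n T 0, ?_, ?_⟩
  · intro r hr
    have h := Complex.hasSum_taylorSeries_of_entire hT 0 (r : ℂ)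
    have h1 := h.summable.tendsto_atTop_zero.norm
    rw [norm_zero] at h1
    obtain ⟨K, hK⟩ := h1.bddAbove_range
    refine ⟨K, ?_⟩
    intro n
    have h2 := hK ⟨n, rfl⟩
    refine le_trans (le_of_eq ?_) h2
    simp only [sub_zero, smul_eq_mul, norm_mul, norm_pow, norm_inv, Complex.norm_real,
      Real.norm_of_nonneg hr.le]
    ring
  · intro z
    have h := Complex.hasSum_taylorSeries_of_entire hT 0 z
    have e : (fun n : ℕ => ((n.factorial : ℂ))⁻¹ * iteratedDeriv n T 0 * z ^ n) =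
        fun n : ℕ => ((n.factorial : ℂ))⁻¹ • (z - 0) ^ n • iteratedDeriv n T 0 := by
      funext n
      rw [sub_zero, smul_eq_mul, smul_eq_mul]
      ring
    rw [e]
    exact h

/-- solution with given initial values -/
lemma exists_sol (T : ℂ → ℂ) (hT : Differentiable ℂ T) (a b : ℂ) :
    ∃ y : ℂ → ℂ, Differentiable ℂ y ∧ Differentiable ℂ (deriv y) ∧
      (∀ z, deriv (deriv y) z = -T z * y z) ∧ y 0 = a ∧ deriv y 0 = b := by
  obtain ⟨t, ht, htT⟩ := taylor_ent T hT
  have hc := coef_ent t ht a b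
  set c := coef t a b with hcdef
  have hd : deriv (sm c) = sm (dc c) := funext (fun z => (hc.hasDerivAt z).deriv)
  have hd2 : deriv (sm (dc c)) = sm (dc (dc c)) := funext (fun z => (hc.dc.hasDerivAt z).deriv)
  refine ⟨sm c, fun z => (hc.hasDerivAt z).differentiableAt, ?_, ?_, ?_, ?_⟩
  · rw [hd]; exact fun z => (hc.dc.hasDerivAt z).differentiableAt
  · intro z
    rw [hd, hd2]
    have h1 : T z = ∑' n, t n * z ^ n := (htT z).tsum_eq.symm
    have h2 : (∑' n, t n * z ^ n) * (∑' n, c n * z ^ n) =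
        ∑' n, ∑ k ∈ range (n + 1), (t k * z ^ k) * (c (n - k) * z ^ (n - k)) :=
      tsum_mul_tsum_eq_tsum_sum_range_of_summable_norm (ht.summable z) (hc.summable z)
    have h3 : sm (dc (dc c)) z = -∑' n, ∑ k ∈ range (n + 1), (t k * z ^ k) * (c (n - k) * z ^ (n - k)) := by
      unfold sm
      rw [← tsum_neg]
      apply tsum_congr
      intro n
      have h4 : dc (dc c) n = -(∑ k ∈ range (n + 1), t k * c (n - k)) := by
        rw [hcdef, ← coef_rec t a b n]
        unfold dc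
        push_cast
        ring
      rw [h4, neg_mul, Finset.sum_mul]
      congr 1
      apply Finset.sum_congr rfl
      intro k hk
      have hk' : k ≤ n := by rw [mem_range] at hk; omega
      have : z ^ n = z ^ k * z ^ (n - k) := by rw [← pow_add]; congr 1; omega
      rw [this]; ring
    rw [h3, ← h2, ← h1]
    unfold sm
    ring
  · rw [sm_zero, hcdef]; rw [coef]
  · rw [hd, sm_zero, hcdef]
    unfold dc
    rw [coef]
    simp

end ODE_

open ODE_ in
theorem p_ODE : T_ODE := by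
  intro T hT
  obtain ⟨y₁, d1, d1', o1, a1, b1⟩ := exists_sol T hT 1 0
  obtain ⟨y₂, d2, d2', o2, a2, b2⟩ := exists_sol T hT 0 1
  refine ⟨y₁, y₂, d1, d2, o1, o2, a1, b1, a2, b2, ?_⟩
  have hW : ∀ z, HasDerivAt (fun z => y₁ z * deriv y₂ z - deriv y₁ z * y₂ z) 0 z := by
    intro z
    have h := ((d1 z).hasDerivAt.mul (d2' z).hasDerivAt).sub
      ((d1' z).hasDerivAt.mul (d2 z).hasDerivAt)
    refine h.congr_deriv ?_
    rw [o1, o2]
    ring
  intro z
  have hconst := is_const_of_deriv_eq_zero (𝕜 := ℂ)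
    (fun z => (hW z).differentiableAt) (fun z => (hW z).deriv) z 0
  rw [hconst, a1, b1, a2, b2]
  ring

end Pool.Agent.Liou
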