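import Pool.Agent.Liou.Targets

/-! Target ONE: either the star is everything at some point, or there are two singular classes
at every point. -/

set_option autoImplicit false

open Complex ComplexConjugate Set Filter Topology

namespace Pool.Agent.Liou

namespace ONE_

/-- the determinant of the frame is one -/
theorem det_frame (P : Pair) (x p q p' q' : ℂ) :
    P.Aco x p q * P.Bco x p' q' - P.Bco x p q * P.Aco x p' q' = p * q' - q * p' := by
  have h := P.sqrtN_mul x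
  have h0 := P.sqrtN_ne x
  unfold Pair.Aco Pair.Bco
  rw [div_mul_div_comm, div_mul_div_comm, ← sub_div, div_eq_iff (mul_ne_zero h0 h0), h]
  ring

/-- the frame is unitary -/
theorem inner_frame (P : Pair) (x p q p' q' : ℂ) :
    conj (P.Aco x p q) * P.Aco x p' q' + conj (P.Bco x p q) * P.Bco x p' q' =
      conj p * p' + conj q * q' := by
  have h := P.sqrtN_mul x
  have h0 := P.sqrtN_ne x
  unfold Pair.Aco Pair.Bco
  rw [map_div₀, map_div₀, Complex.conj_ofReal, map_add, map_sub, map_mul, map_mul, map_mul,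
    map_mul, Complex.conj_conj, Complex.conj_conj, div_mul_div_comm, div_mul_div_comm, ← add_div,
    div_eq_iff (mul_ne_zero h0 h0), h]
  ring

/-- every vector of frame coordinates is attained -/
theorem exists_vec (P : Pair) (x α β : ℂ) : ∃ p q : ℂ, P.Aco x p q = α ∧ P.Bco x p q = β := by
  have h := P.sqrtN_mul x
  have h0 := P.sqrtN_ne x
  refine ⟨(P.a x * α - conj (P.b x) * β) / (Real.sqrt (P.N x) : ℂ),
    (P.b x * α + conj (P.a x) * β) / (Real.sqrt (P.N x) : ℂ), ?_, ?_⟩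
  · unfold Pair.Aco
    rw [← mul_div_assoc, ← mul_div_assoc, ← add_div, div_div, div_eq_iff (mul_ne_zero h0 h0), h]
    ring
  · unfold Pair.Bco
    rw [← mul_div_assoc, ← mul_div_assoc, ← sub_div, div_div, div_eq_iff (mul_ne_zero h0 h0), h]
    ring

/-- first exit point -/
theorem exit (P : Pair) (x w : ℂ) (h : SecFacts P x) (hw : w ∉ P.S x) :
    ∃ ρ : ℝ, 0 < ρ ∧ ρ ≤ 1 ∧ (ρ : ℂ) * w ∉ P.S x ∧
      ∀ t ∈ Ico (0 : ℝ) 1, (t : ℂ) * ((ρ : ℂ) * w) ∈ P.S x := by
  set T : Set ℝ := {t | t ∈ Icc (0 : ℝ) 1 ∧ (t : ℂ) * w ∉ P.S x} with hT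
  have hTc : IsClosed T := by
    have h1 : IsClosed {t : ℝ | (t : ℂ) * w ∉ P.S x} := by
      have : {t : ℝ | (t : ℂ) * w ∉ P.S x} = (fun t : ℝ => (t : ℂ) * w) ⁻¹' (P.S x)ᶜ := rfl
      rw [this]
      exact h.isOpen.isClosed_compl.preimage (by fun_prop)
    exact isClosed_Icc.inter h1
  have hTne : T.Nonempty := ⟨1, ⟨by norm_num, by norm_num⟩, by simpa using hw⟩
  have hTb : BddBelow T := ⟨0, fun t ht => ht.1.1⟩
  have hmem : sInf T ∈ T := hTc.csInf_mem hTne hTb
  refine ⟨sInf T, ?_, hmem.1.2, hmem.2, ?_⟩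
  · rcases hmem.1.1.lt_or_eq with h0 | h0
    · exact h0
    · exfalso
      apply hmem.2
      rw [← h0]
      simpa using h.zero_mem
  · intro t ht
    by_contra hcon
    have hpos : 0 < sInf T := by
      rcases hmem.1.1.lt_or_eq with h0 | h0
      · exact h0
      · exfalso
        apply hmem.2
        rw [← h0]
        simpa using h.zero_mem
    have hlt : t * sInf T < sInf T := by nlinarith [ht.2]
    have hin : t * sInf T ∈ T := by
      refine ⟨⟨mul_nonneg ht.1 hpos.le, ?_⟩, ?_⟩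
      · nlinarith [ht.2, hmem.1.2]
      · rw [Complex.ofReal_mul, mul_assoc]
        exact hcon
    exact absurd (csInf_le hTb hin) (not_le.2 hlt)

/-- a point outside of the star gives a singular vector -/
theorem exists_sing (P : Pair) (x w : ℂ) (h : SecFacts P x) (hw : w ∉ P.S x) :
    ∃ (p q : ℂ) (ρ : ℝ), 0 < ρ ∧ ρ ≤ 1 ∧ P.Aco x p q = 1 ∧ P.Bco x p q = (ρ : ℂ) * w ∧
      P.Sing x p q := by
  obtain ⟨ρ, h0, h1, h2, h3⟩ := exit P x w h hw
  obtain ⟨p, q, hp, hq⟩ := exists_vec P x 1 ((ρ : ℂ) * w)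
  refine ⟨p, q, ρ, h0, h1, hp, hq, ?_⟩
  refine ⟨by rw [hp]; exact one_ne_zero, ?_, ?_⟩
  · rw [hp, hq, div_one]; exact h2
  · rw [hp, hq, div_one]; exact h3

end ONE_

open ONE_ in
theorem p_ONE (h1 : T_SEC) (h3 : T_PERS) (h4 : T_NEAR) (h5 : T_TWO) : T_ONE := by
  intro P hP
  by_cases hex : ∃ x, P.S x = univ
  · exact Or.inl hex
  right
  push Not at hex
  intro x
  -- a singular class
  obtain ⟨w, hw⟩ := (Set.ne_univ_iff_exists_notMem _).1 (hex x)
  obtain ⟨p, q, ρ, hρ, hρ1, hA, hB, hS⟩ := exists_sing P x w (h1 P x) hw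
  by_contra hcon
  push Not at hcon
  have hone : ∀ p' q' : ℂ, P.Sing x p' q' → p * q' = q * p' := fun p' q' h => hcon p q p' q' hS h
  set s : ℂ := (ρ : ℂ) * w with hs
  have hquo : P.Bco x p q / P.Aco x p q = s := by rw [hA, hB, div_one]
  have hsS : s ∉ P.S x := by have := hS.2.1; rwa [hquo] at this
  have hs0 : s ≠ 0 := fun h => hsS (h ▸ (h1 P x).zero_mem)
  -- the complement of the star
  have hcomp : ∀ w, w ∉ P.S x → ∃ t : ℝ, 1 ≤ t ∧ w = (t : ℂ) * s := by
    intro w' hw'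
    obtain ⟨p', q', ρ', hρ', hρ1', hA', hB', hS'⟩ := exists_sing P x w' (h1 P x) hw'
    have e1 := hone p' q' hS'
    have e2 := det_frame P x p q p' q'
    rw [hA, hB, hA', hB', e1, sub_self, one_mul, mul_one, sub_eq_zero] at e2
    refine ⟨ρ'⁻¹, (one_le_inv₀ hρ').2 hρ1', ?_⟩
    rw [← e2]
    have : (ρ' : ℂ) ≠ 0 := by exact_mod_cast hρ'.ne'
    rw [Complex.ofReal_inv, inv_mul_cancel_left₀ this]
  have hmemS : ∀ r : ℝ, r < 1 → (r : ℂ) * s ∈ P.S x := by
    intro r hr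
    by_contra hc
    obtain ⟨t, ht, hts⟩ := hcomp _ hc
    have : (r : ℂ) = (t : ℂ) := mul_right_cancel₀ hs0 hts
    have : r = t := by exact_mod_cast this
    linarith
  -- norm squared of s
  set m : ℝ := ‖s‖ ^ 2 with hm
  have hm0 : 0 < m := by
    have : 0 < ‖s‖ := norm_pos_iff.2 hs0
    positivity
  have hcs : conj s * s = (m : ℂ) := by rw [Complex.conj_mul', hm]; push_cast; ring
  -- the moving point
  have hwS : ∀ t : ℝ, 0 ≤ t → ((-t / m : ℝ) : ℂ) * s ∈ P.S x := by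
    intro t ht
    apply hmemS
    have : -t / m ≤ 0 := div_nonpos_of_nonpos_of_nonneg (by linarith) hm0.le
    linarith
  have hcw : ∀ t : ℝ, conj (((-t / m : ℝ) : ℂ) * s) * s = ((-t : ℝ) : ℂ) := by
    intro t
    rw [map_mul, Complex.conj_ofReal, mul_assoc, hcs, ← Complex.ofReal_mul]
    congr 1
    field_simp
  have hcww : ∀ t : ℝ, conj (((-t / m : ℝ) : ℂ) * s) * (((-t / m : ℝ) : ℂ) * s) =
      ((t ^ 2 / m : ℝ) : ℂ) := by
    intro t
    have : conj (((-t / m : ℝ) : ℂ) * s) * (((-t / m : ℝ) : ℂ) * s) =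
        ((-t / m : ℝ) : ℂ) * (conj (((-t / m : ℝ) : ℂ) * s) * s) := by ring
    rw [this, hcw, ← Complex.ofReal_mul]
    congr 1
    field_simp
  -- the antipodal point
  set ws : ℂ := ((-1 / m : ℝ) : ℂ) * s with hws
  have hwsS : ws ∈ P.S x := hwS 1 zero_le_one
  set xs : ℂ := P.sec x ws with hxs
  have hBA : P.B x xs = ws * P.A x xs := (h1 P x).eq ws hwsS
  have hAxs : P.Aco xs p q = 0 := by
    rw [(Pair.frame_change P hBA p q).1, hA, hB]
    have : (1 : ℂ) + conj ws * s = 0 := by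
      rw [hws, hcw 1]; push_cast; ring
    rw [this, mul_zero, zero_div]
  -- a singular class at the antipodal point
  obtain ⟨w₁, hw₁⟩ := (Set.ne_univ_iff_exists_notMem _).1 (hex xs)
  obtain ⟨p₁, q₁, ρ₁, -, -, hA₁, hB₁, hS₁⟩ := exists_sing P xs w₁ (h1 P xs) hw₁
  have hBxs : P.Bco xs p q ≠ 0 := by
    intro h0
    have e := P.Aco_sq_add xs p q
    have e' := P.Aco_sq_add x p q
    rw [← e, hAxs, h0, hA] at e'
    simp at e'
    have : (0 : ℝ) ≤ ‖P.Bco x p q‖ ^ 2 := by positivity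
    linarith
  have hne : p * q₁ ≠ q * p₁ := by
    intro h
    have e := det_frame P xs p q p₁ q₁
    rw [hAxs, hA₁, h, sub_self, zero_mul, zero_sub, mul_one, neg_eq_zero] at e
    exact hBxs e
  -- the point x' close to xs
  have hnear := h4 P xs p₁ q₁ hP hS₁
  have hcont : ContinuousAt (P.sec x) ws :=
    ((h1 P x).diff.differentiableAt ((h1 P x).isOpen.mem_nhds hwsS)).continuousAt
  have hlim : Tendsto (fun t : ℝ => P.sec x (((-t / m : ℝ) : ℂ) * s)) (𝓝[<] 1) (𝓝 xs) := by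
    have hc : ContinuousAt (fun t : ℝ => ((-t / m : ℝ) : ℂ) * s) 1 := by fun_prop
    have hc1 : Tendsto (fun t : ℝ => ((-t / m : ℝ) : ℂ) * s) (𝓝[<] 1) (𝓝 ws) :=
      hc.tendsto.mono_left nhdsWithin_le_nhds
    exact hcont.tendsto.comp hc1
  have hev := (hlim.eventually hnear).and (Ico_mem_nhdsLT (show (0 : ℝ) < 1 from one_pos))
  obtain ⟨t, hS₂, ht⟩ := hev.exists
  -- persistence
  have hper : P.Sing (P.sec x (((-t / m : ℝ) : ℂ) * s)) p q := by
    apply h3 P x p q _ hS (hwS t ht.1)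
    · refine ⟨1, one_pos, fun w _ hw => ?_⟩
      obtain ⟨r, -, hr⟩ := hcomp w hw
      exact ⟨r, by rw [hquo]; exact hr⟩
    · rw [hquo, hcw]
      have : (1 : ℂ) + ((-t : ℝ) : ℂ) = ((1 - t : ℝ) : ℂ) := by push_cast; ring
      rw [this]
      exact_mod_cast (sub_pos.2 ht.2).ne'
    · intro τ hτ
      rw [hquo, hcw, hcww]
      have hd0 : 0 < (1 - τ) * (1 - t) := mul_pos (sub_pos.2 hτ.2) (sub_pos.2 ht.2)
      have hd1 : 0 ≤ τ * (1 + t ^ 2 / m) := mul_nonneg hτ.1 (by positivity)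
      set D : ℝ := (1 - τ) * (1 - t) + τ * (1 + t ^ 2 / m) with hD
      have hDpos : 0 < D := by linarith
      have eD : (1 - (τ : ℂ)) * (1 + ((-t : ℝ) : ℂ)) + (τ : ℂ) * (1 + ((t ^ 2 / m : ℝ) : ℂ)) =
          (D : ℂ) := by
        rw [hD]; push_cast; ring
      have eN : (1 - (τ : ℂ)) * (1 + ((-t : ℝ) : ℂ)) * (((-t / m : ℝ) : ℂ) * s) +
          (τ : ℂ) * (1 + ((t ^ 2 / m : ℝ) : ℂ)) * s =
          (((1 - τ) * (1 - t) * (-t / m) + τ * (1 + t ^ 2 / m) : ℝ) : ℂ) * s := by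
        push_cast; ring
      rw [eD, eN]
      refine ⟨by exact_mod_cast hDpos.ne', ?_⟩
      rw [mul_div_right_comm, ← Complex.ofReal_div]
      apply hmemS
      rw [div_lt_one hDpos, hD]
      have h6 : -t / m ≤ 0 := div_nonpos_of_nonpos_of_nonneg (by linarith [ht.1]) hm0.le
      nlinarith
  have horth := h5 P _ p q p₁ q₁ hP hper hS₂ hne
  have e := inner_frame P xs p q p₁ q₁
  rw [horth, hAxs, map_zero, zero_mul, zero_add] at e
  have hB0 : P.Bco xs p₁ q₁ = 0 := by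
    rcases mul_eq_zero.1 e with h | h
    · exact absurd ((map_eq_zero _).1 h) hBxs
    · exact h
  apply hS₁.2.1
  rw [hB0, zero_div]
  exact (h1 P xs).zero_mem

end Pool.Agent.Liou
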