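import Pool.Agent.Liou.Targets

/-!
# One-dimensional solutions of the Liouville equation
-/

set_option autoImplicit false

namespace Pool.Agent.Liou

namespace ONEB_

/-- the Laplacian of a plane wave -/
theorem lap_wave (f : ℝ → ℝ) (hf : ContDiff ℝ 2 f) (e : ℂ) (he : ‖e‖ = 1) (z : ℂ) :
    Laplacian.laplacian (fun x : ℂ => f (inner ℝ x e)) z = iteratedDeriv 2 f (inner ℝ z e) := by
  set L : ℂ →L[ℝ] ℝ := innerSL ℝ e with hL
  have hLa : ∀ x, L x = inner ℝ x e := by
    intro x
    rw [hL, innerSL_apply_apply, real_inner_comm]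
  have h0 : (fun x : ℂ => f (inner ℝ x e)) = f ∘ L := by
    funext x
    rw [Function.comp_apply, hLa]
  have h1 : iteratedFDeriv ℝ 2 (f ∘ L) z =
      (iteratedFDeriv ℝ 2 f (L z)).compContinuousLinearMap fun _ => L :=
    L.iteratedFDeriv_comp_right hf z (le_refl _)
  have h2 : ∀ v : ℂ, iteratedFDeriv ℝ 2 (f ∘ L) z ![v, v] =
      (L v) ^ 2 * iteratedDeriv 2 f (L z) := by
    intro v
    rw [h1, ContinuousMultilinearMap.compContinuousLinearMap_apply,
      iteratedFDeriv_apply_eq_iteratedDeriv_mul_prod]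
    simp [Fin.prod_univ_two, pow_two]
  rw [h0]
  have h3 := congrFun (InnerProductSpace.laplacian_eq_iteratedFDeriv_complexPlane (f ∘ L)) z
  rw [h3]
  show iteratedFDeriv ℝ 2 (f ∘ L) z ![1, 1] + iteratedFDeriv ℝ 2 (f ∘ L) z ![Complex.I, Complex.I]
    = _
  rw [h2, h2, hLa 1, hLa Complex.I, hLa z]
  have h4 : (inner ℝ (1 : ℂ) e) = e.re := by simp [Complex.inner]
  have h5 : (inner ℝ Complex.I e) = e.im := by simp [Complex.inner]
  rw [h4, h5, ← add_mul]
  have h6 : e.re ^ 2 + e.im ^ 2 = 1 := by
    have h7 := Complex.sq_norm e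
    rw [he, Complex.normSq_apply] at h7
    linarith
  rw [h6, one_mul]

end ONEB_

theorem p_ONEB : T_ONEB := by
  intro u hu ⟨e, he, f, hf⟩
  have hee : inner ℝ e e = (1 : ℝ) := by
    rw [real_inner_self_eq_norm_sq, he]; norm_num
  have hfu : f = fun t : ℝ => u (t • e) := by
    funext t
    rw [hf, real_inner_smul_left, hee, mul_one]
  have hf2 : ContDiff ℝ 2 f := by
    rw [hfu]
    exact hu.smooth.comp (contDiff_id.smul contDiff_const)
  have hode : ∀ t, iteratedDeriv 2 f t + Real.exp (2 * f t) = 0 := by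
    intro t
    have h1 := hu.eq (t • e)
    have h2 : u = fun x : ℂ => f (inner ℝ x e) := funext hf
    rw [h2, ONEB_.lap_wave f hf2 e he] at h1
    change iteratedDeriv 2 f (inner ℝ (t • e) e) +
      Real.exp (2 * f (inner ℝ (t • e) e)) = 0 at h1
    rw [real_inner_smul_left, hee, mul_one] at h1
    exact h1
  have hd1 : ∀ t, HasDerivAt f (deriv f t) t := fun t =>
    (hf2.differentiable (by norm_num) t).hasDerivAt
  have hdd : Differentiable ℝ (deriv f) := by
    have h1 : ContDiff ℝ 1 (deriv f) := by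
      have h2 : ContDiff ℝ (1 + 1) f := by
        have : (1 : WithTop ℕ∞) + 1 = 2 := by norm_num
        rw [this]; exact hf2
      exact (contDiff_succ_iff_deriv.1 h2).2.2
    exact h1.differentiable (by norm_num)
  have hd2 : ∀ t, HasDerivAt (deriv f) (-Real.exp (2 * f t)) t := by
    intro t
    have h1 := (hdd t).hasDerivAt
    have h2 : deriv (deriv f) t = -Real.exp (2 * f t) := by
      have h3 := hode t
      rw [iteratedDeriv_succ, iteratedDeriv_one] at h3
      linarith
    rwa [h2] at h1
  have hexp : ∀ t, HasDerivAt (fun s => Real.exp (-f s)) (Real.exp (-f t) * -deriv f t) t :=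
    fun t => (hd1 t).neg.exp
  have hexp2 : ∀ t, HasDerivAt (fun s => Real.exp (2 * f s))
      (Real.exp (2 * f t) * (2 * deriv f t)) t := fun t => ((hd1 t).const_mul 2).exp
  -- the energy
  have hE : ∀ t, deriv f t ^ 2 + Real.exp (2 * f t) = deriv f 0 ^ 2 + Real.exp (2 * f 0) := by
    intro t
    have h1 : ∀ s, HasDerivAt (fun s => deriv f s ^ 2 + Real.exp (2 * f s)) 0 s := by
      intro s
      have h2 := ((hd2 s).pow 2).add (hexp2 s)
      refine h2.congr_deriv ?_
      simp only [Nat.cast_ofNat]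
      ring
    exact is_const_of_deriv_eq_zero (fun s => (h1 s).differentiableAt) (fun s => (h1 s).deriv) t 0
  set l : ℝ := Real.sqrt (deriv f 0 ^ 2 + Real.exp (2 * f 0)) with hl
  have hE0 : 0 < deriv f 0 ^ 2 + Real.exp (2 * f 0) := by positivity
  have hl0 : 0 < l := Real.sqrt_pos.2 hE0
  have hl2 : ∀ t, l ^ 2 = deriv f t ^ 2 + Real.exp (2 * f t) := by
    intro t
    rw [hE t, hl, Real.sq_sqrt hE0.le]
  have hee2 : ∀ t, Real.exp (2 * f t) * (Real.exp (-f t)) ^ 2 = 1 := by
    intro t
    rw [← Real.exp_nat_mul, ← Real.exp_add]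
    norm_num
  -- two first integrals
  have hA : ∀ t, (-deriv f t + l) * Real.exp (-f t) * Real.exp (-(l * t)) =
      (-deriv f 0 + l) * Real.exp (-f 0) * Real.exp (-(l * 0)) := by
    intro t
    have h1 : ∀ s, HasDerivAt
        (fun s => (-deriv f s + l) * Real.exp (-f s) * Real.exp (-(l * s))) 0 s := by
      intro s
      have h3 : HasDerivAt (fun s => Real.exp (-(l * s))) (Real.exp (-(l * s)) * (-(l * 1))) s :=
        ((hasDerivAt_id s).const_mul l).neg.exp
      have h2 := (((hd2 s).neg.add_const l).mul (hexp s)).mul h3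
      refine h2.congr_deriv ?_
      have h4 := hl2 s
      have h5 : Real.exp (2 * f s) = l ^ 2 - deriv f s ^ 2 := by linarith
      simp only [h5, Pi.neg_apply, Pi.mul_apply]
      ring
    exact is_const_of_deriv_eq_zero (fun s => (h1 s).differentiableAt) (fun s => (h1 s).deriv) t 0
  have hB : ∀ t, (deriv f t + l) * Real.exp (-f t) * Real.exp (l * t) =
      (deriv f 0 + l) * Real.exp (-f 0) * Real.exp (l * 0) := by
    intro t
    have h1 : ∀ s, HasDerivAt
        (fun s => (deriv f s + l) * Real.exp (-f s) * Real.exp (l * s)) 0 s := by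
      intro s
      have h3 : HasDerivAt (fun s => Real.exp (l * s)) (Real.exp (l * s) * (l * 1)) s :=
        ((hasDerivAt_id s).const_mul l).exp
      have h2 := (((hd2 s).add_const l).mul (hexp s)).mul h3
      refine h2.congr_deriv ?_
      have h4 := hl2 s
      have h5 : Real.exp (2 * f s) = l ^ 2 - deriv f s ^ 2 := by linarith
      simp only [h5, Pi.mul_apply]
      ring
    exact is_const_of_deriv_eq_zero (fun s => (h1 s).differentiableAt) (fun s => (h1 s).deriv) t 0
  simp only [mul_zero, neg_zero, Real.exp_zero, mul_one] at hA hB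
  set A := (-deriv f 0 + l) * Real.exp (-f 0) with hAdef
  set B := (deriv f 0 + l) * Real.exp (-f 0) with hBdef
  have hAB : A * B = 1 := by
    have h1 := hl2 0
    have h2 := hee2 0
    have h3 : Real.exp (2 * f 0) = l ^ 2 - deriv f 0 ^ 2 := by linarith
    rw [h3] at h2
    rw [hAdef, hBdef]
    linear_combination h2
  have hsum : 0 < A + B := by
    have h1 : A + B = 2 * l * Real.exp (-f 0) := by rw [hAdef, hBdef]; ring
    rw [h1]
    positivity
  have hApos : 0 < A := by
    by_contra hc
    push Not at hc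
    have h1 : B < 0 ∨ 0 ≤ B := lt_or_ge B 0
    rcases h1 with h1 | h1
    · linarith
    · nlinarith
  have hBA : B = Real.exp (-Real.log A) := by
    rw [Real.exp_neg, Real.exp_log hApos]
    field_simp
    linarith
  refine ⟨e, l, Real.log A, he, hl0, fun z => ?_⟩
  rw [hf z]
  set t := inner ℝ z e with ht
  have h1 : Real.exp (-f t) * (2 * l) = A * Real.exp (l * t) + B * Real.exp (-(l * t)) := by
    rw [← hA t, ← hB t]
    have h2 : Real.exp (-(l * t)) * Real.exp (l * t) = 1 := by
      rw [← Real.exp_add]; simp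
    linear_combination (-(2 * l * Real.exp (-f t))) * h2
  have h3 : Real.cosh (l * t + Real.log A) =
      (A * Real.exp (l * t) + B * Real.exp (-(l * t))) / 2 := by
    rw [Real.cosh_eq, neg_add, Real.exp_add, Real.exp_add, Real.exp_log hApos, ← hBA]
    ring
  rw [h3, ← h1]
  field_simp

end Pool.Agent.Liou
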