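import Pool.Agent.Liou.Targets

/-! PERS: persistence of a singular point -/

set_option autoImplicit false

open Complex ComplexConjugate Set Filter Topology

namespace Pool.Agent.Liou

namespace PERS_

variable {P : Pair}

theorem M_ne {x x' w' : ℂ} (h : P.B x x' = w' * P.A x x') :
    ((‖P.A x x'‖ * Real.sqrt (1 + ‖w'‖ ^ 2) : ℝ) : ℂ) ≠ 0 := by
  have hc : P.A x x' ≠ 0 := P.A_ne_of_eq h
  have : 0 < ‖P.A x x'‖ * Real.sqrt (1 + ‖w'‖ ^ 2) :=
    mul_pos (norm_pos_iff.2 hc) (Real.sqrt_pos.2 (by positivity))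
  exact_mod_cast this.ne'

theorem fwd {x x' w' : ℂ} (h : P.B x x' = w' * P.A x x') {y z m : ℂ}
    (hz : P.A x x' * (z - w') = y * (conj (P.A x x') * (1 + conj w' * z)))
    (hm : P.B x m = z * P.A x m) : P.B x' m = y * P.A x' m := by
  obtain ⟨hA, hB⟩ := P.frame_change h (P.a m) (P.b m)
  change P.A x' m = conj (P.A x x') * (P.A x m + conj w' * P.B x m) / _ at hA
  change P.B x' m = P.A x x' * (P.B x m - w' * P.A x m) / _ at hB
  rw [hA, hB, hm, ← mul_div_assoc]
  congr 1
  linear_combination (P.A x m) * hz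

theorem one_add_ne (w' : ℂ) : 1 + conj w' * w' ≠ 0 := by
  rw [Complex.conj_mul']
  have : (0 : ℝ) < 1 + ‖w'‖ ^ 2 := by positivity
  exact_mod_cast this.ne'

theorem bwd {x x' w' : ℂ} (h : P.B x x' = w' * P.A x x') {y z m : ℂ}
    (hz : P.A x x' * (z - w') = y * (conj (P.A x x') * (1 + conj w' * z)))
    (hm : P.B x' m = y * P.A x' m) : P.B x m = z * P.A x m := by
  have hc : P.A x x' ≠ 0 := P.A_ne_of_eq h
  have hM := M_ne h
  obtain ⟨hA, hB⟩ := P.frame_change h (P.a m) (P.b m)
  change P.A x' m = conj (P.A x x') * (P.A x m + conj w' * P.B x m) / _ at hA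
  change P.B x' m = P.A x x' * (P.B x m - w' * P.A x m) / _ at hB
  rw [hA, hB, ← mul_div_assoc, div_left_inj' hM] at hm
  have h2 : P.A x x' * ((1 + conj w' * w') * (P.B x m - z * P.A x m)) = 0 := by
    linear_combination (1 + conj w' * z) * hm - (P.A x m + conj w' * P.B x m) * hz
  have h3 : P.B x m - z * P.A x m = 0 := by
    rcases mul_eq_zero.1 h2 with h4 | h4
    · exact absurd h4 hc
    · rcases mul_eq_zero.1 h4 with h5 | h5
      · exact absurd h5 (one_add_ne w')
      · exact h5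
  exact sub_eq_zero.1 h3

theorem isCompact_seg (y : ℂ) : IsCompact (segment ℝ (0 : ℂ) y) := by
  rw [segment_eq_image]
  refine isCompact_Icc.image ?_
  fun_prop

/-- the punctured ball is star-shaped -/
theorem star_V {s : ℂ} (hs : s ≠ 0) {ε : ℝ} {η : ℝ} (hη : 0 < η)
    (hηε : η * ‖s‖ < ε) :
    StarConvex ℝ (((1 - η : ℝ) : ℂ) * s) (Metric.ball s ε \ {z | ∃ t : ℝ, 1 ≤ t ∧ z = (t : ℂ) * s}) := by
  have hmem : ((1 - η : ℝ) : ℂ) * s ∈ Metric.ball s ε := by
    rw [Metric.mem_ball, dist_eq_norm]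
    have : ((1 - η : ℝ) : ℂ) * s - s = ((-η : ℝ) : ℂ) * s := by push_cast; ring
    rw [this, norm_mul, Complex.norm_real, Real.norm_eq_abs, abs_neg, abs_of_pos hη]
    exact hηε
  rw [starConvex_iff_segment_subset]
  intro z hz y hy
  refine ⟨(convex_ball s ε).segment_subset hmem hz.1 hy, ?_⟩
  rintro ⟨t, ht, rfl⟩
  rw [segment_eq_image] at hy
  obtain ⟨l, hl, hle⟩ := hy
  simp only [Complex.real_smul] at hle
  rcases hl.1.eq_or_lt with h0 | h0
  · rw [← h0] at hle
    have h1 : (((1 - η : ℝ) : ℂ) - (t : ℂ)) * s = 0 := by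
      rw [sub_mul, ← hle]; push_cast; ring
    rcases mul_eq_zero.1 h1 with h2 | h2
    · have : (1 - η) - t = 0 := by exact_mod_cast h2
      linarith
    · exact hs h2
  · refine hz.2 ⟨(t - (1 - l) * (1 - η)) / l, ?_, ?_⟩
    · rw [le_div_iff₀ h0]
      nlinarith [hl.2]
    · have hl0 : (l : ℂ) ≠ 0 := by exact_mod_cast h0.ne'
      push_cast
      rw [div_mul_eq_mul_div, eq_div_iff hl0]
      push_cast at hle
      linear_combination hle

end PERS_

theorem p_PERS (hUNI : T_UNI) (hSEC : T_SEC) (hSTAR : T_STAR) : T_PERS := by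
  intro P x p q w' hS hw' hline hD harc
  obtain ⟨hAc, hsn, hsr⟩ := hS
  set s : ℂ := P.Bco x p q / P.Aco x p q with hs
  have F := hSEC P x
  set x' := P.sec x w' with hx'
  have hxx : P.B x x' = w' * P.A x x' := F.eq w' hw'
  have hc : P.A x x' ≠ 0 := P.A_ne_of_eq hxx
  have hM := PERS_.M_ne hxx
  obtain ⟨hA, hB⟩ := P.frame_change hxx p q
  set c := P.A x x' with hcdef
  have hcc : conj c ≠ 0 := (map_ne_zero _).2 hc
  have hBs : P.Bco x p q = s * P.Aco x p q := by rw [hs, div_mul_cancel₀ _ hAc]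
  have hA1 : P.Aco x p q + conj w' * P.Bco x p q = P.Aco x p q * (1 + conj w' * s) := by
    rw [hBs]; ring
  have hB1 : P.Bco x p q - w' * P.Aco x p q = P.Aco x p q * (s - w') := by
    rw [hBs]; ring
  have hA0 : P.Aco x' p q ≠ 0 := by
    rw [hA, hA1]
    exact div_ne_zero (mul_ne_zero hcc (mul_ne_zero hAc hD)) hM
  have hs' : P.Bco x' p q / P.Aco x' p q = c * (s - w') / (conj c * (1 + conj w' * s)) := by
    rw [hA, hB, hA1, hB1, div_div_div_cancel_right₀ hM,
      div_eq_div_iff (mul_ne_zero hcc (mul_ne_zero hAc hD)) (mul_ne_zero hcc hD)]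
    ring
  set s' : ℂ := c * (s - w') / (conj c * (1 + conj w' * s)) with hs'def
  have hs'mul : s' * (conj c * (1 + conj w' * s)) = c * (s - w') :=
    div_mul_cancel₀ _ (mul_ne_zero hcc hD)
  -- the inverse map
  set E : ℂ → ℂ := fun y => c - conj w' * conj c * y with hE
  set R : ℂ → ℂ := fun y => (conj c * y + c * w') / E y with hR
  have hEc : Continuous E := by fun_prop
  have hO1 : IsOpen {y | E y ≠ 0} := isOpen_ne_fun hEc continuous_const
  have hRc : ContinuousOn R {y | E y ≠ 0} := by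
    apply ContinuousOn.div
    · fun_prop
    · exact hEc.continuousOn
    · intro y hy; exact hy
  set O : Set ℂ := {y | E y ≠ 0} ∩ R ⁻¹' (P.S x) with hO
  have hOo : IsOpen O := hRc.isOpen_inter_preimage hO1 F.isOpen
  have hrel : ∀ y, E y ≠ 0 → c * (R y - w') = y * (conj c * (1 + conj w' * R y)) := by
    intro y hy
    have h1 : R y * E y = conj c * y + c * w' := div_mul_cancel₀ _ hy
    simp only [hE] at h1
    linear_combination h1
  have hψc : ContinuousOn (fun y => P.sec x (R y)) O :=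
    F.diff.continuousOn.comp (hRc.mono inter_subset_left) (fun y hy => hy.2)
  have hψe : ∀ y ∈ O, P.B x' (P.sec x (R y)) = y * P.A x' (P.sec x (R y)) := fun y hy =>
    PERS_.fwd hxx (hrel y hy.1) (F.eq _ hy.2)
  have hE0 : E 0 = c := by simp [hE]
  have hR0 : R 0 = w' := by
    simp only [hR, hE0, mul_zero, zero_add]
    rw [mul_div_cancel_left₀ _ hc]
  -- the arc
  set num : ℝ → ℂ := fun t => (1 - (t : ℂ)) * (1 + conj w' * s) * w' + (t : ℂ) * (1 + conj w' * w') * s
    with hnum
  set den : ℝ → ℂ := fun t => (1 - (t : ℂ)) * (1 + conj w' * s) + (t : ℂ) * (1 + conj w' * w')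
    with hden
  have hEt : ∀ t : ℝ, E ((t : ℂ) * s') * (1 + conj w' * s) = c * den t := by
    intro t
    simp only [hE, hden]
    linear_combination (-conj w' * (t : ℂ)) * hs'mul
  have hNt : ∀ t : ℝ, (conj c * ((t : ℂ) * s') + c * w') * (1 + conj w' * s) = c * num t := by
    intro t
    simp only [hnum]
    linear_combination (t : ℂ) * hs'mul
  have hEne : ∀ t ∈ Ico (0 : ℝ) 1, E ((t : ℂ) * s') ≠ 0 := by
    intro t ht h0
    have := hEt t
    rw [h0, zero_mul] at this
    exact mul_ne_zero hc (harc t ht).1 this.symm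
  have hRt : ∀ t ∈ Ico (0 : ℝ) 1, R ((t : ℂ) * s') = num t / den t := by
    intro t ht
    simp only [hR]
    rw [div_eq_div_iff (hEne t ht) (harc t ht).1]
    have h1 := hEt t
    have h2 := hNt t
    apply mul_right_cancel₀ (mul_ne_zero hc hD)
    linear_combination (den t * c) * h2 - (num t * c) * h1
  have hOt : ∀ t ∈ Ico (0 : ℝ) 1, ((t : ℂ) * s') ∈ O := fun t ht =>
    ⟨hEne t ht, by
      show R ((t : ℂ) * s') ∈ P.S x
      rw [hRt t ht]; exact (harc t ht).2⟩
  -- sections over thickenings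
  have hlift : ∀ t ∈ Ico (0 : ℝ) 1, ((t : ℂ) * s') ∈ P.S x' ∧
      P.sec x' ((t : ℂ) * s') = P.sec x (num t / den t) := by
    intro t ht
    have hsub : segment ℝ (0 : ℂ) ((t : ℂ) * s') ⊆ O := by
      rw [segment_eq_image]
      rintro _ ⟨l, hl, rfl⟩
      have : (1 - l) • (0 : ℂ) + l • ((t : ℂ) * s') = ((l * t : ℝ) : ℂ) * s' := by
        rw [smul_zero, zero_add, Complex.real_smul]; push_cast; ring
      show _ ∈ O
      simp only [this]
      exact hOt _ ⟨mul_nonneg hl.1 ht.1, by nlinarith [hl.1, hl.2, ht.1, ht.2]⟩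
    obtain ⟨δ, hδ, hth⟩ := (PERS_.isCompact_seg ((t : ℂ) * s')).exists_thickening_subset_open hOo hsub
    have hconv : Convex ℝ (Metric.thickening δ (segment ℝ (0 : ℂ) ((t : ℂ) * s'))) :=
      (convex_segment _ _).thickening δ
    have h0 : (0 : ℂ) ∈ Metric.thickening δ (segment ℝ (0 : ℂ) ((t : ℂ) * s')) :=
      Metric.self_subset_thickening hδ _ (left_mem_segment ℝ _ _)
    have h1 : ((t : ℂ) * s') ∈ Metric.thickening δ (segment ℝ (0 : ℂ) ((t : ℂ) * s')) :=
      Metric.self_subset_thickening hδ _ (right_mem_segment ℝ _ _)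
    obtain ⟨h2, h3⟩ := hSTAR P x' _ (fun y => P.sec x (R y)) Metric.isOpen_thickening
      (hconv.starConvex h0) h0 (hψc.mono hth) (by show P.sec x (R 0) = x'; rw [hR0])
      (fun w hw => hψe w (hth hw))
    refine ⟨h2 h1, ?_⟩
    rw [← hRt t ht]
    exact (h3 h1).symm
  refine ⟨hA0, ?_, ?_⟩
  · rw [hs']
    intro hmem
    have F' := hSEC P x'
    have hs0 : s ≠ 0 := fun h => hsn (h ▸ F.zero_mem)
    set ρ : ℂ → ℂ := fun z => c * (z - w') / (conj c * (1 + conj w' * z)) with hρ
    have hρs : ρ s = s' := rfl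
    have hρc : ContinuousAt ρ s := by
      apply ContinuousAt.div
      · fun_prop
      · fun_prop
      · exact mul_ne_zero hcc hD
    have hev : ∀ᶠ z in 𝓝 s, 1 + conj w' * z ≠ 0 ∧ ρ z ∈ P.S x' := by
      apply Filter.Eventually.and
      · have : ContinuousAt (fun z => 1 + conj w' * z) s := by fun_prop
        exact this.eventually_ne hD
      · exact hρc.eventually_mem (F'.isOpen.mem_nhds hmem)
    obtain ⟨ε₁, hε₁, hball⟩ := Metric.eventually_nhds_iff_ball.1 hev
    obtain ⟨ε, hε, hline⟩ := hline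
    have hsn0 : 0 < ‖s‖ := norm_pos_iff.2 hs0
    set ε₂ : ℝ := min (min ε ε₁) ‖s‖ with hε₂
    have hε₂0 : 0 < ε₂ := lt_min (lt_min hε hε₁) hsn0
    have hle1 : ε₂ ≤ ε := (min_le_left _ _).trans (min_le_left _ _)
    have hle2 : ε₂ ≤ ε₁ := (min_le_left _ _).trans (min_le_right _ _)
    have hle3 : ε₂ ≤ ‖s‖ := min_le_right _ _
    set V : Set ℂ := Metric.ball s ε₂ \ {z | ∃ t : ℝ, 1 ≤ t ∧ z = (t : ℂ) * s} with hV
    have hVS : V ⊆ P.S x := by
      intro z hz
      by_contra hzn
      have hzb : ‖z - s‖ < ε₂ := by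
        have := hz.1
        rwa [Metric.mem_ball, dist_eq_norm] at this
      obtain ⟨t, ht⟩ := hline z (hzb.trans_le hle1) hzn
      have ht1 : t < 1 := by
        by_contra h
        exact hz.2 ⟨t, not_lt.1 h, ht⟩
      rcases le_or_gt 0 t with h0 | h0
      · exact hzn (ht ▸ hsr t ⟨h0, ht1⟩)
      · have h1 : ‖z - s‖ = (1 - t) * ‖s‖ := by
          have : z - s = ((t - 1 : ℝ) : ℂ) * s := by rw [ht]; push_cast; ring
          rw [this, norm_mul, Complex.norm_real, Real.norm_eq_abs, abs_of_neg (by linarith)]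
          ring
        rw [h1] at hzb
        nlinarith
    set η : ℝ := ε₂ / (2 * ‖s‖) with hη
    have hη0 : 0 < η := by positivity
    have hηs : η * ‖s‖ < ε₂ := by
      have : η * ‖s‖ = ε₂ / 2 := by rw [hη]; field_simp
      rw [this]; linarith
    have hstar := PERS_.star_V hs0 (ε := ε₂) hη0 hηs
    have hVne : ((1 - η : ℝ) : ℂ) * s ∈ V := by
      refine ⟨?_, ?_⟩
      · rw [Metric.mem_ball, dist_eq_norm]
        have : ((1 - η : ℝ) : ℂ) * s - s = ((-η : ℝ) : ℂ) * s := by push_cast; ring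
        rw [this, norm_mul, Complex.norm_real, Real.norm_eq_abs, abs_neg, abs_of_pos hη0]
        exact hηs
      · rintro ⟨t, ht, hts⟩
        have h1 : ((1 - η : ℝ) : ℂ) = (t : ℂ) := mul_right_cancel₀ hs0 hts
        have h2 : 1 - η = t := by exact_mod_cast h1
        linarith
    have hVc : IsPreconnected V := (hstar.isPathConnected hVne).isConnected.isPreconnected
    -- the two sections over V
    have hφc : ContinuousOn (fun z => P.sec x' (ρ z)) V := by
      apply F'.diff.continuousOn.comp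
      · intro z hz
        have hz2 : z ∈ Metric.ball s ε₁ := Metric.ball_subset_ball hle2 hz.1
        apply ContinuousAt.continuousWithinAt
        apply ContinuousAt.div
        · fun_prop
        · fun_prop
        · exact mul_ne_zero hcc (hball z hz2).1
      · intro z hz
        exact (hball z (Metric.ball_subset_ball hle2 hz.1)).2
    have hφe : ∀ z ∈ V, P.B x (P.sec x' (ρ z)) = z * P.A x (P.sec x' (ρ z)) := by
      intro z hz
      have hz2 := hball z (Metric.ball_subset_ball hle2 hz.1)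
      refine PERS_.bwd hxx ?_ (F'.eq _ hz2.2)
      show c * (z - w') = c * (z - w') / (conj c * (1 + conj w' * z)) * (conj c * (1 + conj w' * z))
      rw [div_mul_cancel₀ _ (mul_ne_zero hcc hz2.1)]
    -- a point where they agree
    have harcc : Tendsto (fun t : ℝ => num t / den t) (𝓝[<] 1) (𝓝 s) := by
      have h1 : ContinuousAt (fun t : ℝ => num t / den t) 1 := by
        apply ContinuousAt.div
        · fun_prop
        · fun_prop
        · simp only [hden]
          push_cast
          rw [sub_self, zero_mul, zero_add, one_mul]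
          exact PERS_.one_add_ne w'
      have h2 : num 1 / den 1 = s := by
        simp only [hnum, hden]
        push_cast
        rw [sub_self, zero_mul, zero_mul, zero_add, zero_add, one_mul,
          mul_div_cancel_left₀ _ (PERS_.one_add_ne w')]
      have h3 : Tendsto (fun t : ℝ => num t / den t) (𝓝 1) (𝓝 (num 1 / den 1)) := h1
      rw [h2] at h3
      exact h3.mono_left nhdsWithin_le_nhds
    have hev2 : ∀ᶠ t : ℝ in 𝓝[<] 1, num t / den t ∈ Metric.ball s ε₂ ∧ t ∈ Ico (0 : ℝ) 1 := by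
      apply Filter.Eventually.and
      · exact harcc.eventually_mem (Metric.ball_mem_nhds s hε₂0)
      · exact Ico_mem_nhdsLT one_pos
    obtain ⟨t₀, ht₀b, ht₀⟩ := hev2.exists
    have hagree : num t₀ / den t₀ ∈ V := by
      refine ⟨ht₀b, ?_⟩
      rintro ⟨r, hr, hrs⟩
      have h1 : num t₀ / den t₀ ∈ P.S x := (harc t₀ ht₀).2
      have hr0 : (0 : ℝ) < r := by linarith
      have h2 := F.star _ h1 (1 / r) ⟨by positivity, by rw [div_le_one hr0]; exact hr⟩
      rw [hrs] at h2
      apply hsn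
      have h3 : (((1 / r : ℝ)) : ℂ) * ((r : ℂ) * s) = s := by
        have : (r : ℂ) ≠ 0 := by exact_mod_cast hr0.ne'
        push_cast
        field_simp
      rwa [h3] at h2
    have hval : P.sec x (num t₀ / den t₀) = P.sec x' (ρ (num t₀ / den t₀)) := by
      have h1 : ρ (num t₀ / den t₀) = (t₀ : ℂ) * s' := by
        have h2 := hrel _ (hEne t₀ ht₀)
        rw [hRt t₀ ht₀] at h2
        have h3 := (hball _ (Metric.ball_subset_ball hle2 hagree.1)).1
        show c * (num t₀ / den t₀ - w') / (conj c * (1 + conj w' * (num t₀ / den t₀))) = _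
        rw [h2, mul_div_assoc, div_self (mul_ne_zero hcc h3), mul_one]
      rw [h1]
      exact (hlift t₀ ht₀).2.symm
    have hEq := hUNI P x V (P.sec x) (fun z => P.sec x' (ρ z)) hVc (F.diff.continuousOn.mono hVS) hφc
      (fun w hw => F.eq w (hVS hw)) hφe ⟨_, hagree, hval⟩
    -- blow up
    have hbl := F.blow s hsn hsr
    have hlim : Tendsto (fun t : ℝ => ‖P.sec x' (ρ ((t : ℂ) * s))‖) (𝓝[<] 1)
        (𝓝 ‖P.sec x' (ρ s)‖) := by
      have h1 : Tendsto (fun t : ℝ => (t : ℂ) * s) (𝓝[<] 1) (𝓝 s) := by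
        have : Tendsto (fun t : ℝ => (t : ℂ) * s) (𝓝 1) (𝓝 (((1 : ℝ) : ℂ) * s)) := by
          apply Continuous.tendsto
          fun_prop
        rw [Complex.ofReal_one, one_mul] at this
        exact this.mono_left nhdsWithin_le_nhds
      have h2 : ContinuousAt (P.sec x') (ρ s) :=
        (F'.diff.differentiableAt (F'.isOpen.mem_nhds hmem)).continuousAt
      exact ((h2.comp hρc).norm.tendsto.comp h1)
    have hev3 : ∀ᶠ t : ℝ in 𝓝[<] 1, ‖P.sec x' (ρ ((t : ℂ) * s))‖ = ‖P.sec x ((t : ℂ) * s)‖ := by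
      have h1 : ∀ᶠ t : ℝ in 𝓝[<] 1, (t : ℂ) * s ∈ Metric.ball s ε₂ := by
        have h1 : Tendsto (fun t : ℝ => (t : ℂ) * s) (𝓝[<] 1) (𝓝 s) := by
          have : Tendsto (fun t : ℝ => (t : ℂ) * s) (𝓝 1) (𝓝 (((1 : ℝ) : ℂ) * s)) := by
            apply Continuous.tendsto
            fun_prop
          rw [Complex.ofReal_one, one_mul] at this
          exact this.mono_left nhdsWithin_le_nhds
        exact h1.eventually_mem (Metric.ball_mem_nhds s hε₂0)
      filter_upwards [h1, self_mem_nhdsWithin] with t ht ht1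
      have : (t : ℂ) * s ∈ V := by
        refine ⟨ht, ?_⟩
        rintro ⟨r, hr, hrs⟩
        have h2 : (t : ℂ) = (r : ℂ) := mul_right_cancel₀ hs0 hrs
        have h3 : t = r := by exact_mod_cast h2
        have h4 : t < 1 := ht1
        linarith
      rw [hEq this]
    exact not_tendsto_nhds_of_tendsto_atTop (hbl.congr' (hev3.mono fun t ht => ht.symm)) _ hlim
  · intro t ht
    rw [hs']
    exact (hlift t ht).1

end Pool.Agent.Liou
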