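import Pool.Agent.Liou.Targets

/-! Radial solutions of the Liouville equation are bubbles. -/

set_option autoImplicit false

open Complex ComplexConjugate Set Filter Topology

namespace Pool.Agent.Liou

namespace RADB_

/-- the Wirtinger derivative of a function composed with a rotation about `x₀` -/
theorem wz_comp_rot {g : ℂ → ℂ} (hg : Differentiable ℝ g) (x₀ ω : ℂ) (z : ℂ) :
    wz (fun ζ => g (x₀ + ω * (ζ - x₀))) z = ω * wz g (x₀ + ω * (z - x₀)) := by
  have hR : HasFDerivAt (fun ζ : ℂ => x₀ + ω * (ζ - x₀))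
      (ω • (ContinuousLinearMap.id ℝ ℂ)) z := by
    exact (((hasFDerivAt_id (𝕜 := ℝ) z).sub_const x₀).const_mul ω).const_add x₀
  have hc : HasFDerivAt (fun ζ => g (x₀ + ω * (ζ - x₀)))
      ((fderiv ℝ g (x₀ + ω * (z - x₀))).comp (ω • (ContinuousLinearMap.id ℝ ℂ))) z :=
    HasFDerivAt.comp z (hg _).hasFDerivAt hR
  unfold wz
  rw [hc.fderiv]
  set L := fderiv ℝ g (x₀ + ω * (z - x₀)) with hL
  have hlin : ∀ v : ℂ, L v = (v.re : ℂ) * L 1 + (v.im : ℂ) * L I := by
    intro v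
    have h1 : v = v.re • (1 : ℂ) + v.im • I := by
      rw [Complex.real_smul, Complex.real_smul, mul_one, Complex.re_add_im]
    conv_lhs => rw [h1]
    rw [map_add, map_smul, map_smul, Complex.real_smul, Complex.real_smul]
  have e1 : (L.comp (ω • (ContinuousLinearMap.id ℝ ℂ))) 1 = L ω := by
    simp
  have e2 : (L.comp (ω • (ContinuousLinearMap.id ℝ ℂ))) I = L (ω * I) := by
    simp
  rw [e1, e2, hlin ω, hlin (ω * I)]
  have r1 : (ω * I).re = -ω.im := by simp
  have r2 : (ω * I).im = ω.re := by simp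
  rw [r1, r2]
  push_cast
  have hω : ω = (ω.re : ℂ) + (ω.im : ℂ) * I := (Complex.re_add_im ω).symm
  have hI : I * I = -1 := Complex.I_mul_I
  conv_rhs => rw [hω]
  linear_combination (ω.im * L I / 2 : ℂ) * hI

theorem wz_const_mul {g : ℂ → ℂ} (hg : Differentiable ℝ g) (c z : ℂ) :
    wz (fun ζ => c * g ζ) z = c * wz g z := by
  unfold wz
  rw [fderiv_const_mul (hg z) c]
  simp only [FunLike.coe_smul, Pi.smul_apply, smul_eq_mul]
  ring

theorem wz_contDiff {g : ℂ → ℂ} {n : ℕ} (hg : ContDiff ℝ (n + 1) g) : ContDiff ℝ n (wz g) := by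
  have h1 : ContDiff ℝ n (fderiv ℝ g) := hg.fderiv_right le_rfl
  unfold wz
  exact ((h1.clm_apply contDiff_const).sub
    (contDiff_const.mul (h1.clm_apply contDiff_const))).div_const 2

theorem schw_rot {u : ℂ → ℝ} (hu : ContDiff ℝ 2 u) {x₀ ω : ℂ}
    (hr : ∀ z, u (x₀ + ω * (z - x₀)) = u z) (z : ℂ) :
    schw u z = ω ^ 2 * schw u (x₀ + ω * (z - x₀)) := by
  set U : ℂ → ℂ := fun ζ => (u ζ : ℂ) with hU
  have hU2 : ContDiff ℝ ((1 : ℕ) + 1) U := by
    have : ContDiff ℝ 2 U := Complex.ofRealCLM.contDiff.comp hu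
    exact_mod_cast this
  have hUd : Differentiable ℝ U := hU2.differentiable (by simp)
  have hW1 : ContDiff ℝ (1 : ℕ) (wz U) := wz_contDiff hU2
  have hWd : Differentiable ℝ (wz U) := hW1.differentiable (by simp)
  have h1 : ∀ z, wz U z = ω * wz U (x₀ + ω * (z - x₀)) := by
    intro z
    rw [← wz_comp_rot hUd x₀ ω z]
    congr 1
    funext ζ
    simp only [hU]
    rw [hr ζ]
  have hWR : Differentiable ℝ (fun ζ => wz U (x₀ + ω * (ζ - x₀))) := by
    refine hWd.comp ?_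
    exact ((differentiable_id.sub_const x₀).const_mul ω).const_add x₀
  have h2 : wz (wz U) z = ω ^ 2 * wz (wz U) (x₀ + ω * (z - x₀)) := by
    have e : wz U = fun ζ => ω * wz U (x₀ + ω * (ζ - x₀)) := funext h1
    conv_lhs => rw [e]
    rw [wz_const_mul hWR, wz_comp_rot hWd x₀ ω z]
    ring
  have h3 : schw u z = wz (wz U) z - wz U z ^ 2 := rfl
  have h4 : schw u (x₀ + ω * (z - x₀)) =
      wz (wz U) (x₀ + ω * (z - x₀)) - wz U (x₀ + ω * (z - x₀)) ^ 2 := rfl
  rw [h3, h4, h2, h1 z]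
  ring

/-- an entire function which transforms like a quadratic differential invariant under all rotations
vanishes -/
theorem eq_zero_of_rot {T : ℂ → ℂ} (hT : Differentiable ℂ T) {x₀ : ℂ}
    (h : ∀ ω : ℂ, ‖ω‖ = 1 → ∀ z, T z = ω ^ 2 * T (x₀ + ω * (z - x₀))) (z : ℂ) : T z = 0 := by
  let G : ℂ → ℂ := fun z => (z - x₀) ^ 2 * T z
  have hG : Differentiable ℂ G := ((differentiable_id.sub_const x₀).pow 2).mul hT
  have hrot : ∀ ω : ℂ, ‖ω‖ = 1 → ∀ z, G (x₀ + ω * (z - x₀)) = G z := by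
    intro ω hω z
    show (x₀ + ω * (z - x₀) - x₀) ^ 2 * T (x₀ + ω * (z - x₀)) = (z - x₀) ^ 2 * T z
    rw [h ω hω z]
    ring
  have hderiv : ∀ z, deriv G z = 0 := by
    intro z
    by_cases hz : z = x₀
    · rw [hz]
      have h1 : HasDerivAt (fun z : ℂ => (z - x₀) ^ 2) ((2 : ℕ) * (x₀ - x₀) ^ (2 - 1) * 1) x₀ :=
        ((hasDerivAt_id x₀).sub_const x₀).pow 2
      have h2 := h1.mul (hT x₀).hasDerivAt
      have h3 : deriv G x₀ = _ := h2.deriv
      rw [h3]; simp
    · have h1 : HasDerivAt (fun t : ℝ => x₀ + Complex.exp ((t : ℂ) * I) * (z - x₀))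
          (I * (z - x₀)) 0 := by
        have h2 : HasDerivAt (fun t : ℝ => (t : ℂ) * I) (1 * I) 0 :=
          (Complex.ofRealCLM.hasDerivAt).mul_const I
        have h3 : HasDerivAt (fun t : ℝ => Complex.exp ((t : ℂ) * I))
            (Complex.exp (((0 : ℝ) : ℂ) * I) * (1 * I)) 0 := h2.cexp
        have h4 := (h3.mul_const (z - x₀)).const_add x₀
        simpa using h4
      have h0 : x₀ + Complex.exp (((0 : ℝ) : ℂ) * I) * (z - x₀) = z := by simp
      have h5 : HasDerivAt G (deriv G z) (x₀ + Complex.exp (((0 : ℝ) : ℂ) * I) * (z - x₀)) := by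
        rw [h0]; exact (hG z).hasDerivAt
      have h6 := h5.comp (0 : ℝ) h1
      have h7 : (G ∘ fun t : ℝ => x₀ + Complex.exp ((t : ℂ) * I) * (z - x₀)) = fun _ => G z := by
        funext t
        exact hrot _ (Complex.norm_exp_ofReal_mul_I t) z
      rw [h7] at h6
      have h8 := h6.unique (hasDerivAt_const (0 : ℝ) (G z))
      exact (mul_eq_zero.1 h8).resolve_right (mul_ne_zero I_ne_zero (sub_ne_zero.2 hz))
  have hconst : ∀ z, G z = 0 := by
    intro z
    have h1 := is_const_of_deriv_eq_zero hG hderiv z x₀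
    rw [h1]
    show (x₀ - x₀) ^ 2 * T x₀ = 0
    simp
  have hne : EqOn T (fun _ => 0) {x₀}ᶜ := by
    intro z hz
    have h1 : (z - x₀) ^ 2 * T z = 0 := hconst z
    exact (mul_eq_zero.1 h1).resolve_left (pow_ne_zero 2 (sub_ne_zero.2 hz))
  exact congrFun (Continuous.ext_on (dense_compl_singleton x₀) hT.continuous continuous_const hne) z

theorem affine_of_deriv2 {a : ℂ → ℂ} (ha : Differentiable ℂ a)
    (h2 : ∀ z, deriv (deriv a) z = 0) (x₀ z : ℂ) :
    a z = a x₀ + deriv a x₀ * (z - x₀) ∧ deriv a z = deriv a x₀ := by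
  have hda : Differentiable ℂ (deriv a) := ha.deriv
  have h1 : ∀ z, deriv a z = deriv a x₀ := fun z => is_const_of_deriv_eq_zero hda h2 z x₀
  refine ⟨?_, h1 z⟩
  let G : ℂ → ℂ := fun z => a z - deriv a x₀ * (z - x₀)
  have hG : Differentiable ℂ G := ha.sub ((differentiable_id.sub_const x₀).const_mul _)
  have hG' : ∀ z, deriv G z = 0 := by
    intro z
    have h3 : HasDerivAt G (deriv a z - deriv a x₀ * 1) z :=
      (ha z).hasDerivAt.sub (((hasDerivAt_id z).sub_const x₀).const_mul _)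
    rw [h3.deriv, h1 z]; ring
  have h4 := is_const_of_deriv_eq_zero hG hG' z x₀
  have h5 : a z - deriv a x₀ * (z - x₀) = a x₀ - deriv a x₀ * (x₀ - x₀) := h4
  linear_combination h5

end RADB_

theorem p_RADB (h1 : T_HOL) (h2 : T_DEV) : T_RADB := by
  intro u hu hrad
  obtain ⟨x₀, φ, hφ⟩ := hrad
  have hT : Differentiable ℂ (schw u) := h1 u hu
  have hT0 : ∀ z, schw u z = 0 := by
    refine RADB_.eq_zero_of_rot hT (x₀ := x₀) ?_
    intro ω hω z
    refine RADB_.schw_rot hu.smooth ?_ z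
    intro z
    rw [hφ, hφ]
    congr 1
    rw [add_sub_cancel_left, norm_mul, hω, one_mul]
  obtain ⟨P, hN, ha2, hb2⟩ := h2 u hu
  have ha2' : ∀ z, deriv (deriv P.a) z = 0 := by
    intro z; rw [ha2, hT0]; ring
  have hb2' : ∀ z, deriv (deriv P.b) z = 0 := by
    intro z; rw [hb2, hT0]; ring
  set α₀ := P.a x₀
  set α₁ := deriv P.a x₀
  set β₀ := P.b x₀
  set β₁ := deriv P.b x₀
  have hwr : α₀ * β₁ - α₁ * β₀ = 1 := P.wr x₀
  have haz : ∀ ζ, P.a (x₀ + ζ) = α₀ + α₁ * ζ := by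
    intro ζ
    have := (RADB_.affine_of_deriv2 P.da ha2' x₀ (x₀ + ζ)).1
    rwa [add_sub_cancel_left] at this
  have hbz : ∀ ζ, P.b (x₀ + ζ) = β₀ + β₁ * ζ := by
    intro ζ
    have := (RADB_.affine_of_deriv2 P.db hb2' x₀ (x₀ + ζ)).1
    rwa [add_sub_cancel_left] at this
  set n₀ : ℝ := ‖α₀‖ ^ 2 + ‖β₀‖ ^ 2 with hn₀
  set n₁ : ℝ := ‖α₁‖ ^ 2 + ‖β₁‖ ^ 2 with hn₁
  set k : ℂ := conj α₀ * α₁ + conj β₀ * β₁ with hk
  have hNz : ∀ ζ, P.N (x₀ + ζ) = n₀ + 2 * (k * ζ).re + n₁ * ‖ζ‖ ^ 2 := by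
    intro ζ
    unfold Pair.N
    rw [haz, hbz]
    have e : ∀ p q : ℂ, ‖p + q * ζ‖ ^ 2 = ‖p‖ ^ 2 + 2 * (conj p * q * ζ).re + ‖q‖ ^ 2 * ‖ζ‖ ^ 2 := by
      intro p q
      rw [← Complex.normSq_eq_norm_sq, ← Complex.normSq_eq_norm_sq, ← Complex.normSq_eq_norm_sq,
        ← Complex.normSq_eq_norm_sq, Complex.normSq_add, Complex.normSq_mul]
      have : (p * conj (q * ζ)).re = (conj p * q * ζ).re := by
        rw [← Complex.conj_re (conj p * q * ζ)]
        congr 1
        simp only [map_mul, Complex.conj_conj]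
        ring
      rw [this]; ring
    rw [e, e, hk, add_mul, Complex.add_re]
    ring
  have hsym : ∀ ζ, P.N (x₀ + ζ) = P.N (x₀ + -ζ) := by
    intro ζ
    have e1 : u (x₀ + ζ) = u (x₀ + -ζ) := by
      rw [hφ, hφ, add_sub_cancel_left, add_sub_cancel_left, norm_neg]
    have e2 := hN (x₀ + ζ)
    have e3 := hN (x₀ + -ζ)
    rw [e1] at e2
    linarith
  have hk0 : k = 0 := by
    have e1 := hsym (conj k)
    rw [hNz, hNz, norm_neg, mul_neg, Complex.neg_re] at e1
    have e2 : (k * conj k).re = 0 := by linarith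
    rw [Complex.mul_conj, Complex.ofReal_re] at e2
    exact Complex.normSq_eq_zero.1 e2
  have hprod : n₀ * n₁ = 1 := by
    have e1 : ((n₀ * n₁ : ℝ) : ℂ) = conj k * k +
        conj (α₀ * β₁ - α₁ * β₀) * (α₀ * β₁ - α₁ * β₀) := by
      rw [hn₀, hn₁, hk]
      push_cast
      rw [← Complex.conj_mul', ← Complex.conj_mul', ← Complex.conj_mul', ← Complex.conj_mul']
      simp only [map_add, map_sub, map_mul, Complex.conj_conj]
      ring
    rw [hk0, hwr] at e1
    simp only [map_zero, map_one, mul_zero, zero_add, mul_one] at e1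
    exact_mod_cast e1
  have hn₀' : 0 < n₀ := P.N_pos x₀
  have hn₁' : 0 < n₁ := by
    by_contra hneg
    push Not at hneg
    nlinarith
  refine ⟨x₀, n₁, hn₁', fun z => ?_⟩
  have e1 := hNz (z - x₀)
  rw [add_sub_cancel, hk0, zero_mul, Complex.zero_re] at e1
  rw [hN z, e1]
  field_simp
  linear_combination hprod

end Pool.Agent.Liou
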