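import Pool.Agent.Liou.Targets

/-! # LIOU-SEC: the star domain and the section of the developing map -/

set_option autoImplicit false

open Complex ComplexConjugate Set Filter Topology

namespace Pool.Agent.Liou

namespace SEC_

variable (P : Pair)

/-- the developing map in the frame at `x` -/
noncomputable def f (x z : ℂ) : ℂ := P.B x z / P.A x z

theorem f_strict {x m : ℂ} (h : P.A x m ≠ 0) : HasStrictDerivAt (f P x) ((P.A x m ^ 2)⁻¹) m := by
  have hA : HasStrictDerivAt (P.A x) (deriv (P.A x) m) m :=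
    ((P.diff_A x).analyticAt m).hasStrictDerivAt
  have hB : HasStrictDerivAt (P.B x) (deriv (P.B x) m) m :=
    ((P.diff_B x).analyticAt m).hasStrictDerivAt
  have h1 := hB.div hA h
  have h2 : (deriv (P.B x) m * P.A x m - P.B x m * deriv (P.A x) m) / P.A x m ^ 2 =
      (P.A x m ^ 2)⁻¹ := by
    rw [inv_eq_one_div]
    congr 1
    linear_combination P.wrAB x m
  rw [h2] at h1
  exact h1

theorem f_eq {x m w : ℂ} (h : P.B x m = w * P.A x m) : f P x m = w := by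
  unfold f
  rw [h, mul_div_cancel_right₀ _ (P.A_ne_of_eq h)]

theorem of_f_eq {x m w : ℂ} (h0 : P.A x m ≠ 0) (h : f P x m = w) : P.B x m = w * P.A x m := by
  rw [← h]
  unfold f
  rw [div_mul_cancel₀ _ h0]

/-- local inverse of the developing map -/
theorem local_inv {x m w : ℂ} (h : P.B x m = w * P.A x m) :
    ∃ ε > 0, ∃ η : ℂ → ℂ, ContinuousOn η (Metric.ball w ε) ∧ η w = m ∧
      (∀ ζ ∈ Metric.ball w ε, P.B x (η ζ) = ζ * P.A x (η ζ)) ∧
      ∃ V ∈ 𝓝 m, ∀ z ∈ V, ∀ ζ ∈ Metric.ball w ε, P.B x z = ζ * P.A x z → η ζ = z := by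
  have hA := P.A_ne_of_eq h
  have hf := f_strict P hA
  have hf' : (P.A x m ^ 2)⁻¹ ≠ 0 := inv_ne_zero (pow_ne_zero 2 hA)
  have hfw := f_eq P h
  set e := (hf.hasStrictFDerivAt_equiv hf').toOpenPartialHomeomorph (f P x) with he
  have hcoe : ∀ z, e z = f P x z := fun z => rfl
  have hms : m ∈ e.source := (hf.hasStrictFDerivAt_equiv hf').mem_toOpenPartialHomeomorph_source
  have hwt : w ∈ e.target := by
    rw [← hfw]
    exact e.map_source hms
  have hsw : e.symm w = m := by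
    rw [← hfw]
    exact e.left_inv hms
  have hcA : Continuous (P.A x) := (P.diff_A x).continuous
  have hO : ∀ᶠ ζ in 𝓝 w, ζ ∈ e.target ∧ P.A x (e.symm ζ) ≠ 0 := by
    refine (e.open_target.mem_nhds hwt |> Filter.Eventually.and <| ?_)
    have h1 : ContinuousAt (fun ζ => P.A x (e.symm ζ)) w :=
      hcA.continuousAt.comp (e.continuousAt_symm hwt)
    apply h1.eventually_ne
    rw [hsw]
    exact hA
  obtain ⟨ε, hε, hball⟩ := Metric.eventually_nhds_iff_ball.1 hO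
  refine ⟨ε, hε, e.symm, ?_, hsw, ?_, e.source ∩ {z | P.A x z ≠ 0}, ?_, ?_⟩
  · exact e.continuousOn_symm.mono fun ζ hζ => (hball ζ hζ).1
  · intro ζ hζ
    obtain ⟨h1, h2⟩ := hball ζ hζ
    apply of_f_eq P h2
    rw [← hcoe]
    exact e.right_inv h1
  · exact Filter.inter_mem (e.open_source.mem_nhds hms)
      (hcA.continuousAt.eventually_ne hA)
  · intro z hz ζ hζ hzζ
    have h1 : e z = ζ := by
      rw [hcoe]
      exact f_eq P hzζ
    rw [← h1]
    exact e.left_inv hz.1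

theorem p_UNI' : T_UNI := by
  intro P x K φ₁ φ₂ hK h1 h2 e1 e2 ⟨w0, hw0, hw0e⟩
  have hKc : PreconnectedSpace K := isPreconnected_iff_preconnectedSpace.1 hK
  have c1 : Continuous (fun w : K => φ₁ w) := continuousOn_iff_continuous_domRestrict.1 h1
  have c2 : Continuous (fun w : K => φ₂ w) := continuousOn_iff_continuous_domRestrict.1 h2
  have hcl : IsClosed {w : K | φ₁ w = φ₂ w} := isClosed_eq c1 c2
  have hop : IsOpen {w : K | φ₁ w = φ₂ w} := by
    rw [isOpen_iff_mem_nhds]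
    rintro w hw
    have hw' : φ₁ w = φ₂ w := hw
    obtain ⟨ε, hε, η, _, _, _, V, hV, hη⟩ := local_inv P (e1 w w.2)
    have hb : Metric.ball (w : ℂ) ε ∈ 𝓝 (w : ℂ) := Metric.ball_mem_nhds _ hε
    have a1 : ∀ᶠ w' : K in 𝓝 w, φ₁ w' ∈ V := c1.continuousAt hV
    have a2 : ∀ᶠ w' : K in 𝓝 w, φ₂ w' ∈ V := c2.continuousAt (by rw [← hw']; exact hV)
    have a3 : ∀ᶠ w' : K in 𝓝 w, (w' : ℂ) ∈ Metric.ball (w : ℂ) ε :=
      continuous_subtype_val.continuousAt hb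
    filter_upwards [a1, a2, a3] with w' b1 b2 b3
    have d1 := hη _ b1 _ b3 (e1 w' w'.2)
    have d2 := hη _ b2 _ b3 (e2 w' w'.2)
    exact d1.symm.trans d2
  have huniv := IsClopen.eq_univ ⟨hcl, hop⟩ ⟨⟨w0, hw0⟩, hw0e⟩
  intro w hw
  have : (⟨w, hw⟩ : K) ∈ {w : K | φ₁ w = φ₂ w} := by
    rw [huniv]; trivial
  exact this

/-- a continuous section over an open set is holomorphic -/
theorem section_deriv {x : ℂ} {Ω : Set ℂ} {φ : ℂ → ℂ} (hΩ : IsOpen Ω) (hφ : ContinuousOn φ Ω)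
    (he : ∀ w ∈ Ω, P.B x (φ w) = w * P.A x (φ w)) {w : ℂ} (hw : w ∈ Ω) :
    HasDerivAt φ (P.A x (φ w) ^ 2) w := by
  have hA := P.A_ne_of_eq (he w hw)
  have hf' : (P.A x (φ w) ^ 2)⁻¹ ≠ 0 := inv_ne_zero (pow_ne_zero 2 hA)
  have h1 : HasDerivAt φ ((P.A x (φ w) ^ 2)⁻¹)⁻¹ w :=
    HasDerivAt.of_local_left_inverse (hφ.continuousAt (hΩ.mem_nhds hw))
      (f_strict P hA).hasDerivAt hf'
      (by
        filter_upwards [hΩ.mem_nhds hw] with w' hw'
        exact f_eq P (he w' hw'))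
  rwa [inv_inv] at h1

/-- `sec` is given by every pair `(U, ψ)` as in `Reach` -/
theorem sec_eq {x : ℂ} {U : Set ℂ} {ψ : ℂ → ℂ} (hU : IsOpen U) (hc : Convex ℝ U)
    (h0 : (0 : ℂ) ∈ U) (hψ : ContinuousOn ψ U) (hψ0 : ψ 0 = x)
    (he : ∀ ζ ∈ U, P.B x (ψ ζ) = ζ * P.A x (ψ ζ)) : U ⊆ P.S x ∧ EqOn ψ (P.sec x) U := by
  have hUS : U ⊆ P.S x := fun w hw => ⟨U, ψ, hU, hc, h0, hw, hψ, hψ0, he⟩
  refine ⟨hUS, fun w hw => ?_⟩
  have hR : P.Reach x w := hUS hw
  unfold Pair.sec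
  rw [dif_pos hR]
  obtain ⟨a1, a2, a3, a4, a5, a6, a7⟩ := Classical.choose_spec (Classical.choose_spec hR)
  exact p_UNI' P x (U ∩ Classical.choose hR) ψ (Classical.choose (Classical.choose_spec hR))
    (hc.inter a2).isPreconnected (hψ.mono inter_subset_left) (a5.mono inter_subset_right)
    (fun w hw => he w hw.1) (fun w hw => a7 w hw.2) ⟨0, ⟨h0, a3⟩, by rw [hψ0, a6]⟩ ⟨hw, a4⟩

theorem S_nhd {x w : ℂ} (hw : w ∈ P.S x) : ∃ (U : Set ℂ), IsOpen U ∧ Convex ℝ U ∧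
    (0 : ℂ) ∈ U ∧ w ∈ U ∧ U ⊆ P.S x ∧ ContinuousOn (P.sec x) U ∧ P.sec x 0 = x ∧
    ∀ ζ ∈ U, P.B x (P.sec x ζ) = ζ * P.A x (P.sec x ζ) := by
  obtain ⟨U, ψ, hU, hc, h0, hwU, hψ, hψ0, he⟩ := hw
  obtain ⟨h1, h2⟩ := sec_eq P hU hc h0 hψ hψ0 he
  refine ⟨U, hU, hc, h0, hwU, h1, hψ.congr fun ζ hζ => (h2 hζ).symm, ?_, ?_⟩
  · rw [← h2 h0, hψ0]
  · intro ζ hζ
    rw [← h2 hζ]
    exact he ζ hζ

theorem isOpen_S (x : ℂ) : IsOpen (P.S x) := by
  rw [isOpen_iff_mem_nhds]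
  intro w hw
  obtain ⟨U, hU, _, _, hwU, hUS, _⟩ := S_nhd P hw
  exact Filter.mem_of_superset (hU.mem_nhds hwU) hUS

theorem zero_mem_S (x : ℂ) : (0 : ℂ) ∈ P.S x := by
  have h : P.B x x = 0 * P.A x x := by rw [P.B_self, zero_mul]
  obtain ⟨ε, hε, η, h1, h2, h3, _⟩ := local_inv P h
  exact ⟨Metric.ball 0 ε, η, Metric.isOpen_ball, convex_ball _ _, Metric.mem_ball_self hε,
    Metric.mem_ball_self hε, h1, h2, h3⟩

theorem star_S {x w : ℂ} (hw : w ∈ P.S x) {t : ℝ} (ht : t ∈ Icc (0 : ℝ) 1) :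
    (t : ℂ) * w ∈ P.S x := by
  obtain ⟨U, _, hc, h0, hwU, hUS, _⟩ := S_nhd P hw
  apply hUS
  have h1 := hc.smul_mem_of_zero_mem h0 hwU ht
  rwa [Complex.real_smul] at h1

theorem contOn_sec (x : ℂ) : ContinuousOn (P.sec x) (P.S x) := by
  intro w hw
  obtain ⟨U, hU, _, _, hwU, _, hcont, _⟩ := S_nhd P hw
  exact (hcont.continuousAt (hU.mem_nhds hwU)).continuousWithinAt

theorem sec_zero (x : ℂ) : P.sec x 0 = x := by
  obtain ⟨U, hU, _, _, hwU, _, _, h, _⟩ := S_nhd P (zero_mem_S P x)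
  exact h

theorem sec_spec {x w : ℂ} (hw : w ∈ P.S x) : P.B x (P.sec x w) = w * P.A x (P.sec x w) := by
  obtain ⟨U, hU, _, _, hwU, _, _, _, h⟩ := S_nhd P hw
  exact h w hwU

theorem sec_hasDerivAt {x w : ℂ} (hw : w ∈ P.S x) :
    HasDerivAt (P.sec x) (P.A x (P.sec x w) ^ 2) w :=
  section_deriv P (isOpen_S P x) (contOn_sec P x) (fun _ h => sec_spec P h) hw

theorem mem_segment_iff {w y : ℂ} : y ∈ segment ℝ (0 : ℂ) w ↔ ∃ t ∈ Icc (0 : ℝ) 1, y = (t : ℂ) * w := by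
  rw [segment_eq_image]
  constructor
  · rintro ⟨t, ht, rfl⟩
    refine ⟨t, ht, ?_⟩
    simp only [smul_zero, zero_add, Complex.real_smul]
  · rintro ⟨t, ht, rfl⟩
    refine ⟨t, ht, ?_⟩
    simp only [smul_zero, zero_add, Complex.real_smul]

theorem isCompact_segment (w : ℂ) : IsCompact (segment ℝ (0 : ℂ) w) := by
  rw [segment_eq_image]
  exact isCompact_Icc.image (by fun_prop)

theorem p_STAR' : T_STAR := by
  intro P x Ω φ hΩ hst h0 hφ hφ0 he
  have key : ∀ w ∈ Ω, w ∈ P.S x ∧ φ w = P.sec x w := by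
    intro w hw
    have hseg : segment ℝ (0 : ℂ) w ⊆ Ω := hst.segment_subset hw
    obtain ⟨δ, hδ, hsub⟩ := (isCompact_segment w).exists_thickening_subset_open hΩ hseg
    have hs := Metric.self_subset_thickening hδ (segment ℝ (0 : ℂ) w)
    have h1 := sec_eq P (x := x) Metric.isOpen_thickening ((convex_segment (0 : ℂ) w).thickening δ)
      (hs (left_mem_segment ℝ 0 w)) (hφ.mono hsub) hφ0 (fun ζ hζ => he ζ (hsub hζ))
    exact ⟨h1.1 (hs (right_mem_segment ℝ 0 w)), h1.2 (hs (right_mem_segment ℝ 0 w))⟩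
  exact ⟨fun w hw => (key w hw).1, fun w hw => (key w hw).2⟩

/-- extension over an end point -/
theorem extend {x w m : ℂ} (hS : ∀ t ∈ Ico (0 : ℝ) 1, (t : ℂ) * w ∈ P.S x)
    (hm : MapClusterPt m (𝓝[<] (1 : ℝ)) (fun t : ℝ => P.sec x ((t : ℂ) * w))) : w ∈ P.S x := by
  -- the end point lies over `w`
  have hBm : P.B x m = w * P.A x m := by
    by_contra hne
    have hF : Continuous (fun q : ℝ × ℂ => P.B x q.2 - (q.1 : ℂ) * w * P.A x q.2) := by
      have hA := (P.diff_A x).continuous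
      have hB := (P.diff_B x).continuous
      fun_prop
    have h1 : ∀ᶠ q : ℝ × ℂ in 𝓝 ((1 : ℝ), m), P.B x q.2 - (q.1 : ℂ) * w * P.A x q.2 ≠ 0 := by
      apply hF.continuousAt.eventually_ne
      simp only [Complex.ofReal_one, one_mul]
      exact sub_ne_zero.2 hne
    rw [nhds_prod_eq] at h1
    obtain ⟨pa, hpa, pb, hpb, hp⟩ := Filter.eventually_prod_iff.1 h1
    have h2 : ∃ᶠ t : ℝ in 𝓝[<] (1 : ℝ), P.sec x ((t : ℂ) * w) ∈ {z | pb z} := hm.frequently hpb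
    have h3 : ∀ᶠ t : ℝ in 𝓝[<] (1 : ℝ), pa t := nhdsWithin_le_nhds hpa
    have h4 : ∀ᶠ t : ℝ in 𝓝[<] (1 : ℝ), t ∈ Ico (0 : ℝ) 1 := by
      filter_upwards [Ioo_mem_nhdsLT (zero_lt_one' ℝ)] with t ht
      exact ⟨ht.1.le, ht.2⟩
    obtain ⟨t, ht1, ht2, ht3⟩ := (h2.and_eventually (h3.and h4)).exists
    exact hp ht2 ht1 (by rw [sec_spec P (hS t ht3), sub_self])
  obtain ⟨ε, hε, η, hη, _, hηe, V, hV, hVη⟩ := local_inv P hBm
  -- a point of the ray where the two sections agree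
  obtain ⟨t₀, ht₀, ht₀w, ht₀V⟩ : ∃ t₀ ∈ Ico (0 : ℝ) 1, (1 - t₀) * ‖w‖ < ε / 2 ∧
      P.sec x ((t₀ : ℂ) * w) ∈ V := by
    have h2 : ∃ᶠ t : ℝ in 𝓝[<] (1 : ℝ), P.sec x ((t : ℂ) * w) ∈ V := hm.frequently hV
    have h3 : ∀ᶠ t : ℝ in 𝓝[<] (1 : ℝ), (1 - t) * ‖w‖ < ε / 2 := by
      apply nhdsWithin_le_nhds
      have hcont : Continuous (fun t : ℝ => (1 - t) * ‖w‖) := by fun_prop
      apply hcont.continuousAt.eventually_lt continuousAt_const
      simp only [sub_self, zero_mul]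
      positivity
    have h4 : ∀ᶠ t : ℝ in 𝓝[<] (1 : ℝ), t ∈ Ico (0 : ℝ) 1 := by
      filter_upwards [Ioo_mem_nhdsLT (zero_lt_one' ℝ)] with t ht
      exact ⟨ht.1.le, ht.2⟩
    obtain ⟨t, ht1, ht2, ht3⟩ := (h2.and_eventually (h3.and h4)).exists
    exact ⟨t, ht3, ht2, ht1⟩
  have hdist : ∀ t ∈ Icc (0 : ℝ) 1, dist ((t : ℂ) * w) w = (1 - t) * ‖w‖ := by
    intro t ht
    rw [dist_comm, dist_eq_norm]
    have : w - (t : ℂ) * w = ((1 - t : ℝ) : ℂ) * w := by push_cast; ring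
    rw [this, norm_mul, Complex.norm_real, Real.norm_eq_abs, abs_of_nonneg (by linarith [ht.2])]
  have ht₀w' : (t₀ : ℂ) * w ∈ Metric.ball w ε := by
    rw [Metric.mem_ball, hdist t₀ ⟨ht₀.1, ht₀.2.le⟩]
    linarith
  have hseg : segment ℝ (0 : ℂ) ((t₀ : ℂ) * w) ⊆ P.S x := by
    intro y hy
    obtain ⟨t, ht, rfl⟩ := mem_segment_iff.1 hy
    exact star_S P (hS t₀ ht₀) ht
  obtain ⟨δ₀, hδ₀, hsub⟩ := (isCompact_segment _).exists_thickening_subset_open
    (isOpen_S P x) hseg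
  set δ := min δ₀ (ε / 2) with hδ
  have hδpos : 0 < δ := lt_min hδ₀ (by positivity)
  set S' := Metric.thickening δ (segment ℝ (0 : ℂ) ((t₀ : ℂ) * w)) with hS'
  have hS'S : S' ⊆ P.S x := (Metric.thickening_mono (min_le_left _ _) _).trans hsub
  have hS'c : Convex ℝ S' := (convex_segment _ _).thickening δ
  have hself := Metric.self_subset_thickening hδpos (segment ℝ (0 : ℂ) ((t₀ : ℂ) * w))
  have hself' := Metric.self_subset_thickening hδpos (segment ℝ (0 : ℂ) w)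
  have h0S' : (0 : ℂ) ∈ S' := hself (left_mem_segment ℝ 0 _)
  have ht₀S' : (t₀ : ℂ) * w ∈ S' := hself (right_mem_segment ℝ 0 _)
  have hagree : EqOn η (P.sec x) (Metric.ball w ε ∩ S') :=
    p_UNI' P x _ η (P.sec x) ((convex_ball w ε).inter hS'c).isPreconnected
      (hη.mono inter_subset_left) ((contOn_sec P x).mono (inter_subset_right.trans hS'S))
      (fun ζ hζ => hηe ζ hζ.1) (fun ζ hζ => sec_spec P (hS'S hζ.2))
      ⟨(t₀ : ℂ) * w, ⟨ht₀w', ht₀S'⟩, hVη _ ht₀V _ ht₀w' (sec_spec P (hS t₀ ht₀))⟩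
  classical
  set ψ : ℂ → ℂ := fun ζ => if ζ ∈ Metric.ball w ε then η ζ else P.sec x ζ with hψ
  have hψ1 : EqOn ψ η (Metric.ball w ε) := by
    intro ζ hζ
    simp only [hψ, hζ, if_true]
  have hψ2 : EqOn ψ (P.sec x) S' := by
    intro ζ hζ
    by_cases h : ζ ∈ Metric.ball w ε
    · rw [hψ1 h]
      exact hagree ⟨h, hζ⟩
    · simp only [hψ, h, if_false]
  have hcover : Metric.thickening δ (segment ℝ (0 : ℂ) w) ⊆ S' ∪ Metric.ball w ε := by
    intro ζ hζ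
    obtain ⟨y, hy, hyζ⟩ := Metric.mem_thickening_iff.1 hζ
    obtain ⟨t, ht, rfl⟩ := mem_segment_iff.1 hy
    by_cases htt : t ≤ t₀
    · left
      refine Metric.mem_thickening_iff.2 ⟨(t : ℂ) * w, ?_, hyζ⟩
      rcases eq_or_lt_of_le ht₀.1 with h0 | h0
      · have : t = 0 := le_antisymm (by linarith) ht.1
        rw [this]
        simp only [Complex.ofReal_zero, zero_mul]
        exact left_mem_segment ℝ 0 _
      · refine mem_segment_iff.2 ⟨t / t₀, ⟨div_nonneg ht.1 h0.le, (div_le_one h0).2 htt⟩, ?_⟩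
        push_cast
        rw [← mul_assoc, div_mul_cancel₀]
        exact_mod_cast h0.ne'
    · right
      rw [Metric.mem_ball]
      have h1 := dist_triangle ζ ((t : ℂ) * w) w
      rw [hdist t ht] at h1
      have h2 : (1 - t) * ‖w‖ ≤ (1 - t₀) * ‖w‖ := by
        apply mul_le_mul_of_nonneg_right _ (norm_nonneg _)
        linarith [not_le.1 htt]
      have h3 : δ ≤ ε / 2 := min_le_right _ _
      linarith
  refine ⟨Metric.thickening δ (segment ℝ (0 : ℂ) w), ψ, Metric.isOpen_thickening,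
    (convex_segment _ _).thickening δ, hself' (left_mem_segment ℝ 0 _),
    hself' (right_mem_segment ℝ 0 _), ?_, ?_, ?_⟩
  · intro ζ hζ
    apply ContinuousAt.continuousWithinAt
    rcases hcover hζ with h | h
    · have h1 : ContinuousAt (P.sec x) ζ :=
        (contOn_sec P x).continuousAt ((isOpen_S P x).mem_nhds (hS'S h))
      exact h1.congr (Filter.eventuallyEq_of_mem (Metric.isOpen_thickening.mem_nhds h)
        hψ2.symm)
    · have h1 : ContinuousAt η ζ := hη.continuousAt (Metric.isOpen_ball.mem_nhds h)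
      exact h1.congr (Filter.eventuallyEq_of_mem (Metric.isOpen_ball.mem_nhds h) hψ1.symm)
  · rw [hψ2 h0S', sec_zero]
  · intro ζ hζ
    rcases hcover hζ with h | h
    · rw [hψ2 h]
      exact sec_spec P (hS'S h)
    · rw [hψ1 h]
      exact hηe ζ h

end SEC_

/-- UNI -/
theorem p_UNI : T_UNI := SEC_.p_UNI'

/-- STAR -/
theorem p_STAR : T_STAR := SEC_.p_STAR'

/-- SEC -/
theorem p_SEC : T_SEC := by
  intro P x
  refine ⟨SEC_.isOpen_S P x, SEC_.zero_mem_S P x, fun w hw t ht => SEC_.star_S P hw ht, ?_,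
    SEC_.sec_zero P x, fun w hw => SEC_.sec_spec P hw, ?_, ?_, ?_⟩
  · intro w hw
    exact (SEC_.sec_hasDerivAt P hw).differentiableAt.differentiableWithinAt
  · intro w hw w' hw' heq
    have h1 := SEC_.sec_spec P hw
    have h2 := SEC_.sec_spec P hw'
    have h3 := P.A_ne_of_eq h1
    rw [heq] at h1 h3
    exact mul_right_cancel₀ h3 (h1.symm.trans h2)
  · intro w hw
    rw [(SEC_.sec_hasDerivAt P hw).deriv]
    exact pow_ne_zero 2 (P.A_ne_of_eq (SEC_.sec_spec P hw))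
  · intro w hw hS
    by_contra hne
    rw [Filter.tendsto_atTop] at hne
    push Not at hne
    obtain ⟨R, hR⟩ := hne
    have hfr : ∃ᶠ t : ℝ in 𝓝[<] (1 : ℝ), P.sec x ((t : ℂ) * w) ∈ Metric.closedBall (0 : ℂ) R := by
      refine hR.mono fun t ht => ?_
      rw [mem_closedBall_zero_iff]
      exact le_of_lt ht
    obtain ⟨m, _, hm⟩ := (isCompact_closedBall (0 : ℂ) R).exists_mapClusterPt_of_frequently hfr
    exact hw (SEC_.extend P hS hm)

end Pool.Agent.Liou
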