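import Pool.Agent.Liou.Targets

/-! SEP: two singular rays separate the plane. -/

set_option autoImplicit false

open Complex ComplexConjugate Set Filter Topology

namespace Pool.Agent.Liou

namespace SEP_

/-- two continuous logarithms of the same function differ by a constant -/
theorem log_diff {X : Type*} [TopologicalSpace X] {K : Set X} (hK : IsPreconnected K)
    {F G : X → ℂ} (hF : ContinuousOn F K) (hG : ContinuousOn G K)
    (h : ∀ z ∈ K, exp (F z) = exp (G z)) {z w : X} (hz : z ∈ K) (hw : w ∈ K) :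
    F z - G z = F w - G w := by
  have h2pi : (2 * Real.pi * I : ℂ) ≠ 0 := Complex.two_pi_I_ne_zero
  have hn : ∀ v ∈ K, ∃ n : ℤ, F v - G v = n * (2 * Real.pi * I) := by
    intro v hv
    obtain ⟨n, hn⟩ := Complex.exp_eq_exp_iff_exists_int.1 (h v hv)
    exact ⟨n, by rw [hn]; ring⟩
  set f : X → ℝ := fun v => ((F v - G v) / (2 * Real.pi * I)).re with hf
  have hfc : ContinuousOn f K :=
    Complex.continuous_re.comp_continuousOn ((hF.sub hG).div_const _)
  have hfn : ∀ v ∈ K, ∃ n : ℤ, f v = n ∧ F v - G v = n * (2 * Real.pi * I) := by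
    intro v hv
    obtain ⟨n, hn'⟩ := hn v hv
    refine ⟨n, ?_, hn'⟩
    rw [hf]
    show ((F v - G v) / (2 * Real.pi * I)).re = n
    rw [hn', mul_div_cancel_right₀ _ h2pi]
    exact Complex.intCast_re n
  have key : ∀ u ∈ K, ∀ v ∈ K, ¬ f u < f v := by
    intro u hu v hv huv
    obtain ⟨m, hm, -⟩ := hfn u hu
    obtain ⟨n, hn', -⟩ := hfn v hv
    have hmn : m < n := by
      rw [hm, hn'] at huv
      exact_mod_cast huv
    have hmid : (m : ℝ) + 1 / 2 ∈ Icc (f u) (f v) := by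
      rw [hm, hn']
      have : (m : ℝ) + 1 ≤ n := by exact_mod_cast hmn
      constructor <;> linarith
    obtain ⟨p, hp, hpe⟩ := hK.intermediate_value hu hv hfc hmid
    obtain ⟨l, hl, -⟩ := hfn p hp
    rw [hl] at hpe
    have h1 : (2 * l : ℤ) = 2 * m + 1 := by
      have : (2 * l : ℝ) = 2 * m + 1 := by linarith
      exact_mod_cast this
    omega
  obtain ⟨m, hm, hm'⟩ := hfn z hz
  obtain ⟨n, hn', hn''⟩ := hfn w hw
  have hmn : f z = f w := le_antisymm (not_lt.1 (key w hw z hz)) (not_lt.1 (key z hz w hw))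
  have : (m : ℤ) = n := by
    rw [hm, hn'] at hmn
    exact_mod_cast hmn
  rw [hm', hn'', this]

/-- a continuous logarithm of `g 0 - z` off an arc which leaves the disc -/
theorem arc_log {g g' : ℝ → ℂ} {T R : ℝ} (hT : 0 ≤ T) (hg : ∀ t ∈ Icc 0 T, HasDerivAt g (g' t) t)
    (hg' : ContinuousOn g' (Icc 0 T)) (hw : R < ‖g T‖) :
    ∃ G : ℂ → ℂ, ContinuousOn G {z | ‖z‖ < R ∧ ∀ t ∈ Icc 0 T, g t ≠ z} ∧
      ∀ z, ‖z‖ < R → (∀ t ∈ Icc 0 T, g t ≠ z) → exp (G z) = g 0 - z := by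
  set w := g T with hwd
  set pr : ℝ → ℝ := fun t => max 0 (min t T) with hpr
  have hprc : Continuous pr := continuous_const.max (continuous_id.min continuous_const)
  have hprm : ∀ t, pr t ∈ Icc 0 T := fun t =>
    ⟨le_max_left _ _, max_le hT (min_le_right _ _)⟩
  have hpre : ∀ t ∈ Icc 0 T, pr t = t := fun t ht => by
    rw [hpr]
    show max 0 (min t T) = t
    rw [min_eq_left ht.2, max_eq_right ht.1]
  have hgc : ContinuousOn g (Icc 0 T) := fun t ht => (hg t ht).continuousAt.continuousWithinAt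
  have hgp : Continuous (fun t => g (pr t)) := hgc.comp_continuous hprc hprm
  have hgp' : Continuous (fun t => g' (pr t)) := hg'.comp_continuous hprc hprm
  set U : Set ℂ := {z | ‖z‖ < R ∧ ∀ t ∈ Icc 0 T, g t ≠ z} with hU
  set J : ℂ → ℂ := fun z => ∫ t in (0 : ℝ)..T, g' (pr t) / (z - g (pr t)) with hJ
  have hJc : ContinuousOn J U := by
    rw [continuousOn_iff_continuous_domRestrict]
    have h1 : Continuous (Function.uncurry fun (z : U) (t : ℝ) =>
        g' (pr t) / ((z : ℂ) - g (pr t))) := by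
      refine Continuous.div (hgp'.comp continuous_snd)
        ((continuous_subtype_val.comp continuous_fst).sub (hgp.comp continuous_snd)) ?_
      rintro ⟨z, t⟩
      exact sub_ne_zero.2 (fun h => z.2.2 _ (hprm t) h.symm)
    exact intervalIntegral.continuous_parametric_intervalIntegral_of_continuous' h1 0 T
  have hexp : ∀ z ∈ U, (z - w) * exp (J z) = z - g 0 := by
    intro z hz
    have hne : ∀ t, z - g (pr t) ≠ 0 := fun t => sub_ne_zero.2 (fun h => hz.2 _ (hprm t) h.symm)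
    have hc : Continuous (fun t => g' (pr t) / (z - g (pr t))) :=
      hgp'.div (continuous_const.sub hgp) hne
    set H : ℝ → ℂ := fun t => (z - g t) * exp (∫ s in (0 : ℝ)..t, g' (pr s) / (z - g (pr s)))
      with hH
    have hder : ∀ t ∈ Icc 0 T, HasDerivAt H 0 t := by
      intro t ht
      have h1 : HasDerivAt (fun t => z - g t) (-g' t) t := by
        have := (hg t ht).const_sub z
        exact this
      have h2 : HasDerivAt (fun t => ∫ s in (0 : ℝ)..t, g' (pr s) / (z - g (pr s)))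
          (g' (pr t) / (z - g (pr t))) t := by
        exact intervalIntegral.integral_hasDerivAt_right (hc.intervalIntegrable _ _)
          (hc.stronglyMeasurableAtFilter _ _) hc.continuousAt
      have h3 := h1.mul h2.cexp
      refine h3.congr_deriv ?_
      have h4 := hne t
      rw [hpre t ht] at h4 ⊢
      field_simp
      ring
    have hconst := constant_of_has_deriv_right_zero (f := H) (a := 0) (b := T)
      (fun t ht => (hder t ht).continuousAt.continuousWithinAt)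
      (fun t ht => (hder t ⟨ht.1, ht.2.le⟩).hasDerivWithinAt) T ⟨hT, le_rfl⟩
    simp only [hH, intervalIntegral.integral_same, Complex.exp_zero, mul_one] at hconst
    exact hconst
  refine ⟨fun z => J z + (log w + log (1 - z / w)), ?_, ?_⟩
  · refine hJc.add (continuousOn_const.add ?_)
    refine ContinuousOn.clog (by fun_prop) ?_
    intro z hz
    have hRp : 0 < ‖w‖ := lt_of_le_of_lt (norm_nonneg z) (hz.1.trans hw)
    have h1 : ‖z / w‖ < 1 := by
      rw [norm_div, div_lt_one hRp]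
      exact hz.1.trans hw
    refine Or.inl ?_
    have h2 := Complex.re_le_norm (z / w)
    rw [Complex.sub_re, Complex.one_re]
    linarith
  · intro z hz1 hz2
    have hRp : 0 < ‖w‖ := lt_of_le_of_lt (norm_nonneg z) (hz1.trans hw)
    have hw0 : w ≠ 0 := norm_pos_iff.1 hRp
    have hzw : z - w ≠ 0 := sub_ne_zero.2 (fun h => by
      rw [h] at hz1
      exact lt_irrefl _ (hz1.trans hw))
    have h1 := hexp z ⟨hz1, hz2⟩
    have h2 : (1 - z / w) ≠ 0 := by
      intro h3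
      apply hzw
      have : 1 = z / w := sub_eq_zero.1 h3
      rw [eq_div_iff hw0] at this
      rw [sub_eq_zero]
      linear_combination -this
    rw [Complex.exp_add, Complex.exp_add, Complex.exp_log hw0, Complex.exp_log h2]
    have h3 : w * (1 - z / w) = -(z - w) := by
      field_simp
      ring
    rw [h3]
    linear_combination -h1

end SEP_

open SEP_ in
theorem p_SEP (h : T_SEC) : T_SEP := by
  intro P x φ₁ φ₂ φ₃ φ₄ ρ₁ ρ₃ r K h12 h23 h34 h41 hρ₁ hρ₃ hr hs1 hn1 hs3 hn3 hK hKb hK1 hK3 hK2 hK4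
  have hS := h P x
  -- the radius
  obtain ⟨R0, hR0⟩ := hKb.exists_norm_le
  set R : ℝ := max R0 ‖x‖ + 1 with hR
  have hRK : ∀ z ∈ K, ‖z‖ < R := fun z hz => by
    have := hR0 z hz
    have := le_max_left R0 ‖x‖
    rw [hR]
    linarith
  have hRx : ‖x‖ < R := by
    have := le_max_right R0 ‖x‖
    rw [hR]
    linarith
  -- facts about rays
  have ray : ∀ φ ρ : ℝ, 0 < ρ → (∀ t ∈ Ico (0 : ℝ) ρ, (t : ℂ) * exp ((φ : ℂ) * I) ∈ P.S x) →
      (ρ : ℂ) * exp ((φ : ℂ) * I) ∉ P.S x → ∃ T ∈ Ico (0 : ℝ) ρ, ∃ G : ℂ → ℂ,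
        ContinuousOn G {z | ‖z‖ < R ∧ ∀ t ∈ Icc 0 T, P.sec x ((t : ℂ) * exp ((φ : ℂ) * I)) ≠ z} ∧
        ∀ z, ‖z‖ < R → (∀ t ∈ Icc 0 T, P.sec x ((t : ℂ) * exp ((φ : ℂ) * I)) ≠ z) →
          exp (G z) = x - z := by
    intro φ ρ hρ hin hout
    have hb := hS.blow _ hout (fun t ht => by
      have : (t : ℂ) * ((ρ : ℂ) * exp ((φ : ℂ) * I)) = ((t * ρ : ℝ) : ℂ) * exp ((φ : ℂ) * I) := by
        push_cast
        ring
      rw [this]
      exact hin _ ⟨mul_nonneg ht.1 hρ.le, by nlinarith [ht.2]⟩)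
    have h1 : ∀ᶠ t : ℝ in 𝓝[<] 1, R < ‖P.sec x ((t : ℂ) * ((ρ : ℂ) * exp ((φ : ℂ) * I)))‖ :=
      hb.eventually (eventually_gt_atTop R)
    have h2 : ∀ᶠ t : ℝ in 𝓝[<] 1, t ∈ Ioo (0 : ℝ) 1 := Ioo_mem_nhdsLT (by norm_num)
    obtain ⟨t0, ht1, ht2⟩ := (h1.and h2).exists
    have hT : t0 * ρ ∈ Ico (0 : ℝ) ρ := ⟨mul_nonneg ht2.1.le hρ.le, by nlinarith [ht2.2]⟩
    have hmem : ∀ t ∈ Icc 0 (t0 * ρ), (t : ℂ) * exp ((φ : ℂ) * I) ∈ P.S x := fun t ht =>
      hin t ⟨ht.1, ht.2.trans_lt hT.2⟩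
    obtain ⟨G, hG1, hG2⟩ := arc_log (g := fun t : ℝ => P.sec x ((t : ℂ) * exp ((φ : ℂ) * I)))
      (g' := fun t : ℝ => deriv (P.sec x) ((t : ℂ) * exp ((φ : ℂ) * I)) * exp ((φ : ℂ) * I))
      (T := t0 * ρ) (R := R) hT.1 (fun t ht => by
        have h3 : HasDerivAt (P.sec x) (deriv (P.sec x) ((t : ℂ) * exp ((φ : ℂ) * I)))
            ((t : ℂ) * exp ((φ : ℂ) * I)) :=
          (hS.diff.differentiableAt (hS.isOpen.mem_nhds (hmem t ht))).hasDerivAt
        have h4 : HasDerivAt (fun s : ℝ => (s : ℂ) * exp ((φ : ℂ) * I)) (1 * exp ((φ : ℂ) * I)) t :=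
          (Complex.ofRealCLM.hasDerivAt (x := t)).mul_const _
        rw [one_mul] at h4
        exact h3.comp t h4) (by
        have h5 : ContinuousOn (deriv (P.sec x)) (P.S x) :=
          (hS.diff.deriv hS.isOpen).continuousOn
        refine ContinuousOn.mul ?_ continuousOn_const
        exact h5.comp (by fun_prop) hmem) (by
        show R < ‖P.sec x (((t0 * ρ : ℝ) : ℂ) * exp ((φ : ℂ) * I))‖
        have : ((t0 * ρ : ℝ) : ℂ) * exp ((φ : ℂ) * I) =
            (t0 : ℂ) * ((ρ : ℂ) * exp ((φ : ℂ) * I)) := by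
          push_cast
          ring
        rw [this]
        exact ht1)
    refine ⟨t0 * ρ, hT, G, hG1, fun z hz1 hz2 => ?_⟩
    rw [hG2 z hz1 hz2]
    simp [hS.zero]
  obtain ⟨T₁, hT₁, G₁, hG₁c, hG₁⟩ := ray φ₁ ρ₁ hρ₁ hs1 hn1
  obtain ⟨T₃, hT₃, G₃, hG₃c, hG₃⟩ := ray φ₃ ρ₃ hρ₃ hs3 hn3
  -- the small circle
  have h0 := hS.zero_mem
  set c := deriv (P.sec x) 0 with hc
  have hc0 : c ≠ 0 := hS.deriv_ne 0 h0
  have hd : HasDerivAt (P.sec x) c 0 :=
    (hS.diff.differentiableAt (hS.isOpen.mem_nhds h0)).hasDerivAt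
  have hslope : Tendsto (fun w : ℂ => (x - P.sec x w) / w / (-c)) (𝓝[≠] 0) (𝓝 1) := by
    have h1 := hasDerivAt_iff_tendsto_slope.1 hd
    have h2 : Tendsto (fun w : ℂ => -(slope (P.sec x) 0 w) / (-c)) (𝓝[≠] 0) (𝓝 (-c / (-c))) :=
      (h1.neg).div_const _
    rw [div_self (neg_ne_zero.2 hc0)] at h2
    refine h2.congr fun w => ?_
    rw [slope_def_field, hS.zero, sub_zero]
    ring
  have hev : ∀ᶠ w : ℂ in 𝓝[≠] 0, (w ∈ P.S x ∧ ‖P.sec x w‖ < R) ∧
      (x - P.sec x w) / w / (-c) ∈ slitPlane := by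
    refine Eventually.and (Eventually.and ?_ ?_) ?_
    · exact nhdsWithin_le_nhds (hS.isOpen.mem_nhds h0)
    · refine nhdsWithin_le_nhds ?_
      have h1 : ContinuousAt (fun w => ‖P.sec x w‖) 0 := hd.continuousAt.norm
      have h2 : ‖P.sec x 0‖ < R := by rw [hS.zero]; exact hRx
      exact h1.eventually_lt continuousAt_const h2
    · exact hslope.eventually (Complex.isOpen_slitPlane.mem_nhds Complex.one_mem_slitPlane)
  rw [eventually_nhdsWithin_iff, Metric.eventually_nhds_iff] at hev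
  obtain ⟨δ, hδ, hδ'⟩ := hev
  set t : ℝ := min δ r / 2 with ht
  have htpos : 0 < t := by
    rw [ht]
    exact half_pos (lt_min hδ hr)
  have htr : t ∈ Ioo (0 : ℝ) r := ⟨htpos, by
    have := min_le_right δ r
    rw [ht]
    linarith⟩
  have htδ : t < δ := by
    have := min_le_left δ r
    rw [ht]
    linarith
  set W : ℝ → ℂ := fun φ => (t : ℂ) * exp ((φ : ℂ) * I) with hW
  have hWn : ∀ φ, ‖W φ‖ = t := fun φ => by
    rw [hW]
    show ‖(t : ℂ) * exp ((φ : ℂ) * I)‖ = t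
    rw [norm_mul, Complex.norm_exp_ofReal_mul_I, mul_one, Complex.norm_real, Real.norm_eq_abs,
      abs_of_pos htpos]
  have hW0 : ∀ φ, W φ ≠ 0 := fun φ => norm_pos_iff.1 (by rw [hWn]; exact htpos)
  have hWc : Continuous W := by
    rw [hW]
    fun_prop
  have hfacts : ∀ φ, (W φ ∈ P.S x ∧ ‖P.sec x (W φ)‖ < R) ∧
      (x - P.sec x (W φ)) / W φ / (-c) ∈ slitPlane := fun φ => by
    refine hδ' ?_ (hW0 φ)
    rw [dist_zero_right, hWn]
    exact htδ
  set E : ℝ → ℂ := fun φ => P.sec x (W φ) with hE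
  have hEc : Continuous E := by
    rw [← continuousOn_univ]
    exact hS.diff.continuousOn.comp hWc.continuousOn (fun φ _ => (hfacts φ).1.1)
  set Λ : ℝ → ℂ := fun φ => (Real.log t : ℂ) + φ * I + log ((x - E φ) / W φ / (-c)) + log (-c)
    with hΛ
  have hΛc : Continuous Λ := by
    rw [hΛ]
    refine Continuous.add (Continuous.add (by fun_prop) ?_) continuous_const
    refine Continuous.clog ?_ (fun φ => (hfacts φ).2)
    exact ((continuous_const.sub hEc).div hWc hW0).div_const _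
  have hΛe : ∀ φ, exp (Λ φ) = x - E φ := by
    intro φ
    have h1 : (x - E φ) / W φ / (-c) ≠ 0 := Complex.slitPlane_ne_zero (hfacts φ).2
    rw [hΛ]
    show exp ((Real.log t : ℂ) + φ * I + log ((x - E φ) / W φ / (-c)) + log (-c)) = x - E φ
    rw [Complex.exp_add, Complex.exp_add, Complex.exp_add, Complex.exp_log h1,
      Complex.exp_log (neg_ne_zero.2 hc0), ← Complex.ofReal_exp, Real.exp_log htpos]
    have h2 : (t : ℂ) * exp (φ * I) = W φ := rfl
    rw [h2]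
    have h3 := hW0 φ
    field_simp
  have hper : ∀ φ : ℝ, W (φ + 2 * Real.pi) = W φ := by
    intro φ
    rw [hW]
    show (t : ℂ) * exp (((φ + 2 * Real.pi : ℝ) : ℂ) * I) = (t : ℂ) * exp ((φ : ℂ) * I)
    push_cast
    rw [add_mul, Complex.exp_add, Complex.exp_two_pi_mul_I, mul_one]
  have hEper : ∀ φ : ℝ, E (φ + 2 * Real.pi) = E φ := fun φ => by
    rw [hE]
    show P.sec x (W (φ + 2 * Real.pi)) = P.sec x (W φ)
    rw [hper]
  have hΛper : ∀ φ : ℝ, Λ (φ + 2 * Real.pi) = Λ φ + 2 * Real.pi * I := by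
    intro φ
    rw [hΛ]
    show (Real.log t : ℂ) + ((φ + 2 * Real.pi : ℝ) : ℂ) * I +
      log ((x - E (φ + 2 * Real.pi)) / W (φ + 2 * Real.pi) / (-c)) + log (-c) = _
    rw [hper, hEper]
    push_cast
    ring
  -- the circle does not meet the rays
  have hoff : ∀ ψ φ s : ℝ, ψ < φ → φ < ψ + 2 * Real.pi → 0 ≤ s →
      (s : ℂ) * exp ((ψ : ℂ) * I) ∈ P.S x → P.sec x ((s : ℂ) * exp ((ψ : ℂ) * I)) ≠ E φ := by
    intro ψ φ s h1 h2 hs0 hs heq
    have h3 := hS.inj hs (hfacts φ).1.1 heq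
    have h4 : s = t := by
      have := congrArg norm h3
      rw [hWn, norm_mul, Complex.norm_exp_ofReal_mul_I, mul_one, Complex.norm_real,
        Real.norm_eq_abs, abs_of_nonneg hs0] at this
      exact this
    have h5 : exp ((ψ : ℂ) * I) = exp ((φ : ℂ) * I) := by
      have h6 : (s : ℂ) * exp ((ψ : ℂ) * I) = (t : ℂ) * exp ((φ : ℂ) * I) := h3
      rw [h4] at h6
      exact mul_left_cancel₀ (by exact_mod_cast htpos.ne') h6
    obtain ⟨n, hn⟩ := Complex.exp_eq_exp_iff_exists_int.1 h5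
    have h6 : (ψ : ℂ) = φ + n * (2 * Real.pi) := by
      have h7 : (ψ : ℂ) * I = ((φ : ℂ) + n * (2 * Real.pi)) * I := by
        rw [hn]
        ring
      exact mul_right_cancel₀ Complex.I_ne_zero h7
    have h7 : ψ = φ + n * (2 * Real.pi) := by exact_mod_cast h6
    have hpi := Real.pi_pos
    have h8 : (n : ℝ) < 0 := by
      by_contra hneg
      push Not at hneg
      nlinarith
    have h9 : (-1 : ℝ) < n := by
      by_contra hneg
      push Not at hneg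
      nlinarith
    have h8' : n < 0 := by exact_mod_cast h8
    have h9' : (-1 : ℤ) < n := by exact_mod_cast h9
    omega
  have hR1 : ∀ φ ∈ Icc φ₂ φ₄, E φ ∈ {z | ‖z‖ < R ∧ ∀ t ∈ Icc 0 T₁,
      P.sec x ((t : ℂ) * exp ((φ₁ : ℂ) * I)) ≠ z} := fun φ hφ =>
    ⟨(hfacts φ).1.2, fun s hs => hoff φ₁ φ s (h12.trans_le hφ.1) (hφ.2.trans_lt h41) hs.1
      (hs1 s ⟨hs.1, hs.2.trans_lt hT₁.2⟩)⟩
  have hR3 : ∀ φ ∈ Icc φ₄ (φ₂ + 2 * Real.pi), E φ ∈ {z | ‖z‖ < R ∧ ∀ t ∈ Icc 0 T₃,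
      P.sec x ((t : ℂ) * exp ((φ₃ : ℂ) * I)) ≠ z} := fun φ hφ =>
    ⟨(hfacts φ).1.2, fun s hs => hoff φ₃ φ s (h34.trans_le hφ.1) (by linarith [hφ.2]) hs.1
      (hs3 s ⟨hs.1, hs.2.trans_lt hT₃.2⟩)⟩
  -- comparisons
  have c1 : G₁ (E φ₂) - Λ φ₂ = G₁ (E φ₄) - Λ φ₄ := by
    have h24 : φ₂ ≤ φ₄ := (h23.trans h34).le
    refine log_diff (K := Icc φ₂ φ₄) isPreconnected_Icc (F := fun φ => G₁ (E φ)) (G := Λ)
      (hG₁c.comp hEc.continuousOn hR1) hΛc.continuousOn (fun φ hφ => ?_) ⟨le_rfl, h24⟩ ⟨h24, le_rfl⟩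
    rw [hΛe]
    exact hG₁ _ (hR1 φ hφ).1 (hR1 φ hφ).2
  have c3 : G₃ (E φ₄) - Λ φ₄ = G₃ (E (φ₂ + 2 * Real.pi)) - Λ (φ₂ + 2 * Real.pi) := by
    have h42 : φ₄ ≤ φ₂ + 2 * Real.pi := by linarith
    refine log_diff (K := Icc φ₄ (φ₂ + 2 * Real.pi)) isPreconnected_Icc (F := fun φ => G₃ (E φ))
      (G := Λ) (hG₃c.comp hEc.continuousOn hR3) hΛc.continuousOn (fun φ hφ => ?_)
      ⟨le_rfl, h42⟩ ⟨h42, le_rfl⟩
    rw [hΛe]
    exact hG₃ _ (hR3 φ hφ).1 (hR3 φ hφ).2
  have cK : G₃ (E φ₂) - G₁ (E φ₂) = G₃ (E φ₄) - G₁ (E φ₄) := by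
    have k1 : ∀ z ∈ K, z ∈ {z | ‖z‖ < R ∧ ∀ t ∈ Icc 0 T₁,
        P.sec x ((t : ℂ) * exp ((φ₁ : ℂ) * I)) ≠ z} := fun z hz =>
      ⟨hRK z hz, fun s hs he => hK1 s ⟨hs.1, hs.2.trans_lt hT₁.2⟩ (he ▸ hz)⟩
    have k3 : ∀ z ∈ K, z ∈ {z | ‖z‖ < R ∧ ∀ t ∈ Icc 0 T₃,
        P.sec x ((t : ℂ) * exp ((φ₃ : ℂ) * I)) ≠ z} := fun z hz =>
      ⟨hRK z hz, fun s hs he => hK3 s ⟨hs.1, hs.2.trans_lt hT₃.2⟩ (he ▸ hz)⟩
    refine log_diff hK (hG₃c.mono k3) (hG₁c.mono k1) (fun z hz => ?_) (hK2 t htr) (hK4 t htr)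
    rw [hG₃ z (k3 z hz).1 (k3 z hz).2, hG₁ z (k1 z hz).1 (k1 z hz).2]
  rw [hEper, hΛper] at c3
  have : (2 * Real.pi * I : ℂ) = 0 := by linear_combination c3 + cK + c1
  exact Complex.two_pi_I_ne_zero this

end Pool.Agent.Liou
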