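import Pool.Agent.Liou.Targets

set_option autoImplicit false

open Complex ComplexConjugate Set Filter Topology

namespace Pool.Agent.Liou

namespace TRI_

variable (P : Pair) (x : ℂ)

/-- two singular directions at an angle in `(0, π)` are impossible -/
theorem core (h1 : T_SEC) (h2 : T_GROSS) (h3 : T_KEY) (hS : P.Small) (φ₁ φ₃ ρ₁ ρ₃ : ℝ)
    (h13 : φ₁ < φ₃) (h31 : φ₃ < φ₁ + Real.pi) (hρ₁ : 0 < ρ₁) (hρ₃ : 0 < ρ₃)
    (hw₁ : (ρ₁ : ℂ) * Complex.exp ((φ₁ : ℂ) * I) ∉ P.S x)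
    (hw₃ : (ρ₃ : ℂ) * Complex.exp ((φ₃ : ℂ) * I) ∉ P.S x) : False := by
  have F := h1 P x
  have up : ∀ (φ ρ R : ℝ), 0 < ρ → ρ ≤ R → (ρ : ℂ) * Complex.exp ((φ : ℂ) * I) ∉ P.S x →
      (R : ℂ) * Complex.exp ((φ : ℂ) * I) ∉ P.S x := by
    intro φ ρ R hρ hR hn hc
    apply hn
    have hRp : 0 < R := lt_of_lt_of_le hρ hR
    have := F.star _ hc (ρ / R) ⟨by positivity, (div_le_one hRp).2 hR⟩
    have e : ((ρ / R : ℝ) : ℂ) * ((R : ℂ) * Complex.exp ((φ : ℂ) * I)) =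
        (ρ : ℂ) * Complex.exp ((φ : ℂ) * I) := by
      rw [← mul_assoc, ← Complex.ofReal_mul, div_mul_cancel₀ _ hRp.ne']
    rwa [e] at this
  set R := max ρ₁ ρ₃ with hRdef
  have hR : 0 < R := lt_max_of_lt_left hρ₁
  have g1 := up φ₁ ρ₁ R hρ₁ (le_max_left _ _) hw₁
  have g3 := up φ₃ ρ₃ R hρ₃ (le_max_right _ _) hw₃
  obtain ⟨φ, ⟨hφ1, hφ3⟩, hφ⟩ := h2 P x R hR φ₁ φ₃ h13
  have hcont : Continuous fun t : ℝ => (R : ℂ) * Complex.exp ((t : ℂ) * I) := by fun_prop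
  set V : Set ℝ := (fun t : ℝ => (R : ℂ) * Complex.exp ((t : ℂ) * I)) ⁻¹' (P.S x) with hV
  have hVo : IsOpen V := F.isOpen.preimage hcont
  have hVc : IsClosed Vᶜ := hVo.isClosed_compl
  set A : Set ℝ := Vᶜ ∩ Iic φ with hA
  set B : Set ℝ := Vᶜ ∩ Ici φ with hB
  have hAc : IsClosed A := hVc.inter isClosed_Iic
  have hBc : IsClosed B := hVc.inter isClosed_Ici
  have hAn : φ₁ ∈ A := ⟨g1, hφ1.le⟩
  have hBn : φ₃ ∈ B := ⟨g3, hφ3.le⟩
  have hAb : BddAbove A := ⟨φ, fun t ht => ht.2⟩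
  have hBb : BddBelow B := ⟨φ, fun t ht => ht.2⟩
  have ha := hAc.csSup_mem ⟨_, hAn⟩ hAb
  have hb := hBc.csInf_mem ⟨_, hBn⟩ hBb
  have ha1 : φ₁ ≤ sSup A := le_csSup hAb hAn
  have hb1 : sInf B ≤ φ₃ := csInf_le hBb hBn
  have haφ : sSup A < φ := lt_of_le_of_ne ha.2 (fun h => ha.1 (by rw [h]; exact hφ))
  have hbφ : φ < sInf B := lt_of_le_of_ne hb.2 (fun h => hb.1 (by rw [← h]; exact hφ))
  refine h3 P x (sSup A) (sInf B) R hS hR (haφ.trans hbφ) (by linarith) ha.1 hb.1 ?_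
  intro t ht
  by_contra hc
  rcases le_total t φ with h | h
  · exact absurd (le_csSup hAb (⟨hc, h⟩ : t ∈ A)) (not_le.2 ht.1)
  · exact absurd (csInf_le hBb (⟨hc, h⟩ : t ∈ B)) (not_le.2 ht.2)

end TRI_

theorem p_TRI (h1 : T_SEC) (h2 : T_GROSS) (h3 : T_KEY) : T_TRI := by
  intro P x hS
  by_cases hall : ∀ w, w ∈ P.S x
  · exact ⟨1, by simp, fun w hw => absurd (hall w) hw⟩
  push Not at hall
  obtain ⟨w₀, hw₀⟩ := hall
  have F := h1 P x
  have hne : ∀ w, w ∉ P.S x → w ≠ 0 := fun w hw h => hw (h ▸ F.zero_mem)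
  have hn0 : 0 < ‖w₀‖ := norm_pos_iff.2 (hne _ hw₀)
  refine ⟨Complex.exp ((arg w₀ : ℂ) * I), by rw [Complex.norm_exp_ofReal_mul_I], ?_⟩
  intro w hw
  have hn : 0 < ‖w‖ := norm_pos_iff.2 (hne _ hw)
  have e0 : (‖w₀‖ : ℂ) * Complex.exp ((arg w₀ : ℂ) * I) = w₀ := Complex.norm_mul_exp_arg_mul_I w₀
  have e1 : (‖w‖ : ℂ) * Complex.exp ((arg w : ℂ) * I) = w := Complex.norm_mul_exp_arg_mul_I w
  have per : ∀ φ : ℝ, Complex.exp (((φ + 2 * Real.pi : ℝ) : ℂ) * I) = Complex.exp ((φ : ℂ) * I) := by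
    intro φ
    push_cast
    rw [add_mul, Complex.exp_add, Complex.exp_two_pi_mul_I, mul_one]
  have hpi := Real.pi_pos
  have a0 := Complex.neg_pi_lt_arg w₀
  have a0' := Complex.arg_le_pi w₀
  have a1 := Complex.neg_pi_lt_arg w
  have a1' := Complex.arg_le_pi w
  have hh0 : (‖w₀‖ : ℂ) * Complex.exp ((arg w₀ : ℂ) * I) ∉ P.S x := by rw [e0]; exact hw₀
  have hh1 : (‖w‖ : ℂ) * Complex.exp ((arg w : ℂ) * I) ∉ P.S x := by rw [e1]; exact hw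
  have hh0' : (‖w₀‖ : ℂ) * Complex.exp (((arg w₀ + 2 * Real.pi : ℝ) : ℂ) * I) ∉ P.S x := by
    rw [per, e0]; exact hw₀
  have hh1' : (‖w‖ : ℂ) * Complex.exp (((arg w + 2 * Real.pi : ℝ) : ℂ) * I) ∉ P.S x := by
    rw [per, e1]; exact hw
  -- the difference of the arguments is a multiple of `π`
  have key : arg w = arg w₀ ∨ arg w = arg w₀ + Real.pi ∨ arg w₀ = arg w + Real.pi := by
    by_contra hcon
    push Not at hcon
    obtain ⟨c1, c2, c3⟩ := hcon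
    rcases lt_trichotomy (arg w) (arg w₀) with h | h | h
    · rcases lt_trichotomy (arg w₀) (arg w + Real.pi) with h' | h' | h'
      · exact TRI_.core P x h1 h2 h3 hS _ _ _ _ h h' hn hn0 hh1 hh0
      · exact c3 h'
      · exact TRI_.core P x h1 h2 h3 hS (arg w₀) (arg w + 2 * Real.pi) _ _ (by linarith)
          (by linarith) hn0 hn hh0 hh1'
    · exact c1 h
    · rcases lt_trichotomy (arg w) (arg w₀ + Real.pi) with h' | h' | h'
      · exact TRI_.core P x h1 h2 h3 hS _ _ _ _ h h' hn0 hn hh0 hh1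
      · exact c2 h'
      · exact TRI_.core P x h1 h2 h3 hS (arg w) (arg w₀ + 2 * Real.pi) _ _ (by linarith)
          (by linarith) hn hn0 hh1 hh0'
  have hpie : Complex.exp ((Real.pi : ℂ) * I) = -1 := Complex.exp_pi_mul_I
  rcases key with h | h | h
  · refine ⟨‖w‖, ?_⟩
    rw [← h, e1]
  · refine ⟨-‖w‖, ?_⟩
    have : Complex.exp ((arg w : ℂ) * I) = - Complex.exp ((arg w₀ : ℂ) * I) := by
      rw [h]; push_cast; rw [add_mul, Complex.exp_add, hpie]; ring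
    calc w = (‖w‖ : ℂ) * Complex.exp ((arg w : ℂ) * I) := e1.symm
      _ = ((-‖w‖ : ℝ) : ℂ) * Complex.exp ((arg w₀ : ℂ) * I) := by
        rw [this]; push_cast; ring
  · refine ⟨-‖w‖, ?_⟩
    have : Complex.exp ((arg w₀ : ℂ) * I) = - Complex.exp ((arg w : ℂ) * I) := by
      rw [h]; push_cast; rw [add_mul, Complex.exp_add, hpie]; ring
    rw [this]; push_cast
    rw [neg_mul_neg, e1]

end Pool.Agent.Liou
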