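import Pool.Agent.Liou.CONST

/-!
# Two different singular points are antipodal
-/

set_option autoImplicit false

open Complex ComplexConjugate Set Filter Topology

namespace Pool.Agent.Liou

namespace TWO_

variable (P : Pair)

/-- the frame is unitary -/
theorem unit_frame (x p q p' q' : ℂ) :
    conj (P.Aco x p q) * P.Aco x p' q' + conj (P.Bco x p q) * P.Bco x p' q' =
      conj p * p' + conj q * q' := by
  have h := P.sqrtN_mul x
  have h0 := P.sqrtN_ne x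
  unfold Pair.Aco Pair.Bco
  rw [map_div₀, map_div₀, Complex.conj_ofReal, map_add, map_sub, map_mul, map_mul, map_mul,
    map_mul, Complex.conj_conj, Complex.conj_conj, div_mul_div_comm, div_mul_div_comm, ← add_div,
    div_eq_iff (mul_ne_zero h0 h0), h]
  ring

theorem im_calc (m ε l : ℝ) :
    ((-(m : ℂ)) * (1 + I * ε) * (l + I * ε) * (1 - I * ε * m) * (1 - I * ε * l * m)).im =
      -(m * ε * (1 + l) * (1 - l * m) * (1 + ε ^ 2 * m)) := by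
  simp [Complex.mul_im, Complex.mul_re]
  ring

/-- the quotient of the two singular points, seen from a near point -/
theorem quot_calc {x x' w' p q p' q' s : ℂ} {ε l : ℝ} (h : P.B x x' = w' * P.A x x')
    (hw' : w' = I * ε * s) (hB : P.Bco x p q = s * P.Aco x p q)
    (hB' : P.Bco x p' q' = -(l : ℂ) * s * P.Aco x p' q') (hA : P.Aco x p q ≠ 0)
    (hA' : P.Aco x p' q' ≠ 0) {ρ : ℝ}
    (hρ : conj (P.Bco x' p q) * P.Bco x' p' q' =
      (ρ : ℂ) * (conj (P.Aco x' p q) * P.Aco x' p' q')) :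
    (‖s‖ ^ 2) * ε * (1 + l) * (1 - l * ‖s‖ ^ 2) * (1 + ε ^ 2 * ‖s‖ ^ 2) = 0 := by
  have hAx : P.A x x' ≠ 0 := P.A_ne_of_eq h
  obtain ⟨f1, f2⟩ := P.frame_change h p q
  obtain ⟨g1, g2⟩ := P.frame_change h p' q'
  set c : ℝ := ‖P.A x x'‖ * Real.sqrt (1 + ‖w'‖ ^ 2) with hc
  have hcpos : 0 < c := by
    have h1 : 0 < ‖P.A x x'‖ := norm_pos_iff.2 hAx
    have h2 : 0 < Real.sqrt (1 + ‖w'‖ ^ 2) := Real.sqrt_pos.2 (by positivity)
    positivity
  have hc0 : (c : ℂ) ≠ 0 := by exact_mod_cast hcpos.ne'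
  have hss : conj s * s = ((‖s‖ ^ 2 : ℝ) : ℂ) := by
    rw [Complex.conj_mul']; push_cast; rfl
  have hcw : conj w' = -(I * ε) * conj s := by
    rw [hw', map_mul, map_mul, Complex.conj_I, Complex.conj_ofReal]; ring
  -- the two products
  have e1 : conj (P.Bco x' p q) * P.Bco x' p' q' =
      (conj (P.A x x') * P.A x x' / (c * c)) * (conj (P.Aco x p q) * P.Aco x p' q') *
        ((-((‖s‖ ^ 2 : ℝ) : ℂ)) * (1 + I * ε) * (l + I * ε)) := by
    rw [f2, g2, hB, hB', ← hss]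
    simp only [map_div₀, map_mul, map_sub, Complex.conj_ofReal]
    rw [hcw, hw']
    field_simp
    ring
  have e2 : conj (P.Aco x' p q) * P.Aco x' p' q' =
      (conj (P.A x x') * P.A x x' / (c * c)) * (conj (P.Aco x p q) * P.Aco x p' q') *
        ((1 + I * ε * ((‖s‖ ^ 2 : ℝ) : ℂ)) * (1 + I * ε * l * ((‖s‖ ^ 2 : ℝ) : ℂ))) := by
    rw [f1, g1, hB, hB', ← hss]
    simp only [map_div₀, map_mul, map_add, Complex.conj_ofReal, Complex.conj_conj]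
    rw [hcw, hw']
    field_simp
  rw [e1, e2] at hρ
  have hk : (conj (P.A x x') * P.A x x' / (c * c)) * (conj (P.Aco x p q) * P.Aco x p' q') ≠ 0 := by
    have : conj (P.A x x') ≠ 0 := (map_ne_zero _).2 hAx
    have : conj (P.Aco x p q) ≠ 0 := (map_ne_zero _).2 hA
    positivity
  have h3 : ((-((‖s‖ ^ 2 : ℝ) : ℂ)) * (1 + I * ε) * (l + I * ε)) =
      (ρ : ℂ) * ((1 + I * ε * ((‖s‖ ^ 2 : ℝ) : ℂ)) * (1 + I * ε * l * ((‖s‖ ^ 2 : ℝ) : ℂ))) := by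
    apply mul_left_cancel₀ hk
    rw [hρ]; ring
  have h4 := im_calc (‖s‖ ^ 2) ε l
  have h5 : ((-((‖s‖ ^ 2 : ℝ) : ℂ)) * (1 + I * ε) * (l + I * ε) *
      (1 - I * ε * ((‖s‖ ^ 2 : ℝ) : ℂ)) * (1 - I * ε * l * ((‖s‖ ^ 2 : ℝ) : ℂ))).im = 0 := by
    rw [h3]
    have : (ρ : ℂ) * ((1 + I * ε * ((‖s‖ ^ 2 : ℝ) : ℂ)) * (1 + I * ε * l * ((‖s‖ ^ 2 : ℝ) : ℂ))) *
      (1 - I * ε * ((‖s‖ ^ 2 : ℝ) : ℂ)) * (1 - I * ε * l * ((‖s‖ ^ 2 : ℝ) : ℂ)) =
      ((ρ * (1 + ε ^ 2 * (‖s‖ ^ 2) ^ 2) * (1 + ε ^ 2 * l ^ 2 * (‖s‖ ^ 2) ^ 2) : ℝ) : ℂ) := by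
      push_cast
      have hI : I ^ 2 = -1 := Complex.I_sq
      linear_combination ((ρ : ℂ) * (-(ε : ℂ) ^ 2 * (‖s‖ : ℂ) ^ 4 - (ε : ℂ) ^ 2 * (l : ℂ) ^ 2 * (‖s‖ : ℂ) ^ 4
        + (ε : ℂ) ^ 4 * (l : ℂ) ^ 2 * (‖s‖ : ℂ) ^ 8 * (I ^ 2 - 1))) * hI
    rw [this]
    exact Complex.ofReal_im _
  rw [h4] at h5
  linarith

end TWO_

open CONST_ TWO_ in
theorem p_TWO (h1 : T_SEC) (h2 : T_TRI) (h3 : T_NEAR) : T_TWO := by
  intro P x p q p' q' hP hs hs' hne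
  have hSF := h1 P x
  obtain ⟨α, hα, hline⟩ := h2 P x hP
  obtain ⟨t, ht⟩ := hline _ hs.2.1
  obtain ⟨t', ht'⟩ := hline _ hs'.2.1
  have h0 := hSF.zero_mem
  have htn : t ≠ 0 := by
    intro hz
    apply hs.2.1
    rw [ht, hz]
    simpa using h0
  have ht'n : t' ≠ 0 := by
    intro hz
    apply hs'.2.1
    rw [ht', hz]
    simpa using h0
  have htc : (t : ℂ) ≠ 0 := by exact_mod_cast htn
  have hlt : t' / t < 0 := by
    refine lt_of_le_of_ne (not_lt.1 ?_) (div_ne_zero ht'n htn)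
    intro hpos
    apply hne
    have := same_dir P hs' hs hpos (by rw [ht, ht']; push_cast; field_simp)
    linear_combination -this
  set s : ℂ := P.Bco x p q / P.Aco x p q with hsdef
  set l : ℝ := -(t' / t) with hl
  have hlpos : 0 < l := by rw [hl]; linarith
  have hs2 : P.Bco x p' q' / P.Aco x p' q' = -(l : ℂ) * s := by
    rw [ht', ht, hl]; push_cast; field_simp
  have hB : P.Bco x p q = s * P.Aco x p q := by
    rw [hsdef, div_mul_cancel₀ _ hs.1]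
  have hB' : P.Bco x p' q' = -(l : ℂ) * s * P.Aco x p' q' := by
    rw [← hs2, div_mul_cancel₀ _ hs'.1]
  have hs0 : s ≠ 0 := by
    intro h
    apply hs.2.1
    rw [← hsdef, h]; exact h0
  -- a near base point
  have hSx : P.S x ∈ 𝓝 (0 : ℂ) := hSF.isOpen.mem_nhds h0
  have hcont : ContinuousAt (P.sec x) 0 :=
    ((hSF.diff 0 h0).differentiableAt hSx).continuousAt
  have hg : Tendsto (fun ε : ℝ => I * (ε : ℂ) * s) (𝓝 0) (𝓝 0) := by
    have : Continuous (fun ε : ℝ => I * (ε : ℂ) * s) := by fun_prop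
    have h := this.tendsto 0
    simpa using h
  have hev : ∀ᶠ x' in 𝓝 x, P.Sing x' p q ∧ P.Sing x' p' q' :=
    (h3 P x p q hP hs).and (h3 P x p' q' hP hs')
  have hev1 : ∀ᶠ w' in 𝓝 (0 : ℂ), P.Sing (P.sec x w') p q ∧ P.Sing (P.sec x w') p' q' := by
    have : Tendsto (P.sec x) (𝓝 0) (𝓝 x) := by
      have := hcont.tendsto
      rwa [hSF.zero] at this
    exact this.eventually hev
  have hev2 : ∀ᶠ ε : ℝ in 𝓝 0, (I * (ε : ℂ) * s ∈ P.S x) ∧
      P.Sing (P.sec x (I * (ε : ℂ) * s)) p q ∧ P.Sing (P.sec x (I * (ε : ℂ) * s)) p' q' :=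
    (hg.eventually hSx).and (hg.eventually hev1)
  obtain ⟨ε, ⟨hεS, hε1, hε2⟩, hεpos⟩ :=
    ((hev2.filter_mono nhdsWithin_le_nhds).and
      (self_mem_nhdsWithin : Ioi (0 : ℝ) ∈ 𝓝[>] (0 : ℝ))).exists
  have hεpos' : 0 < ε := hεpos
  set w' : ℂ := I * (ε : ℂ) * s with hw'
  set x' : ℂ := P.sec x w' with hx'
  have hx'eq : P.B x x' = w' * P.A x x' := hSF.eq w' hεS
  obtain ⟨β, hβ, hline'⟩ := h2 P x' hP
  obtain ⟨r, hr⟩ := hline' _ hε1.2.1
  obtain ⟨r', hr'⟩ := hline' _ hε2.2.1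
  have hβ1 : conj β * β = 1 := by
    rw [Complex.conj_mul', hβ]; norm_num
  have hρ : conj (P.Bco x' p q) * P.Bco x' p' q' =
      ((r * r' : ℝ) : ℂ) * (conj (P.Aco x' p q) * P.Aco x' p' q') := by
    have a1 : P.Bco x' p q = (r : ℂ) * β * P.Aco x' p q := by
      rw [← hr, div_mul_cancel₀ _ hε1.1]
    have a2 : P.Bco x' p' q' = (r' : ℂ) * β * P.Aco x' p' q' := by
      rw [← hr', div_mul_cancel₀ _ hε2.1]
    rw [a1, a2, map_mul, map_mul, Complex.conj_ofReal]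
    push_cast
    linear_combination (r : ℂ) * r' * conj (P.Aco x' p q) * P.Aco x' p' q' * hβ1
  have hq := quot_calc P hx'eq hw' hB hB' hs.1 hs'.1 hρ
  have hm : 0 < ‖s‖ ^ 2 := by
    have : 0 < ‖s‖ := norm_pos_iff.2 hs0
    positivity
  have hlm : l * ‖s‖ ^ 2 = 1 := by
    by_contra hcon
    have hne0 : (‖s‖ ^ 2) * ε * (1 + l) * (1 - l * ‖s‖ ^ 2) * (1 + ε ^ 2 * ‖s‖ ^ 2) ≠ 0 := by
      have k1 : (1 - l * ‖s‖ ^ 2) ≠ 0 := by
        intro h; apply hcon; linarith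
      have k2 : 0 < 1 + l := by linarith
      have k3 : 0 < 1 + ε ^ 2 * ‖s‖ ^ 2 := by positivity
      exact mul_ne_zero (mul_ne_zero (mul_ne_zero (mul_ne_zero hm.ne' hεpos'.ne') k2.ne') k1) k3.ne'
    exact hne0 hq
  rw [← unit_frame P x p q p' q', hB, hB', map_mul]
  have hss : conj s * s = ((‖s‖ ^ 2 : ℝ) : ℂ) := by
    rw [Complex.conj_mul']; push_cast; rfl
  have hlm' : (l : ℂ) * (conj s * s) = 1 := by
    rw [hss]; exact_mod_cast hlm
  linear_combination -(conj (P.Aco x p q) * P.Aco x p' q') * hlm'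

end Pool.Agent.Liou
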