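import Pool.Agent.Liou.Base

/-! Exact targets of the jobs. Every job may take other targets as hypotheses. -/

set_option autoImplicit false

open Complex ComplexConjugate Set Filter Topology

namespace Pool.Agent.Liou

/-! ### the star and its section -/

/-- UNI: two continuous sections over a preconnected set which agree at one point agree -/
def T_UNI : Prop :=
  ∀ (P : Pair) (x : ℂ) (K : Set ℂ) (φ₁ φ₂ : ℂ → ℂ), IsPreconnected K →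
    ContinuousOn φ₁ K → ContinuousOn φ₂ K →
    (∀ w ∈ K, P.B x (φ₁ w) = w * P.A x (φ₁ w)) →
    (∀ w ∈ K, P.B x (φ₂ w) = w * P.A x (φ₂ w)) →
    (∃ w ∈ K, φ₁ w = φ₂ w) → EqOn φ₁ φ₂ K

/-- properties of the star and of the section `sec` -/
structure SecFacts (P : Pair) (x : ℂ) : Prop where
  isOpen : IsOpen (P.S x)
  zero_mem : (0 : ℂ) ∈ P.S x
  star : ∀ w ∈ P.S x, ∀ t ∈ Icc (0 : ℝ) 1, (t : ℂ) * w ∈ P.S x
  diff : DifferentiableOn ℂ (P.sec x) (P.S x)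
  zero : P.sec x 0 = x
  eq : ∀ w ∈ P.S x, P.B x (P.sec x w) = w * P.A x (P.sec x w)
  inj : InjOn (P.sec x) (P.S x)
  deriv_ne : ∀ w ∈ P.S x, deriv (P.sec x) w ≠ 0
  blow : ∀ w, w ∉ P.S x → (∀ t ∈ Ico (0 : ℝ) 1, (t : ℂ) * w ∈ P.S x) →
    Tendsto (fun t : ℝ => ‖P.sec x ((t : ℂ) * w)‖) (𝓝[<] 1) atTop

/-- SEC -/
def T_SEC : Prop := ∀ (P : Pair) (x : ℂ), SecFacts P x

/-- STAR: a section over an open star-shaped set is contained in `sec` -/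
def T_STAR : Prop :=
  ∀ (P : Pair) (x : ℂ) (Ω : Set ℂ) (φ : ℂ → ℂ), IsOpen Ω → StarConvex ℝ 0 Ω → (0 : ℂ) ∈ Ω →
    ContinuousOn φ Ω → φ 0 = x → (∀ w ∈ Ω, P.B x (φ w) = w * P.A x (φ w)) →
    Ω ⊆ P.S x ∧ EqOn φ (P.sec x) Ω

/-- GROSS: the directions in which the section is defined up to radius `R` are dense -/
def T_GROSS : Prop :=
  ∀ (P : Pair) (x : ℂ) (R : ℝ), 0 < R → ∀ a b : ℝ, a < b →
    ∃ φ ∈ Ioo a b, (R : ℂ) * Complex.exp ((φ : ℂ) * I) ∈ P.S x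

/-- SEP: two singular rays separate the plane -/
def T_SEP : Prop :=
  ∀ (P : Pair) (x : ℂ) (φ₁ φ₂ φ₃ φ₄ ρ₁ ρ₃ r : ℝ) (K : Set ℂ),
    φ₁ < φ₂ → φ₂ < φ₃ → φ₃ < φ₄ → φ₄ < φ₁ + 2 * Real.pi →
    0 < ρ₁ → 0 < ρ₃ → 0 < r →
    (∀ t ∈ Ico (0 : ℝ) ρ₁, (t : ℂ) * Complex.exp ((φ₁ : ℂ) * I) ∈ P.S x) →
    (ρ₁ : ℂ) * Complex.exp ((φ₁ : ℂ) * I) ∉ P.S x →
    (∀ t ∈ Ico (0 : ℝ) ρ₃, (t : ℂ) * Complex.exp ((φ₃ : ℂ) * I) ∈ P.S x) →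
    (ρ₃ : ℂ) * Complex.exp ((φ₃ : ℂ) * I) ∉ P.S x →
    IsPreconnected K → Bornology.IsBounded K →
    (∀ t ∈ Ico (0 : ℝ) ρ₁, P.sec x ((t : ℂ) * Complex.exp ((φ₁ : ℂ) * I)) ∉ K) →
    (∀ t ∈ Ico (0 : ℝ) ρ₃, P.sec x ((t : ℂ) * Complex.exp ((φ₃ : ℂ) * I)) ∉ K) →
    (∀ t ∈ Ioo (0 : ℝ) r, P.sec x ((t : ℂ) * Complex.exp ((φ₂ : ℂ) * I)) ∈ K) →
    (∀ t ∈ Ioo (0 : ℝ) r, P.sec x ((t : ℂ) * Complex.exp ((φ₄ : ℂ) * I)) ∈ K) →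
    False

/-! ### lengths -/

/-- GLIP: a function with gradient at most `ρ` grows along a curve at most by `∫ ρ |γ'|` -/
def T_GLIP : Prop :=
  ∀ (G ρ : ℂ → ℝ) (γ : ℝ → ℂ) (p q : ℂ), Differentiable ℝ G → Continuous ρ →
    (∀ z, ‖fderiv ℝ G z‖ ≤ ρ z) → IsCurve γ p q →
    ∀ s t : ℝ, 0 ≤ s → s ≤ t → t ≤ 1 →
      |G (γ t) - G (γ s)| ≤ ∫ τ in s..t, ρ (γ τ) * ‖deriv γ τ‖

/-- CINT: integrability along curves -/
def T_CINT : Prop :=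
  ∀ (ρ : ℂ → ℝ) (γ : ℝ → ℂ) (p q : ℂ), Continuous ρ → IsCurve γ p q →
    ∀ s t : ℝ, 0 ≤ s → s ≤ t → t ≤ 1 →
      IntervalIntegrable (fun τ => ρ (γ τ) * ‖deriv γ τ‖) MeasureTheory.volume s t

/-- LIP: the spherical distance from a point of the unit sphere is 1-Lipschitz along curves -/
def T_LIP : Prop :=
  ∀ (P : Pair) (x : ℂ) (γ : ℝ → ℂ) (p q : ℂ) (ν : ℂ) (ζ : ℝ), IsCurve γ p q →
    ‖ν‖ ^ 2 + ζ ^ 2 = 1 → ∀ s t : ℝ, 0 ≤ s → s ≤ t → t ≤ 1 →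
      |Real.arccos ((conj ν * P.Y x (γ t)).re + ζ * P.Z x (γ t)) -
        Real.arccos ((conj ν * P.Y x (γ s)).re + ζ * P.Z x (γ s))| ≤ P.len γ s t

/-- LEN: lengths are non-negative and additive -/
def T_LEN : Prop :=
  ∀ (P : Pair) (γ : ℝ → ℂ) (p q : ℂ), IsCurve γ p q →
    ∀ r s t : ℝ, 0 ≤ r → r ≤ s → s ≤ t → t ≤ 1 →
      0 ≤ P.len γ r s ∧ P.len γ r s + P.len γ s t = P.len γ r t

/-- VAR: almost shortest curves between almost antipodal points stay near a meridian -/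
def T_VAR : Prop :=
  ∀ (P : Pair) (x : ℂ) (γ : ℝ → ℂ) (p q : ℂ) (τ δ : ℝ) (v θ : ℂ), IsCurve γ p q →
    0 < δ → 0 < τ → 2 * δ + τ ≤ Real.pi / 2 → ‖v‖ = 1 → ‖θ‖ = 1 →
    P.Y x p = (Real.sin τ : ℂ) * v → P.Z x p = Real.cos τ →
    P.Y x q = (Real.sin δ : ℂ) * θ → P.Z x q = -Real.cos δ →
    P.len γ 0 1 ≤ Real.pi + δ →
    ∃ m : ℂ, ‖m‖ = 1 ∧ -Real.sin (2 * δ) ≤ Real.sin τ * (conj m * v).re ∧
      ∀ t ∈ Icc (0 : ℝ) 1, ‖P.Y x (γ t)‖ - (2 * δ + τ) ≤ (conj m * P.Y x (γ t)).re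

/-! ### the singular directions -/

/-- KEY -/
def T_KEY : Prop :=
  ∀ (P : Pair) (x : ℂ) (a b R : ℝ), P.Small → 0 < R → a < b → b < a + Real.pi →
    (R : ℂ) * Complex.exp ((a : ℂ) * I) ∉ P.S x →
    (R : ℂ) * Complex.exp ((b : ℂ) * I) ∉ P.S x →
    (∀ φ ∈ Ioo a b, (R : ℂ) * Complex.exp ((φ : ℂ) * I) ∈ P.S x) → False

/-- TRI: the complement of the star is contained in a line through `0` -/
def T_TRI : Prop :=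
  ∀ (P : Pair) (x : ℂ), P.Small → ∃ α : ℂ, ‖α‖ = 1 ∧ ∀ w, w ∉ P.S x → ∃ t : ℝ, w = (t : ℂ) * α

/-- PERS: a singular point `s` (in the frame at `x`) is still singular when it is looked at from
`x' = sec x w'`, if the geodesic arc from `w'` to `s` is in the star of `x`. -/
def T_PERS : Prop :=
  ∀ (P : Pair) (x p q w' : ℂ), P.Sing x p q → w' ∈ P.S x →
    (∃ ε > 0, ∀ w, ‖w - P.Bco x p q / P.Aco x p q‖ < ε → w ∉ P.S x →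
      ∃ t : ℝ, w = (t : ℂ) * (P.Bco x p q / P.Aco x p q)) →
    1 + conj w' * (P.Bco x p q / P.Aco x p q) ≠ 0 →
    (∀ t ∈ Ico (0 : ℝ) 1,
      (1 - (t : ℂ)) * (1 + conj w' * (P.Bco x p q / P.Aco x p q)) +
        (t : ℂ) * (1 + conj w' * w') ≠ 0 ∧
      ((1 - (t : ℂ)) * (1 + conj w' * (P.Bco x p q / P.Aco x p q)) * w' +
        (t : ℂ) * (1 + conj w' * w') * (P.Bco x p q / P.Aco x p q)) /
      ((1 - (t : ℂ)) * (1 + conj w' * (P.Bco x p q / P.Aco x p q)) +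
        (t : ℂ) * (1 + conj w' * w')) ∈ P.S x) →
    P.Sing (P.sec x w') p q

/-- NEAR: singular points persist -/
def T_NEAR : Prop :=
  ∀ (P : Pair) (x p q : ℂ), P.Small → P.Sing x p q → ∀ᶠ x' in 𝓝 x, P.Sing x' p q

/-- TWO: two different singular points are antipodal -/
def T_TWO : Prop :=
  ∀ (P : Pair) (x p q p' q' : ℂ), P.Small → P.Sing x p q → P.Sing x p' q' → p * q' ≠ q * p' →
    conj p * p' + conj q * q' = 0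

/-- ONE -/
def T_ONE : Prop :=
  ∀ (P : Pair), P.Small → (∃ x, P.S x = univ) ∨
    ∀ x, ∃ p q p' q' : ℂ, P.Sing x p q ∧ P.Sing x p' q' ∧ p * q' ≠ q * p'

/-- CONST: the singular points do not depend on the base point -/
def T_CONST : Prop :=
  ∀ (P : Pair), P.Small →
    (∀ x, ∃ p q p' q' : ℂ, P.Sing x p q ∧ P.Sing x p' q' ∧ p * q' ≠ q * p') →
    ∃ p q p' q' : ℂ, p * q' ≠ q * p' ∧ conj p * p' + conj q * q' = 0 ∧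
      ∀ x, P.Sing x p q ∧ P.Sing x p' q'

/-! ### conclusions -/

/-- INJ: an injective entire function is affine -/
def T_INJ : Prop :=
  ∀ g : ℂ → ℂ, Differentiable ℂ g → Function.Injective g →
    ∃ c d : ℂ, c ≠ 0 ∧ ∀ z, g z = c * z + d

/-- BUB -/
def T_BUB : Prop :=
  ∀ (P : Pair) (x : ℂ), P.S x = univ → ∃ (x₀ : ℂ) (φ : ℝ → ℝ), ∀ z, P.N z = φ ‖z - x₀‖

/-- EXP -/
def T_EXP : Prop :=
  ∀ (P : Pair) (p q p' q' : ℂ), P.Small → p * q' ≠ q * p' → conj p * p' + conj q * q' = 0 →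
    (∀ x, P.Sing x p q ∧ P.Sing x p' q') →
    ∃ e : ℂ, ‖e‖ = 1 ∧ ∃ f : ℝ → ℝ, ∀ z, P.N z = f (inner ℝ z e)

/-! ### the developing pair -/

/-- the Wirtinger derivative `∂/∂z` -/
noncomputable def wz (g : ℂ → ℂ) (z : ℂ) : ℂ := (fderiv ℝ g z 1 - I * fderiv ℝ g z I) / 2

/-- the function `T = u_zz - u_z²` -/
noncomputable def schw (u : ℂ → ℝ) (z : ℂ) : ℂ :=
  wz (wz fun ζ => (u ζ : ℂ)) z - (wz (fun ζ => (u ζ : ℂ)) z) ^ 2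

/-- HOL: `T` is entire -/
def T_HOL : Prop := ∀ u : ℂ → ℝ, IsSol u → Differentiable ℂ (schw u)

/-- ODE: two solutions of `y'' = - T y` with Wronskian one -/
def T_ODE : Prop :=
  ∀ T : ℂ → ℂ, Differentiable ℂ T → ∃ y₁ y₂ : ℂ → ℂ, Differentiable ℂ y₁ ∧ Differentiable ℂ y₂ ∧
    (∀ z, deriv (deriv y₁) z = -T z * y₁ z) ∧ (∀ z, deriv (deriv y₂) z = -T z * y₂ z) ∧
    y₁ 0 = 1 ∧ deriv y₁ 0 = 0 ∧ y₂ 0 = 0 ∧ deriv y₂ 0 = 1 ∧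
    ∀ z, y₁ z * deriv y₂ z - deriv y₁ z * y₂ z = 1

/-- DEV: the developing pair -/
def T_DEV : Prop :=
  ∀ u : ℂ → ℝ, IsSol u → ∃ P : Pair, (∀ z, Real.exp (-u z) = P.N z / 2) ∧
    (∀ z, deriv (deriv P.a) z = -schw u z * P.a z) ∧
    (∀ z, deriv (deriv P.b) z = -schw u z * P.b z)

/-! ### the converse -/

/-- ONEB: one-dimensional solutions -/
def T_ONEB : Prop :=
  ∀ u : ℂ → ℝ, IsSol u → IsOneDim u → ∃ (e : ℂ) (l c : ℝ), ‖e‖ = 1 ∧ 0 < l ∧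
    ∀ z, Real.exp (-u z) = Real.cosh (l * inner ℝ z e + c) / l

/-- RADB: radial solutions -/
def T_RADB : Prop :=
  ∀ u : ℂ → ℝ, IsSol u → IsRadial u → ∃ (x₀ : ℂ) (l : ℝ), 0 < l ∧
    ∀ z, Real.exp (-u z) = (1 + l ^ 2 * ‖z - x₀‖ ^ 2) / (2 * l)

/-- DIAM1 -/
def T_DIAM1 : Prop :=
  ∀ (u : ℂ → ℝ) (e : ℂ) (l c : ℝ), ‖e‖ = 1 → 0 < l →
    (∀ z, Real.exp (-u z) = Real.cosh (l * inner ℝ z e + c) / l) →
    gdiam u = ENNReal.ofReal Real.pi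

/-- DIAMR -/
def T_DIAMR : Prop :=
  ∀ (u : ℂ → ℝ) (x₀ : ℂ) (l : ℝ), 0 < l →
    (∀ z, Real.exp (-u z) = (1 + l ^ 2 * ‖z - x₀‖ ^ 2) / (2 * l)) →
    gdiam u = ENNReal.ofReal Real.pi

/-- SMALL -/
def T_SMALL : Prop :=
  ∀ (u : ℂ → ℝ) (P : Pair), (∀ z, Real.exp (-u z) = P.N z / 2) →
    gdiam u ≤ ENNReal.ofReal Real.pi → P.Small

/-- MAIN -/
def T_MAIN : Prop :=
  ∀ u : ℂ → ℝ, IsSol u → (gdiam u = ENNReal.ofReal Real.pi ↔ (IsRadial u ∨ IsOneDim u))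

end Pool.Agent.Liou
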