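import Pool.Agent.Liou.Targets

/-!
# VAR: almost shortest curves between almost antipodal points stay near a meridian
-/

set_option autoImplicit false

open Complex ComplexConjugate Set Filter Topology

namespace Pool.Agent.Liou

namespace VAR_

theorem sin_arccos_Z (P : Pair) (x z : ℂ) : Real.sin (Real.arccos (P.Z x z)) = ‖P.Y x z‖ := by
  rw [Real.sin_arccos]
  have h := P.Y_Z_sq x z
  rw [show 1 - P.Z x z ^ 2 = ‖P.Y x z‖ ^ 2 by linarith, Real.sqrt_sq (norm_nonneg _)]

theorem norm_Y_le (P : Pair) (x z : ℂ) : ‖P.Y x z‖ ≤ 1 := by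
  have h := P.Y_Z_sq x z
  nlinarith [norm_nonneg (P.Y x z), sq_nonneg (P.Z x z)]

/-- the scalar product with a unit vector -/
theorem abs_re_le (P : Pair) (x z m : ℂ) (hm : ‖m‖ = 1) :
    -1 ≤ (conj m * P.Y x z).re ∧ (conj m * P.Y x z).re ≤ 1 := by
  have h1 : |(conj m * P.Y x z).re| ≤ 1 := by
    refine (Complex.abs_re_le_norm _).trans ?_
    rw [norm_mul, Complex.norm_conj, hm, one_mul]
    exact norm_Y_le P x z
  exact abs_le.1 h1

theorem cont_Z (P : Pair) (x : ℂ) {γ : ℝ → ℂ} (hγ : ContinuousOn γ (Icc 0 1)) :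
    ContinuousOn (fun t => P.Z x (γ t)) (Icc 0 1) := by
  have hZ : Continuous (P.Z x) := by
    have hA : Continuous (P.A x) := (P.diff_A x).continuous
    have hB : Continuous (P.B x) := (P.diff_B x).continuous
    have hN : Continuous P.N := by
      unfold Pair.N
      exact ((P.da.continuous.norm).pow 2).add ((P.db.continuous.norm).pow 2)
    unfold Pair.Z
    exact (((hA.norm).pow 2).sub ((hB.norm).pow 2)).div hN fun z => (P.N_pos z).ne'
  exact hZ.comp_continuousOn hγ

theorem sin_lip (a b : ℝ) : |Real.sin a - Real.sin b| ≤ |a - b| := Real.abs_sin_sub_sin_le a b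

/-- on the way up to the equator -/
theorem est1 {c r e : ℝ} (hc : -1 ≤ c) (hc' : c ≤ 1) (hr : 0 ≤ r) (he : 0 < e)
    (he' : e ≤ Real.pi / 2) (h : Real.arccos c ≤ Real.pi / 2 + e - r) :
    Real.sin r - e ≤ c := by
  have h0 := Real.arccos_nonneg c
  have h1 : Real.cos (Real.pi / 2 + e - r) ≤ Real.cos (Real.arccos c) :=
    Real.cos_le_cos_of_nonneg_of_le_pi h0 (by linarith) h
  rw [Real.cos_arccos hc hc', show Real.pi / 2 + e - r = Real.pi / 2 - (r - e) by ring,
    Real.cos_pi_div_two_sub] at h1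
  have h2 := sin_lip r (r - e)
  rw [show r - (r - e) = e by ring, abs_of_pos he] at h2
  have h3 := (abs_le.1 h2).2
  linarith

/-- on the way down from the equator -/
theorem est2 {c r e : ℝ} (hc : -1 ≤ c) (hc' : c ≤ 1) (hr : r ≤ Real.pi) (he : 0 < e)
    (he' : e ≤ Real.pi / 2) (h : Real.arccos c ≤ r - Real.pi / 2 + e) :
    Real.sin r - e ≤ c := by
  have h0 := Real.arccos_nonneg c
  have h1 : Real.cos (r - Real.pi / 2 + e) ≤ Real.cos (Real.arccos c) :=
    Real.cos_le_cos_of_nonneg_of_le_pi h0 (by linarith) h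
  rw [Real.cos_arccos hc hc', show r - Real.pi / 2 + e = (r + e) - Real.pi / 2 by ring,
    Real.cos_sub_pi_div_two] at h1
  have h2 := sin_lip r (r + e)
  rw [show r - (r + e) = -e by ring, abs_neg, abs_of_pos he] at h2
  have h3 := (abs_le.1 h2).2
  linarith

end VAR_

open VAR_

theorem p_VAR (h1 : T_LIP) (h2 : T_LEN) : T_VAR := by
  intro P x γ p q τ δ v θ hγ hδ hτ hsmall hv hθ hYp hZp hYq hZq hlen
  have hpi := Real.pi_pos
  -- the equator
  obtain ⟨tm, htm, hZm⟩ : ∃ t ∈ Icc (0 : ℝ) 1, P.Z x (γ t) = 0 := by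
    have hsub := intermediate_value_Icc' (zero_le_one' ℝ) (cont_Z P x hγ.cont)
    have hmem : (0 : ℝ) ∈ Icc (P.Z x (γ 1)) (P.Z x (γ 0)) := by
      rw [hγ.source, hγ.target, hZp, hZq]
      constructor
      · have : 0 ≤ Real.cos δ := Real.cos_nonneg_of_neg_pi_div_two_le_of_le (by linarith)
          (by linarith)
        linarith
      · exact Real.cos_nonneg_of_neg_pi_div_two_le_of_le (by linarith) (by linarith)
    obtain ⟨t, ht, hft⟩ := hsub hmem
    exact ⟨t, ht, hft⟩
  set m : ℂ := P.Y x (γ tm) with hm_def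
  have hm : ‖m‖ = 1 := by
    have h := P.Y_Z_sq x (γ tm)
    rw [hZm] at h
    have h' : ‖m‖ ^ 2 = 1 := by rw [hm_def]; linarith
    nlinarith [norm_nonneg m]
  have hmm : (conj m * P.Y x (γ tm)).re = 1 := by
    rw [← hm_def, Complex.conj_mul', hm]
    simp
  -- distance from the pole
  have lipZ : ∀ s t : ℝ, 0 ≤ s → s ≤ t → t ≤ 1 →
      |Real.arccos (P.Z x (γ t)) - Real.arccos (P.Z x (γ s))| ≤ P.len γ s t := by
    intro s t hs hst ht
    have := h1 P x γ p q 0 1 hγ (by simp) s t hs hst ht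
    simpa using this
  -- distance from `m`
  have lipM : ∀ s t : ℝ, 0 ≤ s → s ≤ t → t ≤ 1 →
      |Real.arccos ((conj m * P.Y x (γ t)).re) - Real.arccos ((conj m * P.Y x (γ s)).re)| ≤
        P.len γ s t := by
    intro s t hs hst ht
    have := h1 P x γ p q m 0 hγ (by rw [hm]; norm_num) s t hs hst ht
    simpa using this
  have r0 : Real.arccos (P.Z x (γ 0)) = τ := by
    rw [hγ.source, hZp, Real.arccos_cos hτ.le (by linarith)]
  have r1 : Real.arccos (P.Z x (γ 1)) = Real.pi - δ := by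
    rw [hγ.target, hZq, Real.arccos_neg, Real.arccos_cos hδ.le (by linarith)]
  have rm : Real.arccos (P.Z x (γ tm)) = Real.pi / 2 := by rw [hZm, Real.arccos_zero]
  have L1 := lipZ 0 tm le_rfl htm.1 htm.2
  have L2 := lipZ tm 1 htm.1 htm.2 le_rfl
  rw [r0, rm] at L1
  rw [r1, rm] at L2
  have L1' := (abs_le.1 L1).2
  have L2' := (abs_le.1 L2).2
  have hsum := (h2 P γ p q hγ 0 tm 1 le_rfl htm.1 htm.2 le_rfl).2
  refine ⟨m, hm, ?_, ?_⟩
  · have hL := lipM 0 tm le_rfl htm.1 htm.2
    rw [hmm, Real.arccos_one, hγ.source, hYp] at hL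
    have hL' := (abs_le.1 hL).1
    have e : (conj m * ((Real.sin τ : ℂ) * v)).re = Real.sin τ * (conj m * v).re := by
      rw [show conj m * ((Real.sin τ : ℂ) * v) = (Real.sin τ : ℂ) * (conj m * v) by ring,
        Complex.re_ofReal_mul]
    rw [e] at hL'
    have hb := abs_re_le P x (γ 0) m hm
    rw [hγ.source, hYp, e] at hb
    have hle : Real.arccos (Real.sin τ * (conj m * v).re) ≤ Real.pi / 2 + 2 * δ := by linarith
    have hc : Real.cos (Real.pi / 2 + 2 * δ) ≤
        Real.cos (Real.arccos (Real.sin τ * (conj m * v).re)) :=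
      Real.cos_le_cos_of_nonneg_of_le_pi (Real.arccos_nonneg _) (by linarith) hle
    rw [Real.cos_arccos hb.1 hb.2, show Real.pi / 2 + 2 * δ = 2 * δ + Real.pi / 2 by ring,
      Real.cos_add_pi_div_two] at hc
    exact hc
  · intro t ht
    have hb := abs_re_le P x (γ t) m hm
    rw [← sin_arccos_Z]
    have hr0 := Real.arccos_nonneg (P.Z x (γ t))
    have hr1 := Real.arccos_le_pi (P.Z x (γ t))
    rcases le_total t tm with htt | htt
    · -- before the equator
      have ha := (abs_le.1 (lipZ 0 t le_rfl ht.1 ht.2)).2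
      rw [r0] at ha
      have hM := (abs_le.1 (lipM t tm ht.1 htt htm.2)).1
      rw [hmm, Real.arccos_one] at hM
      have hs := (h2 P γ p q hγ 0 t tm le_rfl ht.1 htt htm.2).2
      exact est1 hb.1 hb.2 hr0 (by linarith) hsmall (by linarith)
    · -- after the equator
      have ha := (abs_le.1 (lipZ t 1 ht.1 ht.2 le_rfl)).2
      rw [r1] at ha
      have hM := (abs_le.1 (lipM tm t htm.1 htt ht.2)).2
      rw [hmm, Real.arccos_one] at hM
      have hs := (h2 P γ p q hγ tm t 1 htm.1 htt ht.2 le_rfl).2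
      exact est2 hb.1 hb.2 hr1 (by linarith) hsmall (by linarith)

end Pool.Agent.Liou
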